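import Mathlib

open scoped BigOperators

namespace Pool.Agent.Helper698.Dstab

variable {r : ℕ}

/-- pairing of a rational weight vector with an exponent -/
def dotN (c : Fin r → ℚ) (α : Fin r →₀ ℕ) : ℚ := ∑ i, c i * (α i : ℚ)

/-- pairing of a rational weight vector with a real vector -/
noncomputable def dotR (c : Fin r → ℚ) (x : Fin r → ℝ) : ℝ := ∑ i, (c i : ℝ) * x i

/-- The blocking polyhedron. -/
def BB (G : Finset (Fin r →₀ ℕ)) : Set (Fin r → ℚ) :=
  {c | (∀ i, 0 ≤ c i) ∧ ∀ g ∈ G, 1 ≤ dotN c g}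

/-- Its vertices. -/
def VV (G : Finset (Fin r →₀ ℕ)) : Set (Fin r → ℚ) :=
  {c | c ∈ BB G ∧ ∀ v : Fin r → ℚ, (∀ i, c i = 0 → v i = 0) →
    (∀ g ∈ G, dotN c g = 1 → dotN v g = 0) → v = 0}

lemma dotN_add (c d : Fin r → ℚ) (α : Fin r →₀ ℕ) : dotN (c + d) α = dotN c α + dotN d α := by
  simp [dotN, add_mul, Finset.sum_add_distrib]

lemma dotN_smul (t : ℚ) (d : Fin r → ℚ) (α : Fin r →₀ ℕ) : dotN (t • d) α = t * dotN d α := by
  simp [dotN, Finset.mul_sum, mul_assoc]

lemma dotN_neg (d : Fin r → ℚ) (α : Fin r →₀ ℕ) : dotN (-d) α = - dotN d α := by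
  simp [dotN]

lemma dotN_sub (c d : Fin r → ℚ) (α : Fin r →₀ ℕ) : dotN (c - d) α = dotN c α - dotN d α := by
  rw [sub_eq_add_neg, dotN_add, dotN_neg, sub_eq_add_neg]

lemma dotR_add (c d : Fin r → ℚ) (x : Fin r → ℝ) : dotR (c + d) x = dotR c x + dotR d x := by
  simp [dotR, add_mul, Finset.sum_add_distrib]

lemma dotR_smul (t : ℚ) (d : Fin r → ℚ) (x : Fin r → ℝ) : dotR (t • d) x = t * dotR d x := by
  simp [dotR, Finset.mul_sum, mul_assoc]

lemma dotR_neg (d : Fin r → ℚ) (x : Fin r → ℝ) : dotR (-d) x = - dotR d x := by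
  simp [dotR]

lemma dotR_sub (c d : Fin r → ℚ) (x : Fin r → ℝ) : dotR (c - d) x = dotR c x - dotR d x := by
  rw [sub_eq_add_neg, dotR_add, dotR_neg, sub_eq_add_neg]

lemma dotR_add_right (c : Fin r → ℚ) (x y : Fin r → ℝ) :
    dotR c (x + y) = dotR c x + dotR c y := by
  simp [dotR, mul_add, Finset.sum_add_distrib]

lemma dotR_smul_right (c : Fin r → ℚ) (s : ℝ) (x : Fin r → ℝ) :
    dotR c (s • x) = s * dotR c x := by
  simp only [dotR, Pi.smul_apply, smul_eq_mul, Finset.mul_sum]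
  exact Finset.sum_congr rfl fun i _ => by ring

/-- the vertices are determined by the support and the tight set -/
lemma VV_finite (G : Finset (Fin r →₀ ℕ)) : (VV G).Finite := by
  classical
  let F : (Fin r → ℚ) → Finset (Fin r) × Finset (Fin r →₀ ℕ) := fun c =>
    (Finset.univ.filter (fun i => c i = 0), G.filter (fun g => dotN c g = 1))
  apply Set.Finite.of_finite_image (f := F)
  · apply Set.Finite.subset (Finset.finite_toSet
      ((Finset.univ : Finset (Finset (Fin r))) ×ˢ G.powerset))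
    rintro _ ⟨c, -, rfl⟩
    simp only [Finset.coe_product, Set.mem_prod, Finset.mem_coe, Finset.mem_univ,
      Finset.mem_powerset, true_and, F]
    exact Finset.filter_subset _ _
  · intro c hc c' hc' heq
    have h1 : ∀ i, c i = 0 ↔ c' i = 0 := by
      intro i
      have := congrArg (fun q => i ∈ q.1) heq
      simpa [F] using this
    have h2 : ∀ g ∈ G, (dotN c g = 1 ↔ dotN c' g = 1) := by
      intro g hg
      have := congrArg (fun q => g ∈ q.2) heq
      simpa [F, hg] using this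
    have := hc.2 (c - c') (fun i hi => by simp [hi, (h1 i).1 hi])
      (fun g hg h => by rw [dotN_sub, h, (h2 g hg).1 h, sub_self])
    exact sub_eq_zero.1 this

/-- the measure used in the descent -/
noncomputable def mu (G : Finset (Fin r →₀ ℕ)) (c : Fin r → ℚ) : ℕ := by
  classical exact
  (Finset.univ.filter (fun i => c i ≠ 0)).card + (G.filter (fun g => dotN c g ≠ 1)).card

lemma step (G : Finset (Fin r →₀ ℕ)) (c v : Fin r → ℚ) (hc : c ∈ BB G)
    (hs : ∀ i, c i = 0 → v i = 0) (ht : ∀ g ∈ G, dotN c g = 1 → dotN v g = 0)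
    (hneg : ∃ i, v i < 0) : ∃ τ : ℚ, 0 < τ ∧ c + τ • v ∈ BB G ∧ mu G (c + τ • v) < mu G c := by
  classical
  -- candidate step sizes
  let A : Finset ℚ := (Finset.univ.filter (fun i => v i < 0)).image (fun i => c i / (- v i)) ∪
    (G.filter (fun g => dotN v g < 0)).image (fun g => (dotN c g - 1) / (- dotN v g))
  have hA : A.Nonempty := by
    obtain ⟨i, hi⟩ := hneg
    exact ⟨c i / (- v i), Finset.mem_union_left _ (Finset.mem_image.2 ⟨i, by simp [hi], rfl⟩)⟩
  have hpos : ∀ a ∈ A, 0 < a := by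
    intro a ha
    rcases Finset.mem_union.1 ha with ha | ha
    · obtain ⟨i, hi, rfl⟩ := Finset.mem_image.1 ha
      have hi' : v i < 0 := by simpa using hi
      have : c i ≠ 0 := fun h => by rw [hs i h] at hi'; exact lt_irrefl _ hi'
      have : 0 < c i := lt_of_le_of_ne (hc.1 i) (Ne.symm this)
      exact div_pos this (by linarith)
    · obtain ⟨g, hg, rfl⟩ := Finset.mem_image.1 ha
      obtain ⟨hgG, hg'⟩ := Finset.mem_filter.1 hg
      have : dotN c g ≠ 1 := fun h => by rw [ht g hgG h] at hg'; exact lt_irrefl _ hg'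
      have : 1 < dotN c g := lt_of_le_of_ne (hc.2 g hgG) (Ne.symm this)
      exact div_pos (by linarith) (by linarith)
  set τ := A.min' hA with hτ
  have hτA : τ ∈ A := Finset.min'_mem _ _
  have hτ0 : 0 < τ := hpos _ hτA
  have hle : ∀ a ∈ A, τ ≤ a := fun a ha => Finset.min'_le _ _ ha
  have hB : c + τ • v ∈ BB G := by
    refine ⟨fun i => ?_, fun g hg => ?_⟩
    · simp only [Pi.add_apply, Pi.smul_apply, smul_eq_mul]
      by_cases hi : v i < 0
      · have h1 := hle _ (Finset.mem_union_left _ (Finset.mem_image.2 ⟨i, by simp [hi], rfl⟩))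
        rw [le_div_iff₀ (by linarith)] at h1
        linarith
      · have := mul_nonneg hτ0.le (not_lt.1 hi)
        have := hc.1 i
        linarith
    · rw [dotN_add, dotN_smul]
      by_cases hi : dotN v g < 0
      · have h1 := hle _ (Finset.mem_union_right _ (Finset.mem_image.2 ⟨g, by simp [hi, hg], rfl⟩))
        rw [le_div_iff₀ (by linarith)] at h1
        linarith
      · have := mul_nonneg hτ0.le (not_lt.1 hi)
        have := hc.2 g hg
        linarith
  refine ⟨τ, hτ0, hB, ?_⟩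
  have hsub1 : (Finset.univ.filter (fun i => (c + τ • v) i ≠ 0)) ⊆
      (Finset.univ.filter (fun i => c i ≠ 0)) := by
    intro i hi
    simp only [Finset.mem_filter, Finset.mem_univ, true_and] at hi ⊢
    intro h
    apply hi
    simp [h, hs i h]
  have hsub2 : (G.filter (fun g => dotN (c + τ • v) g ≠ 1)) ⊆
      (G.filter (fun g => dotN c g ≠ 1)) := by
    intro g hg
    simp only [Finset.mem_filter] at hg ⊢
    refine ⟨hg.1, fun h => hg.2 ?_⟩
    rw [dotN_add, dotN_smul, ht g hg.1 h, h]; simp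
  unfold mu
  rcases Finset.mem_union.1 hτA with ha | ha
  · obtain ⟨i, hi, hie⟩ := Finset.mem_image.1 ha
    have hi' : v i < 0 := by simpa using hi
    have hci : c i ≠ 0 := fun h => by rw [hs i h] at hi'; exact lt_irrefl _ hi'
    have hz : (c + τ • v) i = 0 := by
      simp only [Pi.add_apply, Pi.smul_apply, smul_eq_mul]
      rw [← hie]
      have : v i ≠ 0 := hi'.ne
      field_simp
      ring
    have : (Finset.univ.filter (fun i => (c + τ • v) i ≠ 0)) ⊂
        (Finset.univ.filter (fun i => c i ≠ 0)) := by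
      refine Finset.ssubset_iff_subset_ne.2 ⟨hsub1, fun h => ?_⟩
      have : i ∈ (Finset.univ.filter (fun i => (c + τ • v) i ≠ 0)) := by
        rw [h]; simp [hci]
      simp only [Finset.mem_filter, Finset.mem_univ, true_and] at this
      exact this hz
    have h1 := Finset.card_lt_card this
    have h2 := Finset.card_le_card hsub2
    omega
  · obtain ⟨g, hg, hge⟩ := Finset.mem_image.1 ha
    obtain ⟨hgG, hg'⟩ := Finset.mem_filter.1 hg
    have hcg : dotN c g ≠ 1 := fun h => by rw [ht g hgG h] at hg'; exact lt_irrefl _ hg'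
    have hz : dotN (c + τ • v) g = 1 := by
      rw [dotN_add, dotN_smul, ← hge]
      have : dotN v g ≠ 0 := hg'.ne
      field_simp
      ring
    have : (G.filter (fun g => dotN (c + τ • v) g ≠ 1)) ⊂
        (G.filter (fun g => dotN c g ≠ 1)) := by
      refine Finset.ssubset_iff_subset_ne.2 ⟨hsub2, fun h => ?_⟩
      have : g ∈ (G.filter (fun g => dotN (c + τ • v) g ≠ 1)) := by
        rw [h]; simp [hcg, hgG]
      exact (Finset.mem_filter.1 this).2 hz
    have h1 := Finset.card_lt_card this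
    have h2 := Finset.card_le_card hsub1
    omega

/-- Every linear functional with nonnegative coefficients is minimised over `BB G` at a vertex. -/
lemma exists_vertex_le (G : Finset (Fin r →₀ ℕ)) (x : Fin r → ℝ) (hx : ∀ i, 0 ≤ x i) :
    ∀ (m : ℕ) (c : Fin r → ℚ), mu G c ≤ m → c ∈ BB G → ∃ c' ∈ VV G, dotR c' x ≤ dotR c x := by
  intro m
  induction m with
  | zero =>
    intro c hm hc
    by_cases hV : c ∈ VV G
    · exact ⟨c, hV, le_rfl⟩
    · exfalso
      have hV' : ¬ ∀ v : Fin r → ℚ, (∀ i, c i = 0 → v i = 0) →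
        (∀ g ∈ G, dotN c g = 1 → dotN v g = 0) → v = 0 := fun h => hV ⟨hc, h⟩
      push Not at hV'
      obtain ⟨v, hv1, hv2, hv3⟩ := hV'
      obtain ⟨i, hi⟩ := Function.ne_iff.1 hv3
      rcases lt_or_gt_of_ne hi with h | h
      · obtain ⟨τ, _, _, hlt⟩ := step G c v hc hv1 hv2 ⟨i, h⟩
        omega
      · obtain ⟨τ, _, _, hlt⟩ := step G c (-v) hc (fun i hi => by simp [hv1 i hi])
          (fun g hg h => by rw [dotN_neg, hv2 g hg h, neg_zero]) ⟨i, by simpa using h⟩
        omega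
  | succ m ih =>
    intro c hm hc
    by_cases hV : c ∈ VV G
    · exact ⟨c, hV, le_rfl⟩
    have hV' : ¬ ∀ v : Fin r → ℚ, (∀ i, c i = 0 → v i = 0) →
      (∀ g ∈ G, dotN c g = 1 → dotN v g = 0) → v = 0 := fun h => hV ⟨hc, h⟩
    push Not at hV'
    obtain ⟨v, hv1, hv2, hv3⟩ := hV'
    have key : ∃ u : Fin r → ℚ, (∀ i, c i = 0 → u i = 0) ∧
        (∀ g ∈ G, dotN c g = 1 → dotN u g = 0) ∧ (∃ i, u i < 0) ∧ dotR u x ≤ 0 := by
      have hv1' : ∀ i, c i = 0 → (-v) i = 0 := fun i hi => by simp [hv1 i hi]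
      have hv2' : ∀ g ∈ G, dotN c g = 1 → dotN (-v) g = 0 :=
        fun g hg h => by rw [dotN_neg, hv2 g hg h, neg_zero]
      by_cases hneg : ∃ i, v i < 0
      · by_cases hle : dotR v x ≤ 0
        · exact ⟨v, hv1, hv2, hneg, hle⟩
        · have hpos : ∃ i, 0 < v i := by
            by_contra hcon
            push Not at hcon
            apply hle
            apply Finset.sum_nonpos
            intro i _
            exact mul_nonpos_of_nonpos_of_nonneg (by exact_mod_cast hcon i) (hx i)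
          obtain ⟨i, hi⟩ := hpos
          refine ⟨-v, hv1', hv2', ⟨i, by simpa using hi⟩, ?_⟩
          rw [dotR_neg]
          linarith
      · push Not at hneg
        obtain ⟨i, hi⟩ := Function.ne_iff.1 hv3
        refine ⟨-v, hv1', hv2', ⟨i, ?_⟩, ?_⟩
        · have := lt_of_le_of_ne (hneg i) (Ne.symm hi)
          simpa using this
        · rw [dotR_neg]
          have : 0 ≤ dotR v x := by
            apply Finset.sum_nonneg
            intro i _
            exact mul_nonneg (by exact_mod_cast hneg i) (hx i)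
          linarith
    obtain ⟨u, hu1, hu2, hu3, hu4⟩ := key
    obtain ⟨τ, hτ, hB, hlt⟩ := step G c u hc hu1 hu2 hu3
    obtain ⟨c', hc', hle⟩ := ih (c + τ • u) (by omega) hB
    refine ⟨c', hc', hle.trans ?_⟩
    rw [dotR_add, dotR_smul]
    have : (τ : ℝ) * dotR u x ≤ 0 :=
      mul_nonpos_of_nonneg_of_nonpos (by exact_mod_cast hτ.le) hu4
    linarith

lemma le_dotR_of_VV (G : Finset (Fin r →₀ ℕ)) (x : Fin r → ℝ) (hx : ∀ i, 0 ≤ x i) (n : ℝ)
    (h : ∀ c ∈ VV G, n ≤ dotR c x) : ∀ c ∈ BB G, n ≤ dotR c x := by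
  intro c hc
  obtain ⟨c', hc', hle⟩ := exists_vertex_le G x hx _ c le_rfl hc
  exact (h c' hc').trans hle

/-- small perturbations stay in `BB` -/
lemma exists_small (G : Finset (Fin r →₀ ℕ)) (c v : Fin r → ℚ) (hc : c ∈ BB G)
    (hs : ∀ i, c i = 0 → 0 ≤ v i) (ht : ∀ g ∈ G, dotN c g = 1 → 0 ≤ dotN v g) :
    ∃ ε : ℚ, 0 < ε ∧ ∀ δ : ℚ, 0 < δ → δ ≤ ε →
      (∀ i, c i ≠ 0 → 0 < c i + δ * v i) ∧ (∀ g ∈ G, dotN c g ≠ 1 → 1 < dotN (c + δ • v) g) ∧
      c + δ • v ∈ BB G := by
  classical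
  -- collect the slacks
  have h1 : ∀ i, ∃ ε : ℚ, 0 < ε ∧ ∀ δ, 0 < δ → δ ≤ ε → c i ≠ 0 → 0 < c i + δ * v i := by
    intro i
    by_cases h : c i = 0
    · exact ⟨1, one_pos, fun _ _ _ h' => absurd h h'⟩
    · have hci : 0 < c i := lt_of_le_of_ne (hc.1 i) (Ne.symm h)
      refine ⟨c i / (|v i| + 1), by positivity, fun δ hδ hδ' _ => ?_⟩
      rw [le_div_iff₀ (by positivity)] at hδ'
      have := neg_abs_le (v i)
      nlinarith
  have h2 : ∀ g ∈ G, ∃ ε : ℚ, 0 < ε ∧ ∀ δ, 0 < δ → δ ≤ ε → dotN c g ≠ 1 →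
      1 < dotN c g + δ * dotN v g := by
    intro g hg
    by_cases h : dotN c g = 1
    · exact ⟨1, one_pos, fun _ _ _ h' => absurd h h'⟩
    · have hci : 1 < dotN c g := lt_of_le_of_ne (hc.2 g hg) (Ne.symm h)
      refine ⟨(dotN c g - 1) / (|dotN v g| + 1), div_pos (by linarith) (by positivity),
        fun δ hδ hδ' _ => ?_⟩
      rw [le_div_iff₀ (by positivity)] at hδ'
      have := neg_abs_le (dotN v g)
      nlinarith
  choose e1 he1 he1' using h1
  choose! e2 he2 he2' using h2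
  obtain ⟨ε1, hε1, hε1'⟩ : ∃ ε : ℚ, 0 < ε ∧ ∀ i, ε ≤ e1 i := by
    rcases isEmpty_or_nonempty (Fin r) with he | he
    · exact ⟨1, one_pos, fun i => (he.false i).elim⟩
    · refine ⟨Finset.univ.inf' Finset.univ_nonempty e1, ?_, fun i => ?_⟩
      · rw [Finset.lt_inf'_iff]; exact fun i _ => he1 i
      · exact Finset.inf'_le _ (Finset.mem_univ i)
  obtain ⟨ε2, hε2, hε2'⟩ : ∃ ε : ℚ, 0 < ε ∧ ∀ g ∈ G, ε ≤ e2 g := by
    rcases G.eq_empty_or_nonempty with he | he
    · exact ⟨1, one_pos, fun g hg => by simp [he] at hg⟩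
    · refine ⟨G.inf' he e2, ?_, fun g hg => Finset.inf'_le _ hg⟩
      rw [Finset.lt_inf'_iff]; exact fun g hg => he2 g hg
  refine ⟨min ε1 ε2, lt_min hε1 hε2, fun δ hδ hδ' => ⟨?_, ?_, ?_, ?_⟩⟩
  · intro i hi
    exact he1' i δ hδ ((hδ'.trans (min_le_left _ _)).trans (hε1' i)) hi
  · intro g hg h
    rw [dotN_add, dotN_smul]
    exact he2' g hg δ hδ ((hδ'.trans (min_le_right _ _)).trans (hε2' g hg)) h
  · intro i
    simp only [Pi.add_apply, Pi.smul_apply, smul_eq_mul]
    by_cases h : c i = 0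
    · rw [h, zero_add]; exact mul_nonneg hδ.le (hs i h)
    · exact (he1' i δ hδ ((hδ'.trans (min_le_left _ _)).trans (hε1' i)) h).le
  · intro g hg
    rw [dotN_add, dotN_smul]
    by_cases h : dotN c g = 1
    · rw [h]; have := mul_nonneg hδ.le (ht g hg h); linarith
    · exact (he2' g hg δ hδ ((hδ'.trans (min_le_right _ _)).trans (hε2' g hg)) h).le

/-- The face of `BB G` minimising a positive functional is spanned by vertices. -/
lemma mem_span_of_min (G : Finset (Fin r →₀ ℕ)) (p : Fin r → ℝ) (hp : ∀ i, 0 < p i) (n : ℝ)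
    (hn : ∀ c ∈ BB G, n ≤ dotR c p) :
    ∀ (m : ℕ) (c : Fin r → ℚ), mu G c ≤ m → c ∈ BB G → dotR c p = n →
      c ∈ Submodule.span ℚ {c | c ∈ VV G ∧ dotR c p = n} := by
  intro m
  induction m with
  | zero =>
    intro c hm hc hcn
    by_cases hV : c ∈ VV G
    · exact Submodule.subset_span ⟨hV, hcn⟩
    · exfalso
      have hV' : ¬ ∀ v : Fin r → ℚ, (∀ i, c i = 0 → v i = 0) →
        (∀ g ∈ G, dotN c g = 1 → dotN v g = 0) → v = 0 := fun h => hV ⟨hc, h⟩
      push Not at hV'
      obtain ⟨v, hv1, hv2, hv3⟩ := hV'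
      obtain ⟨i, hi⟩ := Function.ne_iff.1 hv3
      rcases lt_or_gt_of_ne hi with h | h
      · obtain ⟨τ, _, _, hlt⟩ := step G c v hc hv1 hv2 ⟨i, h⟩
        omega
      · obtain ⟨τ, _, _, hlt⟩ := step G c (-v) hc (fun i hi => by simp [hv1 i hi])
          (fun g hg h => by rw [dotN_neg, hv2 g hg h, neg_zero]) ⟨i, by simpa using h⟩
        omega
  | succ m ih =>
    intro c hm hc hcn
    by_cases hV : c ∈ VV G
    · exact Submodule.subset_span ⟨hV, hcn⟩
    have hV' : ¬ ∀ v : Fin r → ℚ, (∀ i, c i = 0 → v i = 0) →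
      (∀ g ∈ G, dotN c g = 1 → dotN v g = 0) → v = 0 := fun h => hV ⟨hc, h⟩
    push Not at hV'
    obtain ⟨v, hv1, hv2, hv3⟩ := hV'
    have hv1' : ∀ i, c i = 0 → (-v) i = 0 := fun i hi => by simp [hv1 i hi]
    have hv2' : ∀ g ∈ G, dotN c g = 1 → dotN (-v) g = 0 :=
      fun g hg h => by rw [dotN_neg, hv2 g hg h, neg_zero]
    have hle : ∀ u : Fin r → ℚ, (∀ i, c i = 0 → u i = 0) →
        (∀ g ∈ G, dotN c g = 1 → dotN u g = 0) → 0 ≤ dotR u p := by
      intro u hu1 hu2
      obtain ⟨ε, hε, h⟩ := exists_small G c u hc (fun i hi => (hu1 i hi).ge)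
        (fun g hg h => (hu2 g hg h).ge)
      have h3 := hn _ (h ε hε le_rfl).2.2
      rw [dotR_add, dotR_smul, hcn] at h3
      have h4 : 0 ≤ (ε : ℝ) * dotR u p := by linarith
      exact nonneg_of_mul_nonneg_right h4 (by exact_mod_cast hε)
    have hv0 : dotR v p = 0 := by
      apply le_antisymm _ (hle v hv1 hv2)
      have := hle (-v) hv1' hv2'
      rw [dotR_neg] at this
      linarith
    have hneg : ∀ u : Fin r → ℚ, u ≠ 0 → dotR u p = 0 → ∃ i, u i < 0 := by
      intro u hu hup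
      by_contra hcon
      push Not at hcon
      apply hu
      have h0 : ∀ i ∈ Finset.univ, (u i : ℝ) * p i = 0 := by
        rw [← Finset.sum_eq_zero_iff_of_nonneg]
        · exact hup
        · intro i _
          exact mul_nonneg (by exact_mod_cast hcon i) (hp i).le
      ext i
      have := h0 i (Finset.mem_univ i)
      rcases mul_eq_zero.1 this with h | h
      · simpa using h
      · exact absurd h (hp i).ne'
    obtain ⟨τ1, hτ1, hB1, hlt1⟩ := step G c v hc hv1 hv2 (hneg v hv3 hv0)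
    obtain ⟨τ2, hτ2, hB2, hlt2⟩ := step G c (-v) hc hv1' hv2'
      (hneg (-v) (neg_ne_zero.2 hv3) (by rw [dotR_neg, hv0, neg_zero]))
    have hm1 := ih (c + τ1 • v) (by omega) hB1 (by rw [dotR_add, dotR_smul, hv0, hcn]; simp)
    have hm2 := ih (c + τ2 • (-v)) (by omega) hB2
      (by rw [dotR_add, dotR_smul, dotR_neg, hv0, hcn]; simp)
    have hcomb : c = (τ2 / (τ1 + τ2)) • (c + τ1 • v) + (τ1 / (τ1 + τ2)) • (c + τ2 • (-v)) := by
      ext i
      simp only [Pi.add_apply, Pi.smul_apply, smul_eq_mul, Pi.neg_apply]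
      have : τ1 + τ2 ≠ 0 := by positivity
      field_simp
      ring
    rw [hcomb]
    exact add_mem (Submodule.smul_mem _ _ hm1) (Submodule.smul_mem _ _ hm2)

/-- the exponent as a rational vector -/
def toQ (g : Fin r →₀ ℕ) : Fin r → ℚ := fun i => (g i : ℚ)

lemma dotN_eq (c : Fin r → ℚ) (g : Fin r →₀ ℕ) : dotN c g = ∑ i, c i * toQ g i := rfl

/-- the auxiliary functional with maximal tight set -/
lemma exists_u (GT : Finset (Fin r →₀ ℕ)) (U : Finset (Fin r)) :
    ∃ u : Fin r → ℚ, (∀ i, i ∉ U → u i = 1) ∧ (∀ g ∈ GT, 0 ≤ dotN u g) ∧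
      ∀ v : Fin r → ℚ, (∀ i, i ∉ U → v i = 0) → (∀ g ∈ GT, dotN u g = 0 → dotN v g = 0) →
        ∀ g ∈ GT, dotN v g = 0 := by
  classical
  let P : (Fin r → ℚ) → Prop := fun u => (∀ i, i ∉ U → u i = 1) ∧ (∀ g ∈ GT, 0 ≤ dotN u g)
  let ν : (Fin r → ℚ) → ℕ := fun u => (GT.filter (fun g => dotN u g ≠ 0)).card
  have hne : ∃ k, ∃ u, P u ∧ ν u = k := by
    refine ⟨_, fun i => if i ∈ U then 0 else 1, ⟨fun i hi => by simp [hi], fun g _ => ?_⟩, rfl⟩
    apply Finset.sum_nonneg
    intro i _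
    apply mul_nonneg _ (by positivity)
    by_cases h : i ∈ U <;> simp [h]
  obtain ⟨u, hu, huk⟩ := Nat.find_spec hne
  have hmin : ∀ u', P u' → ν u ≤ ν u' := by
    intro u' hu'
    rw [huk]
    exact Nat.find_min' hne ⟨u', hu', rfl⟩
  refine ⟨u, hu.1, hu.2, ?_⟩
  -- the sign-normalised version
  have key : ∀ v : Fin r → ℚ, (∀ i, i ∉ U → v i = 0) →
      (∀ g ∈ GT, dotN u g = 0 → dotN v g = 0) → ∀ g ∈ GT, 0 ≤ dotN v g := by
    intro v hv1 hv2 g0 hg0
    by_contra hlt
    push Not at hlt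
    let A : Finset ℚ := (GT.filter (fun g => dotN v g < 0)).image
      (fun g => dotN u g / (- dotN v g))
    have hA : A.Nonempty := ⟨_, Finset.mem_image.2 ⟨g0, by simp [hg0, hlt], rfl⟩⟩
    set τ := A.min' hA with hτ
    have hτA : τ ∈ A := Finset.min'_mem _ _
    have hle : ∀ a ∈ A, τ ≤ a := fun a ha => Finset.min'_le _ _ ha
    have hτ0 : 0 ≤ τ := by
      obtain ⟨g, hg, hge⟩ := Finset.mem_image.1 hτA
      obtain ⟨hg1, hg2⟩ := Finset.mem_filter.1 hg
      rw [← hge]
      exact div_nonneg (hu.2 g hg1) (by linarith)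
    have hP : P (u + τ • v) := by
      refine ⟨fun i hi => by simp [hu.1 i hi, hv1 i hi], fun g hg => ?_⟩
      rw [dotN_add, dotN_smul]
      by_cases h : dotN v g < 0
      · have h1 := hle _ (Finset.mem_image.2 ⟨g, by simp [hg, h], rfl⟩)
        rw [le_div_iff₀ (by linarith)] at h1
        linarith
      · have := mul_nonneg hτ0 (not_lt.1 h)
        have := hu.2 g hg
        linarith
    have hlt' : ν (u + τ • v) < ν u := by
      apply Finset.card_lt_card
      obtain ⟨g, hg, hge⟩ := Finset.mem_image.1 hτA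
      obtain ⟨hg1, hg2⟩ := Finset.mem_filter.1 hg
      refine Finset.ssubset_iff_subset_ne.2 ⟨?_, fun h => ?_⟩
      · intro g' hg'
        simp only [Finset.mem_filter] at hg' ⊢
        refine ⟨hg'.1, fun h => hg'.2 ?_⟩
        rw [dotN_add, dotN_smul, h, hv2 g' hg'.1 h]; simp
      · have h1 : g ∈ GT.filter (fun g => dotN (u + τ • v) g ≠ 0) := by
          rw [h]
          simp only [Finset.mem_filter]
          exact ⟨hg1, fun h0 => by rw [hv2 g hg1 h0] at hg2; exact lt_irrefl _ hg2⟩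
        apply (Finset.mem_filter.1 h1).2
        rw [dotN_add, dotN_smul, ← hge]
        have : dotN v g ≠ 0 := hg2.ne
        field_simp
        ring
    exact absurd (hmin _ hP) (not_le.2 hlt')
  intro v hv1 hv2 g hg
  apply le_antisymm _ (key v hv1 hv2 g hg)
  have := key (-v) (fun i hi => by simp [hv1 i hi])
    (fun g hg h => by rw [dotN_neg, hv2 g hg h, neg_zero]) g hg
  rw [dotN_neg] at this
  linarith

/-- The key inequality between the union of supports of the tight vertices, their rank, and the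
ranks of the compact faces. -/
lemma star (G : Finset (Fin r →₀ ℕ)) (p : Fin r → ℝ) (hp : ∀ i, 0 < p i) (n : ℝ) (hn : 0 < n)
    (hV : ∀ c ∈ VV G, n ≤ dotR c p) (T : Set (Fin r → ℚ))
    (hT : T = {c | c ∈ VV G ∧ dotR c p = n}) (hne : T.Nonempty)
    (U : Finset (Fin r)) (hU : ∀ i, i ∈ U ↔ ∃ c ∈ T, c i ≠ 0) (l : ℕ)
    (hl : ∀ c' ∈ BB G, (∀ i, 0 < c' i) →
      Module.finrank ℚ (Submodule.span ℚ (toQ '' {g | g ∈ G ∧ dotN c' g = 1})) ≤ l) :
    U.card + 1 ≤ l + Module.finrank ℚ (Submodule.span ℚ T) := by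
  classical
  have hB := le_dotR_of_VV G p (fun i => (hp i).le) n hV
  have hTfin : T.Finite := by
    rw [hT]; exact (VV_finite G).subset (fun c hc => hc.1)
  set Tf := hTfin.toFinset with hTf
  have hTfm : ∀ c, c ∈ Tf ↔ c ∈ T := fun c => hTfin.mem_toFinset
  have hTV : ∀ c ∈ T, c ∈ VV G ∧ dotR c p = n := fun c hc => by rw [hT] at hc; exact hc
  have hk : 0 < Tf.card := by
    rw [Finset.card_pos]
    obtain ⟨c, hc⟩ := hne
    exact ⟨c, (hTfm c).2 hc⟩
  have hkQ : (0 : ℚ) < Tf.card := by exact_mod_cast hk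
  obtain ⟨c0, hc0⟩ : ∃ c0 : Fin r → ℚ, c0 = (1 / (Tf.card : ℚ)) • ∑ c ∈ Tf, c := ⟨_, rfl⟩
  have hc0i : ∀ i, c0 i = (1 / (Tf.card : ℚ)) * ∑ c ∈ Tf, c i := by
    intro i; simp [hc0, Finset.sum_apply]
  have hdot : ∀ g, dotN c0 g = (1 / (Tf.card : ℚ)) * ∑ c ∈ Tf, dotN c g := by
    intro g
    rw [hc0, dotN_smul]
    congr 1
    simp only [dotN, Finset.sum_apply, Finset.sum_mul]
    rw [Finset.sum_comm]
  have hdotR : dotR c0 p = n := by
    rw [hc0, dotR_smul]
    have : dotR (∑ c ∈ Tf, c) p = ∑ c ∈ Tf, dotR c p := by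
      simp only [dotR, Finset.sum_apply, Rat.cast_sum, Finset.sum_mul]
      rw [Finset.sum_comm]
    rw [this, Finset.sum_congr rfl (fun c hc => (hTV c ((hTfm c).1 hc)).2)]
    simp only [Finset.sum_const, nsmul_eq_mul]
    push_cast
    have : (Tf.card : ℝ) ≠ 0 := by exact_mod_cast hk.ne'
    field_simp
  have hc0B : c0 ∈ BB G := by
    refine ⟨fun i => ?_, fun g hg => ?_⟩
    · rw [hc0i]
      apply mul_nonneg (by positivity)
      exact Finset.sum_nonneg fun c hc => (hTV c ((hTfm c).1 hc)).1.1.1 i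
    · rw [hdot]
      have h1 : (Tf.card : ℚ) ≤ ∑ c ∈ Tf, dotN c g := by
        have := Finset.card_nsmul_le_sum Tf (fun c => dotN c g) 1
          (fun c hc => (hTV c ((hTfm c).1 hc)).1.1.2 g hg)
        simpa using this
      rw [one_div, ← div_eq_inv_mul, le_div_iff₀ hkQ]
      linarith
  have hc0supp : ∀ i, c0 i = 0 ↔ i ∉ U := by
    intro i
    rw [hc0i, mul_eq_zero]
    have hk' : (1 / (Tf.card : ℚ)) ≠ 0 := by positivity
    rw [or_iff_right hk', Finset.sum_eq_zero_iff_of_nonneg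
      (fun c hc => (hTV c ((hTfm c).1 hc)).1.1.1 i), hU]
    push Not
    exact ⟨fun h c hc => h c ((hTfm c).2 hc), fun h c hc => h c ((hTfm c).1 hc)⟩
  -- the space W
  let W : Submodule ℚ (Fin r → ℚ) :=
    { carrier := {v | (∀ i, i ∉ U → v i = 0) ∧ ∀ g ∈ G, dotN c0 g = 1 → dotN v g = 0}
      add_mem' := by
        rintro a b ⟨ha, ha'⟩ ⟨hb, hb'⟩
        refine ⟨fun i hi => by simp [ha i hi, hb i hi], fun g hg h => ?_⟩
        rw [dotN_add, ha' g hg h, hb' g hg h, add_zero]
      zero_mem' := ⟨fun _ _ => rfl, fun g _ _ => by simp [dotN]⟩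
      smul_mem' := by
        rintro t a ⟨ha, ha'⟩
        refine ⟨fun i hi => by simp [ha i hi], fun g hg h => ?_⟩
        rw [dotN_smul, ha' g hg h, mul_zero] }
  have hWp : ∀ v ∈ W, dotR v p = 0 := by
    have hle : ∀ u ∈ W, 0 ≤ dotR u p := by
      intro u hu
      obtain ⟨ε, hε, h⟩ := exists_small G c0 u hc0B (fun i hi => (hu.1 i ((hc0supp i).1 hi)).ge)
        (fun g hg h => (hu.2 g hg h).ge)
      have h3 := hB _ (h ε hε le_rfl).2.2
      rw [dotR_add, dotR_smul, hdotR] at h3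
      have h4 : 0 ≤ (ε : ℝ) * dotR u p := by linarith
      exact nonneg_of_mul_nonneg_right h4 (by exact_mod_cast hε)
    intro v hv
    apply le_antisymm _ (hle v hv)
    have := hle (-v) (W.neg_mem hv)
    rw [dotR_neg] at this
    linarith
  have hc0T : c0 ∈ Submodule.span ℚ T := by
    rw [hT]; exact mem_span_of_min G p hp n hB _ c0 le_rfl hc0B hdotR
  have hWT : W < Submodule.span ℚ T := by
    refine lt_of_le_of_ne ?_ ?_
    · intro v hv
      obtain ⟨ε, hε, h⟩ := exists_small G c0 v hc0B (fun i hi => (hv.1 i ((hc0supp i).1 hi)).ge)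
        (fun g hg h => (hv.2 g hg h).ge)
      have h1 : c0 + ε • v ∈ Submodule.span ℚ T := by
        rw [hT]
        refine mem_span_of_min G p hp n hB _ _ le_rfl (h ε hε le_rfl).2.2 ?_
        rw [dotR_add, dotR_smul, hdotR, hWp v hv]; simp
      have h2 : ε • v ∈ Submodule.span ℚ T := by
        have := sub_mem h1 hc0T
        simpa using this
      exact (Submodule.smul_mem_iff _ hε.ne').1 h2
    · intro heq
      obtain ⟨c, hc⟩ := hne
      have h1 : c ∈ W := by rw [heq]; exact Submodule.subset_span hc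
      have h2 := hWp c h1
      rw [(hTV c hc).2] at h2
      exact hn.ne' h2
  have hfW : Module.finrank ℚ W + 1 ≤ Module.finrank ℚ (Submodule.span ℚ T) :=
    Submodule.finrank_lt_finrank_of_lt hWT
  -- the positive functional
  obtain ⟨u, hu1, hu2, hu3⟩ := exists_u (G.filter (fun g => dotN c0 g = 1)) U
  obtain ⟨ε, hε, h⟩ := exists_small G c0 u hc0B
    (fun i hi => by rw [hu1 i ((hc0supp i).1 hi)]; exact zero_le_one)
    (fun g hg h => hu2 g (Finset.mem_filter.2 ⟨hg, h⟩))
  obtain ⟨hpos, htight, hcB⟩ := h ε hε le_rfl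
  have hcpos : ∀ i, 0 < (c0 + ε • u) i := by
    intro i
    simp only [Pi.add_apply, Pi.smul_apply, smul_eq_mul]
    by_cases hi : c0 i = 0
    · rw [hi, hu1 i ((hc0supp i).1 hi)]; simpa using hε
    · exact hpos i hi
  have hX := hl _ hcB hcpos
  set X := Submodule.span ℚ (toQ '' {g | g ∈ G ∧ dotN (c0 + ε • u) g = 1}) with hXdef
  -- rank computation
  let bil : (Fin r → ℚ) →ₗ[ℚ] Module.Dual ℚ (Fin r → ℚ) :=
    { toFun := fun v => ∑ i, v i • (LinearMap.proj i : (Fin r → ℚ) →ₗ[ℚ] ℚ)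
      map_add' := fun a b => by simp [add_smul, Finset.sum_add_distrib]
      map_smul' := fun t a => by simp [mul_smul, Finset.smul_sum] }
  have hbil : ∀ v x, bil v x = ∑ i, v i * x i := by
    intro v x
    simp [bil]
  let L : (U → ℚ) →ₗ[ℚ] Module.Dual ℚ X :=
    (X.subtype.dualMap).comp (bil.comp (Function.ExtendByZero.linearMap ℚ (Subtype.val : U → Fin r)))
  have hker : ∀ v ∈ LinearMap.ker L,
      Function.ExtendByZero.linearMap ℚ (Subtype.val : U → Fin r) v ∈ W := by
    intro v hv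
    set v' := Function.ExtendByZero.linearMap ℚ (Subtype.val : U → Fin r) v with hv'
    have hv'0 : ∀ i, i ∉ U → v' i = 0 := by
      intro i hi
      rw [hv']
      simp only [Function.ExtendByZero.linearMap_apply]
      rw [Function.extend_apply']
      · rfl
      · rintro ⟨a, rfl⟩; exact hi a.2
    refine ⟨hv'0, fun g hg h => ?_⟩
    refine hu3 v' hv'0 (fun g' hg' hg'' => ?_) g (Finset.mem_filter.2 ⟨hg, h⟩)
    obtain ⟨hg1, hg2⟩ := Finset.mem_filter.1 hg'
    have hmem : toQ g' ∈ X := by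
      apply Submodule.subset_span
      refine ⟨g', ⟨hg1, ?_⟩, rfl⟩
      rw [dotN_add, dotN_smul, hg2, hg'']; simp
    have h1 : L v ⟨toQ g', hmem⟩ = 0 := by rw [LinearMap.mem_ker.1 hv]; rfl
    have h2 : L v ⟨toQ g', hmem⟩ = ∑ i, v' i * toQ g' i := by
      rw [← hbil]; rfl
    rw [dotN_eq, ← h2, h1]
  have hrn := LinearMap.finrank_range_add_finrank_ker L
  have hr1 : Module.finrank ℚ (LinearMap.range L) ≤ l := by
    calc _ ≤ Module.finrank ℚ (Module.Dual ℚ X) := Submodule.finrank_le _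
      _ = Module.finrank ℚ X := Subspace.dual_finrank_eq
      _ ≤ l := hX
  have hr2 : Module.finrank ℚ (LinearMap.ker L) ≤ Module.finrank ℚ W := by
    let f : LinearMap.ker L →ₗ[ℚ] W := LinearMap.codRestrict W
      ((Function.ExtendByZero.linearMap ℚ (Subtype.val : U → Fin r)).comp (LinearMap.ker L).subtype)
      (fun v => hker v.1 v.2)
    apply LinearMap.finrank_le_finrank_of_injective (f := f)
    intro a b hab
    have h1 : Function.ExtendByZero.linearMap ℚ (Subtype.val : U → Fin r) a.1 =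
        Function.ExtendByZero.linearMap ℚ (Subtype.val : U → Fin r) b.1 :=
      congrArg Subtype.val hab
    apply Subtype.ext
    ext i
    have h2 := congrFun h1 i.1
    simp only [Function.ExtendByZero.linearMap_apply] at h2
    rwa [Subtype.val_injective.extend_apply, Subtype.val_injective.extend_apply] at h2
  rw [Module.finrank_fintype_fun_eq_card, Fintype.card_coe] at hrn
  omega

end Pool.Agent.Helper698.Dstab
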