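import Mathlib
import Pool.Agent.Helper698.DA

open scoped BigOperators Pointwise

namespace Pool.Agent.Helper698.Dstab

variable {r : ℕ}

/-- the exponent as a real vector -/
def toR (g : Fin r →₀ ℕ) : Fin r → ℝ := fun i => (g i : ℝ)

lemma dotR_toR (c : Fin r → ℚ) (g : Fin r →₀ ℕ) : dotR c (toR g) = (dotN c g : ℝ) := by
  simp [dotR, dotN, toR]

lemma add_single_mem (E : Set (Fin r →₀ ℕ)) (hE : ∀ a ∈ E, ∀ b, a ≤ b → b ∈ E) (i : Fin r)
    (t : ℝ) (ht : 0 ≤ t) (y : Fin r → ℝ) (hy : y ∈ convexHull ℝ (toR '' E)) :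
    y + t • Pi.single i (1 : ℝ) ∈ convexHull ℝ (toR '' E) := by
  obtain ⟨m, hm⟩ := exists_nat_gt t
  have hm0 : (0 : ℝ) < m := lt_of_le_of_lt ht hm
  -- first with the integer `m`
  have h1 : y + (m : ℝ) • Pi.single i (1 : ℝ) ∈ convexHull ℝ (toR '' E) := by
    have h2 : y + (m : ℝ) • Pi.single i (1 : ℝ) ∈
        convexHull ℝ (toR '' E) + convexHull ℝ {(m : ℝ) • (Pi.single i (1 : ℝ) : Fin r → ℝ)} := by
      rw [convexHull_singleton]
      exact Set.add_mem_add hy rfl
    rw [← convexHull_add] at h2
    refine convexHull_mono ?_ h2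
    rintro _ ⟨_, ⟨a, ha, rfl⟩, _, rfl, rfl⟩
    refine ⟨a + Finsupp.single i m, hE a ha _ (by simp), ?_⟩
    ext j
    simp only [toR, Finsupp.coe_add, Pi.add_apply, Nat.cast_add, Pi.smul_apply, smul_eq_mul]
    by_cases hij : j = i
    · subst hij; simp
    · simp [hij]
  have hconv := convex_convexHull ℝ (toR '' E)
  have := hconv hy h1 (a := 1 - t / m) (b := t / m) (by
    rw [sub_nonneg, div_le_one hm0]; exact hm.le) (by positivity) (by ring)
  convert this using 1
  ext j
  simp only [Pi.add_apply, Pi.smul_apply, smul_eq_mul]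
  field_simp
  ring

lemma add_nonneg_mem (E : Set (Fin r →₀ ℕ)) (hE : ∀ a ∈ E, ∀ b, a ≤ b → b ∈ E)
    (v : Fin r → ℝ) (hv : ∀ i, 0 ≤ v i) (y : Fin r → ℝ) (hy : y ∈ convexHull ℝ (toR '' E)) :
    y + v ∈ convexHull ℝ (toR '' E) := by
  have key : ∀ s : Finset (Fin r), y + ∑ i ∈ s, v i • Pi.single i (1 : ℝ) ∈
      convexHull ℝ (toR '' E) := by
    intro s
    induction s using Finset.induction_on with
    | empty => simpa using hy
    | insert i s hi ih =>
      rw [Finset.sum_insert hi, add_comm (v i • _), ← add_assoc]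
      exact add_single_mem E hE i (v i) (hv i) _ ih
  have h1 := key Finset.univ
  have h2 : (∑ i, v i • (Pi.single i (1 : ℝ) : Fin r → ℝ)) = v := by
    ext j
    simp [Finset.sum_apply, Pi.single_apply]
  rwa [h2] at h1

/-- Description of the scaled Newton polyhedron by the finitely many vertices. -/
lemma mem_newton_iff (G : Finset (Fin r →₀ ℕ)) (hG : G.Nonempty) (E : Set (Fin r →₀ ℕ))
    (hE : ∀ a, a ∈ E ↔ ∃ g ∈ G, g ≤ a) (n : ℕ) (hn : 1 ≤ n) (α : Fin r →₀ ℕ) :
    toR α ∈ (n : ℝ) • convexHull ℝ (toR '' E) ↔ ∀ c ∈ VV G, (n : ℝ) ≤ dotR c (toR α) := by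
  have hn0 : (0 : ℝ) < n := by exact_mod_cast hn
  have hEup : ∀ a ∈ E, ∀ b, a ≤ b → b ∈ E := by
    intro a ha b hab
    obtain ⟨g, hg, hga⟩ := (hE a).1 ha
    exact (hE b).2 ⟨g, hg, hga.trans hab⟩
  constructor
  · rintro ⟨y, hy, hyα⟩ c hc
    have hsub : convexHull ℝ (toR '' E) ⊆ {y | 1 ≤ dotR c y} := by
      apply convexHull_min
      · rintro _ ⟨a, ha, rfl⟩
        obtain ⟨g, hg, hga⟩ := (hE a).1 ha
        show 1 ≤ dotR c (toR a)
        have h1 : (1 : ℚ) ≤ dotN c a := by
          refine (hc.1.2 g hg).trans ?_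
          apply Finset.sum_le_sum
          intro i _
          exact mul_le_mul_of_nonneg_left (by exact_mod_cast hga i) (hc.1.1 i)
        rw [dotR_toR]
        exact_mod_cast h1
      · intro a ha b hb s t hs ht hst
        show 1 ≤ dotR c (s • a + t • b)
        rw [dotR_add_right, dotR_smul_right, dotR_smul_right]
        have h1 : 1 ≤ dotR c a := ha
        have h2 : 1 ≤ dotR c b := hb
        nlinarith
    have h1 : 1 ≤ dotR c y := hsub hy
    have h2 : toR α = (n : ℝ) • y := hyα.symm
    rw [h2, dotR_smul_right]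
    nlinarith
  · intro h
    have hα0 : ∀ i, 0 ≤ toR α i := fun i => by unfold toR; positivity
    have hB := le_dotR_of_VV G (toR α) hα0 n h
    by_contra hcon
    have hx : (n : ℝ)⁻¹ • toR α ∉ convexHull ℝ (toR '' E) := by
      intro hmem
      exact hcon ⟨_, hmem, by simp [smul_smul, hn0.ne']⟩
    -- the closed convex set
    let C : Set (Fin r → ℝ) := convexHull ℝ (toR '' (G : Set (Fin r →₀ ℕ))) + {v | ∀ i, 0 ≤ v i}
    have hCconv : Convex ℝ C := by
      apply (convex_convexHull ℝ _).add
      intro a ha b hb s t hs ht _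
      intro i
      have := ha i
      have := hb i
      simp only [Pi.add_apply, Pi.smul_apply, smul_eq_mul]
      positivity
    have hCclosed : IsClosed C := by
      apply IsClosed.add_left_of_isCompact
      · have : {v : Fin r → ℝ | ∀ i, 0 ≤ v i} = ⋂ i, {v | 0 ≤ v i} := by ext; simp
        rw [this]
        exact isClosed_iInter fun i => isClosed_le continuous_const (continuous_apply i)
      · exact (G.finite_toSet.image toR).isCompact_convexHull (𝕜 := ℝ)
    have hCE : C ⊆ convexHull ℝ (toR '' E) := by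
      rintro _ ⟨y, hy, v, hv, rfl⟩
      apply add_nonneg_mem E hEup v hv
      refine convexHull_mono ?_ hy
      rintro _ ⟨g, hg, rfl⟩
      exact ⟨g, (hE g).2 ⟨g, hg, le_rfl⟩, rfl⟩
    obtain ⟨f, u, hfx, hfC⟩ := geometric_hahn_banach_point_closed hCconv hCclosed
      (fun hmem => hx (hCE hmem))
    let a : Fin r → ℝ := fun i => f (Pi.single i 1)
    have hf : ∀ y : Fin r → ℝ, f y = ∑ i, a i * y i := by
      intro y
      have h2 : y = ∑ i, y i • (Pi.single i (1 : ℝ) : Fin r → ℝ) := by
        ext j
        simp [Finset.sum_apply, Pi.single_apply]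
      conv_lhs => rw [h2]
      rw [map_sum]
      apply Finset.sum_congr rfl
      intro i _
      rw [map_smul, smul_eq_mul, mul_comm]
    obtain ⟨g0, hg0⟩ := hG
    have hmemC : ∀ g ∈ G, ∀ v : Fin r → ℝ, (∀ i, 0 ≤ v i) → toR g + v ∈ C := by
      intro g hg v hv
      exact Set.add_mem_add (subset_convexHull ℝ _ ⟨g, hg, rfl⟩) hv
    have ha0 : ∀ i, 0 ≤ a i := by
      intro i
      by_contra hneg
      push Not at hneg
      -- choose a large multiple
      have hnn : 0 ≤ (f (toR g0) - u) := by
        have := hfC (toR g0 + 0) (hmemC g0 hg0 0 (fun _ => le_rfl))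
        rw [add_zero] at this
        linarith
      have := hfC (toR g0 + ((f (toR g0) - u) / (- a i)) • Pi.single i 1)
        (hmemC g0 hg0 _ (fun j => by
          simp only [Pi.smul_apply, smul_eq_mul, Pi.single_apply]
          split_ifs
          · rw [mul_one]; exact div_nonneg hnn (by linarith)
          · simp))
      rw [map_add, map_smul, smul_eq_mul] at this
      change u < f (toR g0) + (f (toR g0) - u) / (- a i) * a i at this
      have h3 : (f (toR g0) - u) / (- a i) * a i = -(f (toR g0) - u) := by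
        have : a i ≠ 0 := hneg.ne
        field_simp
      rw [h3] at this
      linarith
    have hu0 : 0 < u := by
      have : 0 ≤ f ((n : ℝ)⁻¹ • toR α) := by
        rw [hf]
        apply Finset.sum_nonneg
        intro i _
        exact mul_nonneg (ha0 i) (mul_nonneg (by positivity) (hα0 i))
      linarith
    -- normalise
    have hsum : ∑ i, (a i / u) * toR α i < n := by
      have h1 : f ((n : ℝ)⁻¹ • toR α) = (n : ℝ)⁻¹ * ∑ i, a i * toR α i := by
        rw [map_smul, smul_eq_mul, hf]
      rw [h1] at hfx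
      have h2 : ∑ i, (a i / u) * toR α i = (∑ i, a i * toR α i) / u := by
        rw [Finset.sum_div]
        exact Finset.sum_congr rfl fun i _ => by ring
      rw [h2, div_lt_iff₀ hu0]
      rw [inv_mul_lt_iff₀ hn0] at hfx
      linarith
    -- rational approximation from above
    set δ : ℝ := (n - ∑ i, (a i / u) * toR α i) / (∑ i, toR α i + 1) with hδ
    have hden : 0 < ∑ i, toR α i + 1 := by
      have : 0 ≤ ∑ i, toR α i := Finset.sum_nonneg fun i _ => hα0 i
      linarith
    have hδ0 : 0 < δ := div_pos (by linarith) hden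
    have hq : ∀ i, ∃ q : ℚ, a i / u < q ∧ (q : ℝ) < a i / u + δ := fun i =>
      exists_rat_btwn (by linarith)
    choose q hq1 hq2 using hq
    have hqB : q ∈ BB G := by
      refine ⟨fun i => ?_, fun g hg => ?_⟩
      · have h1 : (0 : ℝ) ≤ q i := (div_nonneg (ha0 i) hu0.le).trans (hq1 i).le
        exact_mod_cast h1
      · have h1 : (1 : ℝ) ≤ dotN q g := by
          rw [← dotR_toR]
          have h2 : u < f (toR g) := by
            have := hfC (toR g + 0) (hmemC g hg 0 (fun _ => le_rfl))
            rwa [add_zero] at this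
          calc (1 : ℝ) ≤ f (toR g) / u := by rw [le_div_iff₀ hu0]; linarith
            _ = ∑ i, (a i / u) * toR g i := by
              rw [hf, Finset.sum_div]
              exact Finset.sum_congr rfl fun i _ => by ring
            _ ≤ dotR q (toR g) := by
              apply Finset.sum_le_sum
              intro i _
              exact mul_le_mul_of_nonneg_right (hq1 i).le (by unfold toR; positivity)
        exact_mod_cast h1
    have h1 := hB q hqB
    have h2 : dotR q (toR α) < n := by
      calc dotR q (toR α) ≤ ∑ i, (a i / u + δ) * toR α i := by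
            apply Finset.sum_le_sum
            intro i _
            exact mul_le_mul_of_nonneg_right (hq2 i).le (hα0 i)
        _ = ∑ i, (a i / u) * toR α i + δ * ∑ i, toR α i := by
            rw [Finset.mul_sum, ← Finset.sum_add_distrib]
            exact Finset.sum_congr rfl fun i _ => by ring
        _ < n := by
            have h3 : δ * (∑ i, toR α i + 1) = n - ∑ i, (a i / u) * toR α i := by
              rw [hδ]; field_simp
            nlinarith
    linarith

end Pool.Agent.Helper698.Dstab
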