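import Mathlib

open CategoryTheory Abelian Limits

universe u

namespace Pool.Agent.Helper698.Dstab

variable {R : Type u} [CommRing R]

/-- Vanishing of `Ext^i(N, M)` for `i < t`. -/
def EV (N : ModuleCat.{u} R) (M : Type u) [AddCommGroup M] [Module R M] (t : ℕ) : Prop :=
  ∀ i < t, Subsingleton (Ext N (ModuleCat.of R M) i)

variable {N : ModuleCat.{u} R} {A B C : Type u} [AddCommGroup A] [Module R A]
  [AddCommGroup B] [Module R B] [AddCommGroup C] [Module R C]

lemma EV.mono {t t' : ℕ} (h : EV N A t) (htt : t' ≤ t) : EV N A t' :=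
  fun i hi => h i (lt_of_lt_of_le hi htt)

/-- the short exact sequence of linear maps -/
lemma shortExact_of (f : A →ₗ[R] B) (g : B →ₗ[R] C) (hf : Function.Injective f)
    (hg : Function.Surjective g) (h : Function.Exact f g) :
    (ModuleCat.shortComplexOfCompEqZero f g h.linearMap_comp_eq_zero).ShortExact where
  exact := ModuleCat.shortComplex_exact _ h
  mono_f := by
    simpa [ModuleCat.shortComplexOfCompEqZero, ModuleCat.mono_iff_injective] using hf
  epi_g := by
    simpa [ModuleCat.shortComplexOfCompEqZero, ModuleCat.epi_iff_surjective] using hg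

lemma EV_mid (f : A →ₗ[R] B) (g : B →ₗ[R] C) (hf : Function.Injective f)
    (hg : Function.Surjective g) (h : Function.Exact f g) {t : ℕ} (hA : EV N A t)
    (hC : EV N C t) : EV N B t := by
  intro i hi
  have hS := shortExact_of f g hf hg h
  have hAi := hA i hi
  have hCi := hC i hi
  refine ⟨fun x y => ?_⟩
  have key : ∀ x : Ext N (ModuleCat.of R B) i, x = 0 := by
    intro x
    have h0 : x.comp (Ext.mk₀ (ModuleCat.shortComplexOfCompEqZero f g
        h.linearMap_comp_eq_zero).g) (add_zero i) = 0 := @Subsingleton.elim _ hCi _ _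
    obtain ⟨x₁, hx₁⟩ := Ext.covariant_sequence_exact₂ N hS x h0
    have h1 : x₁ = 0 := @Subsingleton.elim _ hAi _ _
    rw [← hx₁, h1, Ext.zero_comp]
  rw [key x, key y]

lemma EV_left (f : A →ₗ[R] B) (g : B →ₗ[R] C) (hf : Function.Injective f)
    (hg : Function.Surjective g) (h : Function.Exact f g) {t : ℕ} (hB : EV N B t)
    (hC : EV N C (t - 1)) : EV N A t := by
  intro i hi
  have hS := shortExact_of f g hf hg h
  have hBi := hB i hi
  refine ⟨fun x y => ?_⟩
  have key : ∀ x : Ext N (ModuleCat.of R A) i, x = 0 := by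
    intro x
    have h0 : x.comp (Ext.mk₀ (ModuleCat.shortComplexOfCompEqZero f g
        h.linearMap_comp_eq_zero).f) (add_zero i) = 0 := @Subsingleton.elim _ hBi _ _
    rcases i with _ | j
    · have := hS.mono_f
      apply Ext.postcomp_mk₀_injective_of_mono N (ModuleCat.shortComplexOfCompEqZero f g
        h.linearMap_comp_eq_zero).f
      show x.comp (Ext.mk₀ _) (add_zero 0) = (0 : Ext N _ 0).comp (Ext.mk₀ _) (add_zero 0)
      rw [Ext.zero_comp]
      exact h0
    · obtain ⟨x₃, hx₃⟩ := Ext.covariant_sequence_exact₁ N hS x h0 rfl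
      have hCj := hC j (by omega)
      have h1 : x₃ = 0 := @Subsingleton.elim _ hCj _ _
      rw [← hx₃, h1, Ext.zero_comp]
  rw [key x, key y]

lemma EV_right (f : A →ₗ[R] B) (g : B →ₗ[R] C) (hf : Function.Injective f)
    (hg : Function.Surjective g) (h : Function.Exact f g) {t : ℕ} (hB : EV N B t)
    (hA : EV N A (t + 1)) : EV N C t := by
  intro i hi
  have hS := shortExact_of f g hf hg h
  have hBi := hB i hi
  have hAi := hA (i + 1) (by omega)
  refine ⟨fun x y => ?_⟩
  have key : ∀ x : Ext N (ModuleCat.of R C) i, x = 0 := by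
    intro x
    have h0 : x.comp hS.extClass rfl = 0 := @Subsingleton.elim _ hAi _ _
    obtain ⟨x₂, hx₂⟩ := Ext.covariant_sequence_exact₃ N hS x rfl h0
    have h1 : x₂ = 0 := @Subsingleton.elim _ hBi _ _
    rw [← hx₂, h1, Ext.zero_comp]
  rw [key x, key y]

/-- depth goes up by one along a regular element killing `N` -/
lemma EV_regular (y : R) (hy : y ∈ Module.annihilator R N) (g : A →ₗ[R] C)
    (hreg : Function.Injective (LinearMap.lsmul R A y)) (hg : Function.Surjective g)
    (h : Function.Exact (LinearMap.lsmul R A y) g) {t : ℕ} (hC : EV N C t) :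
    EV N A (t + 1) := by
  intro i hi
  have hS := shortExact_of (LinearMap.lsmul R A y) g hreg hg h
  refine ⟨fun x z => ?_⟩
  have key : ∀ x : Ext N (ModuleCat.of R A) i, x = 0 := by
    intro x
    have h0 : x.comp (Ext.mk₀ (ModuleCat.shortComplexOfCompEqZero (LinearMap.lsmul R A y) g
        h.linearMap_comp_eq_zero).f) (add_zero i) = 0 := by
      have h2 := Ext.postcomp_smul_id_eq_zero_of_mem_annihilator
        (M := ModuleCat.of R A) (N := N) hy i
      have h3 := congrArg (fun q => (AddCommGrpCat.Hom.hom q) x) h2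
      exact h3
    rcases i with _ | j
    · have := hS.mono_f
      apply Ext.postcomp_mk₀_injective_of_mono N (ModuleCat.shortComplexOfCompEqZero
        (LinearMap.lsmul R A y) g h.linearMap_comp_eq_zero).f
      show x.comp (Ext.mk₀ _) (add_zero 0) = (0 : Ext N _ 0).comp (Ext.mk₀ _) (add_zero 0)
      rw [Ext.zero_comp]
      exact h0
    · obtain ⟨x₃, hx₃⟩ := Ext.covariant_sequence_exact₁ N hS x h0 rfl
      have hCj := hC j (by omega)
      have h1 : x₃ = 0 := @Subsingleton.elim _ hCj _ _
      rw [← hx₃, h1, Ext.zero_comp]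
  rw [key x, key z]

lemma EV_of_subsingleton [Subsingleton A] (t : ℕ) : EV N A t := by
  -- use `A = 0` as the left end of a sequence
  intro i _
  refine ⟨fun x y => ?_⟩
  have hz : IsZero (ModuleCat.of R A) := ModuleCat.isZero_of_subsingleton _
  have key : ∀ x : Ext N (ModuleCat.of R A) i, x = 0 := by
    intro x
    have h1 : (𝟙 (ModuleCat.of R A)) = 0 := hz.eq_of_src _ _
    have h2 : x.comp (Ext.mk₀ (𝟙 (ModuleCat.of R A))) (add_zero i) = x := Ext.comp_mk₀_id x
    rw [← h2, h1, Ext.mk₀_zero, Ext.comp_zero]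
  rw [key x, key y]

lemma EV.equiv (e : A ≃ₗ[R] B) {t : ℕ} (h : EV N A t) : EV N B t := by
  have hs : EV N PUnit.{u+1} t := EV_of_subsingleton t
  exact EV_mid (C := PUnit.{u+1}) e.toLinearMap (0 : B →ₗ[R] PUnit.{u+1}) e.injective
    (fun x => ⟨0, Subsingleton.elim _ _⟩)
    (fun x => ⟨fun _ => ⟨e.symm x, by simp⟩, fun _ => rfl⟩) h hs

/-! Versions for submodules and quotients -/

lemma EV_of_sub (P : Submodule R A) {t : ℕ} (h1 : EV N P t) (h2 : EV N (A ⧸ P) t) : EV N A t :=
  EV_mid P.subtype P.mkQ P.injective_subtype P.mkQ_surjective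
    (LinearMap.exact_subtype_mkQ P) h1 h2

lemma EV_sub (P : Submodule R A) {t : ℕ} (h1 : EV N A t) (h2 : EV N (A ⧸ P) (t - 1)) :
    EV N P t :=
  EV_left P.subtype P.mkQ P.injective_subtype P.mkQ_surjective
    (LinearMap.exact_subtype_mkQ P) h1 h2

end Pool.Agent.Helper698.Dstab
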