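import Mathlib
import Pool.Agent.Helper698.DB

open CategoryTheory Abelian Limits MvPolynomial

universe u

namespace Pool.Agent.Helper698.Dstab

section general

variable {R : Type u} [CommRing R] {N : ModuleCat.{u} R}

lemma EV_quot (I J : Ideal R) (hIJ : I ≤ J) {t : ℕ}
    (h1 : EV N (Submodule.map (Submodule.mkQ I) J) t) (h2 : EV N (R ⧸ J) t) :
    EV N (R ⧸ I) t := by
  refine EV_of_sub (Submodule.map (Submodule.mkQ I) J) h1 ?_
  exact EV.equiv (Submodule.quotientQuotientEquivQuotient I J hIJ).symm h2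

lemma EV_map (I J : Ideal R) (hIJ : I ≤ J) {t : ℕ}
    (h1 : EV N (R ⧸ I) t) (h2 : EV N (R ⧸ J) (t - 1)) :
    EV N (Submodule.map (Submodule.mkQ I) J) t := by
  refine EV_sub (Submodule.map (Submodule.mkQ I) J) h1 ?_
  exact EV.equiv (Submodule.quotientQuotientEquivQuotient I J hIJ).symm h2

lemma EV_shift (I J I' J' : Ideal R) (a : R)
    (h1 : ∀ f ∈ J, a * f ∈ J') (h2 : ∀ f ∈ I, a * f ∈ I')
    (h3 : ∀ f ∈ J, a * f ∈ I' → f ∈ I) (h4 : ∀ g ∈ J', ∃ f ∈ J, g - a * f ∈ I') {t : ℕ} :
    EV N (Submodule.map (Submodule.mkQ I) J) t ↔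
    EV N (Submodule.map (Submodule.mkQ I') J') t := by
  let μ : R →ₗ[R] R := LinearMap.lsmul R R a
  let φ : (R ⧸ I) →ₗ[R] (R ⧸ I') := Submodule.mapQ I I' μ (fun f hf => h2 f hf)
  have hφ : ∀ f : R, φ (Submodule.Quotient.mk f) = Submodule.Quotient.mk (a * f) := fun f => rfl
  let ψ : Submodule.map (Submodule.mkQ I) J →ₗ[R] Submodule.map (Submodule.mkQ I') J' :=
    φ.restrict (by
      rintro _ ⟨f, hf, rfl⟩
      exact ⟨a * f, h1 f hf, rfl⟩)
  have hinj : Function.Injective ψ := by
    rw [← LinearMap.ker_eq_bot, LinearMap.ker_eq_bot']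
    rintro ⟨_, ⟨f, hf, rfl⟩⟩ h0
    have h5 : φ (Submodule.Quotient.mk f) = 0 := congrArg Subtype.val h0
    rw [hφ, Submodule.Quotient.mk_eq_zero] at h5
    apply Subtype.ext
    exact (Submodule.Quotient.mk_eq_zero I).2 (h3 f hf h5)
  have hsurj : Function.Surjective ψ := by
    rintro ⟨_, ⟨g, hg, rfl⟩⟩
    obtain ⟨f, hf, hfg⟩ := h4 g hg
    refine ⟨⟨Submodule.Quotient.mk f, ⟨f, hf, rfl⟩⟩, ?_⟩
    apply Subtype.ext
    show φ (Submodule.Quotient.mk f) = Submodule.Quotient.mk g
    rw [hφ, eq_comm, Submodule.Quotient.eq]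
    exact hfg
  exact ⟨EV.equiv (LinearEquiv.ofBijective ψ ⟨hinj, hsurj⟩),
    EV.equiv (LinearEquiv.ofBijective ψ ⟨hinj, hsurj⟩).symm⟩

end general

variable {r : ℕ} {K : Type u} [Field K]

/-- The monomial ideal generated by a set of exponents. -/
noncomputable def MI (K : Type u) [Field K] (S : Set (Fin r →₀ ℕ)) :
    Ideal (MvPolynomial (Fin r) K) :=
  Ideal.span ((fun α => monomial α (1 : K)) '' S)

lemma mem_MI {S : Set (Fin r →₀ ℕ)} (hS : IsUpperSet S) (f : MvPolynomial (Fin r) K) :
    f ∈ MI K S ↔ ∀ α ∈ f.support, α ∈ S := by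
  rw [MI, mem_ideal_span_monomial_image]
  constructor
  · intro h α hα
    obtain ⟨s, hs, hle⟩ := h α hα
    exact hS hle hs
  · intro h α hα
    exact ⟨α, h α hα, le_rfl⟩

lemma MI_mono {S T : Set (Fin r →₀ ℕ)} (h : S ⊆ T) : MI K S ≤ MI K T :=
  Ideal.span_mono (Set.image_mono h)

lemma monomial_mem_MI {S : Set (Fin r →₀ ℕ)} {α : Fin r →₀ ℕ} (h : α ∈ S) (c : K) :
    monomial α c ∈ MI K S := by
  have h1 : monomial α c = C c * monomial α (1 : K) := by
    rw [C_mul_monomial, mul_one]
  rw [h1]
  exact Ideal.mul_mem_left _ _ (Ideal.subset_span ⟨α, h, rfl⟩)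

/-- the maximal ideal -/
noncomputable def mm (K : Type u) [Field K] (r : ℕ) : Ideal (MvPolynomial (Fin r) K) :=
  Ideal.span (Set.range X)

/-- the residue field as an object -/
noncomputable def kk (K : Type u) [Field K] (r : ℕ) :
    ModuleCat.{u} (MvPolynomial (Fin r) K) :=
  ModuleCat.of _ (MvPolynomial (Fin r) K ⧸ mm K r)

lemma ann_kk (i : Fin r) : (X i : MvPolynomial (Fin r) K) ∈ Module.annihilator _ (kk K r) := by
  have h : Module.annihilator (MvPolynomial (Fin r) K) (MvPolynomial (Fin r) K ⧸ mm K r) =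
      mm K r := Ideal.annihilator_quotient
  show X i ∈ Module.annihilator (MvPolynomial (Fin r) K) (MvPolynomial (Fin r) K ⧸ mm K r)
  rw [h]
  exact Ideal.subset_span ⟨i, rfl⟩

/-- the exponents meeting `U` -/
def US (U : Finset (Fin r)) : Set (Fin r →₀ ℕ) := {α | ∃ j ∈ U, α j ≠ 0}

lemma isUpperSet_US (U : Finset (Fin r)) : IsUpperSet (US U) := by
  rintro a b hab ⟨j, hj, hne⟩
  refine ⟨j, hj, ?_⟩
  have := hab j
  omega

lemma EV_US : ∀ (k : ℕ) (U : Finset (Fin r)), r - U.card = k →
    EV (kk K r) (MvPolynomial (Fin r) K ⧸ MI K (US U)) k := by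
  classical
  intro k
  induction k with
  | zero => intro U _ i hi; omega
  | succ k ih =>
    intro U hU
    have hlt : U.card < r := by omega
    obtain ⟨i, hi⟩ : ∃ i, i ∉ U := by
      by_contra hcon
      push Not at hcon
      have : U = Finset.univ := Finset.eq_univ_iff_forall.2 hcon
      rw [this, Finset.card_univ, Fintype.card_fin] at hlt
      exact lt_irrefl _ hlt
    have hcard : (insert i U).card = U.card + 1 := Finset.card_insert_of_notMem hi
    have hsub : US U ⊆ US (insert i U) := by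
      rintro a ⟨j, hj, hne⟩
      exact ⟨j, Finset.mem_insert_of_mem hj, hne⟩
    have hle : MI K (US U) ≤ MI K (US (insert i U)) := MI_mono hsub
    -- the quotient map
    let g : (MvPolynomial (Fin r) K ⧸ MI K (US U)) →ₗ[MvPolynomial (Fin r) K]
        (MvPolynomial (Fin r) K ⧸ MI K (US (insert i U))) :=
      Submodule.mapQ _ _ LinearMap.id hle
    have hregular : ∀ f : MvPolynomial (Fin r) K, X i * f ∈ MI K (US U) → f ∈ MI K (US U) := by
      intro f hf
      rw [mem_MI (isUpperSet_US U)] at hf ⊢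
      intro α hα
      have h1 : α + Finsupp.single i 1 ∈ (X i * f).support := by
        rw [mem_support_iff, add_comm, coeff_X_mul]
        exact mem_support_iff.1 hα
      obtain ⟨j, hj, hne⟩ := hf _ h1
      refine ⟨j, hj, ?_⟩
      have hji : j ≠ i := fun h => hi (h ▸ hj)
      simpa [Finsupp.single_apply, Ne.symm hji] using hne
    refine EV_regular (X i) (ann_kk i) g ?_ ?_ ?_ (ih (insert i U) (by omega))
    · rw [← LinearMap.ker_eq_bot, LinearMap.ker_eq_bot']
      intro m
      obtain ⟨f, rfl⟩ := Submodule.Quotient.mk_surjective _ m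
      intro h0
      have h1 : (Submodule.Quotient.mk (X i * f) :
          MvPolynomial (Fin r) K ⧸ MI K (US U)) = 0 := h0
      rw [Submodule.Quotient.mk_eq_zero] at h1
      exact (Submodule.Quotient.mk_eq_zero _).2 (hregular f h1)
    · intro m
      obtain ⟨f, rfl⟩ := Submodule.Quotient.mk_surjective _ m
      exact ⟨Submodule.Quotient.mk f, rfl⟩
    · intro m
      obtain ⟨f, rfl⟩ := Submodule.Quotient.mk_surjective _ m
      constructor
      · intro h0
        have h1 : (Submodule.Quotient.mk f :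
          MvPolynomial (Fin r) K ⧸ MI K (US (insert i U))) = 0 := h0
        rw [Submodule.Quotient.mk_eq_zero] at h1
        -- decompose
        have h2 : MI K (US (insert i U)) ≤ MI K (US U) ⊔ Ideal.span {X i} := by
          rw [MI, Ideal.span_le]
          rintro _ ⟨α, ⟨j, hj, hne⟩, rfl⟩
          rcases Finset.mem_insert.1 hj with rfl | hj
          · apply Ideal.mem_sup_right
            rw [Ideal.mem_span_singleton]
            show X j ∣ monomial α (1 : K)
            have hαe : α = Finsupp.single j 1 + (α - Finsupp.single j 1) := by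
              rw [add_tsub_cancel_of_le]
              rw [Finsupp.single_le_iff]
              omega
            refine ⟨monomial (α - Finsupp.single j 1) 1, ?_⟩
            rw [X, monomial_mul, one_mul, ← hαe]
          · exact Ideal.mem_sup_left (monomial_mem_MI (S := US U) (α := α) ⟨j, hj, hne⟩ 1)
        obtain ⟨a, ha, b, hb, hab⟩ := Submodule.mem_sup.1 (h2 h1)
        obtain ⟨c, rfl⟩ := Ideal.mem_span_singleton.1 hb
        refine ⟨Submodule.Quotient.mk c, ?_⟩
        show (Submodule.Quotient.mk (X i * c) :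
          MvPolynomial (Fin r) K ⧸ MI K (US U)) = Submodule.Quotient.mk f
        rw [eq_comm, Submodule.Quotient.eq, ← hab]
        simpa using ha
      · rintro ⟨m', hm'⟩
        obtain ⟨f', rfl⟩ := Submodule.Quotient.mk_surjective _ m'
        have h1 : (Submodule.Quotient.mk (X i * f') :
          MvPolynomial (Fin r) K ⧸ MI K (US U)) = Submodule.Quotient.mk f := hm'
        rw [← h1]
        show (Submodule.Quotient.mk (X i * f') :
          MvPolynomial (Fin r) K ⧸ MI K (US (insert i U))) = 0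
        rw [Submodule.Quotient.mk_eq_zero]
        apply Ideal.mul_mem_right
        exact monomial_mem_MI (S := US (insert i U)) (α := Finsupp.single i 1)
          ⟨i, Finset.mem_insert_self _ _, by simp⟩ 1

/-- the block lemma at the level of exponents -/
lemma EV_block {A B A' B' : Set (Fin r →₀ ℕ)} (hA : IsUpperSet A) (hB : IsUpperSet B)
    (hA' : IsUpperSet A') (hB' : IsUpperSet B') (a : Fin r →₀ ℕ)
    (h1 : ∀ α ∈ B, a + α ∈ B') (h2 : ∀ α ∈ A, a + α ∈ A')
    (h3 : ∀ α ∈ B, a + α ∈ A' → α ∈ A) (h4 : ∀ β ∈ B', β ∉ A' → ∃ α ∈ B, β = a + α) {t : ℕ}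
    {N : ModuleCat.{u} (MvPolynomial (Fin r) K)} :
    EV N (Submodule.map (Submodule.mkQ (MI K A)) (MI K B)) t ↔
    EV N (Submodule.map (Submodule.mkQ (MI K A')) (MI K B')) t := by
  classical
  have hsupp : ∀ f : MvPolynomial (Fin r) K, ∀ β, β ∈ (monomial a (1 : K) * f).support ↔
      ∃ α ∈ f.support, β = a + α := by
    intro f β
    rw [mem_support_iff, coeff_monomial_mul']
    constructor
    · intro hne
      split_ifs at hne with hle
      · rw [one_mul] at hne
        exact ⟨β - a, mem_support_iff.2 hne, (add_tsub_cancel_of_le hle).symm⟩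
      · exact absurd rfl hne
    · rintro ⟨α, hα, rfl⟩
      rw [if_pos (by simp), add_tsub_cancel_left, one_mul]
      exact mem_support_iff.1 hα
  refine EV_shift (MI K A) (MI K B) (MI K A') (MI K B') (monomial a 1) ?_ ?_ ?_ ?_
  · intro f hf
    rw [mem_MI hB] at hf
    rw [mem_MI hB']
    intro β hβ
    obtain ⟨α, hα, rfl⟩ := (hsupp f β).1 hβ
    exact h1 α (hf α hα)
  · intro f hf
    rw [mem_MI hA] at hf
    rw [mem_MI hA']
    intro β hβ
    obtain ⟨α, hα, rfl⟩ := (hsupp f β).1 hβ
    exact h2 α (hf α hα)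
  · intro f hf hf'
    rw [mem_MI hB] at hf
    rw [mem_MI hA'] at hf'
    rw [mem_MI hA]
    intro α hα
    exact h3 α (hf α hα) (hf' _ ((hsupp f _).2 ⟨α, hα, rfl⟩))
  · intro g hg
    rw [mem_MI hB'] at hg
    -- take the part of `g` outside `A'`
    refine ⟨∑ β ∈ g.support.filter (fun β => β ∉ A'), monomial (β - a) (coeff β g), ?_, ?_⟩
    · apply Ideal.sum_mem
      intro β hβ
      obtain ⟨hβ1, hβ2⟩ := Finset.mem_filter.1 hβ
      obtain ⟨α, hα, rfl⟩ := h4 β (hg β hβ1) hβ2
      rw [add_tsub_cancel_left]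
      exact monomial_mem_MI hα _
    · have h5 : monomial a (1 : K) * ∑ β ∈ g.support.filter (fun β => β ∉ A'),
          monomial (β - a) (coeff β g) =
          ∑ β ∈ g.support.filter (fun β => β ∉ A'), monomial β (coeff β g) := by
        rw [Finset.mul_sum]
        apply Finset.sum_congr rfl
        intro β hβ
        obtain ⟨hβ1, hβ2⟩ := Finset.mem_filter.1 hβ
        obtain ⟨α, hα, rfl⟩ := h4 β (hg β hβ1) hβ2
        rw [monomial_mul, one_mul, add_tsub_cancel_left]
      rw [h5]
      have h6 : g = ∑ β ∈ g.support.filter (fun β => β ∈ A'), monomial β (coeff β g) +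
          ∑ β ∈ g.support.filter (fun β => β ∉ A'), monomial β (coeff β g) := by
        rw [Finset.sum_filter_add_sum_filter_not]
        exact g.as_sum
      have h7 : g - ∑ β ∈ g.support.filter (fun β => β ∉ A'), monomial β (coeff β g) =
          ∑ β ∈ g.support.filter (fun β => β ∈ A'), monomial β (coeff β g) := by
        conv_lhs => rw [h6]
        rw [← h6]
        rw [sub_eq_iff_eq_add]
        exact h6
      rw [h7]
      apply Ideal.sum_mem
      intro β hβ
      exact monomial_mem_MI (Finset.mem_filter.1 hβ).2 _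

end Pool.Agent.Helper698.Dstab
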