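import Mathlib
import Pool.Agent.Helper698.DA1

open scoped BigOperators

namespace Pool.Agent.Helper698.Dstab

variable {r : ℕ}

lemma exists_generic (p : Fin r → ℝ) : ∃ (F : Subfield ℝ) (w : Fin r → ℝ), (∀ i, p i ∈ F) ∧
    (∀ i, 0 < w i) ∧
    ∀ g : Fin r → ℝ, (∀ i, g i ∈ F) → ∑ i, g i * w i = 0 → ∀ i, g i = 0 := by
  set F := Subfield.closure (Set.range p) with hF
  have hcount : Countable F := by
    rw [← Cardinal.mk_le_aleph0_iff]
    refine (Subfield.cardinalMk_closure_le_max (Set.range p)).trans ?_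
    apply max_le _ le_rfl
    exact Cardinal.mk_le_aleph0_iff.2 (Set.countable_range p).to_subtype
  have hinf : ¬ Module.Finite F ℝ := by
    intro h
    have e := Module.finBasis F ℝ
    have : Countable ℝ := by
      have := e.equivFun.toEquiv.countable_iff
      rw [this]
      infer_instance
    exact not_countable (α := ℝ) inferInstance
  have hrank : (r : Cardinal) ≤ Module.rank F ℝ := by
    rw [← Module.rank_lt_aleph0_iff, not_lt] at hinf
    exact (Cardinal.natCast_lt_aleph0 (n := r)).le.trans hinf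
  obtain ⟨v, hv⟩ := exists_linearIndependent_of_le_rank hrank
  have hv0 : ∀ i, v i ≠ 0 := fun i => hv.ne_zero i
  refine ⟨F, fun i => |v i|, fun i => Subfield.subset_closure ⟨i, rfl⟩,
    fun i => abs_pos.2 (hv0 i), ?_⟩
  intro g hg hsum
  have hg' : ∀ i, (if 0 ≤ v i then g i else - g i) ∈ F := by
    intro i
    split_ifs
    · exact hg i
    · exact neg_mem (hg i)
  rw [Fintype.linearIndependent_iff] at hv
  have h1 := hv (fun i => ⟨_, hg' i⟩) (by
    refine Eq.trans ?_ hsum
    apply Finset.sum_congr rfl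
    intro i _
    show (if 0 ≤ v i then g i else - g i) * v i = g i * |v i|
    split_ifs with h
    · rw [abs_of_nonneg h]
    · rw [abs_of_neg (not_le.1 h)]; ring)
  intro i
  have h2 := congrArg Subtype.val (h1 i)
  simp only [ZeroMemClass.coe_zero] at h2
  split_ifs at h2
  · exact h2
  · linarith

/-- tight vertices supported in `U` -/
def TT (G : Finset (Fin r →₀ ℕ)) (n : ℕ) (U : Finset (Fin r)) (p : Fin r → ℝ) :
    Set (Fin r → ℚ) :=
  {c | c ∈ VV G ∧ (∀ i, i ∉ U → c i = 0) ∧ dotR c p = n}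

lemma dotR_mem (F : Subfield ℝ) (d : Fin r → ℚ) (y : Fin r → ℝ) (hy : ∀ i, y i ∈ F) :
    dotR d y ∈ F := by
  unfold dotR
  exact sum_mem fun i _ => mul_mem (SubfieldClass.ratCast_mem F (d i)) (hy i)

lemma dotR_congr (d : Fin r → ℚ) (x y : Fin r → ℝ) (h : ∀ i, d i ≠ 0 → x i = y i) :
    dotR d x = dotR d y := by
  unfold dotR
  apply Finset.sum_congr rfl
  intro i _
  by_cases hi : d i = 0
  · simp [hi]
  · rw [h i hi]

/-- the genericity lemma -/
lemma generic_mem (G : Finset (Fin r →₀ ℕ)) (n : ℕ) (U : Finset (Fin r)) (p w w' : Fin r → ℝ)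
    (F : Subfield ℝ) (hpF : ∀ i, p i ∈ F)
    (hw : ∀ g : Fin r → ℝ, (∀ i, g i ∈ F) → ∑ i, g i * w i = 0 → ∀ i, g i = 0)
    (hw' : ∀ i, w' i = if i ∈ U then 0 else w i)
    (H1 : ∀ d : Fin r → ℚ, (∀ i, i ∉ U → d i = 0) → ∀ β : ℚ, dotR d p = β →
      d ∈ Submodule.span ℚ (TT G n U p))
    (c1 : Fin r → ℚ) (i0 : Fin r) (hi0 : i0 ∉ U) (hc1 : c1 i0 ≠ 0) (a : Fin r →₀ ℕ)
    (haU : ∀ i ∈ U, a i = 0) (s : ℝ) (hs0 : 0 < s) (hω : 0 < dotR c1 w')
    (hs : s * dotR c1 w' = n - dotR c1 (p + toR a))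
    (α' : Fin r →₀ ℕ) (hα' : ∀ i, (i ∈ U ∨ c1 i ≠ 0) → α' i = 0)
    (d : Fin r → ℚ) (β : ℚ) (hd : dotR d (p + toR a + toR α' + s • w') = β) :
    ∃ κ : ℚ, ∃ e ∈ Submodule.span ℚ (TT G n U p), (∀ i, i ∉ U → e i = 0) ∧ d = e + κ • c1 := by
  have hω' := hω.ne'
  set A : ℝ := n - dotR c1 (p + toR a) with hA
  have hA0 : 0 < A := by rw [← hs]; exact mul_pos hs0 hω
  set X : ℝ := dotR d (p + toR a + toR α') - β with hX
  have hX' : X + s * dotR d w' = 0 := by
    rw [dotR_add_right, dotR_smul_right] at hd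
    rw [hX]; linarith
  have hmul : X * dotR c1 w' + A * dotR d w' = 0 := by
    rw [← hs]
    have : X * dotR c1 w' + s * dotR c1 w' * dotR d w' =
      (X + s * dotR d w') * dotR c1 w' := by ring
    rw [this, hX', zero_mul]
  have hyF : ∀ i, (p + toR a + toR α') i ∈ F := fun i =>
    add_mem (add_mem (hpF i) (natCast_mem F _)) (natCast_mem F _)
  have hyF' : ∀ i, (p + toR a) i ∈ F := fun i => add_mem (hpF i) (natCast_mem F _)
  have hXF : X ∈ F := sub_mem (dotR_mem F d _ hyF) (SubfieldClass.ratCast_mem F β)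
  have hAF : A ∈ F := sub_mem (natCast_mem F _) (dotR_mem F c1 _ hyF')
  have hg := hw (fun i => if i ∈ U then 0 else X * c1 i + A * d i) (by
    intro i
    show (if i ∈ U then (0 : ℝ) else X * c1 i + A * d i) ∈ F
    split_ifs
    · exact zero_mem F
    · exact add_mem (mul_mem hXF (SubfieldClass.ratCast_mem F _))
        (mul_mem hAF (SubfieldClass.ratCast_mem F _))) (by
    refine Eq.trans ?_ hmul
    unfold dotR
    rw [Finset.mul_sum, Finset.mul_sum, ← Finset.sum_add_distrib]
    apply Finset.sum_congr rfl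
    intro i _
    rw [hw' i]
    split_ifs
    · simp
    · ring)
  have hprop : ∀ i, i ∉ U → X * c1 i + A * d i = 0 := by
    intro i hi
    have := hg i
    simpa [hi] using this
  have hc1R : (c1 i0 : ℝ) ≠ 0 := by exact_mod_cast hc1
  have hXe : X = - A * (d i0 / c1 i0) := by
    have := hprop i0 hi0
    field_simp
    linarith
  set κ : ℚ := d i0 / c1 i0 with hκ
  have hdi : ∀ i, i ∉ U → d i = κ * c1 i := by
    intro i hi
    have h1 := hprop i hi
    rw [hXe] at h1
    have h2 : A * ((d i : ℝ) - (d i0 / c1 i0 : ℝ) * c1 i) = 0 := by linarith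
    rcases mul_eq_zero.1 h2 with h3 | h3
    · exact absurd h3 hA0.ne'
    · have h4 : (d i : ℝ) = ((κ * c1 i : ℚ) : ℝ) := by
        rw [hκ]; push_cast; linarith
      exact_mod_cast h4
  have hesupp : ∀ i, i ∉ U → (d - κ • c1) i = 0 := by
    intro i hi
    simp [hdi i hi]
  have hq1 : dotR c1 (p + toR a + toR α' + s • w') = n := by
    rw [dotR_add_right, dotR_add_right c1 (p + toR a), dotR_smul_right, hs]
    have : dotR c1 (toR α') = 0 := by
      unfold dotR
      apply Finset.sum_eq_zero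
      intro i _
      by_cases hi : c1 i = 0
      · simp [hi]
      · simp [toR, hα' i (Or.inr hi)]
    rw [this, hA]; ring
  have he : dotR (d - κ • c1) p = ((β - κ * n : ℚ) : ℝ) := by
    have h1 : dotR (d - κ • c1) p = dotR (d - κ • c1) (p + toR a + toR α' + s • w') := by
      apply dotR_congr
      intro i hi
      have hiU : i ∈ U := by
        by_contra hcon
        exact hi (hesupp i hcon)
      simp [toR, haU i hiU, hα' i (Or.inl hiU), hw' i, hiU]
    rw [h1, dotR_sub, dotR_smul, hd, hq1]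
    push_cast; ring
  exact ⟨κ, d - κ • c1, H1 _ hesupp _ he, hesupp, by simp⟩

end Pool.Agent.Helper698.Dstab
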