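import Mathlib
import Pool.Agent.Helper698.DC1
import Pool.Agent.Helper698.DC2

open scoped BigOperators
open MvPolynomial

universe u

namespace Pool.Agent.Helper698.Dstab

variable {r : ℕ}

/-- the exponents of the ideal at a stage of the sweep -/
def SS (G : Finset (Fin r →₀ ℕ)) (n : ℕ) (U : Finset (Fin r)) (p : Fin r → ℝ) :
    Set (Fin r →₀ ℕ) :=
  {α | (∃ j ∈ U, α j ≠ 0) ∨ ∀ c ∈ VV G, (n : ℝ) ≤ dotR c (p + toR α)}

lemma dotR_mono {c : Fin r → ℚ} (hc : ∀ i, 0 ≤ c i) {x y : Fin r → ℝ} (h : ∀ i, x i ≤ y i) :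
    dotR c x ≤ dotR c y :=
  Finset.sum_le_sum fun i _ => mul_le_mul_of_nonneg_left (h i) (by exact_mod_cast hc i)

lemma dotR_nonneg {c : Fin r → ℚ} (hc : ∀ i, 0 ≤ c i) {x : Fin r → ℝ} (h : ∀ i, 0 ≤ x i) :
    0 ≤ dotR c x :=
  Finset.sum_nonneg fun i _ => mul_nonneg (by exact_mod_cast hc i) (h i)

lemma toR_mono {α β : Fin r →₀ ℕ} (h : α ≤ β) (i : Fin r) : toR α i ≤ toR β i := by
  unfold toR; exact_mod_cast h i

lemma toR_nonneg (α : Fin r →₀ ℕ) (i : Fin r) : 0 ≤ toR α i := by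
  unfold toR; positivity

lemma toR_add (α β : Fin r →₀ ℕ) : toR (α + β) = toR α + toR β := by
  ext i; simp [toR]

lemma isUpperSet_SS (G : Finset (Fin r →₀ ℕ)) (n : ℕ) (U : Finset (Fin r)) (p : Fin r → ℝ) :
    IsUpperSet (SS G n U p) := by
  rintro a b hab (⟨j, hj, hne⟩ | h)
  · left
    refine ⟨j, hj, ?_⟩
    have := hab j
    omega
  · right
    intro c hc
    refine (h c hc).trans (dotR_mono hc.1.1 fun i => ?_)
    have := toR_mono hab i
    simp only [Pi.add_apply]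
    linarith

/-- the blocks -/
def Blk (G : Finset (Fin r →₀ ℕ)) (n : ℕ) (U : Finset (Fin r)) (p w' : Fin r → ℝ)
    (b : (Fin r → ℚ) × (Fin r →₀ ℕ)) (s : ℝ) : Set (Fin r →₀ ℕ) :=
  {α | (∀ j ∈ U, α j = 0) ∧ (∀ i, i ∉ U → b.1 i ≠ 0 → α i = b.2 i) ∧
    ∀ c ∈ VV G, (n : ℝ) ≤ dotR c (p + toR α + s • w')}

/-- indices of blocks -/
def IsIdx (G : Finset (Fin r →₀ ℕ)) (n : ℕ) (U : Finset (Fin r)) (p : Fin r → ℝ)
    (b : (Fin r → ℚ) × (Fin r →₀ ℕ)) : Prop :=
  b.1 ∈ VV G ∧ (∃ i, i ∉ U ∧ b.1 i ≠ 0) ∧ (∀ i, (i ∈ U ∨ b.1 i = 0) → b.2 i = 0) ∧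
    dotR b.1 (p + toR b.2) < n

lemma IsIdx.ne_zero {G : Finset (Fin r →₀ ℕ)} {n : ℕ} {U : Finset (Fin r)} {p : Fin r → ℝ}
    {b : (Fin r → ℚ) × (Fin r →₀ ℕ)} (hb : IsIdx G n U p b) : b.1 ≠ 0 := by
  intro h0
  obtain ⟨i, _, hne⟩ := hb.2.1
  exact hne (by rw [h0]; rfl)

/-- the time of a block -/
noncomputable def sv (n : ℕ) (p w' : Fin r → ℝ) (b : (Fin r → ℚ) × (Fin r →₀ ℕ)) : ℝ :=
  (n - dotR b.1 (p + toR b.2)) / dotR b.1 w'

lemma finite_idx (G : Finset (Fin r →₀ ℕ)) (n : ℕ) (U : Finset (Fin r)) (p : Fin r → ℝ)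
    (hp : ∀ i, 0 ≤ p i) : {b | IsIdx G n U p b}.Finite := by
  have h1 : ∀ c ∈ VV G, {a : Fin r →₀ ℕ | (∀ i, c i = 0 → a i = 0) ∧
      dotR c (toR a) < n}.Finite := by
    intro c hc
    let bd : Fin r →₀ ℕ := Finsupp.equivFunOnFinite.symm fun i => ⌈(n : ℚ) / c i⌉₊
    apply (Set.finite_Iic bd).subset
    rintro a ⟨ha1, ha2⟩
    show a ≤ bd
    intro i
    by_cases hi : c i = 0
    · rw [ha1 i hi]; exact Nat.zero_le _
    · have hci : 0 < c i := lt_of_le_of_ne (hc.1.1 i) (Ne.symm hi)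
      show a i ≤ ⌈(n : ℚ) / c i⌉₊
      have h2 : (c i : ℝ) * toR a i ≤ dotR c (toR a) := by
        apply Finset.single_le_sum (f := fun i => (c i : ℝ) * toR a i) _ (Finset.mem_univ i)
        intro j _
        exact mul_nonneg (by exact_mod_cast hc.1.1 j) (toR_nonneg a j)
      have h3 : ((c i * a i : ℚ) : ℝ) < ((n : ℚ) : ℝ) := by
        push_cast
        exact lt_of_le_of_lt h2 ha2
      have h4 : c i * a i < n := by exact_mod_cast h3
      have h5 : (a i : ℚ) < n / c i := by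
        rw [lt_div_iff₀ hci]; linarith
      have h6 : (a i : ℚ) < ⌈(n : ℚ) / c i⌉₊ := lt_of_lt_of_le h5 (Nat.le_ceil _)
      exact_mod_cast h6.le
  have h2 := Set.Finite.biUnion (VV_finite G) (fun c hc => (h1 c hc).image (Prod.mk c))
  apply h2.subset
  rintro ⟨c, a⟩ ⟨hb1, _, hb3, hb4⟩
  simp only [Set.mem_iUnion]
  refine ⟨c, hb1, a, ⟨fun i hi => hb3 i (Or.inr hi), ?_⟩, rfl⟩
  refine lt_of_le_of_lt (dotR_mono hb1.1.1 fun i => ?_) hb4
  have := hp i
  simp only [Pi.add_apply]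
  linarith

/-- the hypotheses of a stage of the sweep -/
structure Stage (G : Finset (Fin r →₀ ℕ)) (n : ℕ) (U : Finset (Fin r)) (p : Fin r → ℝ)
    (t : ℕ) : Prop where
  hp0 : ∀ i, 0 ≤ p i
  hpU : ∀ i ∈ U, 0 < p i
  H1 : ∀ d : Fin r → ℚ, (∀ i, i ∉ U → d i = 0) → ∀ β : ℚ, dotR d p = β →
    d ∈ Submodule.span ℚ (TT G n U p)
  H2 : Module.finrank ℚ (Submodule.span ℚ (TT G n U p)) ≤ t
  H3 : ∀ i ∈ U, ∃ c ∈ TT G n U p, c i ≠ 0
  H5 : ∀ c ∈ VV G, (∀ i, i ∉ U → c i = 0) → (n : ℝ) ≤ dotR c p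

/-- a generic direction -/
structure GenDir (U : Finset (Fin r)) (p w w' : Fin r → ℝ) (F : Subfield ℝ) : Prop where
  hpF : ∀ i, p i ∈ F
  hw0 : ∀ i, 0 < w i
  hw : ∀ g : Fin r → ℝ, (∀ i, g i ∈ F) → ∑ i, g i * w i = 0 → ∀ i, g i = 0
  hw' : ∀ i, w' i = if i ∈ U then 0 else w i

section stage

variable {G : Finset (Fin r →₀ ℕ)} {n : ℕ} {U : Finset (Fin r)} {p w w' : Fin r → ℝ}
  {F : Subfield ℝ} {t : ℕ}

lemma GenDir.nonneg (hg : GenDir U p w w' F) (i : Fin r) : 0 ≤ w' i := by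
  rw [hg.hw' i]; split_ifs
  · exact le_rfl
  · exact (hg.hw0 i).le

lemma GenDir.pos (hg : GenDir U p w w' F) {i : Fin r} (hi : i ∉ U) : 0 < w' i := by
  rw [hg.hw' i, if_neg hi]; exact hg.hw0 i

lemma GenDir.zero (hg : GenDir U p w w' F) {i : Fin r} (hi : i ∈ U) : w' i = 0 := by
  rw [hg.hw' i, if_pos hi]

lemma omega_pos (hg : GenDir U p w w' F) {c : Fin r → ℚ} (hc : ∀ i, 0 ≤ c i)
    (h : ∃ i, i ∉ U ∧ c i ≠ 0) : 0 < dotR c w' := by
  obtain ⟨i, hi, hne⟩ := h
  have h1 : 0 < (c i : ℝ) * w' i :=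
    mul_pos (by exact_mod_cast lt_of_le_of_ne (hc i) (Ne.symm hne)) (hg.pos hi)
  refine lt_of_lt_of_le h1 ?_
  apply Finset.single_le_sum (f := fun i => (c i : ℝ) * w' i) _ (Finset.mem_univ i)
  intro j _
  exact mul_nonneg (by exact_mod_cast hc j) (hg.nonneg j)

lemma sv_mul (hg : GenDir U p w w' F) {b : (Fin r → ℚ) × (Fin r →₀ ℕ)} (hb : IsIdx G n U p b) :
    sv n p w' b * dotR b.1 w' = n - dotR b.1 (p + toR b.2) := by
  unfold sv
  have := (omega_pos hg hb.1.1.1 hb.2.1).ne'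
  field_simp

lemma sv_pos (hg : GenDir U p w w' F) {b : (Fin r → ℚ) × (Fin r →₀ ℕ)} (hb : IsIdx G n U p b) :
    0 < sv n p w' b :=
  div_pos (by linarith [hb.2.2.2]) (omega_pos hg hb.1.1.1 hb.2.1)

lemma Blk_tight (hg : GenDir U p w w' F) {b : (Fin r → ℚ) × (Fin r →₀ ℕ)}
    (hb : IsIdx G n U p b) {α : Fin r →₀ ℕ} (hα : α ∈ Blk G n U p w' b (sv n p w' b)) :
    dotR b.1 (p + toR α + sv n p w' b • w') = n := by
  have h1 : dotR b.1 (p + toR α) = dotR b.1 (p + toR b.2) := by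
    apply dotR_congr
    intro i hi
    by_cases hiU : i ∈ U
    · simp [toR, hα.1 i hiU, hb.2.2.1 i (Or.inl hiU)]
    · simp [toR, hα.2.1 i hiU hi]
  rw [dotR_add_right, dotR_smul_right, h1, sv_mul hg hb]
  ring

lemma cover (hs : Stage G n U p t) (hg : GenDir U p w w' F) {α : Fin r →₀ ℕ}
    (hα : α ∉ SS G n U p) : ∃ b, IsIdx G n U p b ∧ α ∈ Blk G n U p w' b (sv n p w' b) := by
  classical
  have hα1 : ∀ j ∈ U, α j = 0 := by
    intro j hj
    by_contra hne
    exact hα (Or.inl ⟨j, hj, hne⟩)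
  have hα2 : ∃ c ∈ VV G, dotR c (p + toR α) < n := by
    by_contra hcon
    push Not at hcon
    exact hα (Or.inr hcon)
  have hUc : ∀ c ∈ VV G, (∀ i, i ∉ U → c i = 0) → (n : ℝ) ≤ dotR c (p + toR α) := by
    intro c hc hcU
    rw [dotR_congr c (p + toR α) p]
    · exact hs.H5 c hc hcU
    · intro i hi
      have hiU : i ∈ U := by
        by_contra hcon
        exact hi (hcU i hcon)
      simp [toR, hα1 i hiU]
  -- the finite set of relevant vertices
  let Z : Finset (Fin r → ℚ) := (VV_finite G).toFinset.filter (fun c => ∃ i, i ∉ U ∧ c i ≠ 0)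
  have hZ : ∀ c, c ∈ Z ↔ c ∈ VV G ∧ ∃ i, i ∉ U ∧ c i ≠ 0 := by
    intro c; simp [Z]
  obtain ⟨c0, hc0, hc0'⟩ := hα2
  have hc0Z : c0 ∈ Z := by
    rw [hZ]
    refine ⟨hc0, ?_⟩
    by_contra hcon
    push Not at hcon
    exact absurd (hUc c0 hc0 hcon) (not_le.2 hc0')
  obtain ⟨c1, hc1Z, hmax⟩ := Z.exists_max_image
    (fun c => (n - dotR c (p + toR α)) / dotR c w') ⟨c0, hc0Z⟩
  obtain ⟨hc1, hc1'⟩ := (hZ c1).1 hc1Z
  have hω1 := omega_pos hg hc1.1.1 hc1'
  have hs1 : 0 < (n - dotR c1 (p + toR α)) / dotR c1 w' := by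
    refine lt_of_lt_of_le ?_ (hmax c0 hc0Z)
    exact div_pos (by linarith) (omega_pos hg hc0.1.1 ((hZ c0).1 hc0Z).2)
  have hlt : dotR c1 (p + toR α) < n := by
    rw [div_pos_iff_of_pos_right hω1] at hs1
    linarith
  -- the restriction of `α`
  let a : Fin r →₀ ℕ := Finsupp.equivFunOnFinite.symm
    fun i => if i ∉ U ∧ c1 i ≠ 0 then α i else 0
  have ha : ∀ i, a i = if i ∉ U ∧ c1 i ≠ 0 then α i else 0 := fun i => rfl
  have hdot : dotR c1 (p + toR a) = dotR c1 (p + toR α) := by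
    apply dotR_congr
    intro i hi
    by_cases hiU : i ∈ U
    · simp [toR, ha, hiU, hα1 i hiU]
    · simp [toR, ha, hiU, hi]
  have hidx : IsIdx G n U p (c1, a) := by
    refine ⟨hc1, hc1', ?_, ?_⟩
    · rintro i (hi | hi)
      · show a i = 0
        rw [ha, if_neg]; exact fun h => h.1 hi
      · show a i = 0
        rw [ha, if_neg]; exact fun h => h.2 hi
    · show dotR c1 (p + toR a) < n
      rw [hdot]; exact hlt
  refine ⟨(c1, a), hidx, hα1, ?_, ?_⟩
  · intro i hiU hi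
    show α i = a i
    rw [ha, if_pos ⟨hiU, hi⟩]
  · intro c hc
    have hsv : sv n p w' (c1, a) = (n - dotR c1 (p + toR α)) / dotR c1 w' := by
      unfold sv; rw [hdot]
    rw [dotR_add_right, dotR_smul_right, hsv]
    by_cases hcZ : ∃ i, i ∉ U ∧ c i ≠ 0
    · have h1 := hmax c ((hZ c).2 ⟨hc, hcZ⟩)
      have hω := omega_pos hg hc.1.1 hcZ
      rw [div_le_iff₀ hω] at h1
      linarith
    · push Not at hcZ
      have h1 := hUc c hc hcZ
      have h2 : 0 ≤ dotR c w' := dotR_nonneg hc.1.1 hg.nonneg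
      have h3 := mul_nonneg hs1.le h2
      linarith

/-- the generic span property along a block -/
lemma span_of_tight (hs : Stage G n U p t) (hg : GenDir U p w w' F)
    {b : (Fin r → ℚ) × (Fin r →₀ ℕ)} (hb : IsIdx G n U p b) (α' : Fin r →₀ ℕ)
    (hα' : ∀ i, (i ∈ U ∨ b.1 i ≠ 0) → α' i = 0) (d : Fin r → ℚ) (β : ℚ)
    (hd : dotR d (p + toR b.2 + toR α' + sv n p w' b • w') = β) :
    ∃ κ : ℚ, ∃ e ∈ Submodule.span ℚ (TT G n U p), (∀ i, i ∉ U → e i = 0) ∧
      d = e + κ • b.1 := by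
  obtain ⟨i0, hi0, hne⟩ := hb.2.1
  exact generic_mem G n U p w w' F hg.hpF hg.hw hg.hw' hs.H1 b.1 i0 hi0 hne b.2
    (fun i hi => hb.2.2.1 i (Or.inl hi)) (sv n p w' b) (sv_pos hg hb)
    (omega_pos hg hb.1.1.1 hb.2.1) (sv_mul hg hb) α' hα' d β hd

lemma Blk_decomp {b : (Fin r → ℚ) × (Fin r →₀ ℕ)} (hb : IsIdx G n U p b) {s : ℝ}
    {α : Fin r →₀ ℕ} (hα : α ∈ Blk G n U p w' b s) :
    b.2 ≤ α ∧ (∀ i, (i ∈ U ∨ b.1 i ≠ 0) → (α - b.2) i = 0) := by
  constructor
  · intro i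
    by_cases hiU : i ∈ U
    · rw [hb.2.2.1 i (Or.inl hiU)]; exact Nat.zero_le _
    · by_cases hi : b.1 i = 0
      · rw [hb.2.2.1 i (Or.inr hi)]; exact Nat.zero_le _
      · rw [hα.2.1 i hiU hi]
  · intro i hi
    by_cases hiU : i ∈ U
    · simp [hα.1 i hiU]
    · rcases hi with hi | hi
      · exact absurd hi hiU
      · simp [hα.2.1 i hiU hi]

/-- comparison of blocks -/
lemma Blk_compare (hs : Stage G n U p t) (hg : GenDir U p w w' F)
    {b b' : (Fin r → ℚ) × (Fin r →₀ ℕ)} (hb : IsIdx G n U p b) (hb' : IsIdx G n U p b')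
    {α β : Fin r →₀ ℕ} (hα : α ∈ Blk G n U p w' b (sv n p w' b))
    (hβ : β ∈ Blk G n U p w' b' (sv n p w' b')) (hle : α ≤ β)
    (hsv : sv n p w' b ≤ sv n p w' b') :
    Blk G n U p w' b (sv n p w' b) = Blk G n U p w' b' (sv n p w' b') := by
  have hω' := omega_pos hg hb'.1.1.1 hb'.2.1
  have htight' := Blk_tight hg hb' hβ
  have hα3 := hα.2.2 b'.1 hb'.1
  have hmono : dotR b'.1 (p + toR α + sv n p w' b • w') ≤
      dotR b'.1 (p + toR β + sv n p w' b • w') := by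
    apply dotR_mono hb'.1.1.1
    intro i
    have := toR_mono hle i
    simp only [Pi.add_apply]
    linarith
  have hsplit : dotR b'.1 (p + toR β + sv n p w' b' • w') =
      dotR b'.1 (p + toR β + sv n p w' b • w') +
        (sv n p w' b' - sv n p w' b) * dotR b'.1 w' := by
    rw [dotR_add_right, dotR_add_right b'.1 (p + toR β), dotR_smul_right, dotR_smul_right]
    ring
  have hge : 0 ≤ (sv n p w' b' - sv n p w' b) * dotR b'.1 w' :=
    mul_nonneg (by linarith) hω'.le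
  have heq0 : (sv n p w' b' - sv n p w' b) * dotR b'.1 w' = 0 := by linarith
  have hseq : sv n p w' b' = sv n p w' b := by
    rcases mul_eq_zero.1 heq0 with h | h
    · linarith
    · exact absurd h hω'.ne'
  have hαt : dotR b'.1 (p + toR α + sv n p w' b • w') = n := by linarith
  have hβt : dotR b'.1 (p + toR β + sv n p w' b • w') = n := by linarith
  -- `β = α` on the support of `b'.1`
  have hag : ∀ i, b'.1 i ≠ 0 → α i = β i := by
    have h0 : dotR b'.1 (toR β) - dotR b'.1 (toR α) = 0 := by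
      have h1 := hαt
      have h2 := hβt
      rw [dotR_add_right, dotR_add_right b'.1 p] at h1 h2
      linarith
    have h1 : ∑ i, (b'.1 i : ℝ) * (toR β i - toR α i) = 0 := by
      rw [← h0]; unfold dotR; rw [← Finset.sum_sub_distrib]
      exact Finset.sum_congr rfl fun i _ => by ring
    rw [Finset.sum_eq_zero_iff_of_nonneg (fun i _ =>
      mul_nonneg (by exact_mod_cast hb'.1.1.1 i) (by linarith [toR_mono hle i]))] at h1
    intro i hi
    rcases mul_eq_zero.1 (h1 i (Finset.mem_univ i)) with h | h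
    · exact absurd (by exact_mod_cast h) hi
    · unfold toR at h
      have : (β i : ℝ) = α i := by linarith
      exact_mod_cast this.symm
  -- genericity
  obtain ⟨hle2, hα'⟩ := Blk_decomp hb hα
  have hαdec : p + toR b.2 + toR (α - b.2) = p + toR α := by
    rw [add_assoc, ← toR_add, add_tsub_cancel_of_le hle2]
  obtain ⟨κ, e, -, he, hde⟩ := span_of_tight hs hg hb (α - b.2) hα' b'.1 n (by
    rw [hαdec, hαt]; simp)
  have hprop : ∀ i, i ∉ U → b'.1 i = κ * b.1 i := by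
    intro i hi
    rw [hde]; simp [he i hi]
  have hκ : κ ≠ 0 := by
    obtain ⟨i, hi, hne⟩ := hb'.2.1
    intro h0
    rw [hprop i hi, h0, zero_mul] at hne
    exact hne rfl
  have hsupp : ∀ i, i ∉ U → (b'.1 i ≠ 0 ↔ b.1 i ≠ 0) := by
    intro i hi
    rw [hprop i hi]
    constructor
    · intro h h0; rw [h0, mul_zero] at h; exact h rfl
    · intro h; exact mul_ne_zero hκ h
  have hb2 : ∀ i, b.2 i = b'.2 i := by
    intro i
    by_cases hiU : i ∈ U
    · rw [hb.2.2.1 i (Or.inl hiU), hb'.2.2.1 i (Or.inl hiU)]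
    · by_cases hi : b.1 i = 0
      · have hi' : b'.1 i = 0 := by
          by_contra hcon
          exact (hsupp i hiU).1 hcon hi
        rw [hb.2.2.1 i (Or.inr hi), hb'.2.2.1 i (Or.inr hi')]
      · have hi' := (hsupp i hiU).2 hi
        rw [← hα.2.1 i hiU hi, ← hβ.2.1 i hiU hi', hag i hi']
  rw [hseq]
  ext γ
  constructor
  · rintro ⟨h1, h2, h3⟩
    exact ⟨h1, fun i hiU hi => by rw [h2 i hiU ((hsupp i hiU).1 hi), hb2], h3⟩
  · rintro ⟨h1, h2, h3⟩
    exact ⟨h1, fun i hiU hi => by rw [h2 i hiU ((hsupp i hiU).2 hi), hb2], h3⟩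

/-- the union of supports -/
def nextU (U : Finset (Fin r)) (c : Fin r → ℚ) : Finset (Fin r) :=
  U ∪ Finset.univ.filter (fun i => c i ≠ 0)

lemma mem_nextU {c : Fin r → ℚ} {i : Fin r} : i ∈ nextU U c ↔ i ∈ U ∨ c i ≠ 0 := by
  simp [nextU]

/-- the next stage -/
lemma next_stage (hs : Stage G n U p t) (hg : GenDir U p w w' F)
    {b : (Fin r → ℚ) × (Fin r →₀ ℕ)} (hb : IsIdx G n U p b) {γ : Fin r →₀ ℕ}
    (hγ : γ ∈ Blk G n U p w' b (sv n p w' b)) :
    Stage G n (nextU U b.1) (p + toR b.2 + sv n p w' b • w') (t + 1) := by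
  have hsv := sv_pos hg hb
  have hp'pos : ∀ i, i ∉ U → 0 < (p + toR b.2 + sv n p w' b • w') i := by
    intro i hi
    simp only [Pi.add_apply, Pi.smul_apply, smul_eq_mul]
    have := hs.hp0 i
    have := toR_nonneg b.2 i
    have := mul_pos hsv (hg.pos hi)
    linarith
  have hp'U : ∀ i, i ∈ U → (p + toR b.2 + sv n p w' b • w') i = p i := by
    intro i hi
    simp [toR, hb.2.2.1 i (Or.inl hi), hg.zero hi]
  have hTsub : TT G n U p ⊆ TT G n (nextU U b.1) (p + toR b.2 + sv n p w' b • w') := by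
    rintro c ⟨hc1, hc2, hc3⟩
    refine ⟨hc1, fun i hi => hc2 i fun h => hi (mem_nextU.2 (Or.inl h)), ?_⟩
    rw [← hc3]
    apply dotR_congr
    intro i hi
    apply hp'U
    by_contra hcon
    exact hi (hc2 i hcon)
  have hbt : dotR b.1 (p + toR b.2 + sv n p w' b • w') = n := by
    rw [dotR_add_right, dotR_smul_right, sv_mul hg hb]; ring
  have hbT : b.1 ∈ TT G n (nextU U b.1) (p + toR b.2 + sv n p w' b • w') := by
    refine ⟨hb.1, fun i hi => ?_, hbt⟩
    by_contra hcon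
    exact hi (mem_nextU.2 (Or.inr hcon))
  have hspan : ∀ d : Fin r → ℚ, ∀ β : ℚ, dotR d (p + toR b.2 + sv n p w' b • w') = β →
      d ∈ Submodule.span ℚ (TT G n U p) ⊔ Submodule.span ℚ {b.1} := by
    intro d β hd
    obtain ⟨κ, e, he, -, hde⟩ := span_of_tight hs hg hb 0 (fun _ _ => rfl) d β (by
      rw [← hd]; congr 1; ext i; simp [toR])
    rw [hde]
    exact Submodule.add_mem_sup he (Submodule.smul_mem _ _ (Submodule.mem_span_singleton_self _))
  have hle : Submodule.span ℚ (TT G n U p) ⊔ Submodule.span ℚ {b.1} ≤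
      Submodule.span ℚ (TT G n (nextU U b.1) (p + toR b.2 + sv n p w' b • w')) := by
    apply sup_le
    · exact Submodule.span_mono hTsub
    · rw [Submodule.span_singleton_le_iff_mem]
      exact Submodule.subset_span hbT
  refine ⟨?_, ?_, ?_, ?_, ?_, ?_⟩
  · intro i
    by_cases hi : i ∈ U
    · rw [hp'U i hi]; exact hs.hp0 i
    · exact (hp'pos i hi).le
  · intro i _
    by_cases hi : i ∈ U
    · rw [hp'U i hi]; exact hs.hpU i hi
    · exact hp'pos i hi
  · intro d _ β hd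
    exact hle (hspan d β hd)
  · have h1 : Submodule.span ℚ (TT G n (nextU U b.1) (p + toR b.2 + sv n p w' b • w')) ≤
        Submodule.span ℚ (TT G n U p) ⊔ Submodule.span ℚ {b.1} := by
      rw [Submodule.span_le]
      rintro c ⟨hc1, hc2, hc3⟩
      exact hspan c n (by rw [hc3]; simp)
    calc _ ≤ Module.finrank ℚ
          (Submodule.span ℚ (TT G n U p) ⊔ Submodule.span ℚ {b.1} : Submodule ℚ (Fin r → ℚ)) :=
          Submodule.finrank_mono h1
      _ ≤ Module.finrank ℚ (Submodule.span ℚ (TT G n U p)) +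
          Module.finrank ℚ (Submodule.span ℚ {b.1}) := Submodule.finrank_add_le_finrank_add_finrank _ _
      _ ≤ t + 1 := add_le_add hs.H2 (finrank_span_singleton (IsIdx.ne_zero hb)).le
  · intro i hi
    rcases mem_nextU.1 hi with hi | hi
    · obtain ⟨c, hc, hne⟩ := hs.H3 i hi
      exact ⟨c, hTsub hc, hne⟩
    · exact ⟨b.1, hbT, hi⟩
  · intro c hc hcU
    have h1 := hγ.2.2 c hc
    have h2 : dotR c (p + toR γ + sv n p w' b • w') =
        dotR c (p + toR b.2 + sv n p w' b • w') := by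
      apply dotR_congr
      intro i hi
      have hi' : i ∈ U ∨ b.1 i ≠ 0 := by
        by_contra hcon
        exact hi (hcU i fun h => hcon (mem_nextU.1 h))
      have h3 := (Blk_decomp hb hγ).2 i hi'
      have h4 := (Blk_decomp hb hγ).1 i
      have h5 : γ i = b.2 i := by
        have : γ i - b.2 i = 0 := h3
        omega
      simp [toR, h5]
    rwa [h2] at h1

/-- the bound on the union of supports -/
lemma card_nextU (hn : 1 ≤ n) (hs : Stage G n U p t) (hg : GenDir U p w w' F) (l : ℕ)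
    (hl : ∀ c' ∈ BB G, (∀ i, 0 < c' i) →
      Module.finrank ℚ (Submodule.span ℚ (toQ '' {g | g ∈ G ∧ dotN c' g = 1})) ≤ l)
    {b : (Fin r → ℚ) × (Fin r →₀ ℕ)} (hb : IsIdx G n U p b) {γ : Fin r →₀ ℕ}
    (hγ : γ ∈ Blk G n U p w' b (sv n p w' b)) :
    (nextU U b.1).card ≤ l + t := by
  have hst := next_stage hs hg hb hγ
  obtain ⟨hle, hα'⟩ := Blk_decomp hb hγ
  have hdec : p + toR b.2 + toR (γ - b.2) + sv n p w' b • w' =
      p + toR γ + sv n p w' b • w' := by
    rw [add_assoc p, ← toR_add, add_tsub_cancel_of_le hle]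
  have hsv := sv_pos hg hb
  have hpos : ∀ i, 0 < (p + toR γ + sv n p w' b • w') i := by
    intro i
    simp only [Pi.add_apply, Pi.smul_apply, smul_eq_mul]
    have h1 := toR_nonneg γ i
    by_cases hi : i ∈ U
    · have := hs.hpU i hi
      have := mul_nonneg hsv.le (hg.nonneg i)
      linarith
    · have := hs.hp0 i
      have := mul_pos hsv (hg.pos hi)
      linarith
  have htb := Blk_tight hg hb hγ
  have hspan : ∀ c ∈ {c | c ∈ VV G ∧ dotR c (p + toR γ + sv n p w' b • w') = n},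
      ∃ κ : ℚ, ∃ e ∈ Submodule.span ℚ (TT G n U p), (∀ i, i ∉ U → e i = 0) ∧
      c = e + κ • b.1 := by
    rintro c ⟨hc, hct⟩
    exact span_of_tight hs hg hb (γ - b.2) hα' c n (by rw [hdec, hct]; simp)
  have hstar := star G (p + toR γ + sv n p w' b • w') hpos n
    (by exact_mod_cast hn) hγ.2.2 _ rfl ⟨b.1, hb.1, htb⟩ (nextU U b.1) (by
      intro i
      constructor
      · intro hi
        obtain ⟨c, ⟨hc1, hc2, hc3⟩, hne⟩ := hst.H3 i hi
        refine ⟨c, ⟨hc1, ?_⟩, hne⟩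
        rw [← hc3]
        apply dotR_congr
        intro j hj
        have hj' : j ∈ U ∨ b.1 j ≠ 0 := by
          by_contra hcon
          exact hj (hc2 j fun h => hcon (mem_nextU.1 h))
        have h3 := hα' j hj'
        have h4 := hle j
        have h5 : γ j = b.2 j := by
          have : γ j - b.2 j = 0 := h3
          omega
        simp [toR, h5]
      · rintro ⟨c, hc, hne⟩
        obtain ⟨κ, e, -, he, hce⟩ := hspan c hc
        rw [mem_nextU]
        by_contra hcon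
        push Not at hcon
        apply hne
        rw [hce]
        simp [he i hcon.1, hcon.2]) l hl
  have hfr : Module.finrank ℚ (Submodule.span ℚ
      {c | c ∈ VV G ∧ dotR c (p + toR γ + sv n p w' b • w') = n}) ≤ t + 1 := by
    have h1 : Submodule.span ℚ {c | c ∈ VV G ∧ dotR c (p + toR γ + sv n p w' b • w') = n} ≤
        Submodule.span ℚ (TT G n U p) ⊔ Submodule.span ℚ {b.1} := by
      rw [Submodule.span_le]
      intro c hc
      obtain ⟨κ, e, he, -, hce⟩ := hspan c hc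
      rw [hce]
      exact Submodule.add_mem_sup he
        (Submodule.smul_mem _ _ (Submodule.mem_span_singleton_self _))
    calc _ ≤ Module.finrank ℚ
          (Submodule.span ℚ (TT G n U p) ⊔ Submodule.span ℚ {b.1} : Submodule ℚ (Fin r → ℚ)) :=
          Submodule.finrank_mono h1
      _ ≤ Module.finrank ℚ (Submodule.span ℚ (TT G n U p)) +
          Module.finrank ℚ (Submodule.span ℚ {b.1}) := Submodule.finrank_add_le_finrank_add_finrank _ _
      _ ≤ t + 1 := add_le_add hs.H2 (finrank_span_singleton (IsIdx.ne_zero hb)).le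
  omega

end stage

end Pool.Agent.Helper698.Dstab
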