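import Mathlib
import Pool.Agent.Helper698.DC3

open scoped BigOperators
open MvPolynomial

universe u

namespace Pool.Agent.Helper698.Dstab

variable {r : ℕ} {K : Type u} [Field K]

lemma MI_univ : MI K (Set.univ : Set (Fin r →₀ ℕ)) = ⊤ := by
  rw [Ideal.eq_top_iff_one]
  exact Ideal.subset_span ⟨0, trivial, rfl⟩

lemma EV_univ {N : ModuleCat.{u} (MvPolynomial (Fin r) K)} (t : ℕ) :
    EV N (MvPolynomial (Fin r) K ⧸ MI K (Set.univ : Set (Fin r →₀ ℕ))) t := by
  have : Subsingleton (MvPolynomial (Fin r) K ⧸ MI K (Set.univ : Set (Fin r →₀ ℕ))) := by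
    rw [MI_univ]; infer_instance
  exact EV_of_subsingleton t

theorem sweep (G : Finset (Fin r →₀ ℕ)) (n : ℕ) (hn : 1 ≤ n) (l : ℕ)
    (hl : ∀ c' ∈ BB G, (∀ i, 0 < c' i) →
      Module.finrank ℚ (Submodule.span ℚ (toQ '' {g | g ∈ G ∧ dotN c' g = 1})) ≤ l) :
    ∀ (k : ℕ) (U : Finset (Fin r)) (p : Fin r → ℝ) (t : ℕ), r - U.card = k →
      Stage G n U p t →
      EV (kk K r) (MvPolynomial (Fin r) K ⧸ MI K (SS G n U p)) (r - l - t) := by
  classical
  intro k
  induction k using Nat.strong_induction_on with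
  | _ k IH =>
  intro U p t hk hs
  obtain ⟨F, w, hpF, hw0, hw⟩ := exists_generic p
  obtain ⟨w', hw'⟩ : ∃ w' : Fin r → ℝ, ∀ i, w' i = if i ∈ U then 0 else w i := ⟨_, fun _ => rfl⟩
  have hg : GenDir U p w w' F := ⟨hpF, hw0, hw, hw'⟩
  set idx : Finset ((Fin r → ℚ) × (Fin r →₀ ℕ)) := (finite_idx G n U p hs.hp0).toFinset with hidx
  have hmem : ∀ b, b ∈ idx ↔ IsIdx G n U p b := by
    intro b; rw [hidx, Set.Finite.mem_toFinset]; rfl
  -- induction on the number of missing blocks
  have key : ∀ (N : ℕ) (S : Set (Fin r →₀ ℕ)), IsUpperSet S → SS G n U p ⊆ S →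
      (∀ b, IsIdx G n U p b → Blk G n U p w' b (sv n p w' b) ⊆ S ∨
        Disjoint (Blk G n U p w' b (sv n p w' b)) S) →
      (idx.filter (fun b => ¬ Blk G n U p w' b (sv n p w' b) ⊆ S)).card ≤ N →
      EV (kk K r) (MvPolynomial (Fin r) K ⧸ MI K S) (r - l - t) := by
    intro N
    induction N with
    | zero =>
      intro S hS hSS hsat hcard
      have hSuniv : S = Set.univ := by
        by_contra hne
        obtain ⟨α, hα⟩ := (Set.ne_univ_iff_exists_notMem S).1 hne
        obtain ⟨b, hb, hαb⟩ := cover hs hg (fun h => hα (hSS h))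
        have hb' : b ∈ idx.filter (fun b => ¬ Blk G n U p w' b (sv n p w' b) ⊆ S) :=
          Finset.mem_filter.2 ⟨(hmem b).2 hb, fun h => hα (h hαb)⟩
        have := Finset.card_pos.2 ⟨b, hb'⟩
        omega
      rw [hSuniv]; exact EV_univ _
    | succ N ih =>
      intro S hS hSS hsat hcard
      by_cases hSuniv : S = Set.univ
      · rw [hSuniv]; exact EV_univ _
      obtain ⟨α0, hα0⟩ := (Set.ne_univ_iff_exists_notMem S).1 hSuniv
      obtain ⟨b0, hb0, hαb0⟩ := cover hs hg (fun h => hα0 (hSS h))
      have hb0' : b0 ∈ idx.filter (fun b => ¬ Blk G n U p w' b (sv n p w' b) ⊆ S) :=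
        Finset.mem_filter.2 ⟨(hmem b0).2 hb0, fun h => hα0 (h hαb0)⟩
      obtain ⟨b, hbf, hmin⟩ := Finset.exists_min_image _ (fun b => sv n p w' b) ⟨b0, hb0'⟩
      obtain ⟨hbi, hbS⟩ := Finset.mem_filter.1 hbf
      have hb : IsIdx G n U p b := (hmem b).1 hbi
      obtain ⟨γ, hγ, hγS⟩ := Set.not_subset.1 hbS
      have hdisj : Disjoint (Blk G n U p w' b (sv n p w' b)) S := by
        rcases hsat b hb with h | h
        · exact absurd h hbS
        · exact h
      set S' := S ∪ Blk G n U p w' b (sv n p w' b) with hS'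
      have hS'up : IsUpperSet S' := by
        rintro α β hαβ (hα | hα)
        · exact Or.inl (hS hαβ hα)
        · by_contra hβ
          have hβS : β ∉ S := fun h => hβ (Or.inl h)
          obtain ⟨b', hb', hβb'⟩ := cover hs hg (fun h => hβS (hSS h))
          have hle := hmin b' (Finset.mem_filter.2 ⟨(hmem b').2 hb', fun h => hβS (h hβb')⟩)
          have heq := Blk_compare hs hg hb hb' hα hβb' hαβ hle
          exact hβ (Or.inr (by rw [heq]; exact hβb'))
      have hsat' : ∀ b'', IsIdx G n U p b'' → Blk G n U p w' b'' (sv n p w' b'') ⊆ S' ∨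
          Disjoint (Blk G n U p w' b'' (sv n p w' b'')) S' := by
        intro b'' hb''
        rcases hsat b'' hb'' with h | h
        · exact Or.inl (h.trans Set.subset_union_left)
        · by_cases hint : Disjoint (Blk G n U p w' b'' (sv n p w' b''))
              (Blk G n U p w' b (sv n p w' b))
          · right
            rw [hS', Set.disjoint_union_right]
            exact ⟨h, hint⟩
          · left
            obtain ⟨α, hα1, hα2⟩ := Set.not_disjoint_iff.1 hint
            have heq : Blk G n U p w' b'' (sv n p w' b'') = Blk G n U p w' b (sv n p w' b) := by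
              rcases le_total (sv n p w' b) (sv n p w' b'') with hle | hle
              · exact (Blk_compare hs hg hb hb'' hα2 hα1 le_rfl hle).symm
              · exact Blk_compare hs hg hb'' hb hα1 hα2 le_rfl hle
            rw [heq]; exact Set.subset_union_right
      have hcard' : (idx.filter (fun b => ¬ Blk G n U p w' b (sv n p w' b) ⊆ S')).card ≤ N := by
        have hss : idx.filter (fun b => ¬ Blk G n U p w' b (sv n p w' b) ⊆ S') ⊂
            idx.filter (fun b => ¬ Blk G n U p w' b (sv n p w' b) ⊆ S) := by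
          refine Finset.ssubset_iff_subset_ne.2 ⟨?_, fun h => ?_⟩
          · intro b'' hb''
            obtain ⟨h1, h2⟩ := Finset.mem_filter.1 hb''
            exact Finset.mem_filter.2 ⟨h1, fun h => h2 (h.trans Set.subset_union_left)⟩
          · rw [← h] at hbf
            exact (Finset.mem_filter.1 hbf).2 Set.subset_union_right
        have := Finset.card_lt_card hss
        omega
      have hEV' := ih S' hS'up (hSS.trans Set.subset_union_left) hsat' hcard'
      refine EV_quot (MI K S) (MI K S') (MI_mono Set.subset_union_left) ?_ hEV'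
      -- the block
      set U1 := nextU U b.1 with hU1
      set p1 := p + toR b.2 + sv n p w' b • w' with hp1
      have hst := next_stage hs hg hb hγ
      have hcardU := card_nextU hn hs hg l hl hb hγ
      rw [← hU1] at hst hcardU
      rw [← hp1] at hst
      have hlt : U.card < U1.card := by
        apply Finset.card_lt_card
        obtain ⟨i, hi, hne⟩ := hb.2.1
        refine Finset.ssubset_iff_subset_ne.2 ⟨Finset.subset_union_left, fun h => hi ?_⟩
        rw [h]
        exact mem_nextU.2 (Or.inr hne)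
      have hU1r : U1.card ≤ r := by
        have := Finset.card_le_univ U1
        simpa using this
      have hIH := IH (r - U1.card) (by omega) U1 p1 (t + 1) rfl hst
      have hUSSS : US U1 ⊆ SS G n U1 p1 := fun α hα => Or.inl hα
      have h1 : EV (kk K r) (Submodule.map (Submodule.mkQ (MI K (US U1)))
          (MI K (SS G n U1 p1))) (r - l - t) := by
        apply EV_map _ _ (MI_mono hUSSS)
        · exact (EV_US (r - U1.card) U1 rfl).mono (by omega)
        · rw [Nat.sub_sub, ]
          exact hIH.mono (by omega)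
      -- auxiliary upper sets
      let N' : Set (Fin r →₀ ℕ) := {α | (∀ i ∈ U1, α i = 0) ∧
        ∀ c ∈ VV G, (n : ℝ) ≤ dotR c (p1 + toR α)}
      let B0 : Set (Fin r →₀ ℕ) := {α | ∃ α' ∈ N', α' ≤ α}
      let A0 : Set (Fin r →₀ ℕ) := {α | α ∈ B0 ∧ α ∈ US U1}
      have hB0 : IsUpperSet B0 := by
        rintro α β hαβ ⟨α', hα', hle⟩
        exact ⟨α', hα', hle.trans hαβ⟩
      have hA0 : IsUpperSet A0 := by
        rintro α β hαβ ⟨hα1, hα2⟩
        exact ⟨hB0 hαβ hα1, isUpperSet_US U1 hαβ hα2⟩
      have hN'B0 : N' ⊆ B0 := fun α hα => ⟨α, hα, le_rfl⟩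
      have hN'up : ∀ α ∈ N', ∀ β, α ≤ β → β ∉ US U1 → β ∈ N' := by
        rintro α ⟨hα1, hα2⟩ β hle hβ
        refine ⟨fun i hi => ?_, fun c hc => (hα2 c hc).trans (dotR_mono hc.1.1 fun i => ?_)⟩
        · by_contra hcon
          exact hβ ⟨i, hi, hcon⟩
        · have := toR_mono hle i
          simp only [Pi.add_apply]
          linarith
      have hNBlk : ∀ α ∈ N', b.2 + α ∈ Blk G n U p w' b (sv n p w' b) := by
        rintro α ⟨hα1, hα2⟩
        refine ⟨fun j hj => ?_, fun i hi hne => ?_, fun c hc => ?_⟩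
        · simp [hb.2.2.1 j (Or.inl hj), hα1 j (mem_nextU.2 (Or.inl hj))]
        · simp [hα1 i (mem_nextU.2 (Or.inr hne))]
        · have h2 := hα2 c hc
          have h3 : p1 + toR α = p + toR (b.2 + α) + sv n p w' b • w' := by
            rw [hp1, toR_add]; abel
          rwa [h3] at h2
      have hBlkN : ∀ β ∈ Blk G n U p w' b (sv n p w' b), b.2 ≤ β ∧ β - b.2 ∈ N' := by
        intro β hβ
        obtain ⟨hle, hz⟩ := Blk_decomp hb hβ
        refine ⟨hle, fun i hi => hz i (mem_nextU.1 hi), fun c hc => ?_⟩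
        have h2 := hβ.2.2 c hc
        have h3 : p1 + toR (β - b.2) = p + toR β + sv n p w' b • w' := by
          have h4 : toR β = toR b.2 + toR (β - b.2) := by
            rw [← toR_add, add_tsub_cancel_of_le hle]
          rw [hp1, h4]; abel
        rwa [← h3] at h2
      have hB0S' : ∀ α ∈ B0, b.2 + α ∈ S' := by
        rintro α ⟨α', hα', hle⟩
        exact hS'up (add_le_add_right hle b.2) (Or.inr (hNBlk α' hα'))
      have e1 := EV_block (K := K) (N := kk K r) (t := r - l - t) hA0 hB0 (isUpperSet_US U1)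
        (isUpperSet_SS G n U1 p1) 0
        (by
          rintro α ⟨α', hα', hle⟩
          rw [zero_add]
          exact isUpperSet_SS G n U1 p1 hle (Or.inr hα'.2))
        (by rintro α ⟨_, hα⟩; rw [zero_add]; exact hα)
        (by intro α hα hα'; rw [zero_add] at hα'; exact ⟨hα, hα'⟩)
        (by
          intro β hβ hβ'
          refine ⟨β, hN'B0 ⟨fun i hi => ?_, ?_⟩, (zero_add β).symm⟩
          · by_contra hcon
            exact hβ' ⟨i, hi, hcon⟩
          · rcases hβ with hβ | hβ
            · exact absurd hβ hβ'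
            · exact hβ)
      have e2 := EV_block (K := K) (N := kk K r) (t := r - l - t) hA0 hB0 hS hS'up b.2
        hB0S'
        (by
          rintro α ⟨hα1, j, hj, hne⟩
          rcases hB0S' α hα1 with h | h
          · exact h
          · exfalso
            have := (Blk_decomp hb h).2 j (mem_nextU.1 hj)
            simp at this
            exact hne this)
        (by
          intro α hα hαS
          refine ⟨hα, ?_⟩
          by_contra hcon
          obtain ⟨α', hα', hle⟩ := hα
          have h3 := hNBlk α (hN'up α' hα' α hle hcon)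
          exact Set.disjoint_left.1 hdisj h3 hαS)
        (by
          intro β hβ hβS
          rcases hβ with hβ | hβ
          · exact absurd hβ hβS
          · obtain ⟨hle, hN⟩ := hBlkN β hβ
            exact ⟨β - b.2, hN'B0 hN, (add_tsub_cancel_of_le hle).symm⟩)
      exact e2.1 (e1.2 h1)
  apply key _ (SS G n U p) (isUpperSet_SS G n U p) le_rfl _ le_rfl
  intro b hb
  right
  rw [Set.disjoint_left]
  intro α hα hαS
  rcases hαS with ⟨j, hj, hne⟩ | hαS
  · exact hne (hα.1 j hj)
  · have h1 := Blk_tight hg hb hα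
    have h2 := hαS b.1 hb.1
    rw [dotR_add_right, dotR_smul_right] at h1
    have h3 := mul_pos (sv_pos hg hb) (omega_pos hg hb.1.1.1 hb.2.1)
    linarith

end Pool.Agent.Helper698.Dstab

namespace Pool.Agent.Helper698.Dstab

variable {r : ℕ} {K : Type u} [Field K]

/-- exponents of the integral closure of the `n`-th power -/
def NE (G : Finset (Fin r →₀ ℕ)) (n : ℕ) : Set (Fin r →₀ ℕ) :=
  {α | ∀ c ∈ VV G, (n : ℝ) ≤ dotR c (toR α)}

theorem lower (G : Finset (Fin r →₀ ℕ)) (hG : G.Nonempty) (n : ℕ) (hn : 1 ≤ n) (l : ℕ)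
    (hl : ∀ c' ∈ BB G, (∀ i, 0 < c' i) →
      Module.finrank ℚ (Submodule.span ℚ (toQ '' {g | g ∈ G ∧ dotN c' g = 1})) ≤ l) :
    EV (kk K r) (MvPolynomial (Fin r) K ⧸ MI K (NE G n)) (r - l) := by
  have hTT : TT G n (∅ : Finset (Fin r)) (0 : Fin r → ℝ) = ∅ := by
    rw [Set.eq_empty_iff_forall_notMem]
    rintro c ⟨_, _, h⟩
    have h1 : dotR c (0 : Fin r → ℝ) = 0 := by simp [dotR]
    rw [h1] at h
    have : (n : ℝ) = 0 := h.symm
    have : n = 0 := by exact_mod_cast this
    omega
  have hst : Stage G n (∅ : Finset (Fin r)) (0 : Fin r → ℝ) 0 := by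
    refine ⟨fun i => le_rfl, fun i hi => absurd hi (Finset.notMem_empty i), ?_, ?_,
      fun i hi => absurd hi (Finset.notMem_empty i), ?_⟩
    · intro d hd β _
      have : d = 0 := by ext i; exact hd i (Finset.notMem_empty i)
      rw [this]; exact zero_mem _
    · rw [hTT]; simp
    · intro c hc h
      exfalso
      obtain ⟨g, hg⟩ := hG
      have h1 := hc.1.2 g hg
      have : c = 0 := by ext i; exact h i (Finset.notMem_empty i)
      rw [this] at h1
      simp [dotN] at h1
      linarith
  have h1 := sweep (K := K) G n hn l hl _ ∅ 0 0 rfl hst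
  have h2 : SS G n (∅ : Finset (Fin r)) (0 : Fin r → ℝ) = NE G n := by
    ext α
    simp [SS, NE]
  rw [h2] at h1
  exact h1

end Pool.Agent.Helper698.Dstab
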