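import Mathlib
import Pool.Agent.Helper698.DC1

open CategoryTheory Abelian Limits MvPolynomial

universe u

namespace Pool.Agent.Helper698.Dstab

section general

variable {R : Type u} [CommRing R]

lemma quot_exact (I : Ideal R) (y : R) (hreg : ∀ a, y * a ∈ I → a ∈ I) :
    Function.Injective (LinearMap.lsmul R (R ⧸ I) y) ∧
    Function.Surjective (Submodule.mapQ I (I ⊔ Ideal.span {y}) LinearMap.id le_sup_left) ∧
    Function.Exact (LinearMap.lsmul R (R ⧸ I) y)
      (Submodule.mapQ I (I ⊔ Ideal.span {y}) LinearMap.id le_sup_left) := by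
  refine ⟨?_, ?_, ?_⟩
  · rw [← LinearMap.ker_eq_bot, LinearMap.ker_eq_bot']
    intro m
    obtain ⟨f, rfl⟩ := Submodule.Quotient.mk_surjective _ m
    intro h0
    have h1 : (Submodule.Quotient.mk (y * f) : R ⧸ I) = 0 := h0
    rw [Submodule.Quotient.mk_eq_zero] at h1
    exact (Submodule.Quotient.mk_eq_zero _).2 (hreg f h1)
  · intro m
    obtain ⟨f, rfl⟩ := Submodule.Quotient.mk_surjective _ m
    exact ⟨Submodule.Quotient.mk f, rfl⟩
  · intro m
    obtain ⟨f, rfl⟩ := Submodule.Quotient.mk_surjective _ m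
    constructor
    · intro h0
      have h1 : (Submodule.Quotient.mk f : R ⧸ (I ⊔ Ideal.span {y})) = 0 := h0
      rw [Submodule.Quotient.mk_eq_zero] at h1
      obtain ⟨a, ha, b, hb, hab⟩ := Submodule.mem_sup.1 h1
      obtain ⟨c, rfl⟩ := Ideal.mem_span_singleton.1 hb
      refine ⟨Submodule.Quotient.mk c, ?_⟩
      show (Submodule.Quotient.mk (y * c) : R ⧸ I) = Submodule.Quotient.mk f
      rw [eq_comm, Submodule.Quotient.eq, ← hab]
      simpa using ha
    · rintro ⟨m', hm'⟩
      obtain ⟨f', rfl⟩ := Submodule.Quotient.mk_surjective _ m'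
      have h1 : (Submodule.Quotient.mk (y * f') : R ⧸ I) = Submodule.Quotient.mk f := hm'
      rw [← h1]
      show (Submodule.Quotient.mk (y * f') : R ⧸ (I ⊔ Ideal.span {y})) = 0
      rw [Submodule.Quotient.mk_eq_zero]
      apply Ideal.mul_mem_right
      exact Ideal.mem_sup_right (Ideal.mem_span_singleton_self y)

/-- regular chains modulo an ideal -/
def RegChain : Ideal R → List R → Prop
  | _, [] => True
  | I, y :: ys => (∀ a, y * a ∈ I → a ∈ I) ∧ RegChain (I ⊔ Ideal.span {y}) ys

lemma EV_of_chain {N : ModuleCat.{u} R} : ∀ (ys : List R) (I : Ideal R), RegChain I ys →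
    (∀ y ∈ ys, y ∈ Module.annihilator R N) → EV N (R ⧸ I) ys.length := by
  intro ys
  induction ys with
  | nil => intro I _ _ i hi; simp at hi
  | cons y ys ih =>
    intro I hI hann
    obtain ⟨h1, h2, h3⟩ := quot_exact I y hI.1
    exact EV_regular y (hann y (by simp)) _ h1 h2 h3
      (ih _ hI.2 fun z hz => hann z (List.mem_cons_of_mem _ hz))

/-- `(y) ∩ J = (y) J` -/
lemma chain_inter : ∀ (ys : List R) (J : Ideal R), RegChain J ys → ∀ h, h ∈ J →
    h ∈ Ideal.span {y | y ∈ ys} → h ∈ Ideal.span {y | y ∈ ys} * J := by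
  intro ys
  induction ys with
  | nil =>
    intro J _ h _ h2
    have : {y : R | y ∈ ([] : List R)} = ∅ := by ext; simp
    rw [this, Ideal.span_empty] at h2
    rw [(Submodule.mem_bot R).1 h2]
    exact zero_mem _
  | cons y ys ih =>
    intro J hJ h h1 h2
    have hset : {z : R | z ∈ y :: ys} = {y} ∪ {z | z ∈ ys} := by
      ext z; simp
    rw [hset, Ideal.span_union] at h2 ⊢
    obtain ⟨u, hu, h', hh', huh⟩ := Submodule.mem_sup.1 h2
    obtain ⟨a, rfl⟩ := Ideal.mem_span_singleton.1 hu
    have h3 : h' ∈ J ⊔ Ideal.span {y} := by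
      have : h' = h - y * a := by rw [← huh]; ring
      rw [this]
      exact sub_mem (Ideal.mem_sup_left h1)
        (Ideal.mem_sup_right (Ideal.mul_mem_right _ _ (Ideal.mem_span_singleton_self y)))
    have h4 := ih _ hJ.2 h' h3 hh'
    rw [Ideal.mul_sup] at h4
    obtain ⟨u2, hu2, v2, hv2, huv⟩ := Submodule.mem_sup.1 h4
    rw [Ideal.mul_comm] at hv2
    rw [Ideal.mem_span_singleton_mul] at hv2
    obtain ⟨b, hb, rfl⟩ := hv2
    have hle : Ideal.span {y | y ∈ ys} * J ≤ J := Ideal.mul_le_right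
    have hu2J : u2 ∈ J := hle hu2
    have h5 : y * (a + b) ∈ J := by
      have h8 : y * (a + b) = h - u2 := by linear_combination huh + huv
      rw [h8]
      exact J.sub_mem h1 hu2J
    have h6 := hJ.1 _ h5
    have h7 : h = y * (a + b) + u2 := by linear_combination - huh - huv
    rw [h7, Ideal.sup_mul]
    exact add_mem (Ideal.mem_sup_left
      (Ideal.mul_mem_mul (Ideal.mem_span_singleton_self y) h6)) (Ideal.mem_sup_right hu2)

end general

variable {r : ℕ} {K : Type u} [Field K]

/-- linear forms -/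
noncomputable def lin (K : Type u) [Field K] (r : ℕ) :
    (Fin r → K) →ₗ[K] MvPolynomial (Fin r) K :=
  Fintype.linearCombination K (fun i => (X i : MvPolynomial (Fin r) K))

lemma lin_apply (v : Fin r → K) : lin K r v = ∑ i, v i • (X i : MvPolynomial (Fin r) K) :=
  Fintype.linearCombination_apply K (fun i => (X i : MvPolynomial (Fin r) K)) v

lemma lin_single [DecidableEq (Fin r)] (i : Fin r) :
    lin K r (Pi.single i 1) = (X i : MvPolynomial (Fin r) K) := by
  rw [lin_apply]
  rw [Finset.sum_eq_single i]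
  · simp
  · intro j _ hj; simp [hj]
  · simp

lemma lin_mem_mm (v : Fin r → K) : lin K r v ∈ mm K r := by
  rw [lin_apply]
  apply Ideal.sum_mem
  intro i _
  rw [smul_eq_C_mul]
  exact Ideal.mul_mem_left _ _ (Ideal.subset_span ⟨i, rfl⟩)

lemma mem_ann_kk (y : MvPolynomial (Fin r) K) :
    y ∈ Module.annihilator _ (kk K r) ↔ y ∈ mm K r := by
  have h : Module.annihilator (MvPolynomial (Fin r) K) (MvPolynomial (Fin r) K ⧸ mm K r) =
      mm K r := Ideal.annihilator_quotient
  rw [← h]; rfl

/-- one step of the choice of linear forms -/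
lemma exists_lin_regular [Infinite K] (I : Ideal (MvPolynomial (Fin r) K)) (t : ℕ)
    (h : EV (kk K r) (MvPolynomial (Fin r) K ⧸ I) (t + 1)) (W : Submodule K (Fin r → K))
    (hW : W ≠ ⊤) : ∃ v, v ∉ W ∧ (∀ a, lin K r v * a ∈ I → a ∈ I) ∧
      EV (kk K r) (MvPolynomial (Fin r) K ⧸ (I ⊔ Ideal.span {lin K r v})) t := by
  classical
  have h0 := h 0 (Nat.succ_pos t)
  have h1 : Subsingleton ((kk K r) ⟶
      ModuleCat.of (MvPolynomial (Fin r) K) (MvPolynomial (Fin r) K ⧸ I)) :=
    Ext.addEquiv₀.subsingleton_congr.mp h0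
  have h2' : Subsingleton ((kk K r) →ₗ[MvPolynomial (Fin r) K]
      (ModuleCat.of (MvPolynomial (Fin r) K) (MvPolynomial (Fin r) K ⧸ I))) :=
    ModuleCat.homAddEquiv.symm.subsingleton
  have h2 : Subsingleton ((MvPolynomial (Fin r) K ⧸ mm K r) →ₗ[MvPolynomial (Fin r) K]
      (MvPolynomial (Fin r) K ⧸ I)) := h2'
  obtain ⟨y, hy, hyreg⟩ := IsSMulRegular.subsingleton_linearMap_iff.mp h2
  have hymm : y ∈ mm K r := (mem_ann_kk y).1 hy
  have hass : ∀ p ∈ associatedPrimes (MvPolynomial (Fin r) K) (MvPolynomial (Fin r) K ⧸ I),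
      y ∉ p := by
    intro p hp hyp
    have h3 : y ∈ ⋃ p ∈ associatedPrimes (MvPolynomial (Fin r) K) (MvPolynomial (Fin r) K ⧸ I),
        (p : Set (MvPolynomial (Fin r) K)) := by
      simp only [Set.mem_iUnion]
      exact ⟨p, hp, hyp⟩
    rw [biUnion_associatedPrimes_eq_compl_regular] at h3
    exact h3 hyreg
  have hfin := associatedPrimes.finite (MvPolynomial (Fin r) K) (MvPolynomial (Fin r) K ⧸ I)
  let s : Finset (Subspace K (Fin r → K)) := insert W (hfin.toFinset.image
    (fun p => Submodule.comap (lin K r) (p.restrictScalars K)))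
  have htop : ⊤ ∉ s := by
    intro hmem
    rcases Finset.mem_insert.1 hmem with h3 | h3
    · exact hW h3.symm
    · obtain ⟨p, hp, hpe⟩ := Finset.mem_image.1 h3
      have hp' := hfin.mem_toFinset.1 hp
      apply hass p hp'
      have h4 : mm K r ≤ p := by
        rw [mm, Ideal.span_le]
        rintro _ ⟨i, rfl⟩
        have h5 : (Pi.single i 1 : Fin r → K) ∈
            Submodule.comap (lin K r) (p.restrictScalars K) := by
          rw [hpe]; trivial
        rw [Submodule.mem_comap, lin_single] at h5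
        exact h5
      exact h4 hymm
  obtain ⟨v, hv⟩ := (Set.ne_univ_iff_exists_notMem _).1
    (Subspace.biUnion_ne_univ_of_top_notMem htop)
  simp only [Set.mem_iUnion, not_exists] at hv
  have hvW : v ∉ W := hv W (Finset.mem_insert_self _ _)
  have hvreg : IsSMulRegular (MvPolynomial (Fin r) K ⧸ I) (lin K r v) := by
    by_contra hcon
    have h3 : lin K r v ∈ ⋃ p ∈ associatedPrimes (MvPolynomial (Fin r) K)
        (MvPolynomial (Fin r) K ⧸ I), (p : Set (MvPolynomial (Fin r) K)) := by
      rw [biUnion_associatedPrimes_eq_compl_regular]; exact hcon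
    simp only [Set.mem_iUnion] at h3
    obtain ⟨p, hp, hvp⟩ := h3
    exact hv _ (Finset.mem_insert_of_mem (Finset.mem_image.2 ⟨p, hfin.mem_toFinset.2 hp, rfl⟩)) hvp
  have hreg' : ∀ a, lin K r v * a ∈ I → a ∈ I := by
    intro a ha
    have h3 : lin K r v • (Submodule.Quotient.mk a : MvPolynomial (Fin r) K ⧸ I) =
        lin K r v • 0 := by
      rw [smul_zero, ← Submodule.Quotient.mk_smul, Submodule.Quotient.mk_eq_zero]
      exact ha
    exact (Submodule.Quotient.mk_eq_zero I).1 (hvreg h3)
  obtain ⟨e1, e2, e3⟩ := quot_exact I (lin K r v) hreg'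
  exact ⟨v, hvW, hreg', EV_right _ _ e1 e2 e3 (h.mono (Nat.le_succ t)) h⟩

/-- choice of linear forms -/
lemma exists_lin_chain [Infinite K] : ∀ (t : ℕ) (I : Ideal (MvPolynomial (Fin r) K))
    (W : Submodule K (Fin r → K)), Module.finrank K W + t ≤ r →
    EV (kk K r) (MvPolynomial (Fin r) K ⧸ I) t →
    ∃ vs : List (Fin r → K), RegChain I (vs.map (lin K r)) ∧
      Module.finrank K (W ⊔ Submodule.span K {v | v ∈ vs} : Submodule K (Fin r → K)) =
        Module.finrank K W + t := by
  intro t
  induction t with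
  | zero =>
    intro I W _ _
    refine ⟨[], trivial, ?_⟩
    have : {v : Fin r → K | v ∈ ([] : List (Fin r → K))} = ∅ := by ext; simp
    rw [this, Submodule.span_empty, sup_bot_eq, add_zero]
  | succ t ih =>
    intro I W hW h
    have hWtop : W ≠ ⊤ := by
      intro h0
      rw [h0, finrank_top, Module.finrank_fintype_fun_eq_card, Fintype.card_fin] at hW
      omega
    obtain ⟨v, hv, hreg, hEV⟩ := exists_lin_regular I t h W hWtop
    have hv0 : v ≠ 0 := fun h0 => hv (h0 ▸ zero_mem W)
    have hlt : W < W ⊔ Submodule.span K {v} := by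
      refine lt_of_le_of_ne le_sup_left fun h0 => hv ?_
      rw [h0]
      exact Submodule.mem_sup_right (Submodule.mem_span_singleton_self v)
    have hfr : Module.finrank K W + 1 ≤
        Module.finrank K (W ⊔ Submodule.span K {v} : Submodule K (Fin r → K)) :=
      Submodule.finrank_lt_finrank_of_lt hlt
    have hfr2 : Module.finrank K (W ⊔ Submodule.span K {v} : Submodule K (Fin r → K)) ≤
        Module.finrank K W + 1 := by
      refine (Submodule.finrank_add_le_finrank_add_finrank _ _).trans ?_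
      rw [finrank_span_singleton hv0]
    obtain ⟨vs, hvs1, hvs2⟩ := ih (I ⊔ Ideal.span {lin K r v}) (W ⊔ Submodule.span K {v})
      (by omega) hEV
    refine ⟨v :: vs, ⟨hreg, hvs1⟩, ?_⟩
    have hset : {z : Fin r → K | z ∈ v :: vs} = {v} ∪ {z | z ∈ vs} := by
      ext z; simp
    rw [hset, Submodule.span_union, ← sup_assoc]
    omega

end Pool.Agent.Helper698.Dstab
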