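import Mathlib
import Pool.Agent.Helper698.DD1
import Pool.Agent.Helper698.DA1

open MvPolynomial

universe u

namespace Pool.Agent.Helper698.Dstab

variable {r : ℕ} {K : Type u} [Field K]

/-- quotient by linear forms -/
lemma exists_theta (vs : List (Fin r → K)) (m : ℕ)
    (hm : Module.finrank K (Submodule.span K {v | v ∈ vs}) + m = r) :
    ∃ q : (Fin r → K) →ₗ[K] (Fin m → K), Function.Surjective q ∧
      ∀ f : MvPolynomial (Fin r) K, aeval (fun i => lin K m (q (Pi.single i 1))) f = 0 →
        f ∈ Ideal.span {y | y ∈ vs.map (lin K r)} := by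
  set Y := Submodule.span K {v | v ∈ vs} with hY
  have hfr : Module.finrank K ((Fin r → K) ⧸ Y) = Module.finrank K (Fin m → K) := by
    have h1 := Submodule.finrank_quotient_add_finrank Y
    rw [Module.finrank_fintype_fun_eq_card, Fintype.card_fin] at h1
    rw [Module.finrank_fintype_fun_eq_card, Fintype.card_fin]
    omega
  let e : ((Fin r → K) ⧸ Y) ≃ₗ[K] (Fin m → K) := LinearEquiv.ofFinrankEq _ _ hfr
  let q : (Fin r → K) →ₗ[K] (Fin m → K) := e.toLinearMap.comp Y.mkQ
  have hqs : Function.Surjective q := e.surjective.comp Y.mkQ_surjective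
  have hqk : ∀ v, q v = 0 → v ∈ Y := by
    intro v hv
    have h1 : e (Y.mkQ v) = 0 := hv
    rw [e.map_eq_zero_iff] at h1
    exact (Submodule.Quotient.mk_eq_zero Y).1 h1
  obtain ⟨σ, hσ⟩ := LinearMap.exists_rightInverse_of_surjective q (LinearMap.range_eq_top.2 hqs)
  have hσ' : ∀ w, q (σ w) = w := fun w => by
    have := LinearMap.congr_fun hσ w
    simpa using this
  refine ⟨q, hqs, ?_⟩
  set I := Ideal.span {y | y ∈ vs.map (lin K r)} with hI
  have hYI : ∀ v ∈ Y, lin K r v ∈ I := by
    have h1 : Y ≤ Submodule.comap (lin K r) (I.restrictScalars K) := by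
      rw [hY, Submodule.span_le]
      intro v hv
      exact Ideal.subset_span (List.mem_map.2 ⟨v, hv, rfl⟩)
    exact fun v hv => h1 hv
  let ι : MvPolynomial (Fin m) K →ₐ[K] MvPolynomial (Fin r) K :=
    aeval (fun j => lin K r (σ (Pi.single j 1)))
  have hι : ∀ w, ι (lin K m w) = lin K r (σ w) := by
    intro w
    rw [lin_apply, map_sum]
    have h1 : w = ∑ j, w j • (Pi.single j 1 : Fin m → K) := by
      ext j; simp [Finset.sum_apply, Pi.single_apply]
    conv_rhs => rw [h1]
    rw [map_sum, map_sum]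
    apply Finset.sum_congr rfl
    intro j _
    rw [map_smul, map_smul, map_smul]
    congr 1
    exact aeval_X _ j
  have key : Ideal.Quotient.mkₐ K I =
      (Ideal.Quotient.mkₐ K I).comp (ι.comp (aeval (fun i => lin K m (q (Pi.single i 1))))) := by
    apply MvPolynomial.algHom_ext
    intro i
    rw [AlgHom.comp_apply, AlgHom.comp_apply, aeval_X, hι]
    rw [← lin_single i]
    show (Ideal.Quotient.mk I) _ = (Ideal.Quotient.mk I) _
    rw [Ideal.Quotient.eq, ← map_sub]
    apply hYI
    apply hqk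
    rw [map_sub, hσ', sub_self]
  intro f hf
  have h1 := congrArg (fun F => F f) key
  simp only [AlgHom.comp_apply, hf, map_zero] at h1
  exact Ideal.Quotient.eq_zero_iff_mem.1 h1

lemma lin_homogeneous (v : Fin r → K) : (lin K r v).IsHomogeneous 1 := by
  rw [lin_apply]
  apply IsHomogeneous.sum
  intro i _
  rw [smul_eq_C_mul]
  exact (isHomogeneous_X _ _).C_mul _

lemma lin_injective (v : Fin r → K) (h : lin K r v = 0) : v = 0 := by
  classical
  ext i
  have h1 := congrArg (coeff (Finsupp.single i 1)) h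
  rw [lin_apply, coeff_sum] at h1
  simp only [coeff_smul, smul_eq_mul, coeff_zero] at h1
  rw [Finset.sum_eq_single i] at h1
  · simpa using h1
  · intro j _ hj
    rw [coeff_X, if_neg, mul_zero]
    intro h2
    rw [Finsupp.single_left_inj one_ne_zero] at h2
    exact hj h2
  · simp

/-- linear relations among many homogeneous polynomials -/
lemma exists_relation {m' : ℕ} {ι : Type} [Fintype ι] (D : ℕ)
    (u : ι → MvPolynomial (Fin (m' + 1)) K) (hu : ∀ i, (u i).IsHomogeneous D)
    (hcard : (D + 1) ^ m' < Fintype.card ι) :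
    ∃ g : ι → K, ∑ i, g i • u i = 0 ∧ ∃ i, g i ≠ 0 := by
  classical
  let ex : (Fin m' → Fin (D + 1)) → (Fin (m' + 1) →₀ ℕ) := fun μ =>
    Finsupp.equivFunOnFinite.symm (Fin.cons (D - ∑ j, (μ j : ℕ)) (fun j => (μ j : ℕ)))
  let Ψ : MvPolynomial (Fin (m' + 1)) K →ₗ[K] ((Fin m' → Fin (D + 1)) → K) :=
    LinearMap.pi fun μ => lcoeff K (ex μ)
  have hΨ : ∀ φ μ, Ψ φ μ = coeff (ex μ) φ := fun φ μ => rfl
  have hdep : ¬ LinearIndependent K (fun i => Ψ (u i)) := by
    intro hind
    have h1 := hind.fintype_card_le_finrank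
    rw [Module.finrank_fintype_fun_eq_card, Fintype.card_fun, Fintype.card_fin,
      Fintype.card_fin] at h1
    omega
  rw [Fintype.not_linearIndependent_iff] at hdep
  obtain ⟨g, hg, hne⟩ := hdep
  refine ⟨g, ?_, hne⟩
  have hhom : (∑ i, g i • u i).IsHomogeneous D := by
    apply IsHomogeneous.sum
    intro i _
    rw [smul_eq_C_mul]
    exact (hu i).C_mul _
  have hΨ0 : Ψ (∑ i, g i • u i) = 0 := by
    rw [map_sum, ← hg]
    apply Finset.sum_congr rfl
    intro i _
    rw [map_smul]
  ext β
  rw [coeff_zero]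
  by_cases hβ : β.degree = D
  · have hsum : β 0 + ∑ j : Fin m', β j.succ = D := by
      rw [← hβ, Finsupp.degree_eq_sum, Fin.sum_univ_succ]
    have hle : ∀ j : Fin m', β j.succ < D + 1 := by
      intro j
      have := Finset.single_le_sum (f := fun j : Fin m' => β j.succ) (fun _ _ => Nat.zero_le _)
        (Finset.mem_univ j)
      omega
    have hex : ex (fun j => ⟨β j.succ, hle j⟩) = β := by
      ext i
      show (Fin.cons (D - ∑ j, β (Fin.succ j)) (fun j => β (Fin.succ j)) : Fin (m' + 1) → ℕ) i = β i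
      refine Fin.cases ?_ (fun j => ?_) i
      · rw [Fin.cons_zero]; omega
      · rw [Fin.cons_succ]
    rw [← hex, ← hΨ, hΨ0]; rfl
  · exact hhom.coeff_eq_zero hβ

/-- weights of elements of `mm * MI K S` -/
lemma weight_of_mem_mul (S : Set (Fin r →₀ ℕ)) (c : Fin r → ℚ) (hc : ∀ i, 0 < c i) (n : ℚ)
    (hS : ∀ α ∈ S, n ≤ dotN c α) (h : MvPolynomial (Fin r) K) (hh : h ∈ mm K r * MI K S) :
    ∀ β ∈ h.support, n < dotN c β := by
  have hup : IsUpperSet {β : Fin r →₀ ℕ | n < dotN c β} := by
    intro a b hab ha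
    show n < dotN c b
    refine lt_of_lt_of_le (show n < dotN c a from ha) ?_
    apply Finset.sum_le_sum
    intro i _
    exact mul_le_mul_of_nonneg_left (by exact_mod_cast hab i) (hc i).le
  have hle : mm K r * MI K S ≤ MI K {β : Fin r →₀ ℕ | n < dotN c β} := by
    rw [mm, MI, Ideal.span_mul_span', Ideal.span_le]
    rintro _ ⟨_, ⟨i, rfl⟩, _, ⟨α, hα, rfl⟩, rfl⟩
    show X i * monomial α (1 : K) ∈ MI K {β : Fin r →₀ ℕ | n < dotN c β}
    have h1 : (X i * monomial α (1 : K) : MvPolynomial (Fin r) K) =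
        monomial (Finsupp.single i 1 + α) 1 := by
      rw [X, monomial_mul, one_mul]
    rw [h1]
    apply monomial_mem_MI
    show n < dotN c (Finsupp.single i 1 + α)
    have h2 : dotN c (Finsupp.single i 1 + α) = c i + dotN c α := by
      have h3 : dotN c (Finsupp.single i 1 + α) =
          dotN c (Finsupp.single i 1) + dotN c α := by
        simp [dotN, mul_add, Finset.sum_add_distrib]
      rw [h3]
      congr 1
      unfold dotN
      rw [Finset.sum_eq_single i]
      · simp
      · intro j _ hj; simp [Ne.symm hj]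
      · simp
    rw [h2]
    have := hS α hα
    have := hc i
    linarith
  exact (mem_MI hup h).1 (hle hh)

lemma dotN_add_right (c : Fin r → ℚ) (α β : Fin r →₀ ℕ) :
    dotN c (α + β) = dotN c α + dotN c β := by
  simp [dotN, mul_add, Finset.sum_add_distrib]

lemma dotN_smul_right (c : Fin r → ℚ) (k : ℕ) (α : Fin r →₀ ℕ) :
    dotN c (k • α) = k * dotN c α := by
  simp only [dotN, Finsupp.coe_smul, Pi.smul_apply, smul_eq_mul, Nat.cast_mul, Finset.mul_sum]
  exact Finset.sum_congr rfl fun i _ => by ring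

lemma dotN_sum_right {ι : Type*} (s : Finset ι) (c : Fin r → ℚ) (F : ι → (Fin r →₀ ℕ)) :
    dotN c (∑ j ∈ s, F j) = ∑ j ∈ s, dotN c (F j) := by
  classical
  induction s using Finset.induction_on with
  | empty => simp [dotN]
  | insert a s ha ih => rw [Finset.sum_insert ha, Finset.sum_insert ha, dotN_add_right, ih]

lemma dotN_single (c : Fin r → ℚ) (i : Fin r) : dotN c (Finsupp.single i 1) = c i := by
  unfold dotN
  rw [Finset.sum_eq_single i]
  · simp
  · intro j _ hj; simp [Ne.symm hj]
  · simp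

/-- numerical estimate -/
lemma numeric (n m d : ℕ) (hm : 1 ≤ m) (hd : 1 ≤ d) (hbig : m * (m * d) ^ (m - 1) ≤ n) :
    (n * d + 1) ^ (m - 1) < (n / m + 1) ^ m := by
  obtain ⟨m', rfl⟩ : ∃ m', m = m' + 1 := ⟨m - 1, by omega⟩
  simp only [Nat.add_sub_cancel] at hbig ⊢
  set m0 := n / (m' + 1) + 1 with hm0
  have h1 : n + 1 ≤ (m' + 1) * m0 := by
    have := Nat.lt_mul_div_succ n (Nat.succ_pos m')
    rw [hm0]; exact this
  have h2 : n * d + 1 ≤ (m' + 1) * d * m0 := by
    calc n * d + 1 ≤ n * d + d := by omega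
      _ = (n + 1) * d := by ring
      _ ≤ (m' + 1) * m0 * d := Nat.mul_le_mul_right _ h1
      _ = (m' + 1) * d * m0 := by ring
  have h3 : ((m' + 1) * d) ^ m' < m0 := by
    have : ((m' + 1) * d) ^ m' ≤ n / (m' + 1) := by
      rw [Nat.le_div_iff_mul_le (Nat.succ_pos m')]
      rw [mul_comm]; exact hbig
    omega
  calc (n * d + 1) ^ m' ≤ ((m' + 1) * d * m0) ^ m' := Nat.pow_le_pow_left h2 _
    _ = ((m' + 1) * d) ^ m' * m0 ^ m' := by rw [mul_pow]
    _ < m0 * m0 ^ m' := by
        apply Nat.mul_lt_mul_of_pos_right h3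
        positivity
    _ = m0 ^ (m' + 1) := by rw [pow_succ]; ring

/-- the upper bound for the depth over an infinite field -/
theorem upper_inf [Infinite K] (S : Set (Fin r →₀ ℕ)) (c : Fin r → ℚ)
    (hc : ∀ i, 0 < c i) (n d m : ℕ) (hn : 1 ≤ n) (hd : 1 ≤ d)
    (f : Fin (m + 1) → (Fin r →₀ ℕ)) (hf1 : ∀ j, dotN c (f j) = 1)
    (hfind : LinearIndependent ℚ (fun j => toQ (f j))) (hfdeg : ∀ j, (f j).degree ≤ d)
    (hSn : ∀ α ∈ S, (n : ℚ) ≤ dotN c α)
    (hSmem : ∀ lam : Fin (m + 1) → ℕ, ∑ j, lam j = n → ∑ j, lam j • f j ∈ S)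
    (hmr : m + 1 ≤ r) (hbig : m * (m * d) ^ (m - 1) ≤ n)
    (ys : List (MvPolynomial (Fin r) K)) (hys : RegChain (MI K S) ys) (hysm : ∀ y ∈ ys, y ∈ mm K r)
    (hlen : ys.length = r - m) : False := by
  classical
  have hEV : EV (kk K r) (MvPolynomial (Fin r) K ⧸ MI K S) (r - m) := by
    rw [← hlen]
    exact EV_of_chain ys _ hys fun y hy => (mem_ann_kk y).2 (hysm y hy)
  obtain ⟨vs, hvs1, hvs2⟩ := exists_lin_chain (r - m) (MI K S) ⊥ (by simp) hEV
  rw [bot_sup_eq, finrank_bot, zero_add] at hvs2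
  obtain ⟨q, hq, hθ⟩ := exists_theta vs m (by omega)
  set θ : MvPolynomial (Fin r) K →ₐ[K] MvPolynomial (Fin m) K :=
    aeval (fun i => lin K m (q (Pi.single i 1))) with hθdef
  -- the contradiction principle
  have contra : ∀ h : MvPolynomial (Fin r) K, h ∈ MI K S → θ h = 0 →
      ∀ β ∈ h.support, (n : ℚ) < dotN c β := by
    intro h h1 h2
    have h3 := chain_inter _ _ hvs1 h h1 (hθ h h2)
    have h4 : Ideal.span {y | y ∈ vs.map (lin K r)} ≤ mm K r := by
      rw [Ideal.span_le]
      intro y hy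
      obtain ⟨v, _, rfl⟩ := List.mem_map.1 hy
      exact lin_mem_mm v
    exact weight_of_mem_mul S c hc n hSn h (Ideal.mul_mono_left h4 h3)
  rcases Nat.eq_zero_or_pos m with hm0 | hmpos
  · -- `m = 0`
    subst hm0
    have hmem := hSmem (fun _ => n) (by simp)
    rw [Fin.sum_univ_one] at hmem
    have hdot : dotN c (n • f 0) = n := by rw [dotN_smul_right, hf1, mul_one]
    have hne : ∃ i, (n • f 0) i ≠ 0 := by
      by_contra hcon
      push Not at hcon
      have : dotN c (n • f 0) = 0 := by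
        unfold dotN
        apply Finset.sum_eq_zero
        intro i _
        rw [hcon i]; simp
      rw [hdot] at this
      have : n = 0 := by exact_mod_cast this
      omega
    have h1 : θ (monomial (n • f 0) 1) = 0 := by
      rw [hθdef, aeval_monomial]
      obtain ⟨i, hi⟩ := hne
      rw [Finsupp.prod, Finset.prod_eq_zero (Finsupp.mem_support_iff.2 hi)]
      · rw [mul_zero]
      · have : lin K 0 (q (Pi.single i 1)) = 0 := by rw [lin_apply]; simp
        rw [this]
        exact zero_pow hi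
    have h2 := contra _ (monomial_mem_MI hmem 1) h1 (n • f 0) (by
      rw [mem_support_iff, coeff_monomial, if_pos rfl]; exact one_ne_zero)
    rw [hdot] at h2
    exact lt_irrefl _ h2
  · obtain ⟨m', rfl⟩ : ∃ m', m = m' + 1 := ⟨m - 1, by omega⟩
    -- a variable with nonzero image
    obtain ⟨i0, hi0⟩ : ∃ i0, q (Pi.single i0 1) ≠ 0 := by
      by_contra hcon
      push Not at hcon
      have hq0 : q = 0 := by
        apply LinearMap.pi_ext'
        intro i
        ext
        simp [hcon i]
      obtain ⟨v, hv⟩ := hq (Pi.single 0 1)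
      rw [hq0] at hv
      have := congrFun hv 0
      simp at this
    have hz0 : θ (X i0) ≠ 0 := by
      rw [hθdef, aeval_X]
      exact fun h => hi0 (lin_injective _ h)
    have hzhom : (θ (X i0)).IsHomogeneous 1 := by
      rw [hθdef, aeval_X]; exact lin_homogeneous _
    have hθhom : ∀ β : Fin r →₀ ℕ, (θ (monomial β 1)).IsHomogeneous β.degree := by
      intro β
      have := (isHomogeneous_monomial (σ := Fin r) (d := β) (1 : K) rfl).aeval
        (fun i => lin K (m' + 1) (q (Pi.single i 1))) (fun i => lin_homogeneous _)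
      rwa [one_mul] at this
    set m0 := n / (m' + 1) + 1 with hm0
    -- the exponents
    let lam : (Fin (m' + 1) → Fin m0) → (Fin (m' + 1 + 1) → ℕ) := fun μ =>
      Fin.cons (n - ∑ j, (μ j : ℕ)) (fun j => (μ j : ℕ))
    have hμsum : ∀ μ : Fin (m' + 1) → Fin m0, ∑ j, (μ j : ℕ) ≤ n := by
      intro μ
      calc ∑ j, (μ j : ℕ) ≤ ∑ _j : Fin (m' + 1), n / (m' + 1) := by
            apply Finset.sum_le_sum
            intro j _
            have := (μ j).2
            omega
        _ = (m' + 1) * (n / (m' + 1)) := by simp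
        _ ≤ n := Nat.mul_div_le n (m' + 1)
    have hlam : ∀ μ, ∑ j, lam μ j = n := by
      intro μ
      rw [Fin.sum_univ_succ]
      simp only [lam, Fin.cons_zero, Fin.cons_succ]
      have := hμsum μ
      omega
    obtain ⟨β, hβdef⟩ : ∃ β : (Fin (m' + 1) → Fin m0) → (Fin r →₀ ℕ),
        ∀ μ, β μ = ∑ j, lam μ j • f j := ⟨_, fun _ => rfl⟩
    have hβS : ∀ μ, β μ ∈ S := fun μ => by rw [hβdef]; exact hSmem _ (hlam μ)
    have hβdot : ∀ μ, dotN c (β μ) = n := by
      intro μ
      rw [hβdef, dotN_sum_right]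
      simp only [dotN_smul_right, hf1, mul_one]
      exact_mod_cast hlam μ
    have hβinj : Function.Injective β := by
      intro μ ν h
      have h1 : ∑ j, (lam μ j : ℚ) • toQ (f j) = ∑ j, (lam ν j : ℚ) • toQ (f j) := by
        have h2 : ∀ μ, ∑ j, (lam μ j : ℚ) • toQ (f j) = toQ (β μ) := by
          intro μ
          ext i
          simp only [hβdef, toQ, Finset.sum_apply, Pi.smul_apply, smul_eq_mul,
            Finsupp.coe_finsetSum, Finsupp.coe_smul]
          push_cast
          rfl
        rw [h2, h2, h]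
      have h3 : ∑ j, ((lam μ j : ℚ) - (lam ν j : ℚ)) • toQ (f j) = 0 := by
        simp only [sub_smul, Finset.sum_sub_distrib, h1, sub_self]
      have h4 := Fintype.linearIndependent_iff.1 hfind _ h3
      ext j
      have h5 := h4 j.succ
      have h6 : (lam μ j.succ : ℚ) = lam ν j.succ := by linarith
      have h7 : lam μ j.succ = lam ν j.succ := by exact_mod_cast h6
      simpa [lam] using h7
    have hβdeg : ∀ μ, (β μ).degree ≤ n * d := by
      intro μ
      rw [hβdef, map_sum]
      calc ∑ j, (lam μ j • f j).degree = ∑ j, lam μ j * (f j).degree := by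
            apply Finset.sum_congr rfl; intro j _; rw [map_nsmul, smul_eq_mul]
        _ ≤ ∑ j, lam μ j * d := Finset.sum_le_sum fun j _ => Nat.mul_le_mul_left _ (hfdeg j)
        _ = n * d := by rw [← Finset.sum_mul, hlam]
    obtain ⟨u, hudef⟩ : ∃ u : (Fin (m' + 1) → Fin m0) → MvPolynomial (Fin (m' + 1)) K,
        ∀ μ, u μ = θ (X i0) ^ (n * d - (β μ).degree) * θ (monomial (β μ) 1) :=
      ⟨_, fun _ => rfl⟩
    have hu : ∀ μ, (u μ).IsHomogeneous (n * d) := by
      intro μ
      rw [hudef]
      have h1 := (hzhom.pow (n * d - (β μ).degree)).mul (hθhom (β μ))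
      rw [one_mul, Nat.sub_add_cancel (hβdeg μ)] at h1
      exact h1
    have hcard : (n * d + 1) ^ m' < Fintype.card (Fin (m' + 1) → Fin m0) := by
      rw [Fintype.card_fun, Fintype.card_fin, Fintype.card_fin]
      have := numeric n (m' + 1) d hmpos hd hbig
      simpa using this
    obtain ⟨g, hg, μ1, hμ1⟩ := exists_relation (n * d) u hu hcard
    -- choose the maximal degree in the support
    obtain ⟨μ0, hμ0, hmax⟩ := Finset.exists_max_image
      (Finset.univ.filter (fun μ => g μ ≠ 0)) (fun μ => (β μ).degree) ⟨μ1, by simp [hμ1]⟩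
    have hgμ0 : g μ0 ≠ 0 := (Finset.mem_filter.1 hμ0).2
    have hmax' : ∀ μ, g μ ≠ 0 → (β μ).degree ≤ (β μ0).degree := fun μ hμ =>
      hmax μ (Finset.mem_filter.2 ⟨Finset.mem_univ _, hμ⟩)
    obtain ⟨e, hedef⟩ : ∃ e : (Fin (m' + 1) → Fin m0) → ℕ,
        ∀ μ, e μ = (β μ0).degree - (β μ).degree := ⟨_, fun _ => rfl⟩
    obtain ⟨h, hhdef⟩ : ∃ h : MvPolynomial (Fin r) K,
        h = ∑ μ, g μ • (X i0 ^ e μ * monomial (β μ) 1) := ⟨_, rfl⟩
    have hθh : θ (X i0) ^ (n * d - (β μ0).degree) * θ h = 0 := by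
      rw [← hg, hhdef, map_sum θ, Finset.mul_sum]
      apply Finset.sum_congr rfl
      intro μ _
      rw [map_smul, map_mul, map_pow, mul_smul_comm]
      by_cases hgμ : g μ = 0
      · rw [hgμ, zero_smul, zero_smul]
      · rw [hudef, ← mul_assoc, ← pow_add]
        have h1 := hmax' μ hgμ
        have h2 := hβdeg μ0
        have h3 : n * d - (β μ0).degree + e μ = n * d - (β μ).degree := by
          rw [hedef]; omega
        rw [h3]
    have hθh0 : θ h = 0 := by
      rcases mul_eq_zero.1 hθh with h1 | h1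
      · exact absurd h1 (pow_ne_zero _ hz0)
      · exact h1
    have hhJ : h ∈ MI K S := by
      rw [hhdef]
      apply Ideal.sum_mem
      intro μ _
      rw [smul_eq_C_mul]
      exact Ideal.mul_mem_left _ _ (Ideal.mul_mem_left _ _ (monomial_mem_MI (hβS μ) 1))
    have hmono : ∀ μ, (X i0 ^ e μ * monomial (β μ) (1 : K) : MvPolynomial (Fin r) K) =
        monomial (e μ • Finsupp.single i0 1 + β μ) 1 := by
      intro μ
      rw [X_pow_eq_monomial, monomial_mul, one_mul]
      congr 2
      simp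
    have hcoef : coeff (β μ0) h = g μ0 := by
      rw [hhdef, coeff_sum, Finset.sum_eq_single μ0]
      · rw [hmono, coeff_smul, coeff_monomial, if_pos, smul_eq_mul, mul_one]
        simp [hedef]
      · intro μ _ hμ
        rw [hmono, coeff_smul, coeff_monomial, if_neg, smul_zero]
        intro heq
        have h1 := congrArg (dotN c) heq
        rw [dotN_add_right, dotN_smul_right, dotN_single, hβdot, hβdot] at h1
        have h2 : (e μ : ℚ) * c i0 = 0 := by linarith
        have h3 : e μ = 0 := by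
          rcases mul_eq_zero.1 h2 with h3 | h3
          · exact_mod_cast h3
          · exact absurd h3 (hc i0).ne'
        rw [h3, zero_smul, zero_add] at heq
        exact hμ (hβinj heq)
      · intro h1; exact absurd (Finset.mem_univ _) h1
    have h1 := contra h hhJ hθh0 (β μ0) (by rw [mem_support_iff, hcoef]; exact hgμ0)
    rw [hβdot] at h1
    exact lt_irrefl _ h1

end Pool.Agent.Helper698.Dstab
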