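import Mathlib
import Pool.Agent.Helper698.DD1

open MvPolynomial RingTheory.Sequence
open scoped Pointwise

universe u

namespace Pool.Agent.Helper698.Dstab

section general

variable {R : Type u} [CommRing R]

lemma smul_top_eq_map (J : Ideal R) (y : R) :
    (y • (⊤ : Submodule R (R ⧸ J))) = Submodule.map (Submodule.mkQ J) (J ⊔ Ideal.span {y}) := by
  ext m
  obtain ⟨f, rfl⟩ := Submodule.Quotient.mk_surjective _ m
  constructor
  · intro h
    obtain ⟨m', -, hm'⟩ := (Submodule.mem_smul_pointwise_iff_exists _ _ _).1 h
    obtain ⟨f', rfl⟩ := Submodule.Quotient.mk_surjective _ m'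
    refine ⟨y * f', ?_, ?_⟩
    · exact Ideal.mem_sup_right (Ideal.mul_mem_right _ _ (Ideal.mem_span_singleton_self y))
    · exact hm'
  · rintro ⟨g, hg, hgf⟩
    obtain ⟨a, ha, b, hb, rfl⟩ := Submodule.mem_sup.1 hg
    obtain ⟨c, rfl⟩ := Ideal.mem_span_singleton.1 hb
    refine (Submodule.mem_smul_pointwise_iff_exists _ _ _).2
      ⟨Submodule.Quotient.mk c, trivial, ?_⟩
    rw [← hgf, ← Submodule.Quotient.mk_smul]
    show Submodule.Quotient.mk (y * c) = Submodule.Quotient.mk (a + y * c)
    rw [Submodule.Quotient.eq]
    have : y * c - (a + y * c) = - a := by ring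
    rw [this]
    exact J.neg_mem ha

lemma chain_of_isWeaklyRegular : ∀ (rs : List R) (J : Ideal R), IsWeaklyRegular (R ⧸ J) rs →
    RegChain J rs := by
  intro rs
  induction rs with
  | nil => intro J _; trivial
  | cons y rs ih =>
    intro J h
    rw [isWeaklyRegular_cons_iff] at h
    obtain ⟨h1, h2⟩ := h
    constructor
    · intro a ha
      have h3 : y • (Submodule.Quotient.mk a : R ⧸ J) = y • 0 := by
        rw [smul_zero, ← Submodule.Quotient.mk_smul, Submodule.Quotient.mk_eq_zero]
        exact ha
      exact (Submodule.Quotient.mk_eq_zero J).1 (h1 h3)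
    · apply ih
      let e1 : QuotSMulTop y (R ⧸ J) ≃ₗ[R]
          ((R ⧸ J) ⧸ Submodule.map (Submodule.mkQ J) (J ⊔ Ideal.span {y})) :=
        Submodule.quotEquivOfEq _ _ (smul_top_eq_map J y)
      let e2 := Submodule.quotientQuotientEquivQuotient J (J ⊔ Ideal.span {y}) le_sup_left
      exact ((e1.trans e2).isWeaklyRegular_congr rs).1 h2

lemma RegChain_take : ∀ (rs : List R) (J : Ideal R) (k : ℕ), RegChain J rs →
    RegChain J (rs.take k) := by
  intro rs
  induction rs with
  | nil => intro J k _; simp only [List.take_nil]; trivial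
  | cons y rs ih =>
    intro J k h
    cases k with
    | zero => simp only [List.take_zero]; trivial
    | succ k =>
      rw [List.take_succ_cons]
      exact ⟨h.1, ih _ k h.2⟩

end general

variable {r : ℕ} {K L : Type u} [Field K] [Field L] [Algebra K L]

/-- apply a functional to the coefficients -/
noncomputable def push (l : L →ₗ[K] K) (F : MvPolynomial (Fin r) L) : MvPolynomial (Fin r) K :=
  ∑ α ∈ F.support, monomial α (l (coeff α F))

lemma coeff_push (l : L →ₗ[K] K) (F : MvPolynomial (Fin r) L) (α : Fin r →₀ ℕ) :
    coeff α (push l F) = l (coeff α F) := by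
  classical
  unfold push
  rw [coeff_sum]
  simp only [coeff_monomial]
  rw [Finset.sum_ite_eq' F.support α (fun β => l (coeff β F))]
  split_ifs with h
  · rfl
  · rw [notMem_support_iff.1 h, map_zero]

lemma push_add (l : L →ₗ[K] K) (F G : MvPolynomial (Fin r) L) :
    push l (F + G) = push l F + push l G := by
  ext α; simp [coeff_push]

lemma push_zero (l : L →ₗ[K] K) : push l (0 : MvPolynomial (Fin r) L) = 0 := by
  ext α; simp [coeff_push]

lemma push_map_mul (l : L →ₗ[K] K) (g : MvPolynomial (Fin r) K) (F : MvPolynomial (Fin r) L) :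
    push l (map (algebraMap K L) g * F) = g * push l F := by
  classical
  ext α
  rw [coeff_push, coeff_mul, coeff_mul, map_sum]
  apply Finset.sum_congr rfl
  intro x _
  rw [coeff_map, coeff_push, ← Algebra.smul_def, map_smul, smul_eq_mul]

lemma mem_map_iff (J : Ideal (MvPolynomial (Fin r) K)) (F : MvPolynomial (Fin r) L) :
    F ∈ J.map (map (algebraMap K L)) ↔ ∀ l : L →ₗ[K] K, push l F ∈ J := by
  classical
  constructor
  · intro hF
    have key : ∀ H : MvPolynomial (Fin r) L, ∀ l : L →ₗ[K] K, push l (H * F) ∈ J := by
      refine Submodule.span_induction (p := fun F _ => ∀ H : MvPolynomial (Fin r) L,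
        ∀ l : L →ₗ[K] K, push l (H * F) ∈ J) ?_ ?_ ?_ ?_ hF
      · rintro _ ⟨g, hg, rfl⟩ H l
        rw [mul_comm]
        show push l (map (algebraMap K L) g * H) ∈ J
        rw [push_map_mul]
        exact J.mul_mem_right _ hg
      · intro H l
        rw [mul_zero, push_zero]; exact J.zero_mem
      · intro x y _ _ hx hy H l
        rw [mul_add, push_add]
        exact J.add_mem (hx H l) (hy H l)
      · intro a x _ hx H l
        rw [smul_eq_mul, ← mul_assoc]
        exact hx _ l
    intro l
    have := key 1 l
    rwa [one_mul] at this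
  · intro h
    let b := Module.Basis.ofVectorSpace K L
    let I : Finset (Module.Basis.ofVectorSpaceIndex K L) :=
      F.support.biUnion fun α => (b.repr (coeff α F)).support
    have hF : F = ∑ i ∈ I, C (b i) * map (algebraMap K L) (push (b.coord i) F) := by
      ext α
      rw [coeff_sum]
      simp only [coeff_C_mul, coeff_map, coeff_push, Module.Basis.coord_apply]
      have h1 : coeff α F = ∑ i ∈ (b.repr (coeff α F)).support, b.repr (coeff α F) i • b i := by
        conv_lhs => rw [← b.linearCombination_repr (coeff α F)]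
        rw [Finsupp.linearCombination_apply, Finsupp.sum]
      conv_lhs => rw [h1]
      have h2 : ∀ i, b i * algebraMap K L (b.repr (coeff α F) i) =
          b.repr (coeff α F) i • b i := by
        intro i; rw [Algebra.smul_def, mul_comm]
      simp only [h2]
      apply Finset.sum_subset_zero_on_sdiff
      · intro i hi
        by_cases hα : α ∈ F.support
        · exact Finset.mem_biUnion.2 ⟨α, hα, hi⟩
        · rw [notMem_support_iff.1 hα] at hi
          simp at hi
      · intro i hi
        have := (Finset.mem_sdiff.1 hi).2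
        rw [Finsupp.notMem_support_iff] at this
        rw [this, zero_smul]
      · intro i _; rfl
    rw [hF]
    apply Ideal.sum_mem
    intro i _
    exact Ideal.mul_mem_left _ _ (Ideal.mem_map_of_mem _ (h _))

lemma chain_map : ∀ (ys : List (MvPolynomial (Fin r) K)) (J : Ideal (MvPolynomial (Fin r) K)),
    RegChain J ys → RegChain (J.map (map (algebraMap K L))) (ys.map (map (algebraMap K L))) := by
  intro ys
  induction ys with
  | nil => intro J _; trivial
  | cons y ys ih =>
    intro J h
    rw [List.map_cons]
    constructor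
    · intro F hF
      rw [mem_map_iff] at hF ⊢
      intro l
      have := hF l
      rw [push_map_mul] at this
      exact h.1 _ this
    · have h1 := ih _ h.2
      rw [Ideal.map_sup, Ideal.map_span, Set.image_singleton] at h1
      exact h1

lemma MI_map (S : Set (Fin r →₀ ℕ)) : (MI K S).map (map (algebraMap K L)) = MI L S := by
  rw [MI, MI, Ideal.map_span, ← Set.image_comp]
  congr 1
  apply Set.image_congr
  intro α _
  simp

lemma mm_map {y : MvPolynomial (Fin r) K} (hy : y ∈ mm K r) :
    map (algebraMap K L) y ∈ mm L r := by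
  have h1 : (mm K r).map (map (algebraMap K L)) ≤ mm L r := by
    rw [mm, Ideal.map_span, Ideal.span_le]
    rintro _ ⟨_, ⟨i, rfl⟩, rfl⟩
    rw [map_X]
    exact Ideal.subset_span ⟨i, rfl⟩
  exact h1 (Ideal.mem_map_of_mem _ hy)

end Pool.Agent.Helper698.Dstab
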