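import Mathlib

/-!
Definitions for the depth stability index of the integral closures of the powers of a monomial
ideal `I` of `K[X_1, …, X_r]`.
-/

open MvPolynomial RingTheory.Sequence
open scoped Pointwise

universe u

namespace Pool.Agent.Helper698.Dstab

variable {r : ℕ} {K : Type u} [Field K]

/-- `I` is a monomial ideal: it is generated by monomials. -/
def IsMonomialIdeal (I : Ideal (MvPolynomial (Fin r) K)) : Prop :=
  ∃ S : Set (Fin r →₀ ℕ), I = Ideal.span ((fun α => monomial α (1 : K)) '' S)

/-- `E(I)`, the set of exponents of the monomials in `I`. -/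
def expSet (I : Ideal (MvPolynomial (Fin r) K)) : Set (Fin r →₀ ℕ) :=
  {α | monomial α (1 : K) ∈ I}

/-- The exponents of the minimal monomial generators of `I`. -/
def genExp (I : Ideal (MvPolynomial (Fin r) K)) : Set (Fin r →₀ ℕ) :=
  {α | Minimal (fun β => β ∈ expSet I) α}

/-- `d(I)`, the maximal degree of a minimal monomial generator of `I`. -/
noncomputable def maxGenDegree (I : Ideal (MvPolynomial (Fin r) K)) : ℕ :=
  sSup {k | ∃ α ∈ genExp I, k = ∑ i, α i}

/-- The integral closure of `I ^ n` for a monomial ideal `I`: the monomial ideal whose exponents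
are the points of `ℕ^r` in `n • conv(E(I))`. -/
noncomputable def intClosurePow (I : Ideal (MvPolynomial (Fin r) K)) (n : ℕ) :
    Ideal (MvPolynomial (Fin r) K) :=
  Ideal.span ((fun α => monomial α (1 : K)) '' {α : Fin r →₀ ℕ | (fun i => (α i : ℝ)) ∈
    (n : ℝ) • convexHull ℝ ((fun (β : Fin r →₀ ℕ) (i : Fin r) => (β i : ℝ)) '' expSet I)})

/-- The depth of `K[X] ⧸ J`: the supremum of the lengths of the regular sequences on `K[X] ⧸ J`
all of whose terms lie in `𝔪 = (X_1, …, X_r)`. -/
noncomputable def depthQuot (J : Ideal (MvPolynomial (Fin r) K)) : ℕ∞ :=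
  ⨆ (rs : List (MvPolynomial (Fin r) K))
    (_ : (∀ x ∈ rs, x ∈ Ideal.span (Set.range (X : Fin r → MvPolynomial (Fin r) K))) ∧
      IsRegular (MvPolynomial (Fin r) K ⧸ J) rs), (rs.length : ℕ∞)

/-- The depth stability index: the least `s ≥ 1` such that `depth R ⧸ closure (I ^ n)` is the same
for all `n ≥ s`. -/
noncomputable def dstabBar (I : Ideal (MvPolynomial (Fin r) K)) : ℕ :=
  sInf {s | 1 ≤ s ∧ ∀ n, s ≤ n →
    depthQuot (intClosurePow I n) = depthQuot (intClosurePow I s)}

end Pool.Agent.Helper698.Dstab
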