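import Mathlib
import Pool.Agent.Helper698.DDef
import Pool.Agent.Helper698.DA1
import Pool.Agent.Helper698.DC4
import Pool.Agent.Helper698.DD2
import Pool.Agent.Helper698.DD3

open MvPolynomial RingTheory.Sequence CategoryTheory Abelian
open scoped Pointwise

universe u

namespace Pool.Agent.Helper698.Dstab

variable {r : ℕ} {K : Type u} [Field K]

lemma expSet_up (I : Ideal (MvPolynomial (Fin r) K)) {a b : Fin r →₀ ℕ} (ha : a ∈ expSet I)
    (hab : a ≤ b) : b ∈ expSet I := by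
  have h1 : (monomial b (1 : K)) = monomial (b - a) 1 * monomial a 1 := by
    rw [monomial_mul, one_mul, tsub_add_cancel_of_le hab]
  show monomial b (1 : K) ∈ I
  rw [h1]
  exact I.mul_mem_left _ ha

lemma genExp_finite (I : Ideal (MvPolynomial (Fin r) K)) : (genExp I).Finite := by
  apply WellQuasiOrderedLE.finite_of_isAntichain
  intro a ha b hb hne hle
  exact hne (le_antisymm hle (hb.2 ha.1 hle))

lemma expSet_iff (I : Ideal (MvPolynomial (Fin r) K)) (a : Fin r →₀ ℕ) :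
    a ∈ expSet I ↔ ∃ g ∈ (genExp_finite I).toFinset, g ≤ a := by
  constructor
  · intro ha
    obtain ⟨g, hga, hg⟩ := exists_minimal_le_of_wellFoundedLT (fun β => β ∈ expSet I) a ha
    exact ⟨g, (genExp_finite I).mem_toFinset.2 hg, hga⟩
  · rintro ⟨g, hg, hga⟩
    exact expSet_up I ((genExp_finite I).mem_toFinset.1 hg).1 hga

lemma intClosurePow_eq (I : Ideal (MvPolynomial (Fin r) K))
    (hG : (genExp_finite I).toFinset.Nonempty) (n : ℕ) (hn : 1 ≤ n) :
    intClosurePow I n = MI K (NE (genExp_finite I).toFinset n) := by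
  unfold intClosurePow MI NE
  congr 2
  ext α
  exact mem_newton_iff _ hG (expSet I) (expSet_iff I) n hn α

lemma mm_ne_top : mm K r ≠ ⊤ := by
  intro h
  have h1 : mm K r ≤ RingHom.ker (constantCoeff (R := K) (σ := Fin r)) := by
    rw [mm, Ideal.span_le]
    rintro _ ⟨i, rfl⟩
    show constantCoeff (X i) = 0
    simp
  rw [h] at h1
  have h2 : (1 : MvPolynomial (Fin r) K) ∈ RingHom.ker (constantCoeff (R := K) (σ := Fin r)) :=
    h1 trivial
  rw [RingHom.mem_ker, map_one] at h2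
  exact one_ne_zero h2

lemma smul_lt (J : Ideal (MvPolynomial (Fin r) K)) (hJ : J ≤ mm K r) :
    mm K r • (⊤ : Submodule (MvPolynomial (Fin r) K) (MvPolynomial (Fin r) K ⧸ J)) < ⊤ := by
  rw [lt_top_iff_ne_top]
  intro h
  have h1 : mm K r • (⊤ : Submodule (MvPolynomial (Fin r) K) (MvPolynomial (Fin r) K ⧸ J)) =
      Submodule.map (Submodule.mkQ J) (mm K r) := by
    have h2 := Submodule.map_smul'' (mm K r)
      (⊤ : Submodule (MvPolynomial (Fin r) K) (MvPolynomial (Fin r) K)) (Submodule.mkQ J)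
    rw [Submodule.map_top, Submodule.range_mkQ] at h2
    rw [← h2]
    congr 1
    rw [smul_eq_mul, Ideal.mul_top]
  rw [h1] at h
  have h3 : (Submodule.Quotient.mk 1 : MvPolynomial (Fin r) K ⧸ J) ∈
      Submodule.map (Submodule.mkQ J) (mm K r) := by rw [h]; trivial
  obtain ⟨f, hf, hf1⟩ := h3
  have h4 : f - 1 ∈ J := (Submodule.Quotient.eq J).1 hf1
  have h5 : (1 : MvPolynomial (Fin r) K) ∈ mm K r := by
    have : (1 : MvPolynomial (Fin r) K) = f - (f - 1) := by ring
    rw [this]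
    exact sub_mem hf (hJ h4)
  exact mm_ne_top ((Ideal.eq_top_iff_one _).2 h5)

lemma exists_regular_of_EV (J : Ideal (MvPolynomial (Fin r) K)) (hJ : J ≤ mm K r) (t : ℕ)
    (h : EV (kk K r) (MvPolynomial (Fin r) K ⧸ J) t) :
    ∃ rs : List (MvPolynomial (Fin r) K), rs.length = t ∧ (∀ x ∈ rs, x ∈ mm K r) ∧
      IsRegular (MvPolynomial (Fin r) K ⧸ J) rs := by
  have hfin : Module.Finite (MvPolynomial (Fin r) K) (kk K r) := by
    unfold kk; infer_instance
  have hsupp : Module.support (MvPolynomial (Fin r) K) (kk K r) =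
      PrimeSpectrum.zeroLocus (mm K r : Set (MvPolynomial (Fin r) K)) := by
    show Module.support (MvPolynomial (Fin r) K) (MvPolynomial (Fin r) K ⧸ mm K r) = _
    rw [Module.support_eq_zeroLocus, Ideal.annihilator_quotient]
  exact ModuleCat.exists_isRegular_of_exists_subsingleton_ext (mm K r) t
    (ModuleCat.of _ (MvPolynomial (Fin r) K ⧸ J)) (smul_lt J hJ) (kk K r) hsupp h

/-- the upper bound over an arbitrary field -/
lemma upper_all (S : Set (Fin r →₀ ℕ)) (c : Fin r → ℚ)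
    (hc : ∀ i, 0 < c i) (n d m : ℕ) (hn : 1 ≤ n) (hd : 1 ≤ d)
    (f : Fin (m + 1) → (Fin r →₀ ℕ)) (hf1 : ∀ j, dotN c (f j) = 1)
    (hfind : LinearIndependent ℚ (fun j => toQ (f j))) (hfdeg : ∀ j, (f j).degree ≤ d)
    (hSn : ∀ α ∈ S, (n : ℚ) ≤ dotN c α)
    (hSmem : ∀ lam : Fin (m + 1) → ℕ, ∑ j, lam j = n → ∑ j, lam j • f j ∈ S)
    (hmr : m + 1 ≤ r) (hbig : m * (m * d) ^ (m - 1) ≤ n)
    (rs : List (MvPolynomial (Fin r) K)) (hrs : IsRegular (MvPolynomial (Fin r) K ⧸ MI K S) rs)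
    (hmem : ∀ x ∈ rs, x ∈ mm K r) : rs.length ≤ r - (m + 1) := by
  by_contra hcon
  push Not at hcon
  have h1 := RegChain_take rs (MI K S) (r - m) (chain_of_isWeaklyRegular rs _ hrs.toIsWeaklyRegular)
  have h2 := chain_map (L := AlgebraicClosure K) _ _ h1
  rw [MI_map] at h2
  refine upper_inf (K := AlgebraicClosure K) S c hc n d m hn hd f hf1 hfind hfdeg hSn hSmem hmr
    hbig _ h2 ?_ ?_
  · intro y hy
    obtain ⟨x, hx, rfl⟩ := List.mem_map.1 hy
    exact mm_map (hmem x (List.mem_of_mem_take hx))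
  · rw [List.length_map, List.length_take]
    omega

lemma toQ_ne_zero {g : Fin r →₀ ℕ} (hg : g ≠ 0) : toQ g ≠ 0 := by
  intro h
  apply hg
  ext i
  have := congrFun h i
  simpa [toQ] using this

lemma exists_max_rank (G : Finset (Fin r →₀ ℕ)) (hG : G.Nonempty) (h0 : ∀ g ∈ G, g ≠ 0) :
    ∃ m : ℕ, m + 1 ≤ r ∧ (∃ c' ∈ BB G, (∀ i, 0 < c' i) ∧
      Module.finrank ℚ (Submodule.span ℚ (toQ '' {g | g ∈ G ∧ dotN c' g = 1})) = m + 1) ∧
      ∀ c' ∈ BB G, (∀ i, 0 < c' i) →
      Module.finrank ℚ (Submodule.span ℚ (toQ '' {g | g ∈ G ∧ dotN c' g = 1})) ≤ m + 1 := by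
  let P : Set ℕ := {k | ∃ c' ∈ BB G, (∀ i, 0 < c' i) ∧
      Module.finrank ℚ (Submodule.span ℚ (toQ '' {g | g ∈ G ∧ dotN c' g = 1})) = k}
  have hbdd : ∀ k ∈ P, k ≤ r := by
    rintro k ⟨c', _, _, rfl⟩
    refine (Submodule.finrank_le _).trans ?_
    rw [Module.finrank_fintype_fun_eq_card, Fintype.card_fin]
  have hB : BddAbove P := ⟨r, hbdd⟩
  -- an element with nonempty tight set
  have hpos : ∃ k ∈ P, 1 ≤ k := by
    obtain ⟨g0, hg0, hmin⟩ := G.exists_min_image (fun g => g.degree) hG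
    have hd0 : 0 < g0.degree := by
      rw [Nat.pos_iff_ne_zero]
      intro h
      exact h0 g0 hg0 ((Finsupp.degree_eq_zero_iff g0).1 h)
    have hd0' : (0 : ℚ) < g0.degree := by exact_mod_cast hd0
    have hdot : ∀ g : Fin r →₀ ℕ,
        dotN (fun _ => 1 / (g0.degree : ℚ)) g = (g.degree : ℚ) / g0.degree := by
      intro g
      have h1 : (g.degree : ℚ) = ∑ i, (g i : ℚ) := by
        rw [Finsupp.degree_eq_sum g]; push_cast; rfl
      unfold dotN
      rw [← Finset.mul_sum, ← h1]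
      ring
    have hmem : (fun _ => 1 / (g0.degree : ℚ) : Fin r → ℚ) ∈ BB G := by
      refine ⟨fun i => by positivity, fun g hg => ?_⟩
      rw [hdot, le_div_iff₀ hd0', one_mul]
      exact_mod_cast hmin g hg
    refine ⟨_, ⟨_, hmem, fun i => by positivity, rfl⟩, ?_⟩
    rw [Submodule.one_le_finrank_iff]
    intro hbot
    have h1 : toQ g0 ∈ Submodule.span ℚ
        (toQ '' {g | g ∈ G ∧ dotN (fun _ => 1 / (g0.degree : ℚ)) g = 1}) := by
      apply Submodule.subset_span
      refine ⟨g0, ⟨hg0, ?_⟩, rfl⟩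
      rw [hdot]
      exact div_self hd0'.ne'
    rw [hbot, Submodule.mem_bot] at h1
    exact toQ_ne_zero (h0 g0 hg0) h1
  obtain ⟨k1, hk1, hk1'⟩ := hpos
  have hmax : sSup P ∈ P := Nat.sSup_mem ⟨k1, hk1⟩ hB
  have hge : 1 ≤ sSup P := hk1'.trans (le_csSup hB hk1)
  refine ⟨sSup P - 1, ?_, ?_, ?_⟩
  · have := hbdd _ hmax
    omega
  · obtain ⟨c', h1, h2, h3⟩ := hmax
    exact ⟨c', h1, h2, by rw [h3]; omega⟩
  · intro c' h1 h2
    have := le_csSup hB (show _ ∈ P from ⟨c', h1, h2, rfl⟩)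
    omega

lemma exists_family (G : Finset (Fin r →₀ ℕ)) (c' : Fin r → ℚ) (m : ℕ)
    (h : Module.finrank ℚ (Submodule.span ℚ (toQ '' {g | g ∈ G ∧ dotN c' g = 1})) = m + 1) :
    ∃ f : Fin (m + 1) → (Fin r →₀ ℕ), (∀ j, f j ∈ G) ∧ (∀ j, dotN c' (f j) = 1) ∧
      LinearIndependent ℚ (fun j => toQ (f j)) := by
  classical
  obtain ⟨b, hb, hspan, hind⟩ := exists_linearIndependent ℚ (toQ '' {g | g ∈ G ∧ dotN c' g = 1})
  have hfin : b.Finite := by
    apply Set.Finite.subset _ hb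
    exact (G.finite_toSet.subset (fun g hg => hg.1)).image toQ
  have := hfin.fintype
  have hcard : Fintype.card b = m + 1 := by
    have h1 := finrank_span_set_eq_card hind
    rw [hspan, h] at h1
    rw [h1, Set.toFinset_card]
  let e : Fin (m + 1) ≃ b := (Fintype.equivFinOfCardEq hcard).symm
  have hex : ∀ j, ∃ g, (g ∈ G ∧ dotN c' g = 1) ∧ toQ g = (e j : Fin r → ℚ) := fun j =>
    hb (e j).2
  choose f hf1 hf2 using hex
  refine ⟨f, fun j => (hf1 j).1, fun j => (hf1 j).2, ?_⟩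
  have h2 : (fun j => toQ (f j)) = (fun x : b => (x : Fin r → ℚ)) ∘ e := by
    ext1 j; exact hf2 j
  rw [h2]
  exact hind.comp e e.injective

lemma NE_le_mm (G : Finset (Fin r →₀ ℕ)) (n : ℕ) (hn : 1 ≤ n) (hV : (VV G).Nonempty) :
    MI K (NE G n) ≤ mm K r := by
  rw [MI, Ideal.span_le]
  rintro _ ⟨α, hα, rfl⟩
  obtain ⟨c, hc⟩ := hV
  have h1 := hα c hc
  have hne : ∃ i, α i ≠ 0 := by
    by_contra hcon
    push Not at hcon
    have : dotR c (toR α) = 0 := by
      unfold dotR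
      apply Finset.sum_eq_zero
      intro i _
      simp [toR, hcon i]
    rw [this] at h1
    have : (1 : ℝ) ≤ n := by exact_mod_cast hn
    linarith
  obtain ⟨i, hi⟩ := hne
  have hαe : α = Finsupp.single i 1 + (α - Finsupp.single i 1) := by
    rw [add_tsub_cancel_of_le]
    rw [Finsupp.single_le_iff]
    omega
  show monomial α (1 : K) ∈ mm K r
  have h2 : monomial α (1 : K) = X i * monomial (α - Finsupp.single i 1) 1 := by
    rw [X, monomial_mul, one_mul, ← hαe]
  rw [h2]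
  exact Ideal.mul_mem_right _ _ (Ideal.subset_span ⟨i, rfl⟩)

/-- The depth of `R ⧸ closure (I ^ n)` equals `r - l` for all large `n`. -/
theorem depth_eq (I : Ideal (MvPolynomial (Fin r) K)) (hI : IsMonomialIdeal I) (hI0 : I ≠ ⊥)
    (hI1 : I ≠ ⊤) : 1 ≤ maxGenDegree I ∧
      ∃ δ : ℕ, ∀ n : ℕ, (r - 1) ^ (r - 1) * maxGenDegree I ^ (r - 2) ≤ n → 1 ≤ n →
      depthQuot (intClosurePow I n) = δ := by
  classical
  set G := (genExp_finite I).toFinset with hGdef
  have hG : G.Nonempty := by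
    obtain ⟨S, hS⟩ := hI
    have hSne : S.Nonempty := by
      rw [Set.nonempty_iff_ne_empty]
      intro h
      rw [h, Set.image_empty, Ideal.span_empty] at hS
      exact hI0 hS
    obtain ⟨α, hα⟩ := hSne
    have h1 : α ∈ expSet I := by
      show monomial α (1 : K) ∈ I
      rw [hS]
      exact Ideal.subset_span ⟨α, hα, rfl⟩
    obtain ⟨g, hg, _⟩ := (expSet_iff I α).1 h1
    exact ⟨g, hg⟩
  have hmemG : ∀ g, g ∈ G ↔ g ∈ genExp I := fun g => (genExp_finite I).mem_toFinset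
  have h0 : ∀ g ∈ G, g ≠ 0 := by
    rintro g hg rfl
    have h1 : (monomial (0 : Fin r →₀ ℕ) (1 : K)) ∈ I := ((hmemG 0).1 hg).1
    apply hI1
    rw [Ideal.eq_top_iff_one]
    exact h1
  have hdeg : ∀ g ∈ G, g.degree ≤ maxGenDegree I := by
    intro g hg
    unfold maxGenDegree
    apply le_csSup
    · have hfin : {k | ∃ α ∈ genExp I, k = ∑ i, α i}.Finite := by
        apply ((genExp_finite I).image (fun α : Fin r →₀ ℕ => ∑ i, α i)).subset
        rintro k ⟨α, hα, rfl⟩
        exact ⟨α, hα, rfl⟩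
      exact hfin.bddAbove
    · exact ⟨g, (hmemG g).1 hg, Finsupp.degree_eq_sum g⟩
  obtain ⟨g0, hg0⟩ := id hG
  have hd : 1 ≤ maxGenDegree I := by
    refine le_trans ?_ (hdeg g0 hg0)
    rw [Nat.one_le_iff_ne_zero]
    intro h
    exact h0 g0 hg0 ((Finsupp.degree_eq_zero_iff g0).1 h)
  obtain ⟨m, hmr, ⟨c, hcB, hcpos, hcfr⟩, hmax⟩ := exists_max_rank G hG h0
  obtain ⟨f, hfG, hf1, hfind⟩ := exists_family G c m hcfr
  have hVne : (VV G).Nonempty := by
    obtain ⟨c', hc', _⟩ := exists_vertex_le G 0 (fun _ => le_rfl) _ c le_rfl hcB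
    exact ⟨c', hc'⟩
  refine ⟨hd, r - (m + 1), fun n hn hn1 => ?_⟩
  rw [intClosurePow_eq I hG n hn1]
  apply le_antisymm
  · -- upper bound
    unfold depthQuot
    apply iSup₂_le
    rintro rs ⟨hmem, hreg⟩
    have hlen := upper_all (NE G n) c hcpos n (maxGenDegree I) m hn1 hd f hf1 hfind
      (fun j => hdeg _ (hfG j)) ?_ ?_ hmr ?_ rs hreg hmem
    · exact_mod_cast hlen
    · intro α hα
      have h1 := le_dotR_of_VV G (toR α) (fun i => toR_nonneg α i) n hα c hcB
      rw [dotR_toR] at h1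
      exact_mod_cast h1
    · intro lam hlam c' hc'
      rw [dotR_toR]
      have h1 : (n : ℚ) ≤ dotN c' (∑ j, lam j • f j) := by
        rw [dotN_sum_right]
        calc (n : ℚ) = ∑ j, (lam j : ℚ) := by rw [← hlam]; push_cast; rfl
          _ ≤ ∑ j, dotN c' (lam j • f j) := by
              apply Finset.sum_le_sum
              intro j _
              rw [dotN_smul_right]
              have := hc'.1.2 (f j) (hfG j)
              have h2 : (0 : ℚ) ≤ lam j := by positivity
              nlinarith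
      exact_mod_cast h1
    · refine le_trans ?_ hn
      rcases Nat.eq_zero_or_pos m with hm0 | hm0
      · rw [hm0]; simp
      · calc m * (m * maxGenDegree I) ^ (m - 1) = m ^ m * maxGenDegree I ^ (m - 1) := by
              rw [mul_pow, ← mul_assoc]
              congr 1
              rw [← pow_succ']
              congr 1
              omega
          _ ≤ (r - 1) ^ (r - 1) * maxGenDegree I ^ (r - 2) := by
              apply Nat.mul_le_mul
              · calc m ^ m ≤ (r - 1) ^ m := Nat.pow_le_pow_left (by omega) _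
                  _ ≤ (r - 1) ^ (r - 1) := Nat.pow_le_pow_right (by omega) (by omega)
              · exact Nat.pow_le_pow_right (by omega) (by omega)
  · -- lower bound
    have h1 := lower (K := K) G hG n hn1 (m + 1) hmax
    obtain ⟨rs, hlen, hmem, hreg⟩ := exists_regular_of_EV _ (NE_le_mm G n hn1 hVne) _ h1
    unfold depthQuot
    rw [← hlen]
    exact le_iSup₂ (f := fun (rs : List (MvPolynomial (Fin r) K))
      (_ : (∀ x ∈ rs, x ∈ Ideal.span (Set.range (X : Fin r → MvPolynomial (Fin r) K))) ∧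
        IsRegular (MvPolynomial (Fin r) K ⧸ MI K (NE G n)) rs) => (rs.length : ℕ∞))
      rs ⟨hmem, hreg⟩

/-- main theorem -/
theorem main_bound (I : Ideal (MvPolynomial (Fin r) K)) (hI : IsMonomialIdeal I)
    (hI0 : I ≠ ⊥) (hI1 : I ≠ ⊤) :
    (∀ n, (r - 1) ^ (r - 1) * maxGenDegree I ^ (r - 2) ≤ n →
      depthQuot (intClosurePow I n) =
        depthQuot (intClosurePow I ((r - 1) ^ (r - 1) * maxGenDegree I ^ (r - 2)))) ∧
    dstabBar I ≤ (r - 1) ^ (r - 1) * maxGenDegree I ^ (r - 2) := by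
  obtain ⟨hd, δ, hδ⟩ := depth_eq I hI hI0 hI1
  have hN : 1 ≤ (r - 1) ^ (r - 1) * maxGenDegree I ^ (r - 2) := by
    have h1 : 1 ≤ (r - 1) ^ (r - 1) := by
      rcases Nat.eq_zero_or_pos (r - 1) with h | h
      · rw [h]; simp
      · exact Nat.one_le_pow _ _ h
    have h2 : 1 ≤ maxGenDegree I ^ (r - 2) := Nat.one_le_pow _ _ hd
    exact Nat.mul_le_mul h1 h2
  have key : ∀ n, (r - 1) ^ (r - 1) * maxGenDegree I ^ (r - 2) ≤ n →
      depthQuot (intClosurePow I n) =
        depthQuot (intClosurePow I ((r - 1) ^ (r - 1) * maxGenDegree I ^ (r - 2))) := by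
    intro n hn
    rw [hδ n hn (hN.trans hn), hδ _ le_rfl hN]
  exact ⟨key, Nat.sInf_le ⟨hN, key⟩⟩

end Pool.Agent.Helper698.Dstab
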