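import Mathlib

open MvPolynomial

namespace Pool.Agent.Helper698.Kos

variable {K : Type} [Field K]

/-- the relations `x_i x_{i+1}` -/
noncomputable def pp (i : Fin 5) : MvPolynomial (Fin 5) K := X i * X (i + 1)

/-- the relations `x_{i-1} x_{i+1} - x_i^2` -/
noncomputable def ss (i : Fin 5) : MvPolynomial (Fin 5) K := X (i - 1) * X (i + 1) - X i ^ 2

variable (K) in
/-- the ideal of relations -/
noncomputable def II : Ideal (MvPolynomial (Fin 5) K) :=
  Ideal.span (Set.range pp ∪ Set.range ss)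

/-- the linear coefficients -/
noncomputable def c1 (j : Fin 5) (f : MvPolynomial (Fin 5) K) : K := coeff (Finsupp.single j 1) f

/-- the quadratic coefficients modulo the relations -/
noncomputable def c2 (k : Fin 5) (f : MvPolynomial (Fin 5) K) : K :=
  coeff (Finsupp.single k 2) f +
    coeff (Finsupp.single (k - 1) 1 + Finsupp.single (k + 1) 1) f

lemma c1_add (j : Fin 5) (f g : MvPolynomial (Fin 5) K) : c1 j (f + g) = c1 j f + c1 j g := by
  simp [c1]

lemma c2_add (j : Fin 5) (f g : MvPolynomial (Fin 5) K) : c2 j (f + g) = c2 j f + c2 j g := by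
  simp only [c2, coeff_add]; ring

lemma c0_mul_X (f : MvPolynomial (Fin 5) K) (i : Fin 5) : coeff 0 (f * X i) = 0 := by
  rw [coeff_mul_X']; simp

lemma c1_mul_X (f : MvPolynomial (Fin 5) K) (i j : Fin 5) :
    c1 j (f * X i) = if i = j then coeff 0 f else 0 := by
  unfold c1
  rw [coeff_mul_X']
  by_cases h : i = j
  · subst h; simp
  · rw [if_neg h, if_neg]
    simpa using h

lemma c2_mul_X (f : MvPolynomial (Fin 5) K) (i k : Fin 5) :
    c2 k (f * X i) = (if i = k then c1 k f else 0) +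
      ((if i = k - 1 then c1 (k + 1) f else 0) + (if i = k + 1 then c1 (k - 1) f else 0)) := by
  unfold c2 c1
  rw [coeff_mul_X', coeff_mul_X']
  have hne : k - 1 ≠ k + 1 := by revert k; decide
  congr 1
  · by_cases h : i = k
    · subst h
      rw [if_pos (by simp), if_pos rfl]
      congr 1
      ext a
      by_cases ha : i = a <;> simp [ha]
    · rw [if_neg h, if_neg]
      simpa using h
  · by_cases h1 : i = k - 1
    · subst h1
      rw [if_pos (by simp), if_pos rfl, if_neg hne, add_zero]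
      congr 1
      ext a
      simp
    · by_cases h2 : i = k + 1
      · subst h2
        rw [if_pos (by simp), if_pos rfl, if_neg hne.symm, zero_add]
        congr 1
        ext a
        simp
      · rw [if_neg h1, if_neg h2, if_neg, add_zero]
        simp [Finsupp.single_apply]
        exact ⟨fun h' => h1 h'.symm, fun h' => h2 h'.symm⟩

lemma c0_zero_of_mem {f : MvPolynomial (Fin 5) K} (hf : f ∈ II K) :
    coeff 0 f = 0 ∧ (∀ j, c1 j f = 0) ∧ ∀ k, c2 k f = 0 := by
  have step : ∀ (f : MvPolynomial (Fin 5) K) (i : Fin 5),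
      (coeff 0 f = 0 ∧ (∀ j, c1 j f = 0) ∧ ∀ k, c2 k f = 0) →
      (coeff 0 (f * X i) = 0 ∧ (∀ j, c1 j (f * X i) = 0) ∧ ∀ k, c2 k (f * X i) = 0) := by
    rintro f i ⟨h0, h1, h2⟩
    refine ⟨c0_mul_X f i, fun j => ?_, fun k => ?_⟩
    · rw [c1_mul_X, h0]; simp
    · rw [c2_mul_X, h1, h1, h1]; simp
  have key : ∀ (q : MvPolynomial (Fin 5) K),
      (coeff 0 q = 0 ∧ (∀ j, c1 j q = 0) ∧ ∀ k, c2 k q = 0) →
      ∀ g : MvPolynomial (Fin 5) K,
      (coeff 0 (q * g) = 0 ∧ (∀ j, c1 j (q * g) = 0) ∧ ∀ k, c2 k (q * g) = 0) := by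
    intro q hq g
    induction g using MvPolynomial.induction_on with
    | C a =>
      obtain ⟨h0, h1, h2⟩ := hq
      refine ⟨by rw [mul_comm, coeff_C_mul, h0, mul_zero], fun j => ?_, fun k => ?_⟩
      · have := h1 j
        unfold c1 at this ⊢
        rw [mul_comm, coeff_C_mul, this, mul_zero]
      · have := h2 k
        unfold c2 at this ⊢
        rw [mul_comm, coeff_C_mul, coeff_C_mul, ← mul_add, this, mul_zero]
    | add g1 g2 ih1 ih2 =>
      rw [mul_add]
      refine ⟨by rw [coeff_add, ih1.1, ih2.1, add_zero], fun j => ?_, fun k => ?_⟩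
      · rw [c1_add, ih1.2.1, ih2.2.1, add_zero]
      · rw [c2_add, ih1.2.2, ih2.2.2, add_zero]
    | mul_X g i ih =>
      rw [← mul_assoc]
      exact step _ _ ih
  have c1X : ∀ i j : Fin 5, c1 j (X i : MvPolynomial (Fin 5) K) = if i = j then 1 else 0 := by
    intro i j
    have := c1_mul_X (K := K) 1 i j
    rw [one_mul] at this
    rw [this]
    simp
  have hpp : ∀ i, (coeff 0 (pp i : MvPolynomial (Fin 5) K) = 0 ∧
      (∀ j, c1 j (pp i : MvPolynomial (Fin 5) K) = 0) ∧
      ∀ k, c2 k (pp i : MvPolynomial (Fin 5) K) = 0) := by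
    intro i
    unfold pp
    refine ⟨c0_mul_X _ _, fun j => ?_, fun k => ?_⟩
    · rw [c1_mul_X]; simp
    · rw [c2_mul_X, c1X, c1X, c1X]
      have h1 : ∀ i k : Fin 5, ¬ (i + 1 = k ∧ i = k) ∧ ¬ (i + 1 = k - 1 ∧ i = k + 1) ∧
        ¬ (i + 1 = k + 1 ∧ i = k - 1) := by decide
      obtain ⟨a1, a2, a3⟩ := h1 i k
      simp only [← ite_and]
      rw [if_neg a1, if_neg a2, if_neg a3]
      simp
  have hss : ∀ i, (coeff 0 (ss i : MvPolynomial (Fin 5) K) = 0 ∧
      (∀ j, c1 j (ss i : MvPolynomial (Fin 5) K) = 0) ∧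
      ∀ k, c2 k (ss i : MvPolynomial (Fin 5) K) = 0) := by
    intro i
    have e : (ss i : MvPolynomial (Fin 5) K) = X (i - 1) * X (i + 1) + - X i * X i := by
      unfold ss; ring
    rw [e]
    refine ⟨by rw [coeff_add, c0_mul_X, c0_mul_X, add_zero], fun j => ?_, fun k => ?_⟩
    · rw [c1_add, c1_mul_X, c1_mul_X]; simp
    · have c1X' : ∀ i j : Fin 5, c1 j (- X i : MvPolynomial (Fin 5) K) =
          if i = j then -1 else 0 := by
        intro i j
        have h := c1X i j
        unfold c1 at h ⊢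
        rw [coeff_neg, h]
        split_ifs <;> simp
      rw [c2_add, c2_mul_X, c2_mul_X, c1X, c1X, c1X, c1X', c1X', c1X']
      have h1 : ∀ i k : Fin 5, ¬ (i + 1 = k ∧ i - 1 = k) ∧ ¬ (i + 1 = k - 1 ∧ i - 1 = k + 1) ∧
        ¬ (i = k - 1 ∧ i = k + 1) ∧ ¬ (i = k + 1 ∧ i = k - 1) := by decide
      obtain ⟨a1, a2, a3, a4⟩ := h1 i k
      simp only [← ite_and]
      rw [if_neg a1, if_neg a2, if_neg a3, if_neg a4]
      by_cases hik : i = k
      · subst hik; simp
      · have h2 : ¬ (i + 1 = k + 1 ∧ i - 1 = k - 1) := by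
          rintro ⟨h, _⟩; exact hik (add_right_cancel h)
        rw [if_neg h2, if_neg (fun h => hik h.1)]
        simp
  refine Submodule.span_induction (p := fun f _ => coeff 0 f = 0 ∧ (∀ j, c1 j f = 0) ∧
    ∀ k, c2 k f = 0) ?_ ?_ ?_ ?_ hf
  · rintro _ (⟨i, rfl⟩ | ⟨i, rfl⟩)
    · exact hpp i
    · exact hss i
  · simp [c1, c2]
  · rintro f g _ _ ⟨a0, a1, a2⟩ ⟨b0, b1, b2⟩
    exact ⟨by rw [coeff_add, a0, b0, add_zero], fun j => by rw [c1_add, a1, b1, add_zero],
      fun k => by rw [c2_add, a2, b2, add_zero]⟩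
  · intro a f _ h
    rw [smul_eq_mul, mul_comm]
    exact key f h a

variable (K) in
/-- the quotient algebra -/
abbrev RR : Type := MvPolynomial (Fin 5) K ⧸ II K

variable (K) in
/-- the images of the variables -/
noncomputable def xx (i : Fin 5) : RR K := Ideal.Quotient.mk (II K) (X i)

variable (K) in
/-- the scalars -/
noncomputable def cc (a : K) : RR K := Ideal.Quotient.mk (II K) (C a)

lemma adj (i : Fin 5) : xx K i * xx K (i + 1) = 0 := by
  unfold xx
  rw [← map_mul, Ideal.Quotient.eq_zero_iff_mem]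
  exact Ideal.subset_span (Or.inl ⟨i, rfl⟩)

lemma sqq (i : Fin 5) : xx K (i - 1) * xx K (i + 1) = xx K i ^ 2 := by
  unfold xx
  rw [← map_mul, ← map_pow, Ideal.Quotient.eq]
  exact Ideal.subset_span (Or.inr ⟨i, rfl⟩)

lemma adj' (i j : Fin 5) (h : j = i + 1 ∨ i = j + 1) : xx K i * xx K j = 0 := by
  rcases h with rfl | rfl
  · exact adj i
  · rw [mul_comm]; exact adj j

lemma sqq' (i j k : Fin 5) (h : (i = k - 1 ∧ j = k + 1) ∨ (j = k - 1 ∧ i = k + 1)) :
    xx K i * xx K j = xx K k ^ 2 := by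
  rcases h with ⟨rfl, rfl⟩ | ⟨rfl, rfl⟩
  · exact sqq k
  · rw [mul_comm]; exact sqq k

lemma cube (j k : Fin 5) : xx K j ^ 2 * xx K k = 0 := by
  have h : ∀ j k : Fin 5, (k = j + 1 ∨ k = j - 1) ∨ (k = j + 2 ∨ k = j - 2) ∨ k = j := by decide
  rcases h j k with (rfl | rfl) | (rfl | rfl) | rfl
  · rw [pow_two, mul_assoc, adj' _ _ (Or.inl rfl), mul_zero]
  · rw [pow_two, mul_assoc, adj' _ _ (Or.inr (by revert j; decide)), mul_zero]
  · rw [← sqq, mul_assoc, adj' (j + 1) (j + 2) (Or.inl (by revert j; decide)), mul_zero]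
  · rw [← sqq, mul_comm, ← mul_assoc, adj' (j - 2) (j - 1) (Or.inl (by revert j; decide)), zero_mul]
  · rw [← sqq, mul_assoc, adj' (k + 1) k (Or.inr rfl), mul_zero]

lemma mk_eq (f : MvPolynomial (Fin 5) K) : Ideal.Quotient.mk (II K) f =
    cc K (coeff 0 f) + ∑ j, cc K (c1 j f) * xx K j + ∑ k, cc K (c2 k f) * xx K k ^ 2 := by
  have cc_add : ∀ a b : K, cc K (a + b) = cc K a + cc K b := by
    intro a b; unfold cc; rw [C_add, map_add]
  have cc_zero : cc K (0 : K) = 0 := by unfold cc; rw [C_0, map_zero]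
  induction f using MvPolynomial.induction_on with
  | C a =>
    have h1 : ∀ j : Fin 5, c1 j (C a : MvPolynomial (Fin 5) K) = 0 := by
      intro j
      unfold c1
      rw [coeff_C, if_neg]
      intro h
      have := congrArg (fun g => g j) h
      simp at this
    have h2 : ∀ j : Fin 5, c2 j (C a : MvPolynomial (Fin 5) K) = 0 := by
      intro j
      unfold c2
      rw [coeff_C, coeff_C, if_neg, if_neg, add_zero]
      · intro h
        have := congrArg (fun g => g (j - 1)) h
        rw [Finsupp.add_apply, Finsupp.single_eq_same] at this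
        simp only [Finsupp.coe_zero, Pi.zero_apply] at this
        omega
      · intro h
        have := congrArg (fun g => g j) h
        simp at this
    simp only [h1, h2, cc_zero, coeff_zero_C]
    simp [cc]
  | add f g hf hg =>
    simp only [map_add, hf, hg, coeff_add, c1_add, c2_add, cc_add, add_mul, Finset.sum_add_distrib]
    ring
  | mul_X f i ih =>
    rw [map_mul, ih, c0_mul_X, cc_zero]
    simp only [c1_mul_X, c2_mul_X]
    have e : Ideal.Quotient.mk (II K) (X i) = xx K i := rfl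
    rw [e]
    have h0 : ∀ (P : Prop) [Decidable P] (a : K), cc K (if P then a else 0) =
      if P then cc K a else 0 := by
      intro P _ a; split_ifs; · rfl
      · exact cc_zero
    simp only [cc_add, h0, Fin.sum_univ_five]
    have m1 : (-1 : Fin 5) = 4 := rfl
    have c00 := cube (K := K) 0 i
    have c01 := cube (K := K) 1 i
    have c02 := cube (K := K) 2 i
    have c03 := cube (K := K) 3 i
    have c04 := cube (K := K) 4 i
    fin_cases i
    · have r1 := adj' (K := K) 1 0 (by decide)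
      have r2 := adj' (K := K) 4 0 (by decide)
      have r3 := sqq' (K := K) 2 0 1 (by decide)
      have r4 := sqq' (K := K) 3 0 4 (by decide)
      simp [m1] at c00 c01 c02 c03 c04 ⊢
      linear_combination cc K (c1 1 f) * r1 + cc K (c1 4 f) * r2 + cc K (c1 2 f) * r3 +
        cc K (c1 3 f) * r4 + cc K (c2 0 f) * c00 + cc K (c2 1 f) * c01 + cc K (c2 2 f) * c02 +
        cc K (c2 3 f) * c03 + cc K (c2 4 f) * c04
    · have r1 := adj' (K := K) 2 1 (by decide)
      have r2 := adj' (K := K) 0 1 (by decide)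
      have r3 := sqq' (K := K) 3 1 2 (by decide)
      have r4 := sqq' (K := K) 4 1 0 (by decide)
      simp [m1] at c00 c01 c02 c03 c04 ⊢
      linear_combination cc K (c1 2 f) * r1 + cc K (c1 0 f) * r2 + cc K (c1 3 f) * r3 +
        cc K (c1 4 f) * r4 + cc K (c2 0 f) * c00 + cc K (c2 1 f) * c01 + cc K (c2 2 f) * c02 +
        cc K (c2 3 f) * c03 + cc K (c2 4 f) * c04
    · have r1 := adj' (K := K) 3 2 (by decide)
      have r2 := adj' (K := K) 1 2 (by decide)
      have r3 := sqq' (K := K) 4 2 3 (by decide)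
      have r4 := sqq' (K := K) 0 2 1 (by decide)
      simp [m1] at c00 c01 c02 c03 c04 ⊢
      linear_combination cc K (c1 3 f) * r1 + cc K (c1 1 f) * r2 + cc K (c1 4 f) * r3 +
        cc K (c1 0 f) * r4 + cc K (c2 0 f) * c00 + cc K (c2 1 f) * c01 + cc K (c2 2 f) * c02 +
        cc K (c2 3 f) * c03 + cc K (c2 4 f) * c04
    · have r1 := adj' (K := K) 4 3 (by decide)
      have r2 := adj' (K := K) 2 3 (by decide)
      have r3 := sqq' (K := K) 0 3 4 (by decide)
      have r4 := sqq' (K := K) 1 3 2 (by decide)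
      simp [m1] at c00 c01 c02 c03 c04 ⊢
      linear_combination cc K (c1 4 f) * r1 + cc K (c1 2 f) * r2 + cc K (c1 0 f) * r3 +
        cc K (c1 1 f) * r4 + cc K (c2 0 f) * c00 + cc K (c2 1 f) * c01 + cc K (c2 2 f) * c02 +
        cc K (c2 3 f) * c03 + cc K (c2 4 f) * c04
    · have r1 := adj' (K := K) 0 4 (by decide)
      have r2 := adj' (K := K) 3 4 (by decide)
      have r3 := sqq' (K := K) 1 4 0 (by decide)
      have r4 := sqq' (K := K) 2 4 3 (by decide)
      simp [m1] at c00 c01 c02 c03 c04 ⊢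
      linear_combination cc K (c1 0 f) * r1 + cc K (c1 3 f) * r2 + cc K (c1 1 f) * r3 +
        cc K (c1 2 f) * r4 + cc K (c2 0 f) * c00 + cc K (c2 1 f) * c01 + cc K (c2 2 f) * c02 +
        cc K (c2 3 f) * c03 + cc K (c2 4 f) * c04

lemma mem_II {f : MvPolynomial (Fin 5) K} :
    f ∈ II K ↔ coeff 0 f = 0 ∧ (∀ j, c1 j f = 0) ∧ ∀ k, c2 k f = 0 := by
  refine ⟨c0_zero_of_mem, fun ⟨h0, h1, h2⟩ => ?_⟩
  rw [← Ideal.Quotient.eq_zero_iff_mem, mk_eq, h0]
  have cc_zero : cc K (0 : K) = 0 := by unfold cc; rw [C_0, map_zero]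
  simp only [h1, h2, cc_zero]
  simp

end Pool.Agent.Helper698.Kos
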