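import Mathlib

namespace Pool.Agent.Helper698.Kos

section abstractpart

variable {R : Type} [CommRing R] (F : Set (List R))

/-- all the colon ideals of the chain of vectors belong to the family -/
def ChainL {M : Type} [AddCommGroup M] [Module R M] : List M → Prop
  | [] => True
  | c :: cs => ChainL cs ∧ ∃ zs ∈ F, ∀ r : R, r • c ∈ Submodule.span R {x | x ∈ cs} ↔
      r ∈ Ideal.ofList zs

variable {F}

lemma chainL_map {M N : Type} [AddCommGroup M] [Module R M] [AddCommGroup N] [Module R N]
    (f : M →ₗ[R] N) (hf : Function.Injective f) : ∀ cs : List M, ChainL F cs →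
    ChainL F (cs.map f) := by
  intro cs
  induction cs with
  | nil => intro _; trivial
  | cons c cs ih =>
    rintro ⟨h1, zs, hzs, h2⟩
    refine ⟨ih h1, zs, hzs, fun r => ?_⟩
    rw [← h2 r]
    have e : {x | x ∈ cs.map f} = f '' {x | x ∈ cs} := by
      ext x; simp
    show r • f c ∈ Submodule.span R {x | x ∈ cs.map f} ↔ _
    rw [e, Submodule.span_image, ← map_smul, Submodule.mem_map]
    constructor
    · rintro ⟨y, hy, hyr⟩
      rw [← hf hyr]; exact hy
    · intro hy
      exact ⟨_, hy, rfl⟩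

/-- the insertion of a zero in front -/
def iota (R : Type) [CommRing R] (b : ℕ) : (Fin b → R) →ₗ[R] (Fin (b + 1) → R) where
  toFun w := Fin.cons 0 w
  map_add' v w := by
    ext i
    refine Fin.cases ?_ (fun i => ?_) i <;> simp
  map_smul' a w := by
    ext i
    refine Fin.cases ?_ (fun i => ?_) i <;> simp

lemma iota_injective (b : ℕ) : Function.Injective (iota R b) := by
  intro v w h
  ext i
  have := congrFun h i.succ
  simpa [iota] using this

lemma mem_span_map_iota (b : ℕ) (ds : List (Fin b → R)) (v : Fin (b + 1) → R) :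
    v ∈ Submodule.span R {x | x ∈ ds.map (iota R b)} ↔
      v 0 = 0 ∧ (fun i : Fin b => v i.succ) ∈ Submodule.span R {x | x ∈ ds} := by
  have e : {x | x ∈ ds.map (iota R b)} = iota R b '' {x | x ∈ ds} := by
    ext x; simp
  rw [e, Submodule.span_image, Submodule.mem_map]
  constructor
  · rintro ⟨w, hw, rfl⟩
    refine ⟨by simp [iota], ?_⟩
    have : (fun i : Fin b => (iota R b w) i.succ) = w := by ext i; simp [iota]
    rw [this]; exact hw
  · rintro ⟨h0, hw⟩
    refine ⟨_, hw, ?_⟩
    ext i
    refine Fin.cases ?_ (fun i => ?_) i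
    · simp [iota, h0]
    · simp [iota]

variable (R1 : Set R) (p : R → R)

theorem syz (hF : ∀ y ys, y :: ys ∈ F → y ∈ R1 ∧ ys ∈ F ∧ ∃ zs ∈ F, ∀ r : R,
      r * y ∈ Ideal.ofList ys ↔ r ∈ Ideal.ofList zs)
    (hp0 : p 0 = 0) (hp1 : ∀ r, p r ∈ R1) (hp2 : ∀ r ∈ R1, p r = r)
    {M : Type} [AddCommGroup M] [Module R M] : ∀ (b : ℕ) (c : Fin b → M),
    (∀ v : Fin b → R, ∑ i, v i • c i = 0 → ∑ i, p (v i) • c i = 0) →
    ChainL F (List.ofFn c) → ∃ ds : List (Fin b → R), (∀ d ∈ ds, ∀ i, d i ∈ R1) ∧ ChainL F ds ∧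
      ∀ v : Fin b → R, ∑ i, v i • c i = 0 ↔ v ∈ Submodule.span R {x | x ∈ ds} := by
  have h0R : (0 : R) ∈ R1 := by rw [← hp0]; exact hp1 0
  intro b
  induction b with
  | zero =>
    intro c _ _
    refine ⟨[], by simp, trivial, fun v => ?_⟩
    have hv : v = 0 := Subsingleton.elim _ _
    rw [hv]
    simp
  | succ b ih =>
    intro c hG hC
    rw [List.ofFn_succ] at hC
    obtain ⟨hC1, zs, hzs, hcol⟩ := hC
    have hG' : ∀ v : Fin b → R, ∑ i, v i • c i.succ = 0 → ∑ i, p (v i) • c i.succ = 0 := by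
      intro v hv
      have h1 := hG (Fin.cons 0 v) (by rw [Fin.sum_univ_succ]; simpa using hv)
      rw [Fin.sum_univ_succ] at h1
      simp only [Fin.cons_zero, Fin.cons_succ, hp0, zero_smul, zero_add] at h1
      exact h1
    obtain ⟨ds', hlin', hch', hsp'⟩ := ih (fun i => c i.succ) hG' hC1
    have hmemc : ∀ x : M, x ∈ Submodule.span R {y | y ∈ List.ofFn (fun i : Fin b => c i.succ)} ↔
        ∃ w : Fin b → R, ∑ i, w i • c i.succ = x := by
      intro x
      have e : {y | y ∈ List.ofFn (fun i : Fin b => c i.succ)} =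
          Set.range (fun i : Fin b => c i.succ) := by
        ext y
        simp [List.mem_ofFn]
      rw [e, Submodule.mem_span_range_iff_exists_fun]
    -- the inner induction
    have inner : ∀ zs : List R, zs ∈ F → (∀ z ∈ zs, z • c 0 ∈
        Submodule.span R {y | y ∈ List.ofFn (fun i : Fin b => c i.succ)}) →
        ∃ es : List (Fin (b + 1) → R), (∀ e ∈ es, ∀ i, e i ∈ R1) ∧ ChainL F es ∧
        ∀ v : Fin (b + 1) → R, v ∈ Submodule.span R {x | x ∈ es} ↔
          (∑ i, v i • c i = 0 ∧ v 0 ∈ Ideal.ofList zs) := by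
      intro zs
      induction zs with
      | nil =>
        intro _ _
        refine ⟨ds'.map (iota R b), ?_, chainL_map _ (iota_injective b) _ hch', fun v => ?_⟩
        · intro e he i
          rw [List.mem_map] at he
          obtain ⟨d, hd, rfl⟩ := he
          refine Fin.cases ?_ (fun i => ?_) i
          · simpa [iota] using h0R
          · simpa [iota] using hlin' d hd i
        · rw [mem_span_map_iota, ← hsp', Fin.sum_univ_succ, Ideal.ofList_nil, Ideal.mem_bot]
          constructor
          · rintro ⟨h1, h2⟩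
            exact ⟨by rw [h1, h2]; simp, h1⟩
          · rintro ⟨h1, h2⟩
            rw [h2] at h1
            exact ⟨h2, by simpa using h1⟩
      | cons z zs ihz =>
        intro hz hzc
        obtain ⟨hz1, hz2, zs2, hzs2, hcol2⟩ := hF z zs hz
        obtain ⟨es, hes1, hes2, hes3⟩ := ihz hz2 (fun y hy => hzc y (List.mem_cons_of_mem _ hy))
        obtain ⟨w, hw⟩ := (hmemc _).1 (hzc z List.mem_cons_self)
        have hrel : ∑ i, (Fin.cons z (fun i => - w i) : Fin (b + 1) → R) i • c i = 0 := by
          rw [Fin.sum_univ_succ]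
          simp only [Fin.cons_zero, Fin.cons_succ, neg_smul, Finset.sum_neg_distrib]
          rw [hw, add_neg_cancel]
        have hrel2 := hG _ hrel
        set e : Fin (b + 1) → R :=
          fun i => p ((Fin.cons z (fun i => - w i) : Fin (b + 1) → R) i) with he
        have he0 : e 0 = z := by rw [he]; simp [hp2 z hz1]
        refine ⟨e :: es, ?_, ⟨hes2, zs2, hzs2, fun r => ?_⟩, fun v => ?_⟩
        · intro f hf i
          rw [List.mem_cons] at hf
          rcases hf with rfl | hf
          · exact hp1 _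
          · exact hes1 f hf i
        · rw [hes3, ← hcol2]
          simp only [Pi.smul_apply, smul_eq_mul, he0, and_iff_right_iff_imp]
          intro _
          simp only [mul_smul]
          rw [← Finset.smul_sum, hrel2, smul_zero]
        · have e1 : {x | x ∈ e :: es} = insert e {x | x ∈ es} := by
            ext x; simp
          rw [e1, Submodule.mem_span_insert]
          rw [Ideal.ofList_cons, Submodule.mem_sup]
          constructor
          · rintro ⟨a, x, hx, rfl⟩
            rw [hes3] at hx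
            refine ⟨?_, a * z, Ideal.mem_span_singleton.2 (dvd_mul_left _ _), x 0, hx.2, ?_⟩
            · simp only [Pi.add_apply, Pi.smul_apply, smul_eq_mul, add_smul, mul_smul,
                Finset.sum_add_distrib]
              rw [← Finset.smul_sum, hrel2, hx.1, smul_zero, add_zero]
            · simp [he0]
          · rintro ⟨h1, y, hy, y', hy', hyy⟩
            obtain ⟨a, rfl⟩ := Ideal.mem_span_singleton'.1 hy
            refine ⟨a, v - a • e, ?_, by abel⟩
            rw [hes3]
            refine ⟨?_, ?_⟩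
            · simp only [Pi.sub_apply, Pi.smul_apply, smul_eq_mul, sub_smul, mul_smul,
                Finset.sum_sub_distrib]
              rw [← Finset.smul_sum, hrel2, h1, smul_zero, sub_zero]
            · simp only [Pi.sub_apply, Pi.smul_apply, smul_eq_mul, he0]
              rw [← hyy, add_sub_cancel_left]
              exact hy'
    obtain ⟨es, h1, h2, h3⟩ := inner zs hzs (fun z hz => (hcol z).2 (Ideal.subset_span hz))
    refine ⟨es, h1, h2, fun v => ?_⟩
    rw [h3]
    constructor
    · intro hv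
      refine ⟨hv, ?_⟩
      rw [← hcol, hmemc]
      refine ⟨fun i => - v i.succ, ?_⟩
      rw [Fin.sum_univ_succ] at hv
      simp only [neg_smul, Finset.sum_neg_distrib]
      rw [eq_comm]
      exact eq_neg_of_add_eq_zero_left hv
    · exact fun hv => hv.1

/-- a stage of the resolution -/
structure St (R : Type) [CommRing R] where
  b : ℕ
  N : Submodule R (Fin b → R)

variable (F)

/-- the good stages -/
def GoodSt (s : St R) : Prop :=
  ∃ ds : List (Fin s.b → R), (∀ d ∈ ds, ∀ i, d i ∈ R1) ∧ ChainL F ds ∧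
    Submodule.span R {x | x ∈ ds} = s.N

/-- consecutive stages -/
def Rel (s s' : St R) : Prop :=
  ∃ D : Matrix (Fin s.b) (Fin s'.b) R, (∀ i j, D i j ∈ R1) ∧
    (∀ v : Fin s.b → R, (∃ w, D.mulVec w = v) ↔ v ∈ s.N) ∧ ∀ w, D.mulVec w = 0 ↔ w ∈ s'.N

variable {F}

theorem next (hF : ∀ y ys, y :: ys ∈ F → y ∈ R1 ∧ ys ∈ F ∧ ∃ zs ∈ F, ∀ r : R,
      r * y ∈ Ideal.ofList ys ↔ r ∈ Ideal.ofList zs)
    (hp0 : p 0 = 0) (hp1 : ∀ r, p r ∈ R1) (hp2 : ∀ r ∈ R1, p r = r)
    (p2 : R →+ R) (hp3 : ∀ r, ∀ l ∈ R1, p2 (r * l) = p r * l) (s : St R) (hs : GoodSt F R1 s) :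
    ∃ s', GoodSt F R1 s' ∧ Rel R1 s s' := by
  obtain ⟨ds, h1, h2, h3⟩ := hs
  have hG : ∀ v : Fin ds.length → R, ∑ i, v i • ds.get i = 0 → ∑ i, p (v i) • ds.get i = 0 := by
    intro v hv
    ext k
    have h4 := congrFun hv k
    rw [Finset.sum_apply] at h4 ⊢
    have h5 := congrArg p2 h4
    rw [map_sum] at h5
    simp only [Pi.smul_apply, smul_eq_mul, Pi.zero_apply, map_zero] at h5 ⊢
    rw [← h5]
    apply Finset.sum_congr rfl
    intro i _
    rw [hp3 _ _ (h1 _ (List.get_mem _ _) _)]
  obtain ⟨ds', h4, h5, h6⟩ := syz R1 p hF hp0 hp1 hp2 ds.length (fun i => ds.get i) hG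
    (by rw [List.ofFn_get]; exact h2)
  refine ⟨⟨ds.length, Submodule.span R {x | x ∈ ds'}⟩, ⟨ds', h4, h5, rfl⟩,
    Matrix.of (fun i j => ds.get j i), ?_, ?_, ?_⟩
  · intro i j
    exact h1 _ (List.get_mem _ _) _
  · intro v
    rw [← h3]
    have e : {x | x ∈ ds} = Set.range (fun i : Fin ds.length => ds.get i) := by
      ext x
      simp [List.mem_iff_get]
    rw [e, Submodule.mem_span_range_iff_exists_fun]
    refine exists_congr fun w => ?_
    have e2 : (Matrix.of (fun i j => ds.get j i)).mulVec w = ∑ i, w i • ds.get i := by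
      ext k
      rw [Finset.sum_apply]
      simp only [Matrix.mulVec, dotProduct, Matrix.of_apply, Pi.smul_apply, smul_eq_mul]
      exact Finset.sum_congr rfl fun i _ => mul_comm _ _
    rw [e2]
  · intro w
    show _ ↔ w ∈ Submodule.span R {x | x ∈ ds'}
    rw [← h6]
    have e2 : (Matrix.of (fun i j => ds.get j i)).mulVec w = ∑ i, w i • ds.get i := by
      ext k
      rw [Finset.sum_apply]
      simp only [Matrix.mulVec, dotProduct, Matrix.of_apply, Pi.smul_apply, smul_eq_mul]
      exact Finset.sum_congr rfl fun i _ => mul_comm _ _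
    rw [e2]

theorem exists_resolution (hF : ∀ y ys, y :: ys ∈ F → y ∈ R1 ∧ ys ∈ F ∧ ∃ zs ∈ F, ∀ r : R,
      r * y ∈ Ideal.ofList ys ↔ r ∈ Ideal.ofList zs)
    (hp0 : p 0 = 0) (hp1 : ∀ r, p r ∈ R1) (hp2 : ∀ r ∈ R1, p r = r)
    (p2 : R →+ R) (hp3 : ∀ r, ∀ l ∈ R1, p2 (r * l) = p r * l) (L : List R) (hL : L ∈ F) :
    ∃ b : ℕ → ℕ, ∃ D : (i : ℕ) → Matrix (Fin (b i)) (Fin (b (i + 1))) R,
      (∀ i j k, D i j k ∈ R1) ∧ b 0 = 1 ∧
      (∀ v : Fin (b 0) → R, (∃ w, (D 0).mulVec w = v) ↔ ∀ j, v j ∈ Ideal.ofList L) ∧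
      (∀ i, D i * D (i + 1) = 0) ∧
      (∀ i (v : Fin (b (i + 1)) → R), (D i).mulVec v = 0 → ∃ w, (D (i + 1)).mulVec w = v) := by
  classical
  -- the initial stage
  let N0 : Submodule R (Fin 1 → R) := Submodule.pi Set.univ (fun _ => Ideal.ofList L)
  have hs0 : GoodSt F R1 ⟨1, N0⟩ := by
    let f : R →ₗ[R] (Fin 1 → R) := LinearMap.pi (fun _ => LinearMap.id)
    have hf : Function.Injective f := by
      intro x y h
      have := congrFun h 0
      simpa [f] using this
    have hlin : ∀ L : List R, L ∈ F → ∀ d ∈ L.map f, ∀ i, d i ∈ R1 := by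
      intro L
      induction L with
      | nil => intro _ d hd; simp at hd
      | cons y ys ih =>
        intro hy d hd i
        rw [List.map_cons, List.mem_cons] at hd
        rcases hd with rfl | hd
        · exact (hF y ys hy).1
        · exact ih (hF y ys hy).2.1 d hd i
    have hch : ∀ L : List R, L ∈ F → ChainL F L := by
      intro L
      induction L with
      | nil => intro _; trivial
      | cons y ys ih =>
        intro hy
        obtain ⟨_, h2, zs, hzs, h3⟩ := hF y ys hy
        exact ⟨ih h2, zs, hzs, h3⟩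
    refine ⟨L.map f, hlin L hL, chainL_map f hf L (hch L hL), ?_⟩
    have e : {x | x ∈ L.map f} = f '' {x | x ∈ L} := by
      ext x; simp
    rw [e, Submodule.span_image]
    ext v
    rw [Submodule.mem_map]
    constructor
    · rintro ⟨y, hy, rfl⟩
      intro i _
      exact hy
    · intro hv
      refine ⟨v 0, hv 0 trivial, ?_⟩
      ext i
      have : i = 0 := Subsingleton.elim _ _
      subst this
      rfl
  have hstep := next R1 p hF hp0 hp1 hp2 p2 hp3
  choose! nx hnx using hstep
  let st : ℕ → St R := fun i => nx^[i] ⟨1, N0⟩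
  have hst : ∀ i, GoodSt F R1 (st i) := by
    intro i
    induction i with
    | zero => exact hs0
    | succ i ih =>
      have : st (i + 1) = nx (st i) := by
        simp only [st, Function.iterate_succ_apply']
      rw [this]
      exact (hnx _ ih).1
  have hrel : ∀ i, Rel R1 (st i) (st (i + 1)) := by
    intro i
    have : st (i + 1) = nx (st i) := by
      simp only [st, Function.iterate_succ_apply']
    rw [this]
    exact (hnx _ (hst i)).2
  choose D hD1 hD2 hD3 using hrel
  refine ⟨fun i => (st i).b, D, hD1, rfl, fun v => ?_, fun i => ?_, fun i v hv => ?_⟩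
  · rw [hD2 0 v]
    exact ⟨fun h j => h j trivial, fun h j _ => h j⟩
  · apply Matrix.ext_of_mulVec_single
    intro k
    rw [← Matrix.mulVec_mulVec, Matrix.zero_mulVec]
    rw [hD3 i, ← hD2 (i + 1)]
    exact ⟨_, rfl⟩
  · rw [hD2 (i + 1), ← hD3 i]
    exact hv

end abstractpart

end Pool.Agent.Helper698.Kos
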