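import Mathlib
import Pool.Agent.Helper698.KA
import Pool.Agent.Helper698.KB

open MvPolynomial

namespace Pool.Agent.Helper698.Kos

variable {K : Type} [Field K]

/-- a representative -/
noncomputable def rep (r : RR K) : MvPolynomial (Fin 5) K :=
  Function.surjInv Ideal.Quotient.mk_surjective r

lemma mk_rep (r : RR K) : Ideal.Quotient.mk (II K) (rep r) = r :=
  Function.surjInv_eq _ r

lemma rep_mk (f : MvPolynomial (Fin 5) K) :
    rep (Ideal.Quotient.mk (II K) f) - f ∈ II K := by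
  rw [← Ideal.Quotient.eq, mk_rep]

/-- the coordinates on the quotient -/
noncomputable def e0 (r : RR K) : K := coeff 0 (rep r)
noncomputable def e1 (j : Fin 5) (r : RR K) : K := c1 j (rep r)
noncomputable def e2 (j : Fin 5) (r : RR K) : K := c2 j (rep r)

lemma e0_mk (f : MvPolynomial (Fin 5) K) : e0 (Ideal.Quotient.mk (II K) f) = coeff 0 f := by
  have h := (c0_zero_of_mem (rep_mk f)).1
  rw [coeff_sub] at h
  exact sub_eq_zero.1 h

lemma e1_mk (j : Fin 5) (f : MvPolynomial (Fin 5) K) :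
    e1 j (Ideal.Quotient.mk (II K) f) = c1 j f := by
  have h := (c0_zero_of_mem (rep_mk f)).2.1 j
  unfold c1 at h
  rw [coeff_sub] at h
  exact sub_eq_zero.1 h

lemma e2_mk (j : Fin 5) (f : MvPolynomial (Fin 5) K) :
    e2 j (Ideal.Quotient.mk (II K) f) = c2 j f := by
  have h := (c0_zero_of_mem (rep_mk f)).2.2 j
  unfold c2 at h
  rw [coeff_sub, coeff_sub] at h
  unfold e2 c2
  linear_combination h

lemma e0_add (r s : RR K) : e0 (r + s) = e0 r + e0 s := by
  rw [← mk_rep r, ← mk_rep s, ← map_add, e0_mk, e0_mk, e0_mk, coeff_add]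

lemma e1_add (j : Fin 5) (r s : RR K) : e1 j (r + s) = e1 j r + e1 j s := by
  rw [← mk_rep r, ← mk_rep s, ← map_add, e1_mk, e1_mk, e1_mk, c1_add]

lemma e2_add (j : Fin 5) (r s : RR K) : e2 j (r + s) = e2 j r + e2 j s := by
  rw [← mk_rep r, ← mk_rep s, ← map_add, e2_mk, e2_mk, e2_mk, c2_add]

lemma e0_mul_x (r : RR K) (i : Fin 5) : e0 (r * xx K i) = 0 := by
  rw [← mk_rep r]
  unfold xx
  rw [← map_mul, e0_mk, c0_mul_X]

lemma e1_mul_x (r : RR K) (i j : Fin 5) : e1 j (r * xx K i) = if i = j then e0 r else 0 := by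
  rw [← mk_rep r]
  unfold xx
  rw [← map_mul, e1_mk, e0_mk, c1_mul_X]

lemma e2_mul_x (r : RR K) (i k : Fin 5) : e2 k (r * xx K i) = (if i = k then e1 k r else 0) +
      ((if i = k - 1 then e1 (k + 1) r else 0) + (if i = k + 1 then e1 (k - 1) r else 0)) := by
  rw [← mk_rep r]
  unfold xx
  rw [← map_mul, e2_mk, e1_mk, e1_mk, e1_mk, c2_mul_X]

lemma eq_sum (r : RR K) :
    r = cc K (e0 r) + ∑ j, cc K (e1 j r) * xx K j + ∑ k, cc K (e2 k r) * xx K k ^ 2 := by
  conv_lhs => rw [← mk_rep r]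
  rw [mk_eq]
  rfl

lemma cc_add (a b : K) : cc K (a + b) = cc K a + cc K b := by
  unfold cc; rw [C_add, map_add]

lemma cc_zero : cc K (0 : K) = 0 := by unfold cc; rw [C_0, map_zero]

/-- ideals generated by variables -/
noncomputable def V (l : List (Fin 5)) : List (RR K) := l.map (xx K)

lemma mem_V {l : List (Fin 5)} {r : RR K} (h : r ∈ Ideal.ofList (V l)) :
    e0 r = 0 ∧ ∀ j, j ∉ l → e1 j r = 0 := by
  refine Submodule.span_induction (p := fun r _ => e0 r = 0 ∧ ∀ j, j ∉ l → e1 j r = 0)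
    ?_ ?_ ?_ ?_ h
  · intro x hx
    have hx' : x ∈ l.map (xx K) := hx
    rw [List.mem_map] at hx'
    obtain ⟨a, ha, rfl⟩ := hx'
    have h1 := e0_mul_x (K := K) 1 a
    have h2 := fun j => e1_mul_x (K := K) 1 a j
    rw [one_mul] at h1
    simp only [one_mul] at h2
    refine ⟨h1, fun j hj => ?_⟩
    rw [h2, if_neg]
    rintro rfl; exact hj ha
  · have h0 : e0 (0 : RR K) = 0 := by
      have := e0_add (0 : RR K) 0
      rw [add_zero] at this
      linear_combination -this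
    refine ⟨h0, fun j _ => ?_⟩
    have := e1_add j (0 : RR K) 0
    rw [add_zero] at this
    linear_combination -this
  · rintro x y _ _ ⟨hx1, hx2⟩ ⟨hy1, hy2⟩
    exact ⟨by rw [e0_add, hx1, hy1, add_zero], fun j hj => by
      rw [e1_add, hx2 j hj, hy2 j hj, add_zero]⟩
  · rintro a x _ ⟨hx1, hx2⟩
    -- multiply out
    rw [smul_eq_mul]
    have key : ∀ f : MvPolynomial (Fin 5) K, e0 (Ideal.Quotient.mk (II K) f * x) = 0 ∧
        ∀ j, j ∉ l → e1 j (Ideal.Quotient.mk (II K) f * x) = 0 := by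
      intro f
      induction f using MvPolynomial.induction_on with
      | C a =>
        rw [← mk_rep x, ← map_mul, e0_mk, coeff_C_mul]
        refine ⟨by
          have : coeff 0 (rep x) = 0 := hx1
          rw [this, mul_zero], fun j hj => ?_⟩
        rw [e1_mk]
        have : coeff (Finsupp.single j 1) (rep x) = 0 := hx2 j hj
        unfold c1
        rw [coeff_C_mul, this, mul_zero]
      | add f g hf hg =>
        rw [map_add, add_mul]
        exact ⟨by rw [e0_add, hf.1, hg.1, add_zero], fun j hj => by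
          rw [e1_add, hf.2 j hj, hg.2 j hj, add_zero]⟩
      | mul_X f i ih =>
        rw [map_mul, mul_right_comm]
        refine ⟨e0_mul_x _ _, fun j _ => ?_⟩
        have := e1_mul_x (Ideal.Quotient.mk (II K) f * x) i j
        unfold xx at this
        rw [this, ih.1]
        simp
    have := key (rep a)
    rwa [mk_rep] at this

lemma xx_mem_V {l : List (Fin 5)} {i : Fin 5} (h : i ∈ l) : xx K i ∈ Ideal.ofList (V (K := K) l) :=
  Ideal.subset_span (List.mem_map_of_mem h)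

lemma mem_V_of {l : List (Fin 5)} (hl : ∃ i, i + 1 ∈ l ∧ i - 1 ∈ l) {r : RR K}
    (h0 : e0 r = 0) (h1 : ∀ j, j ∉ l → e1 j r = 0) : r ∈ Ideal.ofList (V l) := by
  obtain ⟨i, hi1, hi2⟩ := hl
  have hx1 := xx_mem_V (K := K) hi1
  have hx2 := xx_mem_V (K := K) hi2
  have hsq : ∀ k, xx K k ^ 2 ∈ Ideal.ofList (V (K := K) l) := by
    intro k
    have hk : ∀ i k : Fin 5, (k = i + 1 ∨ k = i - 1) ∨ k = i ∨
      (k = i + 2 ∧ k - 1 = i + 1) ∨ (k = i - 2 ∧ k + 1 = i - 1) := by decide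
    rcases hk i k with (h | h) | h | ⟨_, h⟩ | ⟨_, h⟩
    · rw [h, pow_two]; exact Ideal.mul_mem_left _ _ hx1
    · rw [h, pow_two]; exact Ideal.mul_mem_left _ _ hx2
    · rw [h, ← sqq]; exact Ideal.mul_mem_left _ _ hx1
    · rw [← sqq, h]; exact Ideal.mul_mem_right _ _ hx1
    · rw [← sqq, h]; exact Ideal.mul_mem_left _ _ hx2
  rw [eq_sum r, h0, cc_zero, zero_add]
  refine Ideal.add_mem _ (Ideal.sum_mem _ fun j _ => ?_)
    (Ideal.sum_mem _ fun k _ => Ideal.mul_mem_left _ _ (hsq k))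
  by_cases hj : j ∈ l
  · exact Ideal.mul_mem_left _ _ (xx_mem_V hj)
  · rw [h1 j hj, cc_zero, zero_mul]; exact Ideal.zero_mem _

lemma mem_V_single {i : Fin 5} {r : RR K} : r ∈ Ideal.ofList (V (K := K) [i]) ↔
    e0 r = 0 ∧ (∀ j, j ≠ i → e1 j r = 0) ∧ e2 (i + 2) r = 0 ∧ e2 (i + 3) r = 0 := by
  have hV : Ideal.ofList (V (K := K) [i]) = Ideal.span {xx K i} := by
    unfold V
    rw [List.map_singleton, Ideal.ofList_singleton]
  rw [hV, Ideal.mem_span_singleton']
  constructor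
  · rintro ⟨a, rfl⟩
    have hd : ∀ i : Fin 5, (¬ i = i + 2 ∧ ¬ i = i + 2 - 1 ∧ ¬ i = i + 2 + 1) ∧
      (¬ i = i + 3 ∧ ¬ i = i + 3 - 1 ∧ ¬ i = i + 3 + 1) := by decide
    obtain ⟨⟨a1, a2, a3⟩, ⟨b1, b2, b3⟩⟩ := hd i
    refine ⟨e0_mul_x _ _, fun j hj => ?_, ?_, ?_⟩
    · rw [e1_mul_x, if_neg (fun h => hj h.symm)]
    · rw [e2_mul_x, if_neg a1, if_neg a2, if_neg a3]; simp
    · rw [e2_mul_x, if_neg b1, if_neg b2, if_neg b3]; simp
  · rintro ⟨h0, h1, h2, h3⟩
    rw [← Ideal.mem_span_singleton', eq_sum r, h0, cc_zero, zero_add]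
    refine Ideal.add_mem _ (Ideal.sum_mem _ fun j _ => ?_) (Ideal.sum_mem _ fun k _ => ?_)
    · by_cases hj : j = i
      · rw [hj]; exact Ideal.mul_mem_left _ _ (Ideal.mem_span_singleton_self _)
      · rw [h1 j hj, cc_zero, zero_mul]; exact Ideal.zero_mem _
    · have hk : ∀ i k : Fin 5, k = i ∨ (k = i + 1 ∧ k - 1 = i) ∨ (k = i - 1 ∧ k + 1 = i) ∨
        k = i + 2 ∨ k = i + 3 := by decide
      rcases hk i k with h | ⟨_, h⟩ | ⟨_, h⟩ | h | h
      · rw [h, pow_two]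
        exact Ideal.mul_mem_left _ _ (Ideal.mul_mem_left _ _ (Ideal.mem_span_singleton_self _))
      · rw [← sqq, h]
        exact Ideal.mul_mem_left _ _ (Ideal.mul_mem_right _ _ (Ideal.mem_span_singleton_self _))
      · rw [← sqq, h]
        exact Ideal.mul_mem_left _ _ (Ideal.mul_mem_left _ _ (Ideal.mem_span_singleton_self _))
      · rw [h, h2, cc_zero, zero_mul]; exact Ideal.zero_mem _
      · rw [h, h3, cc_zero, zero_mul]; exact Ideal.zero_mem _

/-- the index lists of the Koszul filtration -/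
def FI : Set (List (Fin 5)) :=
  {l | l = [] ∨ (∃ i, l = [i]) ∨ (∃ i, l = [i + 1, i - 1]) ∨ (∃ a, l = [a, a + 3, a + 1]) ∨
    (∃ a, l = [a + 2, a, a + 3, a + 1]) ∨ (∃ a, l = [a + 4, a + 2, a, a + 3, a + 1])}

variable (K) in
/-- the Koszul filtration -/
def FF : Set (List (RR K)) := {ys | ∃ l ∈ FI, ys = V l}

variable (K) in
/-- the linear forms -/
def R1 : Set (RR K) := {r | ∃ q : MvPolynomial (Fin 5) K, q.IsHomogeneous 1 ∧
  r = Ideal.Quotient.mk (II K) q}

/-- projection to degree one -/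
noncomputable def pr1 (r : RR K) : RR K := ∑ j, cc K (e1 j r) * xx K j

variable (K) in
/-- projection to degree two -/
noncomputable def pr2 : RR K →+ RR K where
  toFun r := ∑ k, cc K (e2 k r) * xx K k ^ 2
  map_zero' := by
    apply Finset.sum_eq_zero
    intro k _
    have h0 : e2 k (0 : RR K) = 0 := by
      have := e2_add k (0 : RR K) 0
      rw [add_zero] at this
      linear_combination -this
    rw [h0, cc_zero, zero_mul]
  map_add' r s := by
    rw [← Finset.sum_add_distrib]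
    apply Finset.sum_congr rfl
    intro k _
    rw [e2_add, cc_add, add_mul]

lemma pr1_mem (r : RR K) : pr1 r ∈ R1 K := by
  refine ⟨∑ j, C (e1 j r) * X j, ?_, ?_⟩
  · apply IsHomogeneous.sum
    intro j _
    have := (isHomogeneous_C (Fin 5) (e1 j r)).mul (isHomogeneous_X K j)
    simpa using this
  · unfold pr1 cc xx
    rw [map_sum]
    simp

lemma e1_zero (j : Fin 5) : e1 j (0 : RR K) = 0 := by
  have := e1_add j (0 : RR K) 0
  rw [add_zero] at this
  linear_combination -this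

lemma e0_zero : e0 (0 : RR K) = 0 := by
  have := e0_add (0 : RR K) 0
  rw [add_zero] at this
  linear_combination -this

lemma e2_zero (j : Fin 5) : e2 j (0 : RR K) = 0 := by
  have := e2_add j (0 : RR K) 0
  rw [add_zero] at this
  linear_combination -this

lemma pr1_zero : pr1 (0 : RR K) = 0 := by
  unfold pr1
  apply Finset.sum_eq_zero
  intro j _
  rw [e1_zero, cc_zero, zero_mul]

lemma pr1_of_mem (r : RR K) (hr : r ∈ R1 K) : pr1 r = r := by
  obtain ⟨q, hq, rfl⟩ := hr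
  have h0 : e0 (Ideal.Quotient.mk (II K) q) = 0 := by
    rw [e0_mk]
    exact hq.coeff_eq_zero (by simp)
  have h2 : ∀ k, e2 k (Ideal.Quotient.mk (II K) q) = 0 := by
    intro k
    rw [e2_mk]
    unfold c2
    rw [hq.coeff_eq_zero (by simp), hq.coeff_eq_zero (by simp), add_zero]
  conv_rhs => rw [eq_sum (Ideal.Quotient.mk (II K) q), h0]
  simp only [h2, cc_zero]
  unfold pr1
  simp

lemma cc_mul (a b : K) : cc K (a * b) = cc K a * cc K b := by
  unfold cc; rw [C_mul, map_mul]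

lemma e1_mul_cc (r : RR K) (a : K) (j : Fin 5) : e1 j (r * cc K a) = e1 j r * a := by
  rw [← mk_rep r]
  unfold cc
  rw [← map_mul, e1_mk, e1_mk, mul_comm]
  unfold c1
  rw [coeff_C_mul, mul_comm]

lemma pr1_mul_cc (r : RR K) (a : K) : pr1 (r * cc K a) = pr1 r * cc K a := by
  unfold pr1
  rw [Finset.sum_mul]
  apply Finset.sum_congr rfl
  intro j _
  rw [e1_mul_cc, cc_mul]
  ring

lemma pr2_mul_x (r : RR K) (i : Fin 5) : pr2 K (r * xx K i) = pr1 r * xx K i := by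
  have h1 := eq_sum (r * xx K i)
  rw [e0_mul_x, cc_zero, zero_add] at h1
  have h2 : ∑ j, cc K (e1 j (r * xx K i)) * xx K j = cc K (e0 r) * xx K i := by
    rw [Finset.sum_eq_single i]
    · rw [e1_mul_x, if_pos rfl]
    · intro j _ hj
      rw [e1_mul_x, if_neg (fun h => hj h.symm), cc_zero, zero_mul]
    · intro h; exact absurd (Finset.mem_univ _) h
  rw [h2] at h1
  have h3 : r * xx K i = cc K (e0 r) * xx K i + pr1 r * xx K i := by
    conv_lhs => rw [eq_sum r]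
    rw [add_mul, add_mul]
    have h4 : (∑ k, cc K (e2 k r) * xx K k ^ 2) * xx K i = 0 := by
      rw [Finset.sum_mul]
      apply Finset.sum_eq_zero
      intro k _
      rw [mul_assoc, cube, mul_zero]
    rw [h4, add_zero]
    rfl
  have h5 : pr2 K (r * xx K i) = ∑ k, cc K (e2 k (r * xx K i)) * xx K k ^ 2 := rfl
  rw [h5]
  linear_combination h3 - h1

lemma pr2_mul_of_mem (r l : RR K) (hl : l ∈ R1 K) : pr2 K (r * l) = pr1 r * l := by
  rw [← pr1_of_mem l hl]
  unfold pr1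
  rw [Finset.mul_sum, map_sum, Finset.mul_sum]
  apply Finset.sum_congr rfl
  intro j _
  rw [← mul_assoc, pr2_mul_x, pr1_mul_cc, mul_assoc]
  rfl

lemma xx_mem_R1 (i : Fin 5) : xx K i ∈ R1 K := ⟨X i, isHomogeneous_X K i, rfl⟩

lemma colon_nil (i : Fin 5) (r : RR K) :
    r * xx K i ∈ Ideal.ofList (V (K := K) []) ↔ r ∈ Ideal.ofList (V (K := K) [i + 1, i - 1]) := by
  have h1 : Ideal.ofList (V (K := K) []) = ⊥ := by unfold V; rw [List.map_nil, Ideal.ofList_nil]
  rw [h1, Ideal.mem_bot]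
  constructor
  · intro h
    have a0 := e1_mul_x r i i
    rw [h, e1_zero, if_pos rfl] at a0
    have a1 := e2_mul_x r i i
    have a2 := e2_mul_x r i (i + 1)
    have a3 := e2_mul_x r i (i - 1)
    rw [h, e2_zero] at a1 a2 a3
    have hd : ∀ i : Fin 5, ¬ i = i - 1 ∧ ¬ i = i + 1 ∧ i = i + 1 - 1 ∧ ¬ i = i + 1 + 1 ∧
      i = i - 1 + 1 ∧ ¬ i = i - 1 - 1 := by decide
    obtain ⟨d1, d2, d3, d4, d5, d6⟩ := hd i
    rw [if_pos rfl, if_neg d1, if_neg d2] at a1
    rw [if_neg d2, if_pos d3, if_neg d4] at a2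
    rw [if_neg d1, if_neg d6, if_pos d5] at a3
    refine mem_V_of ⟨i, by simp, by simp⟩ a0.symm fun j hj => ?_
    have hd2 : ∀ i j : Fin 5, j ∉ [i + 1, i - 1] → j = i ∨ j = i + 1 + 1 ∨ j = i - 1 - 1 := by
      decide
    rcases hd2 i j hj with rfl | rfl | rfl
    · linear_combination -a1
    · linear_combination -a2
    · linear_combination -a3
  · intro h
    obtain ⟨h0, h1⟩ := mem_V h
    rw [eq_sum (r * xx K i), e0_mul_x, cc_zero, zero_add]
    have b1 : ∀ j, e1 j (r * xx K i) = 0 := by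
      intro j; rw [e1_mul_x, h0]; simp
    have b2 : ∀ k, e2 k (r * xx K i) = 0 := by
      intro k
      rw [e2_mul_x]
      have hd : ∀ i k : Fin 5, (i = k → k ∉ [i + 1, i - 1]) ∧ (i = k - 1 → k + 1 ∉ [i + 1, i - 1]) ∧
        (i = k + 1 → k - 1 ∉ [i + 1, i - 1]) := by decide
      obtain ⟨d1, d2, d3⟩ := hd i k
      have e1' : (if i = k then e1 k r else 0) = 0 := by
        split_ifs with hh
        · exact h1 _ (d1 hh)
        · rfl
      have e2' : (if i = k - 1 then e1 (k + 1) r else 0) = 0 := by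
        split_ifs with hh
        · exact h1 _ (d2 hh)
        · rfl
      have e3' : (if i = k + 1 then e1 (k - 1) r else 0) = 0 := by
        split_ifs with hh
        · exact h1 _ (d3 hh)
        · rfl
      rw [e1', e2', e3']; simp
    simp only [b1, b2, cc_zero, zero_mul, Finset.sum_const_zero, add_zero]

lemma colon_single (j : Fin 5) (r : RR K) :
    r * xx K (j + 2) ∈ Ideal.ofList (V (K := K) [j]) ↔
      r ∈ Ideal.ofList (V (K := K) [j, j + 3, j + 1]) := by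
  have hd : ∀ j : Fin 5, j + 2 ≠ j ∧ (¬ j + 2 = j + 2 - 1 ∧ ¬ j + 2 = j + 2 + 1) ∧
      (¬ j + 2 = j + 3 ∧ j + 2 = j + 3 - 1 ∧ ¬ j + 2 = j + 3 + 1) := by decide
  obtain ⟨d0, ⟨d1, d2⟩, d3, d4, d5⟩ := hd j
  rw [mem_V_single]
  have a1 := e2_mul_x r (j + 2) (j + 2)
  rw [if_pos rfl, if_neg d1, if_neg d2, add_zero, add_zero] at a1
  have a2 := e2_mul_x r (j + 2) (j + 3)
  rw [if_neg d3, if_pos d4, if_neg d5, add_zero, zero_add] at a2
  constructor
  · rintro ⟨_, h1, h2, h3⟩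
    have h0 := h1 (j + 2) d0
    rw [e1_mul_x, if_pos rfl] at h0
    refine mem_V_of ⟨j + 2, ?_, ?_⟩ h0 fun i hi => ?_
    · have : ∀ j : Fin 5, j + 2 + 1 ∈ [j, j + 3, j + 1] := by decide
      exact this j
    · have : ∀ j : Fin 5, j + 2 - 1 ∈ [j, j + 3, j + 1] := by decide
      exact this j
    · have : ∀ i j : Fin 5, i ∉ [j, j + 3, j + 1] → i = j + 2 ∨ i = j + 3 + 1 := by decide
      rcases this i j hi with rfl | rfl
      · rw [← a1]; exact h2
      · rw [← a2]; exact h3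
  · intro h
    obtain ⟨h0, h1⟩ := mem_V h
    have f1 : ∀ j : Fin 5, j + 2 ∉ [j, j + 3, j + 1] ∧ j + 3 + 1 ∉ [j, j + 3, j + 1] := by decide
    refine ⟨e0_mul_x _ _, fun i _ => ?_, ?_, ?_⟩
    · rw [e1_mul_x, h0]; simp
    · rw [a1]; exact h1 _ (f1 j).1
    · rw [a2]; exact h1 _ (f1 j).2

/-- the last colon ideals are maximal -/
lemma colon_big (l : List (Fin 5)) (i a : Fin 5) (hl : ∃ i, i + 1 ∈ l ∧ i - 1 ∈ l) (hi : i ∉ l)
    (r : RR K) : r * xx K i ∈ Ideal.ofList (V (K := K) l) ↔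
      r ∈ Ideal.ofList (V (K := K) [a + 4, a + 2, a, a + 3, a + 1]) := by
  have hall : ∀ a j : Fin 5, j ∈ [a + 4, a + 2, a, a + 3, a + 1] := by decide
  constructor
  · intro h
    have h0 := (mem_V h).2 i hi
    rw [e1_mul_x, if_pos rfl] at h0
    exact mem_V_of ⟨0, hall _ _, hall _ _⟩ h0 fun j hj => absurd (hall a j) hj
  · intro h
    have h0 := (mem_V h).1
    refine mem_V_of hl (e0_mul_x _ _) fun j _ => ?_
    rw [e1_mul_x, h0]; simp

lemma hFF : ∀ y ys, y :: ys ∈ FF K → y ∈ R1 K ∧ ys ∈ FF K ∧ ∃ zs ∈ FF K, ∀ r : RR K,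
      r * y ∈ Ideal.ofList ys ↔ r ∈ Ideal.ofList zs := by
  rintro y ys ⟨l, hl, hys⟩
  have hV : ∀ (i : Fin 5) (l : List (Fin 5)), V (K := K) (i :: l) = xx K i :: V l := fun _ _ => rfl
  rcases hl with rfl | ⟨i, rfl⟩ | ⟨i, rfl⟩ | ⟨a, rfl⟩ | ⟨a, rfl⟩ | ⟨a, rfl⟩
  · exact absurd hys (by simp [V])
  · rw [hV] at hys
    injection hys with h1 h2
    subst h1; subst h2
    exact ⟨xx_mem_R1 _, ⟨[], Or.inl rfl, rfl⟩, _, ⟨_, Or.inr (Or.inr (Or.inl ⟨i, rfl⟩)), rfl⟩,
      colon_nil i⟩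
  · rw [hV] at hys
    injection hys with h1 h2
    subst h1; subst h2
    refine ⟨xx_mem_R1 _, ⟨_, Or.inr (Or.inl ⟨i - 1, rfl⟩), rfl⟩, _,
      ⟨_, Or.inr (Or.inr (Or.inr (Or.inl ⟨i - 1, rfl⟩))), rfl⟩, fun r => ?_⟩
    have := colon_single (i - 1) r
    have e : ∀ i : Fin 5, i - 1 + 2 = i + 1 := by decide
    rw [e] at this
    exact this
  · rw [hV] at hys
    injection hys with h1 h2
    subst h1; subst h2
    refine ⟨xx_mem_R1 _, ⟨_, Or.inr (Or.inr (Or.inl ⟨a + 2, ?_⟩)), rfl⟩, _,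
      ⟨_, Or.inr (Or.inr (Or.inr (Or.inr (Or.inr ⟨0, rfl⟩)))), rfl⟩, fun r => ?_⟩
    · revert a; decide
    · exact colon_big _ a 0 ⟨a + 2, by revert a; decide, by revert a; decide⟩
        (by revert a; decide) r
  · rw [hV] at hys
    injection hys with h1 h2
    subst h1; subst h2
    refine ⟨xx_mem_R1 _, ⟨_, Or.inr (Or.inr (Or.inr (Or.inl ⟨a, rfl⟩))), rfl⟩, _,
      ⟨_, Or.inr (Or.inr (Or.inr (Or.inr (Or.inr ⟨0, rfl⟩)))), rfl⟩, fun r => ?_⟩
    exact colon_big _ (a + 2) 0 ⟨a + 2, by revert a; decide, by revert a; decide⟩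
        (by revert a; decide) r
  · rw [hV] at hys
    injection hys with h1 h2
    subst h1; subst h2
    refine ⟨xx_mem_R1 _, ⟨_, Or.inr (Or.inr (Or.inr (Or.inr (Or.inl ⟨a, rfl⟩)))), rfl⟩, _,
      ⟨_, Or.inr (Or.inr (Or.inr (Or.inr (Or.inr ⟨0, rfl⟩)))), rfl⟩, fun r => ?_⟩
    exact colon_big _ (a + 4) 0 ⟨a + 2, by revert a; decide, by revert a; decide⟩
        (by revert a; decide) r

variable (K) in
/-- the linear resolution of the residue field -/
theorem linear_resolution :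
    ∃ b : ℕ → ℕ, ∃ D : (i : ℕ) → Matrix (Fin (b i)) (Fin (b (i + 1))) (RR K),
      (∀ i j k, D i j k ∈ R1 K) ∧ b 0 = 1 ∧
      (∀ v : Fin (b 0) → RR K, (∃ w, (D 0).mulVec w = v) ↔
        ∀ j, v j ∈ Ideal.span (Set.range (xx K))) ∧
      (∀ i, D i * D (i + 1) = 0) ∧
      (∀ i (v : Fin (b (i + 1)) → RR K), (D i).mulVec v = 0 → ∃ w, (D (i + 1)).mulVec w = v) := by
  have h := exists_resolution (F := FF K) (R1 K) pr1 hFF pr1_zero pr1_mem pr1_of_mem (pr2 K)
    pr2_mul_of_mem (V [0 + 4, 0 + 2, 0, 0 + 3, 0 + 1])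
    ⟨_, Or.inr (Or.inr (Or.inr (Or.inr (Or.inr ⟨0, rfl⟩)))), rfl⟩
  have e : Ideal.ofList (V (K := K) [0 + 4, 0 + 2, 0, 0 + 3, 0 + 1]) =
      Ideal.span (Set.range (xx K)) := by
    have hall : ∀ j : Fin 5, j ∈ ([0 + 4, 0 + 2, 0, 0 + 3, 0 + 1] : List (Fin 5)) := by decide
    apply le_antisymm
    · apply Ideal.span_mono
      intro x hx
      have hx' : x ∈ V (K := K) [0 + 4, 0 + 2, 0, 0 + 3, 0 + 1] := hx
      unfold V at hx'
      rw [List.mem_map] at hx'
      obtain ⟨i, _, rfl⟩ := hx'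
      exact ⟨i, rfl⟩
    · rw [Ideal.span_le]
      rintro _ ⟨i, rfl⟩
      exact xx_mem_V (hall i)
  rw [e] at h
  exact h

end Pool.Agent.Helper698.Kos
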