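import Mathlib
import Pool.Agent.Helper698.KC

open MvPolynomial

namespace Pool.Agent.Helper698.Kos

variable {K : Type} [Field K]

section linforms

variable {m : ℕ}

/-- the linear form with given coefficients -/
noncomputable def lin (v : Fin m → K) : MvPolynomial (Fin m) K := ∑ t, C (v t) * X t

lemma lin_add (v w : Fin m → K) : lin (v + w) = lin v + lin w := by
  unfold lin
  rw [← Finset.sum_add_distrib]
  apply Finset.sum_congr rfl
  intro t _
  rw [Pi.add_apply, C_add, add_mul]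

lemma lin_smul (a : K) (v : Fin m → K) : lin (a • v) = C a * lin v := by
  unfold lin
  rw [Finset.mul_sum]
  apply Finset.sum_congr rfl
  intro t _
  rw [Pi.smul_apply, smul_eq_mul, C_mul, mul_assoc]

lemma lin_zero : lin (0 : Fin m → K) = 0 := by
  unfold lin
  simp

lemma lin_sum {ι : Type} (s : Finset ι) (f : ι → Fin m → K) :
    lin (∑ i ∈ s, f i) = ∑ i ∈ s, lin (f i) := by
  classical
  induction s using Finset.induction_on with
  | empty => simp [lin_zero]
  | insert a s ha ih => rw [Finset.sum_insert ha, Finset.sum_insert ha, lin_add, ih]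

lemma lin_sub (v w : Fin m → K) : lin (v - w) = lin v - lin w := by
  have h : lin (v - w) + lin w = lin v := by rw [← lin_add, sub_add_cancel]
  linear_combination h

lemma lin_single (t : Fin m) : lin (Pi.single t (1 : K)) = X t := by
  unfold lin
  rw [Finset.sum_eq_single t]
  · simp
  · intro s _ hs
    rw [Pi.single_eq_of_ne hs]; simp
  · intro h; exact absurd (Finset.mem_univ _) h

lemma coeff_lin (v : Fin m → K) (t : Fin m) : coeff (Finsupp.single t 1) (lin v) = v t := by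
  unfold lin
  rw [coeff_sum, Finset.sum_eq_single t]
  · rw [coeff_C_mul, coeff_X, if_pos rfl, mul_one]
  · intro s _ hs
    rw [coeff_C_mul, coeff_X, if_neg, mul_zero]
    intro h
    exact hs ((Finsupp.single_left_injective one_ne_zero) h)
  · intro h; exact absurd (Finset.mem_univ _) h

lemma lin_homog (v : Fin m → K) : (lin v).IsHomogeneous 1 := by
  unfold lin
  apply IsHomogeneous.sum
  intro j _
  have := (isHomogeneous_C (Fin m) (v j)).mul (isHomogeneous_X K j)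
  simpa using this

lemma eq_lin {f : MvPolynomial (Fin m) K} (hf : f.IsHomogeneous 1) : ∃ v, f = lin v := by
  refine ⟨fun t => coeff (Finsupp.single t 1) f, ?_⟩
  ext d
  by_cases hd : d.degree = 1
  · obtain ⟨t, rfl⟩ : ∃ t, d = Finsupp.single t 1 := by
      have hne : d ≠ 0 := by rintro rfl; simp at hd
      obtain ⟨t, ht⟩ := Finsupp.ne_iff.1 hne
      have ht' : 1 ≤ d t := Nat.one_le_iff_ne_zero.2 ht
      refine ⟨t, ?_⟩
      have hle : Finsupp.single t 1 ≤ d := Finsupp.single_le_iff.2 ht'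
      have h1 : d = (d - Finsupp.single t 1) + Finsupp.single t 1 := (tsub_add_cancel_of_le hle).symm
      have h2 : (d - Finsupp.single t 1).degree = 0 := by
        have := congrArg Finsupp.degree h1
        rw [map_add, Finsupp.degree_single, hd] at this
        omega
      rw [Finsupp.degree_eq_zero_iff] at h2
      rw [h2, zero_add] at h1
      exact h1
    rw [coeff_lin]
  · rw [hf.coeff_eq_zero hd, (lin_homog _).coeff_eq_zero hd]

/-- the algebra homomorphism induced by a linear map -/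
noncomputable def tl {n : ℕ} (L : (Fin m → K) →ₗ[K] (Fin n → K)) :
    MvPolynomial (Fin m) K →ₐ[K] MvPolynomial (Fin n) K :=
  aeval (fun t => lin (L (Pi.single t 1)))

lemma tl_lin {n : ℕ} (L : (Fin m → K) →ₗ[K] (Fin n → K)) (v : Fin m → K) :
    tl L (lin v) = lin (L v) := by
  have hv : v = ∑ t, v t • Pi.single t (1 : K) := by
    ext s
    rw [Finset.sum_apply, Finset.sum_eq_single s]
    · simp
    · intro t _ ht
      rw [Pi.smul_apply, Pi.single_eq_of_ne ht.symm, smul_zero]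
    · intro h; exact absurd (Finset.mem_univ _) h
  conv_rhs => rw [hv, map_sum, lin_sum]
  unfold lin tl
  rw [map_sum]
  apply Finset.sum_congr rfl
  intro t _
  rw [map_mul, aeval_X, map_smul]
  have : (aeval (R := K) fun t => ∑ s, C (L (Pi.single t 1) s) * X s) (C (v t)) =
      (C (v t) : MvPolynomial (Fin n) K) := by
    rw [MvPolynomial.algHom_C]
    rfl
  unfold lin
  rw [this]
  have h2 := lin_smul (v t) (L (Pi.single t (1 : K)))
  unfold lin at h2
  rw [h2]

lemma hc_mul (e n : ℕ) (a q : MvPolynomial (Fin m) K) (hq : q.IsHomogeneous e) :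
    homogeneousComponent (n + e) (a * q) = homogeneousComponent n a * q := by
  conv_lhs => rw [← sum_homogeneousComponent a]
  rw [Finset.sum_mul, map_sum]
  have h1 : ∀ i ∈ Finset.range (a.totalDegree + 1),
      homogeneousComponent (n + e) (homogeneousComponent i a * q) =
      if i = n then homogeneousComponent n a * q else 0 := by
    intro i _
    have h2 := (homogeneousComponent_isHomogeneous i a).mul hq
    rw [homogeneousComponent_of_mem ((mem_homogeneousSubmodule _ _).2 h2)]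
    by_cases hi : i = n
    · rw [if_pos hi, if_pos (by omega), hi]
    · rw [if_neg hi, if_neg (by omega)]
  rw [Finset.sum_congr rfl h1, Finset.sum_ite_eq']
  split_ifs with h
  · rfl
  · rw [Finset.mem_range] at h
    rw [homogeneousComponent_eq_zero _ _ (by omega), zero_mul]

/-- the products `l t` with `l ∈ J` and `l`, `t` linear forms -/
noncomputable def QQ (J : Ideal (MvPolynomial (Fin m) K)) : Submodule K (MvPolynomial (Fin m) K) :=
  Submodule.span K {f | ∃ v w : Fin m → K, lin v ∈ J ∧ f = lin v * lin w}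

lemma QQ_le (J : Ideal (MvPolynomial (Fin m) K)) {f : MvPolynomial (Fin m) K} (hf : f ∈ QQ J) :
    f ∈ J := by
  refine Submodule.span_induction (p := fun f _ => f ∈ J) ?_ ?_ ?_ ?_ hf
  · rintro _ ⟨v, w, hv, rfl⟩
    exact Ideal.mul_mem_right _ _ hv
  · exact Ideal.zero_mem _
  · intro _ _ _ _ h1 h2; exact Ideal.add_mem _ h1 h2
  · intro a f _ h
    rw [smul_eq_C_mul]
    exact Ideal.mul_mem_left _ _ h

/-- the two families of relations -/
noncomputable def gp (Y : Fin 5 → MvPolynomial (Fin m) K) (i : Fin 5) : MvPolynomial (Fin m) K :=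
  Y i * Y (i + 1)

noncomputable def gs (Y : Fin 5 → MvPolynomial (Fin m) K) (i : Fin 5) : MvPolynomial (Fin m) K :=
  Y (i - 1) * Y (i + 1) - Y i ^ 2

/-- the inductive statement: `J` agrees in degree `≤ 2` with the extension of the relations -/
structure Good (J : Ideal (MvPolynomial (Fin m) K)) (x : Fin 5 → Fin m → K) : Prop where
  ind : ∀ a : Fin 5 → K, lin (∑ j, a j • x j) ∈ J → a = 0
  hp : ∀ i, gp (fun j => lin (x j)) i ∈ J
  hs : ∀ i, gs (fun j => lin (x j)) i ∈ J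
  deg : ∀ f ∈ J, f.IsHomogeneous 2 → ∃ κ ρ : Fin 5 → K,
    f - ∑ i, C (κ i) * gp (fun j => lin (x j)) i - ∑ i, C (ρ i) * gs (fun j => lin (x j)) i ∈ QQ J

/-- the value of `x_a τ` at `x_k^2` -/
def qv (a : Fin 5) (τ : Fin 5 → K) (k : Fin 5) : K :=
  (if a = k then τ k else 0) + ((if a = k - 1 then τ (k + 1) else 0) +
    (if a = k + 1 then τ (k - 1) else 0))

lemma qv_same {a k : Fin 5} (h : k = a) (τ : Fin 5 → K) : qv a τ k = τ a := by
  subst h
  have : ∀ k : Fin 5, ¬ k = k - 1 ∧ ¬ k = k + 1 := by decide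
  obtain ⟨h1, h2⟩ := this k
  unfold qv
  rw [if_pos rfl, if_neg h1, if_neg h2]; ring

lemma qv_succ {a k l : Fin 5} (h : k = a + 1 ∧ l = a + 2) (τ : Fin 5 → K) : qv a τ k = τ l := by
  obtain ⟨rfl, rfl⟩ := h
  have : ∀ a : Fin 5, ¬ a = a + 1 ∧ a = a + 1 - 1 ∧ ¬ a = a + 1 + 1 ∧ a + 1 + 1 = a + 2 := by decide
  obtain ⟨h1, h2, h3, h4⟩ := this a
  unfold qv
  rw [if_neg h1, if_pos h2, if_neg h3, h4]; ring

lemma qv_pred {a k l : Fin 5} (h : k = a - 1 ∧ l = a - 2) (τ : Fin 5 → K) : qv a τ k = τ l := by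
  obtain ⟨rfl, rfl⟩ := h
  have : ∀ a : Fin 5, ¬ a = a - 1 ∧ ¬ a = a - 1 - 1 ∧ a = a - 1 + 1 ∧ a - 1 - 1 = a - 2 := by decide
  obtain ⟨h1, h2, h3, h4⟩ := this a
  unfold qv
  rw [if_neg h1, if_neg h2, if_pos h3, h4]; ring

lemma qv_zero {a k : Fin 5} (h : k = a + 2 ∨ k = a - 2) (τ : Fin 5 → K) : qv a τ k = 0 := by
  have : ∀ a k : Fin 5, (k = a + 2 ∨ k = a - 2) → ¬ a = k ∧ ¬ a = k - 1 ∧ ¬ a = k + 1 := by decide
  obtain ⟨h1, h2, h3⟩ := this a k h
  unfold qv
  rw [if_neg h1, if_neg h2, if_neg h3]; ring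

lemma c2_lin_mul (τ : Fin 5 → K) (a k : Fin 5) : c2 k (X a * lin τ) = qv a τ k := by
  rw [mul_comm, c2_mul_X]
  unfold c1 qv
  rw [coeff_lin, coeff_lin, coeff_lin]

/-- the first order deformations of degree `-1` are the translations -/
lemma t1 (h2 : (2 : K) ≠ 0) (α β : Fin 5 → Fin 5 → K)
    (hA : ∀ i k, qv (i + 2) (α i) k - qv i (α (i + 1)) k = 0)
    (hB : ∀ i k, qv i (β (i + 1)) k + qv (i + 2) (β i) k + qv (i + 1) (α i) k -
      qv (i - 1) (α (i + 1)) k = 0)
    (hC : ∀ i k, qv i (β (i - 1)) k + qv (i - 2) (β i) k + qv (i - 1) (α (i - 1)) k -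
      qv (i + 1) (α (i - 2)) k = 0) :
    ∃ v : Fin 5 → K, ∀ i, (α i i = v (i + 1) ∧ α i (i + 1) = v i ∧ α i (i + 2) = 0 ∧
      α i (i + 3) = 0 ∧ α i (i + 4) = 0) ∧ (β i i = - 2 * v i ∧ β i (i + 1) = v (i - 1) ∧
      β i (i + 2) = 0 ∧ β i (i + 3) = 0 ∧ β i (i + 4) = v (i + 1)) := by
  have F1 : ∀ i, α i (i + 2) = 0 := by
    intro i
    have h := hA i (i + 2)
    rw [qv_same rfl, qv_zero (Or.inl rfl), sub_zero] at h
    exact h
  have F2 : ∀ i, α i (i + 4) = 0 := by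
    intro i
    have h := hA i (i + 3)
    have e : ∀ i : Fin 5, (i + 3 = i + 2 + 1 ∧ i + 4 = i + 2 + 2) ∧ i + 3 = i - 2 := by decide
    rw [qv_succ (e i).1, qv_zero (Or.inr (e i).2), sub_zero] at h
    exact h
  have F3 : ∀ i, α i i = α (i + 1) (i + 2) := by
    intro i
    have h := hA i (i + 1)
    have e : ∀ i : Fin 5, (i + 1 = i + 2 - 1 ∧ i = i + 2 - 2) := by decide
    rw [qv_pred (e i), qv_succ ⟨rfl, rfl⟩] at h
    linear_combination h
  have F5 : ∀ i, β (i + 1) (i + 2) + β i i + α i (i + 1) = 0 := by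
    intro i
    have h := hB i (i + 1)
    have e : ∀ i : Fin 5, (i + 1 = i + 2 - 1 ∧ i = i + 2 - 2) ∧ i + 1 = i - 1 + 2 := by decide
    rw [qv_succ ⟨rfl, rfl⟩, qv_pred (e i).1, qv_same rfl, qv_zero (Or.inl (e i).2)] at h
    linear_combination h
  have F6 : ∀ i, β (i + 1) (i - 2) = α (i + 1) (i - 1) := by
    intro i
    have h := hB i (i - 1)
    have e : ∀ i : Fin 5, i - 1 = i + 2 + 2 ∧ i - 1 = i + 1 - 2 := by decide
    rw [qv_pred ⟨rfl, rfl⟩, qv_zero (Or.inl (e i).1), qv_zero (Or.inr (e i).2), qv_same rfl] at h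
    linear_combination h
  have F7 : ∀ i, β i (i + 2) + α i (i + 3) = 0 := by
    intro i
    have h := hB i (i + 2)
    have e : ∀ i : Fin 5, (i + 2 = i + 1 + 1 ∧ i + 3 = i + 1 + 2) ∧ i + 2 = i - 1 - 2 := by decide
    rw [qv_zero (Or.inl rfl), qv_same rfl, qv_succ (e i).1, qv_zero (Or.inr (e i).2)] at h
    linear_combination h
  have F8 : ∀ i, β i (i + 4) = α (i + 1) (i + 2) := by
    intro i
    have h := hB i (i + 3)
    have e : ∀ i : Fin 5, i + 3 = i - 2 ∧ (i + 3 = i + 2 + 1 ∧ i + 4 = i + 2 + 2) ∧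
      i + 3 = i + 1 + 2 ∧ (i + 3 = i - 1 - 1 ∧ i + 2 = i - 1 - 2) := by decide
    obtain ⟨e1, e2, e3, e4⟩ := e i
    rw [qv_zero (Or.inr e1), qv_succ e2, qv_zero (Or.inl e3), qv_pred e4] at h
    linear_combination h
  have F9 : ∀ i, β (i - 1) i = α (i - 2) (i - 1) := by
    intro i
    have h := hC i i
    have e : ∀ i : Fin 5, i = i - 2 + 2 ∧ (i = i - 1 + 1 ∧ i - 1 + 2 = i - 1 + 2) ∧
      (i = i + 1 - 1 ∧ i - 1 = i + 1 - 2) := by decide
    obtain ⟨e1, e2, e3⟩ := e i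
    rw [qv_same rfl, qv_zero (Or.inl e1), qv_succ e2, qv_pred e3, F1 (i - 1)] at h
    linear_combination h
  have F10 : ∀ i, β (i - 1) (i + 2) = α (i - 2) (i + 1) := by
    intro i
    have h := hC i (i + 1)
    have e : ∀ i : Fin 5, i + 1 = i - 2 - 2 ∧ i + 1 = i - 1 + 2 := by decide
    obtain ⟨e1, e2⟩ := e i
    rw [qv_succ ⟨rfl, rfl⟩, qv_zero (Or.inr e1), qv_zero (Or.inl e2), qv_same rfl] at h
    linear_combination h
  -- the mixed coefficients vanish
  have G1 : ∀ i, α i (i + 3) = 0 := by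
    intro i
    have h := F6 (i - 1)
    have e : ∀ i : Fin 5, i - 1 + 1 = i ∧ i - 1 - 2 = i + 2 ∧ i - 1 - 1 = i + 3 := by decide
    obtain ⟨e1, e2, e3⟩ := e i
    rw [e1, e2, e3] at h
    have h' := F7 i
    rw [h] at h'
    have : (2 : K) * α i (i + 3) = 0 := by linear_combination h'
    exact (mul_eq_zero.1 this).resolve_left h2
  refine ⟨fun j => α j (j + 1), fun i => ⟨⟨?_, rfl, F1 i, G1 i, F2 i⟩, ?_, ?_, ?_, ?_, ?_⟩⟩
  · have e : ∀ i : Fin 5, i + 1 + 1 = i + 2 := by decide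
    show α i i = α (i + 1) (i + 1 + 1)
    rw [F3, e]
  · have h := F5 i
    have h9 := F9 (i + 2)
    have e : ∀ i : Fin 5, i + 2 - 1 = i + 1 ∧ i + 2 - 2 = i := by decide
    rw [(e i).1, (e i).2] at h9
    rw [h9] at h
    linear_combination h
  · have h9 := F9 (i + 1)
    have e : ∀ i : Fin 5, i + 1 - 1 = i ∧ i + 1 - 2 = i - 1 ∧ i - 1 + 1 = i := by decide
    rw [(e i).1, (e i).2.1] at h9
    show β i (i + 1) = α (i - 1) (i - 1 + 1)
    rw [(e i).2.2]
    exact h9
  · have := F7 i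
    rw [G1 i] at this
    linear_combination this
  · have h10 := F10 (i + 1)
    have e : ∀ i : Fin 5, i + 1 - 1 = i ∧ i + 1 + 2 = i + 3 ∧ i + 1 - 2 = i - 1 ∧
      i + 1 + 1 = i - 1 + 3 := by decide
    obtain ⟨e1, e2, e3, e4⟩ := e i
    rw [e1, e2, e3, e4] at h10
    rw [h10]
    exact G1 (i - 1)
  · have e : ∀ i : Fin 5, i + 1 + 1 = i + 2 := by decide
    show β i (i + 4) = α (i + 1) (i + 1 + 1)
    rw [F8, e]

/-- the linear forms in `J` -/
def LL (J : Ideal (MvPolynomial (Fin m) K)) : Submodule K (Fin m → K) where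
  carrier := {v | lin v ∈ J}
  add_mem' := by
    intro v w hv hw
    show lin (v + w) ∈ J
    rw [lin_add]; exact Ideal.add_mem _ hv hw
  zero_mem' := by
    show lin (0 : Fin m → K) ∈ J
    rw [lin_zero]; exact Ideal.zero_mem _
  smul_mem' := by
    intro a v hv
    show lin (a • v) ∈ J
    rw [lin_smul]; exact Ideal.mul_mem_left _ _ hv

lemma mem_LL {J : Ideal (MvPolynomial (Fin m) K)} {v : Fin m → K} : v ∈ LL J ↔ lin v ∈ J :=
  Iff.rfl

lemma exists_theta (L : Submodule K (Fin m → K)) (x : Fin 5 → Fin m → K)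
    (hx : ∀ a : Fin 5 → K, ∑ j, a j • x j ∈ L → a = 0) :
    ∃ Θ : (Fin m → K) →ₗ[K] (Fin 5 → K), (∀ j, Θ (x j) = Pi.single j 1) ∧ ∀ v ∈ L, Θ v = 0 := by
  let g : (Fin 5 → K) →ₗ[K] ((Fin m → K) ⧸ L) :=
    L.mkQ ∘ₗ (Fintype.linearCombination K x)
  have hg : LinearMap.ker g = ⊥ := by
    rw [LinearMap.ker_eq_bot']
    intro a ha
    apply hx
    have : L.mkQ (Fintype.linearCombination K x a) = 0 := ha
    rw [Submodule.mkQ_apply, Submodule.Quotient.mk_eq_zero, Fintype.linearCombination_apply] at this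
    exact this
  obtain ⟨u, hu⟩ := g.exists_leftInverse_of_injective hg
  refine ⟨u ∘ₗ L.mkQ, fun j => ?_, fun v hv => ?_⟩
  · have h1 := LinearMap.congr_fun hu (Pi.single j 1)
    have h2 : g (Pi.single j 1) = L.mkQ (x j) := by
      show L.mkQ (Fintype.linearCombination K x (Pi.single j 1)) = _
      rw [Fintype.linearCombination_apply_single, one_smul]
    rw [LinearMap.comp_apply, h2] at h1
    exact h1
  · rw [LinearMap.comp_apply, Submodule.mkQ_apply, (Submodule.Quotient.mk_eq_zero L).2 hv, map_zero]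

/-- change an admissible map by a functional -/
lemma theta_change (L : Submodule K (Fin m → K)) (x : Fin 5 → Fin m → K)
    (Θ : (Fin m → K) →ₗ[K] (Fin 5 → K)) (h1 : ∀ j, Θ (x j) = Pi.single j 1)
    (h2 : ∀ v ∈ L, Θ v = 0) (ξ : (Fin m → K) →ₗ[K] K) (h3 : ∀ j, ξ (x j) = 0)
    (h4 : ∀ v ∈ L, ξ v = 0) (k : Fin 5) :
    ∃ Θ' : (Fin m → K) →ₗ[K] (Fin 5 → K), (∀ j, Θ' (x j) = Pi.single j 1) ∧
      (∀ v ∈ L, Θ' v = 0) ∧ ∀ v, Θ' v k = Θ v k + ξ v := by
  refine ⟨Θ + (LinearMap.single K (fun _ : Fin 5 => K) k) ∘ₗ ξ, fun j => ?_, fun v hv => ?_,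
    fun v => ?_⟩
  · rw [LinearMap.add_apply, LinearMap.comp_apply, h3, map_zero, add_zero, h1]
  · rw [LinearMap.add_apply, LinearMap.comp_apply, h4 v hv, map_zero, add_zero, h2 v hv]
  · simp

lemma tl_QQ (J : Ideal (MvPolynomial (Fin m) K)) (Θ : (Fin m → K) →ₗ[K] (Fin 5 → K))
    (h2 : ∀ v ∈ LL J, Θ v = 0) {f : MvPolynomial (Fin m) K} (hf : f ∈ QQ J) : tl Θ f = 0 := by
  refine Submodule.span_induction (p := fun f _ => tl Θ f = 0) ?_ ?_ ?_ ?_ hf
  · rintro _ ⟨v, w, hv, rfl⟩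
    rw [map_mul, tl_lin, h2 v hv, lin_zero, zero_mul]
  · exact map_zero _
  · intro _ _ _ _ h1 h2; rw [map_add, h1, h2, add_zero]
  · intro a f _ h; rw [map_smul, h, smul_zero]

lemma tl_gp (x : Fin 5 → Fin m → K) (Θ : (Fin m → K) →ₗ[K] (Fin 5 → K))
    (h1 : ∀ j, Θ (x j) = Pi.single j 1) (i : Fin 5) :
    tl Θ (gp (fun j => lin (x j)) i) = pp i := by
  unfold gp pp
  rw [map_mul, tl_lin, tl_lin, h1, h1, lin_single, lin_single]

lemma tl_gs (x : Fin 5 → Fin m → K) (Θ : (Fin m → K) →ₗ[K] (Fin 5 → K))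
    (h1 : ∀ j, Θ (x j) = Pi.single j 1) (i : Fin 5) :
    tl Θ (gs (fun j => lin (x j)) i) = ss i := by
  unfold gs ss
  rw [map_sub, map_mul, map_pow, tl_lin, tl_lin, tl_lin, h1, h1, h1, lin_single, lin_single,
    lin_single]

lemma pp_mem (i : Fin 5) : (pp i : MvPolynomial (Fin 5) K) ∈ II K :=
  Ideal.subset_span (Or.inl ⟨i, rfl⟩)

lemma ss_mem (i : Fin 5) : (ss i : MvPolynomial (Fin 5) K) ∈ II K :=
  Ideal.subset_span (Or.inr ⟨i, rfl⟩)

/-- images of quadratic elements under admissible maps -/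
lemma Good.tl_mem {J : Ideal (MvPolynomial (Fin m) K)} {x : Fin 5 → Fin m → K} (h : Good J x)
    (Θ : (Fin m → K) →ₗ[K] (Fin 5 → K)) (h1 : ∀ j, Θ (x j) = Pi.single j 1)
    (h2 : ∀ v ∈ LL J, Θ v = 0) {f : MvPolynomial (Fin m) K} (hf : f ∈ J)
    (hf2 : f.IsHomogeneous 2) : tl Θ f ∈ II K := by
  obtain ⟨κ, ρ, hκ⟩ := h.deg f hf hf2
  have h3 := tl_QQ J Θ h2 hκ
  rw [map_sub, map_sub, map_sum, map_sum] at h3
  have h4 : tl Θ f = ∑ i, C (κ i) * pp i + ∑ i, C (ρ i) * ss i := by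
    have e1 : ∀ (a : K), tl Θ (C a) = C a := fun a => by
      unfold tl; rw [MvPolynomial.algHom_C]; rfl
    simp only [map_mul, e1, tl_gp x Θ h1, tl_gs x Θ h1] at h3
    linear_combination h3
  rw [h4]
  exact Ideal.add_mem _ (Ideal.sum_mem _ fun i _ => Ideal.mul_mem_left _ _ (pp_mem i))
    (Ideal.sum_mem _ fun i _ => Ideal.mul_mem_left _ _ (ss_mem i))

end linforms

end Pool.Agent.Helper698.Kos
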