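import Mathlib
import Pool.Agent.Helper698.KD

open MvPolynomial

namespace Pool.Agent.Helper698.Kos

variable {K : Type} [Field K] {m : ℕ}

lemma sum_shift {A : Type*} [AddCommMonoid A] (g : Fin 5 → A) (i : Fin 5) :
    ∑ j, g j = g i + g (i + 1) + g (i + 2) + g (i + 3) + g (i + 4) := by
  rw [← Equiv.sum_comp (Equiv.addLeft i) g, Fin.sum_univ_five]
  simp

lemma c2_sub (k : Fin 5) (f g : MvPolynomial (Fin 5) K) : c2 k (f - g) = c2 k f - c2 k g := by
  simp only [c2, coeff_sub]; ring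

lemma dec2 {J J' : Ideal (MvPolynomial (Fin m) K)} {y : Fin m → K}
    (hJ : ∀ f ∈ J, ∀ d, homogeneousComponent d f ∈ J) (hJJ' : J' = J ⊔ Ideal.span {lin y})
    {f : MvPolynomial (Fin m) K} (hf : f ∈ J') (hf2 : f.IsHomogeneous 2) :
    ∃ τ : Fin m → K, f + lin y * lin τ ∈ J := by
  rw [hJJ', Submodule.mem_sup] at hf
  obtain ⟨j, hj, z, hz, rfl⟩ := hf
  obtain ⟨a, rfl⟩ := Ideal.mem_span_singleton'.1 hz
  have h1 := hc_mul 1 1 a (lin y) (lin_homog y)
  have h2 := hJ j hj 2
  have h3 : homogeneousComponent 2 (j + a * lin y) = j + a * lin y := by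
    rw [homogeneousComponent_of_mem ((mem_homogeneousSubmodule _ _).2 hf2), if_pos rfl]
  rw [map_add, h1] at h3
  obtain ⟨τ, hτ⟩ := eq_lin (homogeneousComponent_isHomogeneous 1 a)
  refine ⟨-τ, ?_⟩
  have h4 : lin (-τ) = - lin τ := by
    have := lin_smul (-1 : K) τ
    rw [neg_one_smul] at this
    rw [this]; simp
  rw [h4, ← h3, hτ]
  have : homogeneousComponent 2 j + lin τ * lin y + lin y * -lin τ = homogeneousComponent 2 j := by
    ring
  rw [this]
  exact h2

lemma dec1 {J J' : Ideal (MvPolynomial (Fin m) K)} {y : Fin m → K}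
    (hJ : ∀ f ∈ J, ∀ d, homogeneousComponent d f ∈ J) (hJJ' : J' = J ⊔ Ideal.span {lin y})
    {v : Fin m → K} (hv : v ∈ LL J') : ∃ c : K, lin v + C c * lin y ∈ J := by
  rw [mem_LL, hJJ', Submodule.mem_sup] at hv
  obtain ⟨j, hj, z, hz, hjz⟩ := hv
  obtain ⟨a, rfl⟩ := Ideal.mem_span_singleton'.1 hz
  have h1 := hc_mul 1 0 a (lin y) (lin_homog y)
  rw [zero_add, homogeneousComponent_zero] at h1
  have h3 : homogeneousComponent 1 (lin v) = lin v := by
    rw [homogeneousComponent_of_mem ((mem_homogeneousSubmodule _ _).2 (lin_homog v)), if_pos rfl]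
  refine ⟨- coeff 0 a, ?_⟩
  rw [← h3, ← hjz, map_add, h1, C_neg]
  have : homogeneousComponent 1 j + C (coeff 0 a) * lin y + -C (coeff 0 a) * lin y =
      homogeneousComponent 1 j := by ring
  rw [this]
  exact hJ j hj 1

lemma dual_span (L : Submodule K (Fin m → K)) (x : Fin 5 → Fin m → K)
    (Θ : (Fin m → K) →ₗ[K] (Fin 5 → K)) (h1 : ∀ j, Θ (x j) = Pi.single j 1)
    (h2 : ∀ v ∈ L, Θ v = 0) (t : Fin m → K) (k : Fin 5)
    (hall : ∀ Θ' : (Fin m → K) →ₗ[K] (Fin 5 → K), (∀ j, Θ' (x j) = Pi.single j 1) →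
      (∀ v ∈ L, Θ' v = 0) → Θ' t k = 0) : t - ∑ j, Θ t j • x j ∈ L := by
  have hmem : t ∈ L ⊔ Submodule.span K (Set.range x) := by
    by_contra hcon
    obtain ⟨ξ, hξ1, hξ2⟩ := Submodule.exists_le_ker_of_notMem hcon
    have h3 : ∀ j, ξ (x j) = 0 := fun j =>
      hξ2 (Submodule.mem_sup_right (Submodule.subset_span ⟨j, rfl⟩))
    have h4 : ∀ v ∈ L, ξ v = 0 := fun v hv => hξ2 (Submodule.mem_sup_left hv)
    obtain ⟨Θ', a1, a2, a3⟩ := theta_change L x Θ h1 h2 ξ h3 h4 k
    have b1 := hall Θ h1 h2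
    have b2 := hall Θ' a1 a2
    rw [a3, b1, zero_add] at b2
    exact hξ1 b2
  obtain ⟨l, hl, z, hz, rfl⟩ := Submodule.mem_sup.1 hmem
  obtain ⟨b, rfl⟩ := (Submodule.mem_span_range_iff_exists_fun K).1 hz
  have h3 : ∀ j, Θ (l + ∑ i, b i • x i) j = b j := by
    intro j
    rw [map_add, h2 l hl, zero_add, map_sum]
    simp only [map_smul, h1]
    rw [Finset.sum_apply, Finset.sum_eq_single j]
    · simp
    · intro i _ hi
      rw [Pi.smul_apply, Pi.single_eq_of_ne hi.symm, smul_zero]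
    · intro h; exact absurd (Finset.mem_univ _) h
  simp only [h3]
  rw [add_sub_cancel_right]
  exact hl

theorem Good.step (h2 : (2 : K) ≠ 0) {J J' : Ideal (MvPolynomial (Fin m) K)} {y : Fin m → K}
    {x : Fin 5 → Fin m → K} (hJ : ∀ f ∈ J, ∀ d, homogeneousComponent d f ∈ J)
    (hy : ∀ f, lin y * f ∈ J → f ∈ J) (hJJ' : J' = J ⊔ Ideal.span {lin y}) (h : Good J' x) :
    ∃ x', Good J x' := by
  have hle : J ≤ J' := by rw [hJJ']; exact le_sup_left
  have hyJ : lin y ∈ J' := by
    rw [hJJ']; exact Ideal.mem_sup_right (Ideal.mem_span_singleton_self _)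
  have gph : ∀ (x : Fin 5 → Fin m → K) i, (gp (fun j => lin (x j)) i).IsHomogeneous 2 :=
    fun x i => (lin_homog _).mul (lin_homog _)
  have gsh : ∀ (x : Fin 5 → Fin m → K) i, (gs (fun j => lin (x j)) i).IsHomogeneous 2 :=
    fun x i => ((lin_homog _).mul (lin_homog _)).sub (by
      have := (lin_homog (x i)).pow 2
      simpa using this)
  choose tp htp using fun i => dec2 hJ hJJ' (h.hp i) (gph x i)
  choose ts hts using fun i => dec2 hJ hJJ' (h.hs i) (gsh x i)
  -- the three families of syzygies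
  have SA : ∀ i, lin (x (i + 2)) * lin (tp i) - lin (x i) * lin (tp (i + 1)) ∈ J := by
    intro i
    apply hy
    have := J.sub_mem (J.mul_mem_left (lin (x (i + 2))) (htp i))
      (J.mul_mem_left (lin (x i)) (htp (i + 1)))
    have e : ∀ i : Fin 5, i + 1 + 1 = i + 2 := by decide
    convert this using 1
    unfold gp
    rw [e]
    ring
  have SB : ∀ i, lin (x i) * lin (ts (i + 1)) + lin (x (i + 2)) * lin (ts i) +
      lin (x (i + 1)) * lin (tp i) - lin (x (i - 1)) * lin (tp (i + 1)) ∈ J := by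
    intro i
    apply hy
    have := J.sub_mem (J.add_mem (J.add_mem (J.mul_mem_left (lin (x i)) (hts (i + 1)))
      (J.mul_mem_left (lin (x (i + 2))) (hts i))) (J.mul_mem_left (lin (x (i + 1))) (htp i)))
      (J.mul_mem_left (lin (x (i - 1))) (htp (i + 1)))
    have e : ∀ i : Fin 5, i + 1 + 1 = i + 2 ∧ i + 1 - 1 = i := by decide
    convert this using 1
    unfold gp gs
    rw [(e i).1, (e i).2]
    ring
  have SC : ∀ i, lin (x i) * lin (ts (i - 1)) + lin (x (i - 2)) * lin (ts i) +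
      lin (x (i - 1)) * lin (tp (i - 1)) - lin (x (i + 1)) * lin (tp (i - 2)) ∈ J := by
    intro i
    apply hy
    have := J.sub_mem (J.add_mem (J.add_mem (J.mul_mem_left (lin (x i)) (hts (i - 1)))
      (J.mul_mem_left (lin (x (i - 2))) (hts i)))
      (J.mul_mem_left (lin (x (i - 1))) (htp (i - 1))))
      (J.mul_mem_left (lin (x (i + 1))) (htp (i - 2)))
    have e : ∀ i : Fin 5, i - 1 - 1 = i - 2 ∧ i - 1 + 1 = i ∧ i - 2 + 1 = i - 1 := by decide
    convert this using 1
    unfold gp gs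
    rw [(e i).1, (e i).2.1, (e i).2.2]
    ring
  -- consequences for the admissible maps
  have key : ∀ Θ : (Fin m → K) →ₗ[K] (Fin 5 → K), (∀ j, Θ (x j) = Pi.single j 1) →
      (∀ v ∈ LL J', Θ v = 0) → ∃ v : Fin 5 → K, ∀ i, (Θ (tp i) i = v (i + 1) ∧
      Θ (tp i) (i + 1) = v i ∧ Θ (tp i) (i + 2) = 0 ∧ Θ (tp i) (i + 3) = 0 ∧
      Θ (tp i) (i + 4) = 0) ∧ (Θ (ts i) i = - 2 * v i ∧ Θ (ts i) (i + 1) = v (i - 1) ∧
      Θ (ts i) (i + 2) = 0 ∧ Θ (ts i) (i + 3) = 0 ∧ Θ (ts i) (i + 4) = v (i + 1)) := by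
    intro Θ h1 h3
    have hxX : ∀ j, tl Θ (lin (x j)) = X j := fun j => by rw [tl_lin, h1, lin_single]
    refine t1 h2 (fun i => Θ (tp i)) (fun i => Θ (ts i)) (fun i k => ?_) (fun i k => ?_)
      (fun i k => ?_)
    · have hm := h.tl_mem Θ h1 h3 (hle (SA i)) (((lin_homog _).mul (lin_homog _)).sub
        ((lin_homog _).mul (lin_homog _)))
      have h4 := (mem_II.1 hm).2.2 k
      rw [map_sub, map_mul, map_mul, hxX, hxX, tl_lin, tl_lin, c2_sub, c2_lin_mul,
        c2_lin_mul] at h4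
      exact h4
    · have hm := h.tl_mem Θ h1 h3 (hle (SB i)) (((((lin_homog _).mul (lin_homog _)).add
        ((lin_homog _).mul (lin_homog _))).add ((lin_homog _).mul (lin_homog _))).sub
        ((lin_homog _).mul (lin_homog _)))
      have h4 := (mem_II.1 hm).2.2 k
      rw [map_sub, map_add, map_add, map_mul, map_mul, map_mul, map_mul, hxX, hxX, hxX, hxX,
        tl_lin, tl_lin, tl_lin, tl_lin, c2_sub, c2_add, c2_add, c2_lin_mul,
        c2_lin_mul, c2_lin_mul, c2_lin_mul] at h4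
      exact h4
    · have hm := h.tl_mem Θ h1 h3 (hle (SC i)) (((((lin_homog _).mul (lin_homog _)).add
        ((lin_homog _).mul (lin_homog _))).add ((lin_homog _).mul (lin_homog _))).sub
        ((lin_homog _).mul (lin_homog _)))
      have h4 := (mem_II.1 hm).2.2 k
      rw [map_sub, map_add, map_add, map_mul, map_mul, map_mul, map_mul, hxX, hxX, hxX, hxX,
        tl_lin, tl_lin, tl_lin, tl_lin, c2_sub, c2_add, c2_add, c2_lin_mul,
        c2_lin_mul, c2_lin_mul, c2_lin_mul] at h4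
      exact h4
  obtain ⟨Θ, hΘ1, hΘ2⟩ := exists_theta (LL J') x (fun a ha => h.ind a ha)
  obtain ⟨v, hv⟩ := key Θ hΘ1 hΘ2
  have hlp : ∀ i, tp i - (v (i + 1) • x i + v i • x (i + 1)) ∈ LL J' := by
    intro i
    have h3 := dual_span (LL J') x Θ hΘ1 hΘ2 (tp i) (i + 2) (fun Θ' a b => by
      obtain ⟨v', hv'⟩ := key Θ' a b
      exact (hv' i).1.2.2.1)
    obtain ⟨⟨a1, a2, a3, a4, a5⟩, -⟩ := hv i
    rw [sum_shift _ i, a1, a2, a3, a4, a5] at h3
    simpa using h3
  have hls : ∀ i, ts i - ((- 2 * v i) • x i + v (i - 1) • x (i + 1) + v (i + 1) • x (i + 4)) ∈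
      LL J' := by
    intro i
    have h3 := dual_span (LL J') x Θ hΘ1 hΘ2 (ts i) (i + 2) (fun Θ' a b => by
      obtain ⟨v', hv'⟩ := key Θ' a b
      exact (hv' i).2.2.2.1)
    obtain ⟨-, ⟨a1, a2, a3, a4, a5⟩⟩ := hv i
    rw [sum_shift _ i, a1, a2, a3, a4, a5] at h3
    simpa using h3
  choose cp hcp using fun i => dec1 hJ hJJ' (hlp i)
  choose cs hcs using fun i => dec1 hJ hJJ' (hls i)
  -- the new vectors
  have hx' : ∀ j, lin (x j + v j • y) = lin (x j) + C (v j) * lin y := fun j => by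
    rw [lin_add, lin_smul]
  have hgp : ∀ i, gp (fun j => lin (x j + v j • y)) i =
      gp (fun j => lin (x j)) i + lin y * (C (v (i + 1)) * lin (x i) + C (v i) * lin (x (i + 1))) +
        C (v i * v (i + 1)) * lin y ^ 2 := by
    intro i
    unfold gp
    simp only [hx', C_mul]
    ring
  have hgs : ∀ i, gs (fun j => lin (x j + v j • y)) i =
      gs (fun j => lin (x j)) i + lin y * (C (-2 * v i) * lin (x i) +
        C (v (i - 1)) * lin (x (i + 1)) + C (v (i + 1)) * lin (x (i - 1))) +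
        C (v (i - 1) * v (i + 1) - v i ^ 2) * lin y ^ 2 := by
    intro i
    unfold gs
    have e : (C (-2 * v i) : MvPolynomial (Fin m) K) = - (2 * C (v i)) := by
      rw [neg_mul, C_neg, C_mul, map_ofNat C 2]
    simp only [hx', C_mul, C_sub, C_pow] at e ⊢
    rw [e]
    ring
  have hind : ∀ a : Fin 5 → K, lin (∑ j, a j • (x j + v j • y)) ∈ J → a = 0 := by
    intro a ha
    apply h.ind
    have e : ∑ j, a j • (x j + v j • y) = ∑ j, a j • x j + (∑ j, a j * v j) • y := by
      rw [Finset.sum_smul, ← Finset.sum_add_distrib]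
      apply Finset.sum_congr rfl
      intro j _
      rw [smul_add, smul_smul]
    rw [e, lin_add, lin_smul] at ha
    have h3 := J'.sub_mem (hle ha) (J'.mul_mem_left (C (∑ j, a j * v j)) hyJ)
    rwa [add_sub_cancel_right] at h3
  have hP : ∀ i, ∃ κ : K, gp (fun j => lin (x j + v j • y)) i + C κ * lin y ^ 2 ∈ J := by
    intro i
    refine ⟨-(v i * v (i + 1)) - cp i, ?_⟩
    have h3 := J.sub_mem (htp i) (J.mul_mem_left (lin y) (hcp i))
    rw [lin_sub, lin_add, lin_smul, lin_smul] at h3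
    rw [hgp]
    convert h3 using 1
    simp only [C_sub, C_neg, C_mul]
    ring
  have hS : ∀ i, ∃ ρ : K, gs (fun j => lin (x j + v j • y)) i + C ρ * lin y ^ 2 ∈ J := by
    intro i
    refine ⟨-(v (i - 1) * v (i + 1) - v i ^ 2) - cs i, ?_⟩
    have h3 := J.sub_mem (hts i) (J.mul_mem_left (lin y) (hcs i))
    have e : ∀ i : Fin 5, i + 4 = i - 1 := by decide
    rw [lin_sub, lin_add, lin_add, lin_smul, lin_smul, lin_smul, e] at h3
    rw [hgs]
    convert h3 using 1
    simp only [C_sub, C_neg, C_mul, C_pow]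
    ring
  choose κ hκ using hP
  choose ρ hρ using hS
  -- two independent vectors
  have two : ∀ (i l : Fin 5) (a b : K), i ≠ l →
      lin (a • (x i + v i • y) + b • (x l + v l • y)) ∈ J → a = 0 ∧ b = 0 := by
    intro i l a b hil hm
    have e : ∑ j, (Pi.single i a + Pi.single l b : Fin 5 → K) j • (x j + v j • y) =
        a • (x i + v i • y) + b • (x l + v l • y) := by
      simp only [Pi.add_apply, add_smul, Finset.sum_add_distrib]
      congr 1
      · rw [Finset.sum_eq_single i]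
        · rw [Pi.single_eq_same]
        · intro j _ hj; rw [Pi.single_eq_of_ne hj, zero_smul]
        · intro hh; exact absurd (Finset.mem_univ _) hh
      · rw [Finset.sum_eq_single l]
        · rw [Pi.single_eq_same]
        · intro j _ hj; rw [Pi.single_eq_of_ne hj, zero_smul]
        · intro hh; exact absurd (Finset.mem_univ _) hh
    have h3 := hind _ (by rw [e]; exact hm)
    constructor
    · have := congrFun h3 i
      simpa [Pi.single_eq_of_ne hil] using this
    · have := congrFun h3 l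
      simpa [Pi.single_eq_of_ne hil.symm] using this
  have hκ0 : ∀ i, κ i = 0 := by
    intro i
    have h3 := J.sub_mem (J.mul_mem_left (lin (x (i + 2) + v (i + 2) • y)) (hκ i))
      (J.mul_mem_left (lin (x i + v i • y)) (hκ (i + 1)))
    have h4 : lin y * (lin y * lin (κ i • (x (i + 2) + v (i + 2) • y) +
        (- κ (i + 1)) • (x i + v i • y))) ∈ J := by
      rw [lin_add, lin_smul, lin_smul, C_neg]
      have e : ∀ i : Fin 5, i + 1 + 1 = i + 2 := by decide
      convert h3 using 1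
      unfold gp
      rw [e]
      ring
    have h5 : ∀ i : Fin 5, i + 2 ≠ i := by decide
    exact (two _ _ _ _ (h5 i) (hy _ (hy _ h4))).1
  have hρ0 : ∀ i, ρ i = 0 := by
    intro i
    have h3 := J.sub_mem (J.add_mem (J.add_mem (J.mul_mem_left (lin (x i + v i • y)) (hρ (i + 1)))
      (J.mul_mem_left (lin (x (i + 2) + v (i + 2) • y)) (hρ i)))
      (J.mul_mem_left (lin (x (i + 1) + v (i + 1) • y)) (hκ i)))
      (J.mul_mem_left (lin (x (i - 1) + v (i - 1) • y)) (hκ (i + 1)))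
    rw [hκ0, hκ0, C_0] at h3
    have h4 : lin y * (lin y * lin (ρ i • (x (i + 2) + v (i + 2) • y) +
        (ρ (i + 1)) • (x i + v i • y))) ∈ J := by
      rw [lin_add, lin_smul, lin_smul]
      have e : ∀ i : Fin 5, i + 1 + 1 = i + 2 ∧ i + 1 - 1 = i := by decide
      convert h3 using 1
      unfold gp gs
      rw [(e i).1, (e i).2]
      ring
    have h5 : ∀ i : Fin 5, i + 2 ≠ i := by decide
    exact (two _ _ _ _ (h5 i) (hy _ (hy _ h4))).1
  have hgpJ : ∀ i, gp (fun j => lin (x j + v j • y)) i ∈ J := by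
    intro i
    have := hκ i
    rw [hκ0, C_0, zero_mul, add_zero] at this
    exact this
  have hgsJ : ∀ i, gs (fun j => lin (x j + v j • y)) i ∈ J := by
    intro i
    have := hρ i
    rw [hρ0, C_0, zero_mul, add_zero] at this
    exact this
  -- the quadratic part
  have hQ : ∀ u ∈ QQ J', ∃ u' ∈ QQ J, ∃ τ : Fin m → K, u = u' + lin y * lin τ := by
    intro u hu
    refine Submodule.span_induction (p := fun u _ => ∃ u' ∈ QQ J, ∃ τ : Fin m → K,
      u = u' + lin y * lin τ) ?_ ?_ ?_ ?_ hu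
    · rintro _ ⟨a, b, ha, rfl⟩
      obtain ⟨c, hc⟩ := dec1 hJ hJJ' (v := a) ha
      refine ⟨lin (a + c • y) * lin b, Submodule.subset_span ⟨_, _, ?_, rfl⟩, (-c) • b, ?_⟩
      · rw [lin_add, lin_smul]; exact hc
      · rw [lin_add, lin_smul, lin_smul, C_neg]; ring
    · exact ⟨0, Submodule.zero_mem _, 0, by rw [lin_zero]; ring⟩
    · rintro _ _ _ _ ⟨u1, h1, t1', rfl⟩ ⟨u2, h2', t2, rfl⟩
      exact ⟨u1 + u2, Submodule.add_mem _ h1 h2', t1' + t2, by rw [lin_add]; ring⟩
    · rintro c _ _ ⟨u1, h1, t1', rfl⟩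
      exact ⟨c • u1, Submodule.smul_mem _ _ h1, c • t1', by
        rw [lin_smul, smul_add, smul_eq_C_mul, smul_eq_C_mul]; ring⟩
  refine ⟨fun j => x j + v j • y, hind, hgpJ, hgsJ, fun f hf hf2 => ?_⟩
  obtain ⟨a, b, hab⟩ := h.deg f (hle hf) hf2
  obtain ⟨u', hu', τ, hτ⟩ := hQ _ hab
  refine ⟨a, b, ?_⟩
  -- the difference of the relations is divisible by `y`
  obtain ⟨τ2, hτ2⟩ : ∃ τ2 : Fin m → K, f - ∑ i, C (a i) * gp (fun j => lin (x j + v j • y)) i -
      ∑ i, C (b i) * gs (fun j => lin (x j + v j • y)) i = u' + lin y * lin τ2 := by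
    have e1 : ∀ i, C (a i) * gp (fun j => lin (x j + v j • y)) i =
        C (a i) * gp (fun j => lin (x j)) i + lin y * lin (a i • (v (i + 1) • x i +
          v i • x (i + 1) + (v i * v (i + 1)) • y)) := by
      intro i
      rw [hgp]
      simp only [lin_add, lin_smul]
      ring
    have e2 : ∀ i, C (b i) * gs (fun j => lin (x j + v j • y)) i =
        C (b i) * gs (fun j => lin (x j)) i + lin y * lin (b i • ((-2 * v i) • x i +
          v (i - 1) • x (i + 1) + v (i + 1) • x (i - 1) +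
          (v (i - 1) * v (i + 1) - v i ^ 2) • y)) := by
      intro i
      rw [hgs]
      simp only [lin_add, lin_smul]
      ring
    refine ⟨τ - ∑ i, a i • (v (i + 1) • x i + v i • x (i + 1) + (v i * v (i + 1)) • y) -
      ∑ i, b i • ((-2 * v i) • x i + v (i - 1) • x (i + 1) + v (i + 1) • x (i - 1) +
          (v (i - 1) * v (i + 1) - v i ^ 2) • y), ?_⟩
    rw [Finset.sum_congr rfl (fun i _ => e1 i), Finset.sum_congr rfl (fun i _ => e2 i),
      Finset.sum_add_distrib, Finset.sum_add_distrib, ← Finset.mul_sum, ← Finset.mul_sum,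
      ← lin_sum, ← lin_sum, lin_sub, lin_sub]
    linear_combination hτ
  have h3 : lin y * lin τ2 ∈ J := by
    have h4 := J.sub_mem (J.sub_mem (J.sub_mem hf (J.sum_mem (t := Finset.univ) fun i _ =>
      J.mul_mem_left (C (a i)) (hgpJ i))) (J.sum_mem (t := Finset.univ) fun i _ =>
      J.mul_mem_left (C (b i)) (hgsJ i))) (QQ_le J hu')
    rw [hτ2, add_sub_cancel_left] at h4
    exact h4
  have h4 := hy _ h3
  rw [hτ2, mul_comm]
  exact Submodule.add_mem _ hu' (Submodule.subset_span ⟨τ2, y, h4, rfl⟩)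

end Pool.Agent.Helper698.Kos
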