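import Mathlib
import Pool.Agent.Helper698.KE

open MvPolynomial

namespace Pool.Agent.Helper698.Kos

variable {K : Type} [Field K] {m : ℕ}

lemma c2_C_mul (k : Fin 5) (a : K) (f : MvPolynomial (Fin 5) K) : c2 k (C a * f) = a * c2 k f := by
  unfold c2
  rw [coeff_C_mul, coeff_C_mul]; ring

lemma c2_sum {ι : Type} (s : Finset ι) (k : Fin 5) (f : ι → MvPolynomial (Fin 5) K) :
    c2 k (∑ i ∈ s, f i) = ∑ i ∈ s, c2 k (f i) := by
  unfold c2
  rw [coeff_sum, coeff_sum, ← Finset.sum_add_distrib]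

lemma c2_lin_sq (a : Fin 5 → K) (k : Fin 5) :
    c2 k (lin a * lin a) = a k ^ 2 + 2 * (a (k - 1) * a (k + 1)) := by
  have h1 : lin a * lin a = ∑ j, C (a j) * (X j * lin a) := by
    conv_lhs => unfold lin
    rw [Finset.sum_mul]
    apply Finset.sum_congr rfl
    intro j _
    rw [mul_assoc]
    rfl
  rw [h1, c2_sum]
  simp only [c2_C_mul, c2_lin_mul]
  rw [sum_shift _ k]
  have e : ∀ k : Fin 5, (k = k + 1 - 1 ∧ k - 1 = k + 1 - 2) ∧ k = k + 2 - 2 ∧
    k = k + 3 + 2 ∧ (k = k + 4 + 1 ∧ k + 1 = k + 4 + 2) ∧ k + 4 = k - 1 := by decide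
  obtain ⟨e1, e2, e3, e4, e5⟩ := e k
  rw [qv_same rfl, qv_pred e1, qv_zero (Or.inr e2), qv_zero (Or.inl e3), qv_succ e4, e5]
  ring

lemma aniso (h33 : (33 : K) ≠ 0) (a : Fin 5 → K)
    (ha : lin a ^ 2 ∈ II K) : a = 0 := by
  rw [pow_two] at ha
  have E : ∀ k, a k ^ 2 + 2 * (a (k - 1) * a (k + 1)) = 0 := by
    intro k
    rw [← c2_lin_sq]
    exact (mem_II.1 ha).2.2 k
  have step : ∀ k, a k = 0 → a (k - 1) = 0 := by
    intro k hk
    have h := E (k - 1)
    have e : ∀ k : Fin 5, k - 1 + 1 = k := by decide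
    rw [e, hk] at h
    have : a (k - 1) ^ 2 = 0 := by linear_combination h
    exact pow_eq_zero_iff (two_ne_zero) |>.1 this
  have hex : ∃ k, a k = 0 := by
    have E0 := E 0
    have E1 := E 1
    have E2 := E 2
    have E3 := E 3
    have E4 := E 4
    have m1 : (0 : Fin 5) - 1 = 4 := rfl
    have m2 : (0 : Fin 5) + 1 = 1 := rfl
    have m3 : (1 : Fin 5) - 1 = 0 := rfl
    have m4 : (1 : Fin 5) + 1 = 2 := rfl
    have m5 : (2 : Fin 5) - 1 = 1 := rfl
    have m6 : (2 : Fin 5) + 1 = 3 := rfl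
    have m7 : (3 : Fin 5) - 1 = 2 := rfl
    have m8 : (3 : Fin 5) + 1 = 4 := rfl
    have m9 : (4 : Fin 5) - 1 = 3 := rfl
    have m10 : (4 : Fin 5) + 1 = 0 := rfl
    rw [m1, m2] at E0
    rw [m3, m4] at E1
    rw [m5, m6] at E2
    rw [m7, m8] at E3
    rw [m9, m10] at E4
    have hP : (33 : K) * (a 0 * a 1 * a 2 * a 3 * a 4) ^ 2 = 0 := by
      linear_combination E0 * a 1 ^ 2 * a 2 ^ 2 * a 3 ^ 2 * a 4 ^ 2 -
        2 * (a 4 * a 1) * E1 * a 2 ^ 2 * a 3 ^ 2 * a 4 ^ 2 +
        4 * (a 4 * a 1) * (a 0 * a 2) * E2 * a 3 ^ 2 * a 4 ^ 2 -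
        8 * (a 4 * a 1) * (a 0 * a 2) * (a 1 * a 3) * E3 * a 4 ^ 2 +
        16 * (a 4 * a 1) * (a 0 * a 2) * (a 1 * a 3) * (a 2 * a 4) * E4
    have hP2 := (mul_eq_zero.1 hP).resolve_left h33
    have hP3 := pow_eq_zero_iff (two_ne_zero) |>.1 hP2
    by_contra hcon
    push Not at hcon
    exact mul_ne_zero (mul_ne_zero (mul_ne_zero (mul_ne_zero (hcon 0) (hcon 1)) (hcon 2))
      (hcon 3)) (hcon 4) hP3
  obtain ⟨k, hk⟩ := hex
  have h1 := step _ hk
  have h2' := step _ h1
  have h3 := step _ h2'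
  have h4 := step _ h3
  funext j
  have e : ∀ k j : Fin 5, j = k ∨ j = k - 1 ∨ j = k - 1 - 1 ∨ j = k - 1 - 1 - 1 ∨
    j = k - 1 - 1 - 1 - 1 := by decide
  rcases e k j with rfl | rfl | rfl | rfl | rfl
  · exact hk
  · exact h1
  · exact h2'
  · exact h3
  · exact h4

/-- the leading variable of a vector -/
def IsLead (ord : MonomialOrder (Fin m)) (v : Fin m → K) (z : Fin m) : Prop :=
  v z ≠ 0 ∧ ∀ t, v t ≠ 0 → ord.toSyn (Finsupp.single t 1) ≤ ord.toSyn (Finsupp.single z 1)

lemma exists_lead (ord : MonomialOrder (Fin m)) (v : Fin m → K) (hv : v ≠ 0) :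
    ∃ z, IsLead ord v z := by
  classical
  obtain ⟨t, ht⟩ := Function.ne_iff.1 hv
  obtain ⟨z, hz, hmax⟩ := Finset.exists_max_image (Finset.univ.filter (fun t => v t ≠ 0))
    (fun t => ord.toSyn (Finsupp.single t 1)) ⟨t, Finset.mem_filter.2 ⟨Finset.mem_univ _, ht⟩⟩
  exact ⟨z, (Finset.mem_filter.1 hz).2, fun s hs =>
    hmax s (Finset.mem_filter.2 ⟨Finset.mem_univ _, hs⟩)⟩

lemma mem_support_lin {v : Fin m → K} {d : Fin m →₀ ℕ} (hd : d ∈ (lin v).support) :
    ∃ t, d = Finsupp.single t 1 ∧ v t ≠ 0 := by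
  rw [mem_support_iff] at hd
  unfold lin at hd
  rw [coeff_sum] at hd
  obtain ⟨t, _, ht⟩ := Finset.exists_ne_zero_of_sum_ne_zero hd
  rw [coeff_C_mul, coeff_X] at ht
  split_ifs at ht with h
  · exact ⟨t, h.symm, by simpa using ht⟩
  · simp at ht

lemma degree_lin (ord : MonomialOrder (Fin m)) (v : Fin m → K) (z : Fin m) (hz : IsLead ord v z) :
    ord.degree (lin v) = Finsupp.single z 1 := by
  have hzs : Finsupp.single z 1 ∈ (lin v).support := by
    rw [mem_support_iff, coeff_lin]; exact hz.1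
  have hne : lin v ≠ 0 := by
    intro h; rw [h] at hzs; simp at hzs
  obtain ⟨t, ht, htv⟩ := mem_support_lin (ord.degree_mem_support hne)
  apply ord.toSyn.injective
  apply le_antisymm
  · rw [ht]; exact hz.2 t htv
  · exact ord.le_degree hzs

lemma exists_pair {d : Fin m →₀ ℕ} (hd : d.degree = 2) :
    ∃ s t, d = Finsupp.single s 1 + Finsupp.single t 1 := by
  have hne : d ≠ 0 := by rintro rfl; simp at hd
  obtain ⟨s, hs⟩ := Finsupp.ne_iff.1 hne
  have hs' : 1 ≤ d s := Nat.one_le_iff_ne_zero.2 hs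
  have hle : Finsupp.single s 1 ≤ d := Finsupp.single_le_iff.2 hs'
  have h1 : d = Finsupp.single s 1 + (d - Finsupp.single s 1) := (add_tsub_cancel_of_le hle).symm
  have h2 : (d - Finsupp.single s 1).degree = 1 := by
    have := congrArg Finsupp.degree h1
    rw [map_add, Finsupp.degree_single, hd] at this
    omega
  have hne2 : d - Finsupp.single s 1 ≠ 0 := by intro h; rw [h] at h2; simp at h2
  obtain ⟨t, ht⟩ := Finsupp.ne_iff.1 hne2
  have ht' : 1 ≤ (d - Finsupp.single s 1 : Fin m →₀ ℕ) t := Nat.one_le_iff_ne_zero.2 ht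
  have hle2 : Finsupp.single t 1 ≤ d - Finsupp.single s 1 := Finsupp.single_le_iff.2 ht'
  have h3 : d - Finsupp.single s 1 =
      (d - Finsupp.single s 1 - Finsupp.single t 1) + Finsupp.single t 1 :=
    (tsub_add_cancel_of_le hle2).symm
  have h4 : (d - Finsupp.single s 1 - Finsupp.single t 1).degree = 0 := by
    have := congrArg Finsupp.degree h3
    rw [map_add, Finsupp.degree_single, h2] at this
    omega
  rw [Finsupp.degree_eq_zero_iff] at h4
  rw [h4, zero_add] at h3
  exact ⟨s, t, by rw [← h3]; exact h1⟩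

theorem no_gb (h33 : (33 : K) ≠ 0) {J : Ideal (MvPolynomial (Fin m) K)}
    (hJ : ∀ f ∈ J, ∀ d, homogeneousComponent d f ∈ J) (ord : MonomialOrder (Fin m))
    (hGB : Ideal.span ((fun f : MvPolynomial (Fin m) K => monomial (ord.degree f) (1 : K)) ''
            {f | f ∈ J ∧ f ≠ 0}) ≤
        Ideal.span ((fun f : MvPolynomial (Fin m) K => monomial (ord.degree f) (1 : K)) ''
            {f | f ∈ J ∧ f ≠ 0 ∧ (ord.degree f).degree = 2}))
    {x : Fin 5 → Fin m → K} (h : Good J x) : False := by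
  classical
  -- the Groebner basis condition
  have gb : ∀ g ∈ J, g ≠ 0 → ∃ f ∈ J, f ≠ 0 ∧ (ord.degree f).degree = 2 ∧
      ord.degree f ≤ ord.degree g := by
    intro g hg hg0
    have h1 := hGB (Ideal.subset_span ⟨g, ⟨hg, hg0⟩, rfl⟩)
    have h2 : (fun f : MvPolynomial (Fin m) K => monomial (ord.degree f) (1 : K)) ''
        {f | f ∈ J ∧ f ≠ 0 ∧ (ord.degree f).degree = 2} =
        (fun s => monomial s (1 : K)) '' (ord.degree ''
        {f : MvPolynomial (Fin m) K | f ∈ J ∧ f ≠ 0 ∧ (ord.degree f).degree = 2}) := by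
      rw [Set.image_image]
    rw [h2] at h1
    have h3 := mem_ideal_span_monomial_image.1 h1 (ord.degree g) (by
      simp)
    obtain ⟨_, ⟨f, ⟨hf1, hf2, hf3⟩, rfl⟩, hle⟩ := h3
    exact ⟨f, hf1, hf2, hf3, hle⟩
  -- no linear forms
  have hLL : ∀ v ∈ LL J, v = 0 := by
    intro v hv
    by_contra hv0
    obtain ⟨z, hz⟩ := exists_lead ord v hv0
    have hne : lin v ≠ 0 := by
      intro h0
      have := coeff_lin v z
      rw [h0, coeff_zero] at this
      exact hz.1 this.symm
    obtain ⟨f, _, _, h3, h4⟩ := gb _ hv hne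
    rw [degree_lin ord v z hz] at h4
    have h5 : (ord.degree f).degree ≤ (Finsupp.single z 1 : Fin m →₀ ℕ).degree :=
      Finsupp.degree_mono h4
    rw [h3, Finsupp.degree_single] at h5
    omega
  have hQQ : ∀ u ∈ QQ J, u = 0 := by
    intro u hu
    refine Submodule.span_induction (p := fun u _ => u = 0) ?_ rfl ?_ ?_ hu
    · rintro _ ⟨v, w, hv, rfl⟩
      rw [hLL v hv, lin_zero, zero_mul]
    · rintro _ _ _ _ rfl rfl; rw [add_zero]
    · rintro a _ _ rfl; rw [smul_zero]
  have hxa : ∀ a : Fin 5 → K, a ≠ 0 → ∑ j, a j • x j ≠ 0 := by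
    intro a ha h0
    apply ha
    apply h.ind
    rw [h0, lin_zero]
    exact Ideal.zero_mem _
  -- the smallest leading variable
  let S : Set (Fin m) := {z | ∃ a : Fin 5 → K, a ≠ 0 ∧ IsLead ord (∑ j, a j • x j) z}
  have hSne : S.Nonempty := by
    have h1 : (Pi.single 0 1 : Fin 5 → K) ≠ 0 := by
      intro h0
      have := congrFun h0 0
      simp at this
    obtain ⟨z, hz⟩ := exists_lead ord _ (hxa _ h1)
    exact ⟨z, _, h1, hz⟩
  obtain ⟨z, ⟨a, ha0, haz⟩, hmin⟩ := Set.exists_min_image S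
    (fun t => ord.toSyn (Finsupp.single t 1)) (Set.toFinite S) hSne
  set w : Fin m → K := ∑ j, a j • x j with hw
  -- the extension map
  let Lx : (Fin 5 → K) →ₗ[K] (Fin m → K) := Fintype.linearCombination K x
  have hLx : ∀ b, Lx b = ∑ j, b j • x j := fun b => Fintype.linearCombination_apply K x b
  have hLs : ∀ j, Lx (Pi.single j 1) = x j := fun j => by
    show Fintype.linearCombination K x (Pi.single j 1) = _
    rw [Fintype.linearCombination_apply_single, one_smul]
  have hext : ∀ g ∈ II K, tl Lx g ∈ J := by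
    intro g hg
    have h1 : II K ≤ J.comap (tl Lx) := by
      unfold II
      rw [Ideal.span_le]
      rintro _ (⟨i, rfl⟩ | ⟨i, rfl⟩)
      · show tl Lx (pp i) ∈ J
        have e : tl Lx (pp i) = gp (fun j => lin (x j)) i := by
          unfold pp gp
          rw [← lin_single, ← lin_single, map_mul, tl_lin, tl_lin, hLs, hLs]
        rw [e]; exact h.hp i
      · show tl Lx (ss i) ∈ J
        have e : tl Lx (ss i) = gs (fun j => lin (x j)) i := by
          unfold ss gs
          rw [← lin_single, ← lin_single, ← lin_single, map_sub, map_mul, map_pow, tl_lin, tl_lin,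
            tl_lin, hLs, hLs, hLs]
        rw [e]; exact h.hs i
    exact h1 hg
  have hcube : lin w ^ 3 ∈ J := by
    have h1 : (lin a) ^ 3 ∈ II K := by
      have hh : ((lin a : MvPolynomial (Fin 5) K) ^ 3).IsHomogeneous 3 := by
        have := (lin_homog a).pow 3
        simpa using this
      rw [mem_II]
      refine ⟨hh.coeff_eq_zero (by simp), fun j => hh.coeff_eq_zero (by simp), fun k => ?_⟩
      unfold c2
      rw [hh.coeff_eq_zero (by simp), hh.coeff_eq_zero (by simp), add_zero]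
    have h2 := hext _ h1
    rw [map_pow, tl_lin, hLx] at h2
    exact h2
  have hwne : lin w ≠ 0 := by
    intro h0
    have := coeff_lin w z
    rw [h0, coeff_zero] at this
    exact haz.1 this.symm
  obtain ⟨f, hf1, hf2, hf3, hf4⟩ := gb _ hcube (pow_ne_zero 3 hwne)
  rw [ord.degree_pow, degree_lin ord w z haz] at hf4
  have hfz : ord.degree f = Finsupp.single z 2 := by
    have h1 : ∀ t, t ≠ z → ord.degree f t = 0 := by
      intro t ht
      have := hf4 t
      rw [Finsupp.smul_apply, Finsupp.single_eq_of_ne ht] at this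
      simpa using this
    have h2 : ord.degree f = Finsupp.single z (ord.degree f z) := by
      ext t
      by_cases ht : t = z
      · subst ht; simp
      · rw [h1 t ht, Finsupp.single_eq_of_ne ht]
    rw [h2, Finsupp.degree_single] at hf3
    rw [h2, hf3]
  -- the quadratic component
  set g := homogeneousComponent 2 f with hg
  have hgJ : g ∈ J := hJ f hf1 2
  have hgh : g.IsHomogeneous 2 := homogeneousComponent_isHomogeneous 2 f
  have hgc : coeff (Finsupp.single z 2) g ≠ 0 := by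
    rw [hg, coeff_homogeneousComponent, if_pos (by simp), ← hfz]
    exact ord.coeff_degree_ne_zero_iff.2 hf2
  have hgs : ∀ d ∈ g.support, ord.toSyn d ≤ ord.toSyn (Finsupp.single z 2) := by
    intro d hd
    rw [← hfz]
    apply ord.le_degree
    rw [mem_support_iff] at hd ⊢
    rw [hg, coeff_homogeneousComponent] at hd
    split_ifs at hd
    · exact hd
    · exact absurd rfl hd
  -- truncation
  let P : (Fin m → K) →ₗ[K] (Fin m → K) := LinearMap.pi (fun t =>
    if ord.toSyn (Finsupp.single t 1) < ord.toSyn (Finsupp.single z 1) then 0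
    else LinearMap.proj t)
  have hP1 : ∀ v t, ord.toSyn (Finsupp.single t 1) < ord.toSyn (Finsupp.single z 1) →
      P v t = 0 := by
    intro v t ht
    show (if ord.toSyn (Finsupp.single t 1) < ord.toSyn (Finsupp.single z 1) then
      (0 : (Fin m → K) →ₗ[K] K) else LinearMap.proj t) v = 0
    rw [if_pos ht]; rfl
  have hP2 : ∀ v t, ¬ ord.toSyn (Finsupp.single t 1) < ord.toSyn (Finsupp.single z 1) →
      P v t = v t := by
    intro v t ht
    show (if ord.toSyn (Finsupp.single t 1) < ord.toSyn (Finsupp.single z 1) then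
      (0 : (Fin m → K) →ₗ[K] K) else LinearMap.proj t) v = v t
    rw [if_neg ht]; rfl
  have hPx : ∀ b : Fin 5 → K, ∑ j, b j • P (x j) ∈ (⊥ : Submodule K (Fin m → K)) → b = 0 := by
    intro b hb
    by_contra hb0
    obtain ⟨z', hz'⟩ := exists_lead ord _ (hxa b hb0)
    have h1 := hmin z' ⟨b, hb0, hz'⟩
    have h2 : P (∑ j, b j • x j) z' = (∑ j, b j • x j) z' := hP2 _ _ (not_lt.2 h1)
    rw [map_sum] at h2
    simp only [map_smul] at h2
    rw [(Submodule.mem_bot K).1 hb] at h2
    exact hz'.1 h2.symm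
  obtain ⟨Θ, hΘ1, -⟩ := exists_theta ⊥ (fun j => P (x j)) hPx
  set Ω : (Fin m → K) →ₗ[K] (Fin 5 → K) := Θ ∘ₗ P with hΩ
  have hΩx : ∀ j, Ω (x j) = Pi.single j 1 := hΘ1
  have hΩ0 : ∀ v ∈ LL J, Ω v = 0 := fun v hv => by rw [hLL v hv, map_zero]
  have hmem := h.tl_mem Ω hΩx hΩ0 hgJ hgh
  have hzero : ∀ t, ord.toSyn (Finsupp.single t 1) < ord.toSyn (Finsupp.single z 1) →
      Ω (Pi.single t 1) = 0 := by
    intro t ht
    have h1 : P (Pi.single t 1) = 0 := by
      ext s
      by_cases hs : ord.toSyn (Finsupp.single s 1) < ord.toSyn (Finsupp.single z 1)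
      · rw [hP1 _ _ hs]; rfl
      · rw [hP2 _ _ hs]
        have : s ≠ t := by rintro rfl; exact hs ht
        rw [Pi.single_eq_of_ne this]; rfl
    rw [hΩ, LinearMap.comp_apply, h1, map_zero]
  have htlX : ∀ t, tl Ω (X t) = lin (Ω (Pi.single t 1)) := fun t => by
    rw [← lin_single, tl_lin]
  have htlC : ∀ c : K, tl Ω (C c) = C c := fun c => by
    unfold tl; rw [MvPolynomial.algHom_C]; rfl
  have htlg : tl Ω g = C (coeff (Finsupp.single z 2) g) * lin (Ω (Pi.single z 1)) ^ 2 := by
    conv_lhs => rw [g.as_sum]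
    rw [map_sum, Finset.sum_eq_single (Finsupp.single z 2)]
    · have e : (monomial (Finsupp.single z 2) (coeff (Finsupp.single z 2) g) :
          MvPolynomial (Fin m) K) = C (coeff (Finsupp.single z 2) g) * X z ^ 2 := by
        rw [X_pow_eq_monomial, C_mul_monomial, mul_one]
      rw [e, map_mul, map_pow, htlX, htlC]
    · intro d hd hdz
      have hd2 : d.degree = 2 := by
        by_contra hne
        exact (mem_support_iff.1 hd) (hgh.coeff_eq_zero hne)
      obtain ⟨s, t, hst⟩ := exists_pair hd2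
      have e : (monomial d (coeff d g) : MvPolynomial (Fin m) K) = C (coeff d g) * (X s * X t) := by
        rw [X, X, monomial_mul, C_mul_monomial, mul_one, mul_one, ← hst]
      rw [e, map_mul, map_mul, htlX, htlX]
      by_cases h1 : ord.toSyn (Finsupp.single s 1) < ord.toSyn (Finsupp.single z 1)
      · rw [hzero s h1, lin_zero]; ring
      by_cases h2 : ord.toSyn (Finsupp.single t 1) < ord.toSyn (Finsupp.single z 1)
      · rw [hzero t h2, lin_zero]; ring
      exfalso
      apply hdz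
      apply ord.toSyn.injective
      apply le_antisymm (hgs d hd)
      have e2 : (Finsupp.single z 2 : Fin m →₀ ℕ) = Finsupp.single z 1 + Finsupp.single z 1 := by
        rw [← Finsupp.single_add]
      rw [hst, e2, map_add, map_add]
      exact add_le_add (not_lt.1 h1) (not_lt.1 h2)
    · intro h1
      rw [mem_support_iff, not_not] at h1
      exact absurd h1 hgc
  have hPw : P w = w z • Pi.single z (1 : K) := by
    ext t
    by_cases htz : t = z
    · subst htz
      rw [hP2 _ _ (lt_irrefl _)]; simp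
    · rw [Pi.smul_apply, Pi.single_eq_of_ne htz, smul_zero]
      by_cases h1 : ord.toSyn (Finsupp.single t 1) < ord.toSyn (Finsupp.single z 1)
      · exact hP1 _ _ h1
      · rw [hP2 _ _ h1]
        by_contra hne
        have h2 := haz.2 t hne
        have h3 := ord.toSyn.injective (le_antisymm h2 (not_lt.1 h1))
        exact htz (Finsupp.single_left_injective one_ne_zero h3)
  have hPz : P (Pi.single z (1 : K)) = Pi.single z 1 := by
    ext t
    by_cases h1 : ord.toSyn (Finsupp.single t 1) < ord.toSyn (Finsupp.single z 1)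
    · rw [hP1 _ _ h1]
      have : t ≠ z := by rintro rfl; exact lt_irrefl _ h1
      rw [Pi.single_eq_of_ne this]
    · rw [hP2 _ _ h1]
  have hΩw : Ω w = w z • Ω (Pi.single z 1) := by
    rw [hΩ, LinearMap.comp_apply, LinearMap.comp_apply, hPw, map_smul, hPz]
  have hΩa : Ω w = a := by
    rw [hw, map_sum]
    simp only [map_smul, hΩx]
    ext j
    rw [Finset.sum_apply, Finset.sum_eq_single j]
    · simp
    · intro i _ hi
      rw [Pi.smul_apply, Pi.single_eq_of_ne hi.symm, smul_zero]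
    · intro h; exact absurd (Finset.mem_univ _) h
  apply ha0
  apply aniso h33
  rw [← hΩa, hΩw, lin_smul]
  have h1 : lin (Ω (Pi.single z 1)) ^ 2 ∈ II K := by
    rw [htlg] at hmem
    have h2 := Ideal.mul_mem_left (II K) (C (coeff (Finsupp.single z 2) g)⁻¹) hmem
    rw [← mul_assoc, ← C_mul, inv_mul_cancel₀ hgc, C_1, one_mul] at h2
    exact h2
  rw [mul_pow]
  exact Ideal.mul_mem_left _ _ h1

end Pool.Agent.Helper698.Kos
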