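import Mathlib
import Pool.Agent.Helper698.KF

open MvPolynomial

namespace Pool.Agent.Helper698.Kos

variable {K : Type} [Field K] {m : ℕ}

lemma II_two {g : MvPolynomial (Fin 5) K} (hg : g ∈ II K) (h2 : g.IsHomogeneous 2) :
    ∃ κ ρ : Fin 5 → K, g = ∑ i, C (κ i) * pp i + ∑ i, C (ρ i) * ss i := by
  unfold II at hg
  rw [Ideal.span_union, Submodule.mem_sup] at hg
  obtain ⟨u, hu, w, hw, rfl⟩ := hg
  obtain ⟨a, rfl⟩ := (Submodule.mem_span_range_iff_exists_fun _).1 hu
  obtain ⟨b, rfl⟩ := (Submodule.mem_span_range_iff_exists_fun _).1 hw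
  have hpp : ∀ i, (pp i : MvPolynomial (Fin 5) K).IsHomogeneous 2 := fun i =>
    (isHomogeneous_X K _).mul (isHomogeneous_X K _)
  have hss : ∀ i, (ss i : MvPolynomial (Fin 5) K).IsHomogeneous 2 := fun i =>
    ((isHomogeneous_X K _).mul (isHomogeneous_X K _)).sub (by
      have := (isHomogeneous_X K i).pow 2
      simpa using this)
  refine ⟨fun i => coeff 0 (a i), fun i => coeff 0 (b i), ?_⟩
  have h3 : homogeneousComponent 2 (∑ i, a i • pp (K := K) i + ∑ i, b i • ss (K := K) i) =
      ∑ i, a i • pp (K := K) i + ∑ i, b i • ss (K := K) i := by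
    rw [homogeneousComponent_of_mem ((mem_homogeneousSubmodule _ _).2 h2), if_pos rfl]
  rw [← h3, map_add, map_sum, map_sum]
  congr 1
  · apply Finset.sum_congr rfl
    intro i _
    have := hc_mul 2 0 (a i) (pp i) (hpp i)
    rw [zero_add, homogeneousComponent_zero] at this
    rw [smul_eq_mul, this]
  · apply Finset.sum_congr rfl
    intro i _
    have := hc_mul 2 0 (b i) (ss i) (hss i)
    rw [zero_add, homogeneousComponent_zero] at this
    rw [smul_eq_mul, this]

lemma good_base (Jc : Ideal (MvPolynomial (Fin m) K))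
    (hJc : ∀ f ∈ Jc, ∀ d, homogeneousComponent d f ∈ Jc) (ψ : MvPolynomial (Fin m) K →+* RR K)
    (hker : ∀ f, f ∈ Jc ↔ ψ f = 0) (x : Fin 5 → Fin m → K) (hx : ∀ j, ψ (lin (x j)) = xx K j)
    (hC : ∀ a, ψ (C a) = cc K a) : Good Jc x := by
  classical
  let Lx : (Fin 5 → K) →ₗ[K] (Fin m → K) := Fintype.linearCombination K x
  have hLx : ∀ b, Lx b = ∑ j, b j • x j := fun b => Fintype.linearCombination_apply K x b
  have hLs : ∀ j, Lx (Pi.single j 1) = x j := fun j => by
    show Fintype.linearCombination K x (Pi.single j 1) = _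
    rw [Fintype.linearCombination_apply_single, one_smul]
  have htC : ∀ c : K, tl Lx (C c) = C c := fun c => by
    unfold tl; rw [MvPolynomial.algHom_C]; rfl
  have hψ : ∀ p : MvPolynomial (Fin 5) K, ψ (tl Lx p) = Ideal.Quotient.mk (II K) p := by
    intro p
    induction p using MvPolynomial.induction_on with
    | C a => rw [htC, hC]; rfl
    | add p q hp hq => rw [map_add, map_add, hp, hq, map_add]
    | mul_X p i hp =>
      rw [map_mul, map_mul, hp, map_mul, ← lin_single, tl_lin, hLs, hx, lin_single]
      rfl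
  have hind : ∀ a : Fin 5 → K, lin (∑ j, a j • x j) ∈ Jc → a = 0 := by
    intro a ha
    rw [← hLx, ← tl_lin, hker, hψ, Ideal.Quotient.eq_zero_iff_mem] at ha
    funext j
    have := (mem_II.1 ha).2.1 j
    unfold c1 at this
    rw [coeff_lin] at this
    exact this
  have tlp : ∀ i, tl Lx (pp i) = gp (fun j => lin (x j)) i := by
    intro i
    unfold pp gp
    rw [← lin_single, ← lin_single, map_mul, tl_lin, tl_lin, hLs, hLs]
  have tls : ∀ i, tl Lx (ss i) = gs (fun j => lin (x j)) i := by
    intro i
    unfold ss gs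
    rw [← lin_single, ← lin_single, ← lin_single, map_sub, map_mul, map_pow, tl_lin, tl_lin,
      tl_lin, hLs, hLs, hLs]
  refine ⟨hind, fun i => ?_, fun i => ?_, fun f hf hf2 => ?_⟩
  · rw [← tlp, hker, hψ, Ideal.Quotient.eq_zero_iff_mem]; exact pp_mem i
  · rw [← tls, hker, hψ, Ideal.Quotient.eq_zero_iff_mem]; exact ss_mem i
  · obtain ⟨Θ, hΘ1, hΘ2⟩ := exists_theta (LL Jc) x (fun a ha => hind a ha)
    -- every linear form is a combination of the `x j` modulo `Jc`
    have hdec : ∀ v : Fin m → K, lin (v - Lx (Θ v)) ∈ Jc := by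
      intro v
      set r := ψ (lin v) with hr
      have h1 : ψ (C (e0 r) + lin (∑ j, e1 j r • x j) + ∑ k, C (e2 k r) * lin (x k) ^ 2) = r := by
        conv_rhs => rw [eq_sum r]
        rw [map_add, map_add, hC, map_sum, lin_sum, map_sum]
        congr 1
        · congr 1
          apply Finset.sum_congr rfl
          intro j _
          rw [lin_smul, map_mul, hC, hx]
        · apply Finset.sum_congr rfl
          intro j _
          rw [map_mul, map_pow, hC, hx]
      have h2 : lin v - (C (e0 r) + lin (∑ j, e1 j r • x j) + ∑ k, C (e2 k r) * lin (x k) ^ 2) ∈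
          Jc := by
        rw [hker, map_sub, h1, ← hr, sub_self]
      have h3 := hJc _ h2 1
      rw [map_sub, map_add, map_add, map_sum] at h3
      have a1 : homogeneousComponent 1 (lin v) = lin v := by
        rw [homogeneousComponent_of_mem ((mem_homogeneousSubmodule _ _).2 (lin_homog v)),
          if_pos rfl]
      have a2 : homogeneousComponent 1 (C (e0 r) : MvPolynomial (Fin m) K) = 0 := by
        rw [homogeneousComponent_of_mem ((mem_homogeneousSubmodule _ _).2 (isHomogeneous_C _ _)),
          if_neg (by norm_num)]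
      have a3 : homogeneousComponent 1 (lin (∑ j, e1 j r • x j)) = lin (∑ j, e1 j r • x j) := by
        rw [homogeneousComponent_of_mem ((mem_homogeneousSubmodule _ _).2 (lin_homog _)),
          if_pos rfl]
      have a4 : ∀ k, homogeneousComponent 1 (C (e2 k r) * lin (x k) ^ 2) = 0 := by
        intro k
        have hh : (C (e2 k r) * lin (x k) ^ 2).IsHomogeneous 2 := by
          have := (isHomogeneous_C (Fin m) (e2 k r)).mul ((lin_homog (x k)).pow 2)
          simpa using this
        rw [homogeneousComponent_of_mem ((mem_homogeneousSubmodule _ _).2 hh),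
          if_neg (by norm_num)]
      rw [a1, a2, a3, Finset.sum_eq_zero (fun k _ => a4 k), zero_add, add_zero, ← lin_sub] at h3
      have h4 := hΘ2 _ h3
      have h5 : Θ (∑ j, e1 j r • x j) = fun j => e1 j r := by
        rw [map_sum]
        simp only [map_smul, hΘ1]
        ext j
        rw [Finset.sum_apply, Finset.sum_eq_single j]
        · simp
        · intro i _ hi
          rw [Pi.smul_apply, Pi.single_eq_of_ne hi.symm, smul_zero]
        · intro h; exact absurd (Finset.mem_univ _) h
      rw [map_sub, h5, sub_eq_zero] at h4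
      rw [h4, hLx]
      exact h3
    -- quadratic forms
    have hquad : f - tl Lx (tl Θ f) ∈ QQ Jc ∧ (tl Θ f).IsHomogeneous 2 := by
      have hmon : ∀ d ∈ f.support, monomial d (coeff d f) - tl Lx (tl Θ (monomial d (coeff d f))) ∈
          QQ Jc ∧ (tl Θ (monomial d (coeff d f))).IsHomogeneous 2 := by
        intro d hd
        have hd2 : d.degree = 2 := by
          by_contra hne
          exact (mem_support_iff.1 hd) (hf2.coeff_eq_zero hne)
        obtain ⟨s, t, hst⟩ := exists_pair hd2
        have e : (monomial d (coeff d f) : MvPolynomial (Fin m) K) =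
            C (coeff d f) * (lin (Pi.single s 1) * lin (Pi.single t 1)) := by
          rw [lin_single, lin_single, X, X, monomial_mul, C_mul_monomial, mul_one, mul_one, ← hst]
        have htC' : ∀ c : K, tl Θ (C c) = C c := fun c => by
          unfold tl; rw [MvPolynomial.algHom_C]; rfl
        rw [e]
        simp only [map_mul, htC', htC, tl_lin]
        constructor
        · have e2 : C (coeff d f) * (lin (Pi.single s 1) * lin (Pi.single t 1)) -
              C (coeff d f) * (lin (Lx (Θ (Pi.single s 1))) * lin (Lx (Θ (Pi.single t 1)))) =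
              coeff d f • (lin (Pi.single s 1 - Lx (Θ (Pi.single s 1))) * lin (Pi.single t 1) +
              lin (Pi.single t 1 - Lx (Θ (Pi.single t 1))) * lin (Lx (Θ (Pi.single s 1)))) := by
            rw [smul_eq_C_mul, lin_sub, lin_sub]; ring
          rw [e2]
          exact Submodule.smul_mem _ _ (Submodule.add_mem _
            (Submodule.subset_span ⟨_, _, hdec _, rfl⟩) (Submodule.subset_span ⟨_, _, hdec _, rfl⟩))
        · have := (isHomogeneous_C (Fin 5) (coeff d f)).mul
            ((lin_homog (Θ (Pi.single s 1))).mul (lin_homog (Θ (Pi.single t 1))))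
          simpa using this
      constructor
      · have e : f - tl Lx (tl Θ f) = ∑ d ∈ f.support,
            (monomial d (coeff d f) - tl Lx (tl Θ (monomial d (coeff d f)))) := by
          rw [Finset.sum_sub_distrib, ← map_sum, ← map_sum, ← f.as_sum]
        rw [e]
        exact Submodule.sum_mem _ fun d hd => (hmon d hd).1
      · rw [f.as_sum, map_sum]
        exact IsHomogeneous.sum _ _ _ fun d hd => (hmon d hd).2
    obtain ⟨hq1, hq2⟩ := hquad
    have hg : tl Θ f ∈ II K := by
      rw [← Ideal.Quotient.eq_zero_iff_mem, ← hψ, ← hker]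
      have := Jc.sub_mem hf (QQ_le Jc hq1)
      rwa [sub_sub_cancel] at this
    obtain ⟨κ, ρ, hκ⟩ := II_two hg hq2
    refine ⟨κ, ρ, ?_⟩
    rw [hκ, map_add, map_sum, map_sum] at hq1
    simp only [map_mul, htC, tlp, tls] at hq1
    rw [sub_sub]
    exact hq1

end Pool.Agent.Helper698.Kos
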