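import Mathlib
import Pool.Agent.Helper698.KG

open MvPolynomial

namespace Pool.Agent.Helper698.Kos

variable {K : Type} [Field K] {m : ℕ}

/-- the preimage of the ideal generated by a list in the quotient -/
noncomputable def pre (J : Ideal (MvPolynomial (Fin m) K)) (zs : List (MvPolynomial (Fin m) K ⧸ J)) :
    Ideal (MvPolynomial (Fin m) K) :=
  (Ideal.ofList zs).comap (Ideal.Quotient.mk J)

lemma mem_pre {J : Ideal (MvPolynomial (Fin m) K)} {zs : List (MvPolynomial (Fin m) K ⧸ J)}
    {f : MvPolynomial (Fin m) K} : f ∈ pre J zs ↔ Ideal.Quotient.mk J f ∈ Ideal.ofList zs :=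
  Iff.rfl

lemma pre_homog (J : Ideal (MvPolynomial (Fin m) K))
    (hJ : ∀ f ∈ J, ∀ d, homogeneousComponent d f ∈ J) :
    ∀ zs : List (MvPolynomial (Fin m) K ⧸ J),
    (∀ z ∈ zs, ∃ q : MvPolynomial (Fin m) K, q.IsHomogeneous 1 ∧ z = Ideal.Quotient.mk J q) →
    ∀ f ∈ pre J zs, ∀ d, homogeneousComponent d f ∈ pre J zs := by
  intro zs
  induction zs with
  | nil =>
    intro _ f hf d
    rw [mem_pre, Ideal.ofList_nil, Ideal.mem_bot, Ideal.Quotient.eq_zero_iff_mem] at hf ⊢
    exact hJ f hf d
  | cons z zs ih =>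
    intro hz f hf d
    obtain ⟨q, hq, rfl⟩ := hz z List.mem_cons_self
    rw [mem_pre, Ideal.ofList_cons, Submodule.mem_sup] at hf
    obtain ⟨u, hu, w, hw, huw⟩ := hf
    obtain ⟨a, rfl⟩ := Ideal.mem_span_singleton'.1 hu
    obtain ⟨a, rfl⟩ := Ideal.Quotient.mk_surjective a
    have h1 : f - a * q ∈ pre J zs := by
      rw [mem_pre, map_sub, map_mul, ← huw, add_sub_cancel_left]
      exact hw
    have h2 := ih (fun y hy => hz y (List.mem_cons_of_mem _ hy)) _ h1 d
    rw [map_sub] at h2
    have h3 : homogeneousComponent d (a * q) ∈ pre J (Ideal.Quotient.mk J q :: zs) := by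
      rcases d with _ | d
      · have : homogeneousComponent 0 (a * q) = 0 := by
          rw [homogeneousComponent_zero]
          have : coeff 0 (a * q) = 0 := by
            rw [← constantCoeff_eq, map_mul, constantCoeff_eq,
              hq.coeff_eq_zero (by simp), mul_zero]
          rw [this, C_0]
        rw [this]; exact Ideal.zero_mem _
      · rw [hc_mul 1 d a q hq, mem_pre, map_mul, Ideal.ofList_cons]
        exact Ideal.mem_sup_left (Ideal.mul_mem_left _ _ (Ideal.mem_span_singleton_self _))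
    have h4 : pre J zs ≤ pre J (Ideal.Quotient.mk J q :: zs) := by
      intro g hg
      rw [mem_pre] at hg ⊢
      rw [Ideal.ofList_cons]
      exact Ideal.mem_sup_right hg
    have := Ideal.add_mem _ (h4 h2) h3
    rwa [sub_add_cancel] at this

lemma pre_append (J : Ideal (MvPolynomial (Fin m) K)) (zs : List (MvPolynomial (Fin m) K ⧸ J))
    (q : MvPolynomial (Fin m) K) :
    pre J (zs ++ [Ideal.Quotient.mk J q]) = pre J zs ⊔ Ideal.span {q} := by
  ext f
  rw [mem_pre, Ideal.ofList_append, Ideal.ofList_singleton, Submodule.mem_sup, Submodule.mem_sup]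
  constructor
  · rintro ⟨u, hu, w, hw, huw⟩
    obtain ⟨a, rfl⟩ := Ideal.mem_span_singleton'.1 hw
    obtain ⟨a, rfl⟩ := Ideal.Quotient.mk_surjective a
    refine ⟨f - a * q, ?_, a * q, Ideal.mul_mem_left _ _ (Ideal.mem_span_singleton_self _), by ring⟩
    rw [mem_pre, map_sub, map_mul, ← huw, add_sub_cancel_right]
    exact hu
  · rintro ⟨u, hu, w, hw, rfl⟩
    obtain ⟨a, rfl⟩ := Ideal.mem_span_singleton'.1 hw
    refine ⟨Ideal.Quotient.mk J u, hu, Ideal.Quotient.mk J (a * q), ?_, by rw [map_add]⟩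
    rw [map_mul]
    exact Ideal.mul_mem_left _ _ (Ideal.mem_span_singleton_self _)

theorem main_contra (h2 : (2 : K) ≠ 0) (h33 : (33 : K) ≠ 0)
    (J : Ideal (MvPolynomial (Fin m) K)) (hJ : ∀ f ∈ J, ∀ d : ℕ, homogeneousComponent d f ∈ J)
    (ord : MonomialOrder (Fin m))
    (hGB : Ideal.span ((fun f : MvPolynomial (Fin m) K => monomial (ord.degree f) (1 : K)) ''
            {f | f ∈ J ∧ f ≠ 0}) ≤
        Ideal.span ((fun f : MvPolynomial (Fin m) K => monomial (ord.degree f) (1 : K)) ''
            {f | f ∈ J ∧ f ≠ 0 ∧ (ord.degree f).degree = 2}))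
    (ys : List (MvPolynomial (Fin m) K ⧸ J))
    (hys : ∀ y ∈ ys, ∃ q : MvPolynomial (Fin m) K, q.IsHomogeneous 1 ∧ y = Ideal.Quotient.mk J q)
    (hreg : RingTheory.Sequence.IsRegular (MvPolynomial (Fin m) K ⧸ J) ys)
    (φ : (MvPolynomial (Fin 5) K ⧸ II K) ≃ₐ[K] ((MvPolynomial (Fin m) K ⧸ J) ⧸ Ideal.ofList ys))
    (hφ : ∀ p : MvPolynomial (Fin 5) K, p.IsHomogeneous 1 →
            ∃ q : MvPolynomial (Fin m) K, q.IsHomogeneous 1 ∧
              φ (Ideal.Quotient.mk (II K) p) =
                Ideal.Quotient.mk (Ideal.ofList ys) (Ideal.Quotient.mk J q)) : False := by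
  -- the base case
  have hbase : ∃ x, Good (pre J ys) x := by
    have hx : ∀ j : Fin 5, ∃ v : Fin m → K, φ (xx K j) =
        Ideal.Quotient.mk (Ideal.ofList ys) (Ideal.Quotient.mk J (lin v)) := by
      intro j
      obtain ⟨q, hq, h⟩ := hφ (X j) (isHomogeneous_X K j)
      obtain ⟨v, rfl⟩ := eq_lin hq
      exact ⟨v, h⟩
    choose x hx using hx
    refine ⟨x, good_base (pre J ys) (pre_homog J hJ ys hys)
      ((φ.symm : _ →+* RR K).comp ((Ideal.Quotient.mk (Ideal.ofList ys)).comp
        (Ideal.Quotient.mk J))) (fun f => ?_) x (fun j => ?_) (fun a => ?_)⟩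
    · rw [mem_pre]
      show _ ↔ φ.symm (Ideal.Quotient.mk (Ideal.ofList ys) (Ideal.Quotient.mk J f)) = 0
      rw [map_eq_zero_iff φ.symm φ.symm.injective, Ideal.Quotient.eq_zero_iff_mem]
    · show φ.symm (Ideal.Quotient.mk (Ideal.ofList ys) (Ideal.Quotient.mk J (lin (x j)))) = _
      rw [← hx, AlgEquiv.symm_apply_apply]
    · show φ.symm (Ideal.Quotient.mk (Ideal.ofList ys) (Ideal.Quotient.mk J (C a))) = _
      have := φ.symm.commutes a
      exact this
  -- descend along the regular sequence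
  have hdesc : ∀ k ≤ ys.length, ∃ x, Good (pre J (ys.take (ys.length - k))) x := by
    intro k
    induction k with
    | zero =>
      intro _
      rw [Nat.sub_zero, List.take_length]
      exact hbase
    | succ k ih =>
      intro hk
      obtain ⟨x, hx⟩ := ih (by omega)
      have hi : ys.length - (k + 1) < ys.length := by omega
      set i := ys.length - (k + 1) with hidef
      have hi1 : ys.length - k = i + 1 := by omega
      rw [hi1, List.take_succ_eq_append_getElem hi] at hx
      obtain ⟨q, hq, hqy⟩ := hys _ (List.getElem_mem hi)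
      obtain ⟨y, rfl⟩ := eq_lin hq
      rw [hqy, pre_append] at hx
      refine Good.step h2 (pre_homog J hJ _ (fun z hz => hys z (List.mem_of_mem_take hz))) ?_ rfl hx
      intro f hf
      have hr := hreg.toIsWeaklyRegular.regular_mod_prev i hi
      rw [mem_pre] at hf ⊢
      have e : (Ideal.ofList (ys.take i) • (⊤ : Submodule (MvPolynomial (Fin m) K ⧸ J)
          (MvPolynomial (Fin m) K ⧸ J))) = Ideal.ofList (ys.take i) := by
        rw [smul_eq_mul]
        exact Ideal.mul_top _
      have h3 : (Submodule.Quotient.mk (Ideal.Quotient.mk J f) :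
          (MvPolynomial (Fin m) K ⧸ J) ⧸ (Ideal.ofList (ys.take i) •
          (⊤ : Submodule (MvPolynomial (Fin m) K ⧸ J) (MvPolynomial (Fin m) K ⧸ J)))) = 0 := by
        apply hr
        show ys[i] • _ = ys[i] • 0
        rw [smul_zero, ← Submodule.Quotient.mk_smul, Submodule.Quotient.mk_eq_zero, e, hqy,
          smul_eq_mul, ← map_mul]
        exact hf
      rw [Submodule.Quotient.mk_eq_zero, e] at h3
      exact h3
  obtain ⟨x, hx⟩ := hdesc ys.length le_rfl
  rw [Nat.sub_self, List.take_zero] at hx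
  have hpre : pre J [] = J := by
    ext f
    rw [mem_pre, Ideal.ofList_nil, Ideal.mem_bot, Ideal.Quotient.eq_zero_iff_mem]
  rw [hpre] at hx
  exact no_gb h33 hJ ord hGB hx

end Pool.Agent.Helper698.Kos
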