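import Mathlib
import Pool.Agent.Helper698.DE

open CategoryTheory Abelian Limits MvPolynomial RingTheory.Sequence
open scoped Pointwise

universe u

namespace Pool.Agent.Helper698.Symb

open Pool.Agent.Helper698.Dstab

variable {r : ℕ} {K : Type u} [Field K]

lemma isUpperSet_of_step (T : Set (Fin r →₀ ℕ))
    (h : ∀ α ∈ T, ∀ i, α + Finsupp.single i 1 ∈ T) : IsUpperSet T := by
  classical
  have key : ∀ (k : ℕ) (γ : Fin r →₀ ℕ), γ.degree = k → ∀ α ∈ T, α + γ ∈ T := by
    intro k
    induction k with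
    | zero =>
      intro γ hγ α hα
      rw [(Finsupp.degree_eq_zero_iff γ).1 hγ, add_zero]; exact hα
    | succ k ih =>
      intro γ hγ α hα
      obtain ⟨i, hi⟩ : ∃ i, γ i ≠ 0 := by
        by_contra hcon
        push Not at hcon
        have : γ = 0 := by ext i; exact hcon i
        rw [this] at hγ
        simp at hγ
      have hle : Finsupp.single i 1 ≤ γ := by
        rw [Finsupp.single_le_iff]; omega
      have hdec : γ = (γ - Finsupp.single i 1) + Finsupp.single i 1 :=
        (tsub_add_cancel_of_le hle).symm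
      have hdeg : (γ - Finsupp.single i 1).degree = k := by
        have h1 := congrArg Finsupp.degree hdec
        rw [map_add, Finsupp.degree_single] at h1
        omega
      rw [hdec, ← add_assoc]
      exact h _ (ih _ hdeg α hα) i
  intro α β hαβ hα
  have : β = α + (β - α) := (add_tsub_cancel_of_le hαβ).symm
  rw [this]
  exact key _ _ rfl α hα

/-- The cone with apex `a`, free in the directions outside `G`. -/
def Cone (a : Fin r →₀ ℕ) (G : Finset (Fin r)) : Set (Fin r →₀ ℕ) :=
  {β | a ≤ β ∧ ∀ i ∈ G, β i = a i}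

lemma EV_top {t : ℕ} (G : Set (Fin r →₀ ℕ)) :
    EV (kk K r) (Submodule.map (Submodule.mkQ (MI K G)) (MI K (Set.univ : Set (Fin r →₀ ℕ)))) t ↔
    EV (kk K r) (MvPolynomial (Fin r) K ⧸ MI K G) t := by
  constructor
  · intro h
    exact EV_quot _ _ (MI_mono (Set.subset_univ _)) h (EV_univ _)
  · intro h
    exact EV_map _ _ (MI_mono (Set.subset_univ _)) h (EV_univ _)

lemma cone_step (S : Set (Fin r →₀ ℕ)) (hS : IsUpperSet S) (a : Fin r →₀ ℕ)
    (G : Finset (Fin r)) (hdisj : Disjoint (Cone a G) S)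
    (hleave : ∀ β ∈ Cone a G, ∀ i ∈ G, β + Finsupp.single i 1 ∈ S) (t : ℕ)
    (ht : t ≤ r - G.card)
    (h : EV (kk K r) (MvPolynomial (Fin r) K ⧸ MI K (S ∪ Cone a G)) t) :
    EV (kk K r) (MvPolynomial (Fin r) K ⧸ MI K S) t := by
  have hS' : IsUpperSet (S ∪ Cone a G) := by
    apply isUpperSet_of_step
    rintro α (hα | hα) i
    · exact Or.inl (hS (le_add_of_nonneg_right (by simp)) hα)
    · by_cases hi : i ∈ G
      · exact Or.inl (hleave α hα i hi)
      · right
        refine ⟨hα.1.trans (le_add_of_nonneg_right (by simp)), fun j hj => ?_⟩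
        have hij : i ≠ j := fun h => hi (h ▸ hj)
        simp [hij, hα.2 j hj]
  refine EV_quot (MI K S) (MI K (S ∪ Cone a G)) (MI_mono Set.subset_union_left) ?_ h
  have e := EV_block (K := K) (N := kk K r) (t := t) (isUpperSet_US G) isUpperSet_univ hS hS' a
    (fun α _ => hS' (le_add_of_nonneg_right (by simp)) (Or.inr ⟨le_rfl, fun _ _ => rfl⟩))
    (by
      intro α hα
      have h1 : a + α ∈ S ∪ Cone a G :=
        hS' (le_add_of_nonneg_right (by simp)) (Or.inr ⟨le_rfl, fun _ _ => rfl⟩)
      rcases h1 with h1 | h1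
      · exact h1
      · exfalso
        obtain ⟨j, hj, hne⟩ := hα
        have := h1.2 j hj
        simp at this
        exact hne this)
    (by
      intro α _ hα
      by_contra hcon
      have h1 : a + α ∈ Cone a G := by
        refine ⟨le_add_of_nonneg_right (by simp), fun i hi => ?_⟩
        have : α i = 0 := by
          by_contra hne
          exact hcon ⟨i, hi, hne⟩
        simp [this]
      exact Set.disjoint_left.1 hdisj h1 hα)
    (by
      intro β hβ hβS
      rcases hβ with hβ | hβ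
      · exact absurd hβ hβS
      · exact ⟨β - a, trivial, (add_tsub_cancel_of_le hβ.1).symm⟩)
  apply e.1
  rw [EV_top]
  exact (EV_US (r - G.card) G rfl).mono ht

lemma layer (g : (Fin r →₀ ℕ) → Finset (Fin r)) (t : ℕ) :
    ∀ (N : Finset (Fin r →₀ ℕ)) (S : Set (Fin r →₀ ℕ)), IsUpperSet S →
    (∀ a ∈ N, t ≤ r - (g a).card) →
    (∀ a ∈ N, Disjoint (Cone a (g a)) S) →
    (∀ a ∈ N, ∀ β ∈ Cone a (g a), ∀ i ∈ g a, β + Finsupp.single i 1 ∈ S) →
    (∀ a ∈ N, ∀ a' ∈ N, a ≠ a' → Disjoint (Cone a (g a)) (Cone a' (g a'))) →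
    EV (kk K r) (MvPolynomial (Fin r) K ⧸ MI K (S ∪ ⋃ a ∈ N, Cone a (g a))) t →
    EV (kk K r) (MvPolynomial (Fin r) K ⧸ MI K S) t := by
  classical
  intro N
  induction N using Finset.induction_on with
  | empty =>
    intro S _ _ _ _ _ h
    have h0 : (S ∪ ⋃ a ∈ (∅ : Finset (Fin r →₀ ℕ)), Cone a (g a)) = S := by
      ext x; simp
    rw [h0] at h
    exact h
  | insert a N ha ih =>
    intro S hS hcard hdisj hleave hpair h
    have hmem : a ∈ insert a N := Finset.mem_insert_self _ _
    apply cone_step S hS a (g a) (hdisj a hmem) (hleave a hmem) t (hcard a hmem)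
    have hS' : IsUpperSet (S ∪ Cone a (g a)) := by
      apply isUpperSet_of_step
      rintro α (hα | hα) i
      · exact Or.inl (hS (le_add_of_nonneg_right (by simp)) hα)
      · by_cases hi : i ∈ g a
        · exact Or.inl (hleave a hmem α hα i hi)
        · right
          refine ⟨hα.1.trans (le_add_of_nonneg_right (by simp)), fun j hj => ?_⟩
          have hij : i ≠ j := fun h => hi (h ▸ hj)
          simp [hij, hα.2 j hj]
    apply ih (S ∪ Cone a (g a)) hS'
    · intro b hb; exact hcard b (Finset.mem_insert_of_mem hb)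
    · intro b hb
      rw [Set.disjoint_union_right]
      refine ⟨hdisj b (Finset.mem_insert_of_mem hb), ?_⟩
      exact hpair b (Finset.mem_insert_of_mem hb) a hmem (fun h => ha (h ▸ hb))
    · intro b hb β hβ i hi
      exact Or.inl (hleave b (Finset.mem_insert_of_mem hb) β hβ i hi)
    · intro b hb b' hb' hne
      exact hpair b (Finset.mem_insert_of_mem hb) b' (Finset.mem_insert_of_mem hb') hne
    · rw [Finset.set_biUnion_insert, ← Set.union_assoc] at h
      exact h

lemma US_insert (U : Finset (Fin r)) (i : Fin r) :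
    MI K (US (insert i U)) = MI K (US U) ⊔ Ideal.span {X i} := by
  classical
  apply le_antisymm
  · rw [MI, Ideal.span_le]
    rintro _ ⟨α, ⟨j, hj, hne⟩, rfl⟩
    rcases Finset.mem_insert.1 hj with rfl | hj
    · apply Ideal.mem_sup_right
      rw [Ideal.mem_span_singleton]
      show X j ∣ monomial α (1 : K)
      have hαe : α = Finsupp.single j 1 + (α - Finsupp.single j 1) := by
        rw [add_tsub_cancel_of_le]
        rw [Finsupp.single_le_iff]
        omega
      refine ⟨monomial (α - Finsupp.single j 1) 1, ?_⟩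
      rw [X, monomial_mul, one_mul, ← hαe]
    · exact Ideal.mem_sup_left (monomial_mem_MI (S := US U) (α := α) ⟨j, hj, hne⟩ 1)
  · apply sup_le
    · apply MI_mono
      rintro α ⟨j, hj, hne⟩
      exact ⟨j, Finset.mem_insert_of_mem hj, hne⟩
    · rw [Ideal.span_le, Set.singleton_subset_iff]
      exact monomial_mem_MI (S := US (insert i U)) (α := Finsupp.single i 1)
          ⟨i, Finset.mem_insert_self _ _, by simp⟩ 1

lemma US_regular (U : Finset (Fin r)) (i : Fin r) (hi : i ∉ U) :
    ∀ f : MvPolynomial (Fin r) K, X i * f ∈ MI K (US U) → f ∈ MI K (US U) := by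
  classical
  intro f hf
  rw [mem_MI (isUpperSet_US U)] at hf ⊢
  intro α hα
  have h1 : α + Finsupp.single i 1 ∈ (X i * f).support := by
    rw [mem_support_iff, add_comm, coeff_X_mul]
    exact mem_support_iff.1 hα
  obtain ⟨j, hj, hne⟩ := hf _ h1
  refine ⟨j, hj, ?_⟩
  have hji : j ≠ i := fun h => hi (h ▸ hj)
  simpa [Finsupp.single_apply, Ne.symm hji] using hne

lemma mm_eq : MI K (US (Finset.univ : Finset (Fin r))) = mm K r := by
  classical
  apply le_antisymm
  · rw [MI, Ideal.span_le]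
    rintro _ ⟨α, ⟨j, hj, hne⟩, rfl⟩
    have h1 : monomial α (1 : K) = monomial (α - Finsupp.single j 1) 1 * X j := by
      rw [X, monomial_mul, one_mul, tsub_add_cancel_of_le]
      rw [Finsupp.single_le_iff]; omega
    show monomial α (1 : K) ∈ mm K r
    rw [h1]
    exact Ideal.mul_mem_left _ _ (Ideal.subset_span ⟨j, rfl⟩)
  · rw [mm, Ideal.span_le]
    rintro _ ⟨j, rfl⟩
    exact monomial_mem_MI (S := US Finset.univ) (α := Finsupp.single j 1)
      ⟨j, Finset.mem_univ _, by simp⟩ 1

lemma not_EV_kk : ¬ EV (kk K r) (MvPolynomial (Fin r) K ⧸ mm K r) 1 := by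
  intro h
  have h0 := h 0 (by omega)
  have h1 : (Ext.mk₀ (𝟙 (kk K r)) : Ext (kk K r) (kk K r) 0) = 0 :=
    @Subsingleton.elim _ h0 _ _
  have h2 : 𝟙 (kk K r) = 0 := by
    have h3 := (Ext.mk₀_bijective (kk K r) (kk K r)).1
    apply h3
    rw [h1, Ext.mk₀_zero]
  have h4 : (Submodule.Quotient.mk 1 : MvPolynomial (Fin r) K ⧸ mm K r) = 0 := by
    have h5 := congrArg (fun (q : kk K r ⟶ kk K r) =>
      (ModuleCat.Hom.hom q) (Submodule.Quotient.mk 1 : MvPolynomial (Fin r) K ⧸ mm K r)) h2
    exact h5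
  rw [Submodule.Quotient.mk_eq_zero] at h4
  exact mm_ne_top ((Ideal.eq_top_iff_one _).2 h4)

lemma not_EV_US : ∀ (k : ℕ) (U : Finset (Fin r)), r - U.card = k →
    ¬ EV (kk K r) (MvPolynomial (Fin r) K ⧸ MI K (US U)) (k + 1) := by
  classical
  intro k
  induction k with
  | zero =>
    intro U hU h
    have hcard := Finset.card_le_univ U
    rw [Fintype.card_fin] at hcard
    have hU' : U = Finset.univ := by
      rw [← Finset.card_eq_iff_eq_univ, Fintype.card_fin]; omega
    subst hU'
    rw [mm_eq] at h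
    exact not_EV_kk h
  | succ k ih =>
    intro U hU h
    have hlt : U.card < r := by omega
    obtain ⟨i, hi⟩ : ∃ i, i ∉ U := by
      by_contra hcon
      push Not at hcon
      have : U = Finset.univ := Finset.eq_univ_iff_forall.2 hcon
      rw [this, Finset.card_univ, Fintype.card_fin] at hlt
      exact lt_irrefl _ hlt
    have hcard : (insert i U).card = U.card + 1 := Finset.card_insert_of_notMem hi
    obtain ⟨h1, h2, h3⟩ := quot_exact (MI K (US U)) (X i) (US_regular U i hi)
    have h4 := EV_right _ _ h1 h2 h3 (h.mono (Nat.le_succ _)) h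
    rw [← US_insert] at h4
    exact ih (insert i U) (by omega) h4

/-- the cokernel part -/
lemma EV_coker {R : Type u} [CommRing R] {N : ModuleCat.{u} R} (I J : Ideal R) (hIJ : I ≤ J)
    {t : ℕ} (h1 : EV N (Submodule.map (Submodule.mkQ I) J) (t + 1)) (h2 : EV N (R ⧸ I) t) :
    EV N (R ⧸ J) t := by
  have h3 := EV_right (Submodule.map (Submodule.mkQ I) J).subtype
    (Submodule.map (Submodule.mkQ I) J).mkQ (Submodule.injective_subtype _)
    (Submodule.mkQ_surjective _) (LinearMap.exact_subtype_mkQ _) h2 h1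
  exact EV.equiv (Submodule.quotientQuotientEquivQuotient I J hIJ) h3

section twoPrimes

variable (G1 G2 : Finset (Fin r))

lemma US_union [DecidableEq (Fin r)] : US (G1 ∪ G2) = US G1 ∪ US G2 := by
  ext α
  constructor
  · rintro ⟨j, hj, hne⟩
    rcases Finset.mem_union.1 hj with hj | hj
    · exact Or.inl ⟨j, hj, hne⟩
    · exact Or.inr ⟨j, hj, hne⟩
  · rintro (⟨j, hj, hne⟩ | ⟨j, hj, hne⟩)
    · exact ⟨j, Finset.mem_union_left _ hj, hne⟩
    · exact ⟨j, Finset.mem_union_right _ hj, hne⟩

lemma two_block [DecidableEq (Fin r)] (t : ℕ) :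
    EV (kk K r) (Submodule.map (Submodule.mkQ (MI K (US G1 ∩ US G2))) (MI K (US G1))) t ↔
    EV (kk K r) (Submodule.map (Submodule.mkQ (MI K (US G2))) (MI K (US (G1 ∪ G2)))) t := by
  refine EV_block ((isUpperSet_US G1).inter (isUpperSet_US G2)) (isUpperSet_US G1)
    (isUpperSet_US G2) (isUpperSet_US _) 0 ?_ ?_ ?_ ?_
  · intro α hα; rw [zero_add, US_union]; exact Or.inl hα
  · intro α hα; rw [zero_add]; exact hα.2
  · intro α hα h; rw [zero_add] at h; exact ⟨hα, h⟩
  · intro β hβ hβ'
    rw [US_union] at hβ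
    rcases hβ with hβ | hβ
    · exact ⟨β, hβ, (zero_add β).symm⟩
    · exact absurd hβ hβ'

lemma two_lower [DecidableEq (Fin r)] (t : ℕ) (h1 : t ≤ r - G1.card) (h2 : t ≤ r - G2.card)
    (h3 : t ≤ r - (G1 ∪ G2).card + 1) :
    EV (kk K r) (MvPolynomial (Fin r) K ⧸ MI K (US G1 ∩ US G2)) t := by
  refine EV_quot _ (MI K (US G1)) (MI_mono Set.inter_subset_left) ?_ ((EV_US _ G1 rfl).mono h1)
  rw [two_block]
  apply EV_map
  · apply MI_mono; rw [US_union]; exact Set.subset_union_right
  · exact (EV_US _ G2 rfl).mono h2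
  · exact (EV_US _ (G1 ∪ G2) rfl).mono (by omega)

lemma two_upper [DecidableEq (Fin r)] (h1 : r - (G1 ∪ G2).card + 1 ≤ r - G1.card)
    (h2 : r - (G1 ∪ G2).card + 1 ≤ r - G2.card) :
    ¬ EV (kk K r) (MvPolynomial (Fin r) K ⧸ MI K (US G1 ∩ US G2))
      (r - (G1 ∪ G2).card + 2) := by
  intro h
  have h3 : EV (kk K r) (Submodule.map (Submodule.mkQ (MI K (US G1 ∩ US G2))) (MI K (US G1)))
      (r - (G1 ∪ G2).card + 2) :=
    EV_map _ _ (MI_mono Set.inter_subset_left) h ((EV_US _ G1 rfl).mono (by omega))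
  rw [two_block] at h3
  have h4 := EV_coker (t := r - (G1 ∪ G2).card + 1) (MI K (US G2)) (MI K (US (G1 ∪ G2)))
    (MI_mono (by rw [US_union]; exact Set.subset_union_right)) h3 ((EV_US _ G2 rfl).mono h2)
  exact not_EV_US _ _ rfl h4

end twoPrimes

lemma depthQuot_eq (J : Ideal (MvPolynomial (Fin r) K)) (hJ : J ≤ mm K r) (t : ℕ)
    (h1 : EV (kk K r) (MvPolynomial (Fin r) K ⧸ J) t)
    (h2 : ¬ EV (kk K r) (MvPolynomial (Fin r) K ⧸ J) (t + 1)) : depthQuot J = t := by
  apply le_antisymm
  · unfold depthQuot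
    refine iSup_le fun rs => iSup_le fun hrs => ?_
    have h3 := EV_of_chain (N := kk K r) rs J (chain_of_isWeaklyRegular rs J hrs.2.toIsWeaklyRegular)
      (fun y hy => (mem_ann_kk y).2 (hrs.1 y hy))
    by_contra hcon
    push Not at hcon
    have h4 : t + 1 ≤ rs.length := by
      have : (t : ℕ∞) < (rs.length : ℕ∞) := hcon
      exact_mod_cast Order.add_one_le_of_lt this
    exact h2 (h3.mono h4)
  · obtain ⟨rs, hlen, hmem, hreg⟩ := exists_regular_of_EV J hJ t h1
    unfold depthQuot
    refine le_iSup_of_le rs (le_iSup_of_le ⟨hmem, hreg⟩ ?_)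
    rw [hlen]

end Pool.Agent.Helper698.Symb
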