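import Mathlib
import Pool.Agent.Helper698.SA

open MvPolynomial

universe u

namespace Pool.Agent.Helper698.Symb

open Pool.Agent.Helper698.Dstab

variable {r : ℕ} {B : Type} [DecidableEq B] (blk : Fin r → B) (h : B → ℕ)

/-- the cobases: sets meeting the block `b` in `h b` elements -/
def GG : Set (Finset (Fin r)) := {G | ∀ b, (G.filter (fun i => blk i = b)).card = h b}

variable {blk h}

lemma exch {G : Finset (Fin r)} (hG : G ∈ GG blk h) {i j : Fin r} (hi : i ∈ G) (hj : j ∉ G)
    (hb : blk i = blk j) : insert j (G.erase i) ∈ GG blk h := by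
  intro b
  rw [Finset.filter_insert]
  have h1 := hG b
  by_cases hjb : blk j = b
  · rw [if_pos hjb, Finset.card_insert_of_notMem, Finset.filter_erase, Finset.card_erase_of_mem,
      h1]
    · have : 0 < h b := by
        rw [← h1]
        exact Finset.card_pos.2 ⟨i, Finset.mem_filter.2 ⟨hi, hb.trans hjb⟩⟩
      omega
    · exact Finset.mem_filter.2 ⟨hi, hb.trans hjb⟩
    · intro hmem
      exact hj (Finset.mem_of_mem_erase (Finset.mem_filter.1 hmem).1)
  · rw [if_neg hjb, Finset.filter_erase, Finset.erase_eq_of_notMem, h1]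
    intro hmem
    exact hjb (hb ▸ (Finset.mem_filter.1 hmem).2)

lemma exists_exch {G G' : Finset (Fin r)} (hG : G ∈ GG blk h) (hG' : G' ∈ GG blk h) {i : Fin r}
    (hi : i ∈ G) (hi' : i ∉ G') : ∃ j ∈ G', j ∉ G ∧ blk i = blk j := by
  by_contra hcon
  push Not at hcon
  have hsub : G'.filter (fun j => blk j = blk i) ⊆ (G.filter (fun j => blk j = blk i)).erase i := by
    intro j hj
    obtain ⟨h1, h2⟩ := Finset.mem_filter.1 hj
    rw [Finset.mem_erase]
    refine ⟨fun h3 => hi' (h3 ▸ h1), Finset.mem_filter.2 ⟨?_, h2⟩⟩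
    by_contra h3
    exact hcon j h1 h3 h2.symm
  have h1 := Finset.card_le_card hsub
  have hm : i ∈ G.filter (fun j => blk j = blk i) := Finset.mem_filter.2 ⟨hi, rfl⟩
  rw [Finset.card_erase_of_mem hm, hG (blk i), hG' (blk i)] at h1
  have : 0 < h (blk i) := by
    rw [← hG (blk i)]
    exact Finset.card_pos.2 ⟨i, hm⟩
  omega

lemma sum_exch (key : Fin r → ℕ) {G : Finset (Fin r)} {i j : Fin r} (hi : i ∈ G) (hj : j ∉ G) :
    ∑ x ∈ insert j (G.erase i), key x + key i = ∑ x ∈ G, key x + key j := by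
  rw [Finset.sum_insert (fun hmem => hj (Finset.mem_of_mem_erase hmem))]
  have := Finset.sum_erase_add G key hi
  omega

lemma good_min (key : Fin r → ℕ) {G : Finset (Fin r)} (hG : G ∈ GG blk h)
    (hgood : ∀ i ∈ G, ∀ j, j ∉ G → blk i = blk j → key i ≤ key j) :
    ∀ (n : ℕ) (G' : Finset (Fin r)), G' ∈ GG blk h → (G' \ G).card = n →
      ∑ x ∈ G, key x ≤ ∑ x ∈ G', key x := by
  intro n
  induction n with
  | zero =>
    intro G' hG' hn
    have hsub : G' ⊆ G := by
      rw [Finset.card_eq_zero, Finset.sdiff_eq_empty_iff_subset] at hn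
      exact hn
    have heq : G' = G := by
      apply Finset.Subset.antisymm hsub
      intro i hi
      by_contra hi'
      obtain ⟨j, hj, hj', _⟩ := exists_exch hG hG' hi hi'
      exact hj' (hsub hj)
    rw [heq]
  | succ n ih =>
    intro G' hG' hn
    obtain ⟨j, hj⟩ : (G' \ G).Nonempty := by
      rw [← Finset.card_pos]; omega
    obtain ⟨hj1, hj2⟩ := Finset.mem_sdiff.1 hj
    obtain ⟨i, hi1, hi2, hb⟩ := exists_exch hG' hG hj1 hj2
    have h1 := ih (insert i (G'.erase j)) (exch hG' hj1 hi2 hb) (by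
      rw [Finset.insert_sdiff_of_mem _ hi1, Finset.erase_sdiff_comm,
        Finset.card_erase_of_mem hj, hn]
      rfl)
    have h2 := sum_exch key hj1 hi2
    have h3 := hgood i hi1 j hj2 hb.symm
    omega

lemma good_min' (key : Fin r → ℕ) {G : Finset (Fin r)} (hG : G ∈ GG blk h)
    (hgood : ∀ i ∈ G, ∀ j, j ∉ G → blk i = blk j → key i ≤ key j) {G' : Finset (Fin r)}
    (hG' : G' ∈ GG blk h) : ∑ x ∈ G, key x ≤ ∑ x ∈ G', key x :=
  good_min key hG hgood _ G' hG' rfl

lemma good_lt (key : Fin r → ℕ) {G : Finset (Fin r)} (hG : G ∈ GG blk h)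
    (hgood : ∀ i ∈ G, ∀ j, j ∉ G → blk i = blk j → key i < key j) {G' : Finset (Fin r)}
    (hG' : G' ∈ GG blk h) (hne : G' ≠ G) : ∑ x ∈ G, key x < ∑ x ∈ G', key x := by
  obtain ⟨j, hj1, hj2⟩ : ∃ j ∈ G', j ∉ G := by
    by_contra hcon
    push Not at hcon
    apply hne
    apply Finset.Subset.antisymm hcon
    intro i hi
    by_contra hi'
    obtain ⟨j, hj, hj', _⟩ := exists_exch hG hG' hi hi'
    exact hj' (hcon j hj)
  obtain ⟨i, hi1, hi2, hb⟩ := exists_exch hG' hG hj1 hj2
  have h1 := good_min' key hG (fun i hi j hj hb => (hgood i hi j hj hb).le)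
    (exch hG' hj1 hi2 hb)
  have h2 := sum_exch key hj1 hi2
  have h3 := hgood i hi1 j hj2 hb.symm
  omega

lemma exists_argmin (hne : (GG blk h).Nonempty) (key : Fin r → ℕ) :
    ∃ G ∈ GG blk h, ∀ G' ∈ GG blk h, ∑ x ∈ G, key x ≤ ∑ x ∈ G', key x :=
  Set.exists_min_image (GG blk h) (fun G => ∑ x ∈ G, key x) (Set.toFinite _) hne

lemma min_good (key : Fin r → ℕ) {G : Finset (Fin r)} (hG : G ∈ GG blk h)
    (hmin : ∀ G' ∈ GG blk h, ∑ x ∈ G, key x ≤ ∑ x ∈ G', key x) :
    ∀ i ∈ G, ∀ j, j ∉ G → blk i = blk j → key i ≤ key j := by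
  intro i hi j hj hb
  have h1 := hmin _ (exch hG hi hj hb)
  have h2 := sum_exch key hi hj
  omega

/-- the apex of the cone of `α` with respect to `G` -/
noncomputable def ap (blk : Fin r → B) (δ : Fin r → Fin r → ℕ) (G : Finset (Fin r))
    (α : Fin r →₀ ℕ) : Fin r →₀ ℕ :=
  Finsupp.equivFunOnFinite.symm (fun j => if j ∈ G then α j else
    (G.filter (fun i => blk i = blk j)).sup (fun i => α i + δ i j))

lemma ap_mem (δ : Fin r → Fin r → ℕ) {G : Finset (Fin r)} (α : Fin r →₀ ℕ) {j : Fin r}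
    (hj : j ∈ G) : ap blk δ G α j = α j := by
  simp [ap, hj]

lemma ap_notMem (δ : Fin r → Fin r → ℕ) {G : Finset (Fin r)} (α : Fin r →₀ ℕ) {j : Fin r}
    (hj : j ∉ G) : ap blk δ G α j =
      (G.filter (fun i => blk i = blk j)).sup (fun i => α i + δ i j) := by
  simp [ap, hj]

lemma ap_congr (δ : Fin r → Fin r → ℕ) {G : Finset (Fin r)} {α β : Fin r →₀ ℕ}
    (hαβ : ∀ i ∈ G, α i = β i) : ap blk δ G α = ap blk δ G β := by
  ext j
  by_cases hj : j ∈ G
  · rw [ap_mem _ _ hj, ap_mem _ _ hj, hαβ j hj]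
  · rw [ap_notMem _ _ hj, ap_notMem _ _ hj]
    apply Finset.sup_congr rfl
    intro i hi
    rw [hαβ i (Finset.mem_filter.1 hi).1]

lemma cone_ap (δ : Fin r → Fin r → ℕ) {G : Finset (Fin r)} {α β : Fin r →₀ ℕ} :
    β ∈ Cone (ap blk δ G α) G ↔ (∀ i ∈ G, β i = α i) ∧
      ∀ i ∈ G, ∀ j, j ∉ G → blk i = blk j → β i + δ i j ≤ β j := by
  constructor
  · rintro ⟨h1, h2⟩
    have h3 : ∀ i ∈ G, β i = α i := fun i hi => by rw [h2 i hi, ap_mem _ _ hi]
    refine ⟨h3, fun i hi j hj hb => ?_⟩
    have h4 := h1 j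
    rw [ap_notMem _ _ hj] at h4
    refine le_trans ?_ h4
    rw [h3 i hi]
    exact Finset.le_sup (f := fun i => α i + δ i j) (Finset.mem_filter.2 ⟨hi, hb⟩)
  · rintro ⟨h1, h2⟩
    refine ⟨fun j => ?_, fun i hi => by rw [h1 i hi, ap_mem _ _ hi]⟩
    by_cases hj : j ∈ G
    · rw [ap_mem _ _ hj, h1 j hj]
    · rw [ap_notMem _ _ hj]
      apply Finset.sup_le
      intro i hi
      obtain ⟨hi1, hi2⟩ := Finset.mem_filter.1 hi
      rw [← h1 i hi1]
      exact h2 i hi1 j hj hi2

lemma ap_idem (δ : Fin r → Fin r → ℕ) {G : Finset (Fin r)} {α : Fin r →₀ ℕ} :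
    ap blk δ G (ap blk δ G α) = ap blk δ G α :=
  ap_congr δ fun i hi => ap_mem _ _ hi

section base

variable {K : Type u} [Field K]

/-- the tie breaking key -/
def kf (M : ℕ) (α : Fin r →₀ ℕ) (i : Fin r) : ℕ := M * α i + (i : ℕ)

/-- tie breaking shift -/
def dl (i j : Fin r) : ℕ := if j < i then 1 else 0

lemma kf_lt_iff {M : ℕ} (hM : r ≤ M) (α : Fin r →₀ ℕ) {i j : Fin r} (hij : i ≠ j) :
    kf M α i < kf M α j ↔ α i + dl i j ≤ α j := by
  have hi := i.2
  have hj := j.2
  have hne : (i : ℕ) ≠ (j : ℕ) := fun h => hij (Fin.ext h)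
  unfold kf dl
  rcases lt_trichotomy (α i) (α j) with hlt | heq | hgt
  · have h1 : M * α i + M ≤ M * α j := by
      rw [← Nat.mul_succ]; exact Nat.mul_le_mul_left M hlt
    constructor
    · intro _; split_ifs <;> omega
    · intro _; omega
  · rw [heq]
    constructor
    · intro h1
      have : ¬ j < i := by rw [Fin.lt_def]; omega
      simp [this]
    · intro h1
      by_cases hji : j < i
      · simp [hji] at h1
      · rw [Fin.lt_def] at hji; omega
  · have h1 : M * α j + M ≤ M * α i := by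
      rw [← Nat.mul_succ]; exact Nat.mul_le_mul_left M hgt
    constructor
    · intro h2; omega
    · intro h2; split_ifs at h2 <;> omega

/-- strictly good for the tie breaking order -/
def Good (blk : Fin r → B) (M : ℕ) (G : Finset (Fin r)) (α : Fin r →₀ ℕ) : Prop :=
  ∀ i ∈ G, ∀ j, j ∉ G → blk i = blk j → kf M α i < kf M α j

lemma good_iff {M : ℕ} (hM : r ≤ M) {G : Finset (Fin r)} {α : Fin r →₀ ℕ} :
    Good blk M G α ↔ ∀ i ∈ G, ∀ j, j ∉ G → blk i = blk j → α i + dl i j ≤ α j := by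
  constructor
  · intro hg i hi j hj hb
    exact (kf_lt_iff hM α (ne_of_mem_of_not_mem hi hj)).1 (hg i hi j hj hb)
  · intro hg i hi j hj hb
    exact (kf_lt_iff hM α (ne_of_mem_of_not_mem hi hj)).2 (hg i hi j hj hb)

lemma kf_injective {M : ℕ} (hM : r ≤ M) (α : Fin r →₀ ℕ) {i j : Fin r}
    (hij : kf M α i = kf M α j) : i = j := by
  by_contra hne
  have h1 := (kf_lt_iff hM α hne).not.1 (by omega)
  have h2 := (kf_lt_iff hM α (Ne.symm hne)).not.1 (by omega)
  unfold dl at h1 h2
  rcases lt_trichotomy i j with h3 | h3 | h3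
  · have h4 : ¬ j < i := h3.le.not_gt
    simp only [h3, h4, if_true, if_false] at h1 h2
    omega
  · exact hne h3
  · have h4 : ¬ i < j := h3.le.not_gt
    simp only [h3, h4, if_true, if_false] at h1 h2
    omega

lemma argmin_good {M : ℕ} (hM : r ≤ M) {G : Finset (Fin r)} (hG : G ∈ GG blk h)
    {α : Fin r →₀ ℕ} (hmin : ∀ G' ∈ GG blk h, ∑ x ∈ G, kf M α x ≤ ∑ x ∈ G', kf M α x) :
    Good blk M G α := by
  intro i hi j hj hb
  have h1 := min_good (kf M α) hG hmin i hi j hj hb
  rcases h1.lt_or_eq with h2 | h2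
  · exact h2
  · exact absurd (kf_injective hM α h2) (fun h => hj (h ▸ hi))

variable (blk h) in
/-- the layers -/
def LL (M t : ℕ) : Set (Fin r →₀ ℕ) := {α | ∀ G ∈ GG blk h, t ≤ ∑ x ∈ G, kf M α x}

lemma kf_mono (M : ℕ) {α β : Fin r →₀ ℕ} (hαβ : α ≤ β) (i : Fin r) : kf M α i ≤ kf M β i := by
  unfold kf
  have := Nat.mul_le_mul_left M (hαβ i)
  omega

lemma isUpperSet_LL (M t : ℕ) : IsUpperSet (LL blk h M t) := by
  intro α β hαβ hα G hG
  exact (hα G hG).trans (Finset.sum_le_sum fun i _ => kf_mono M hαβ i)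

theorem base_LL (hne : (GG blk h).Nonempty) (D : ℕ) (hD : ∀ G ∈ GG blk h, D ≤ r - G.card)
    (M : ℕ) (hM : r ≤ M) (hM1 : 1 ≤ M) : ∀ t : ℕ,
    EV (kk K r) (MvPolynomial (Fin r) K ⧸ MI K (LL blk h M t)) D := by
  classical
  intro t
  induction t with
  | zero =>
    have h1 : LL blk h M 0 = Set.univ := by
      ext α; simp [LL]
    rw [h1]; exact EV_univ _
  | succ t ih =>
    -- the apexes
    let P : (Fin r →₀ ℕ) → Finset (Fin r) → Prop := fun a G => G ∈ GG blk h ∧ Good blk M G a ∧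
      ∑ x ∈ G, kf M a x = t ∧ a = ap blk dl G a
    have hPuniq : ∀ (β : Fin r →₀ ℕ) (G G' : Finset (Fin r)), G ∈ GG blk h → Good blk M G β →
        G' ∈ GG blk h → Good blk M G' β → G = G' := by
      intro β G G' hG hg hG' hg'
      by_contra hcon
      have h1 := good_lt (kf M β) hG hg hG' (Ne.symm hcon)
      have h2 := good_lt (kf M β) hG' hg' hG hcon
      omega
    have hfin : {a : Fin r →₀ ℕ | ∃ G, P a G}.Finite := by
      let c : Fin r →₀ ℕ := Finsupp.equivFunOnFinite.symm (fun _ => t + 1)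
      apply Set.Finite.subset (Set.finite_Iic c)
      rintro a ⟨G, hG, hg, hsum, hap⟩
      have hle : ∀ i ∈ G, a i ≤ t := by
        intro i hi
        have h1 : kf M a i ≤ ∑ x ∈ G, kf M a x := Finset.single_le_sum (fun _ _ => Nat.zero_le _) hi
        unfold kf at h1 hsum
        have h2 : a i ≤ M * a i := Nat.le_mul_of_pos_left _ hM1
        omega
      intro j
      show a j ≤ t + 1
      by_cases hj : j ∈ G
      · exact (hle j hj).trans (Nat.le_succ _)
      · rw [hap, ap_notMem _ _ hj]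
        apply Finset.sup_le
        intro i hi
        have := hle i (Finset.mem_filter.1 hi).1
        have : dl i j ≤ 1 := by unfold dl; split_ifs <;> omega
        omega
    let N : Finset (Fin r →₀ ℕ) := hfin.toFinset
    have hN : ∀ a, a ∈ N ↔ ∃ G, P a G := fun a => by
      simp only [N, Set.Finite.mem_toFinset, Set.mem_ofPred_eq]
    let g : (Fin r →₀ ℕ) → Finset (Fin r) := fun a => if hx : ∃ G, P a G then hx.choose else ∅
    have hg : ∀ a G, P a G → g a = G := by
      intro a G hP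
      have hx : ∃ G, P a G := ⟨G, hP⟩
      have h1 : P a (g a) := by
        show P a (if hx : ∃ G, P a G then hx.choose else ∅)
        rw [dif_pos hx]; exact hx.choose_spec
      exact hPuniq a _ _ h1.1 h1.2.1 hP.1 hP.2.1
    -- elements of the cones
    have hcone : ∀ a G, P a G → ∀ β, β ∈ Cone a G ↔ (∀ i ∈ G, β i = a i) ∧ Good blk M G β := by
      intro a G hP β
      rw [hP.2.2.2, cone_ap, good_iff hM]
      constructor
      · rintro ⟨h1, h2⟩
        exact ⟨fun i hi => by rw [h1 i hi, ap_mem _ _ hi], h2⟩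
      · rintro ⟨h1, h2⟩
        exact ⟨fun i hi => by rw [h1 i hi, ap_mem _ _ hi], h2⟩
    have hsumc : ∀ a G, P a G → ∀ β ∈ Cone a G, ∑ x ∈ G, kf M β x = t := by
      intro a G hP β hβ
      rw [← hP.2.2.1]
      apply Finset.sum_congr rfl
      intro i hi
      unfold kf
      rw [((hcone a G hP β).1 hβ).1 i hi]
    have hcover : LL blk h M t = LL blk h M (t + 1) ∪ ⋃ a ∈ N, Cone a (g a) := by
      ext β
      constructor
      · intro hβ
        by_cases hβ' : β ∈ LL blk h M (t + 1)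
        · exact Or.inl hβ'
        · right
          obtain ⟨G, hG, hmin⟩ := exists_argmin hne (kf M β)
          have hgood := argmin_good hM hG hmin
          have hsum : ∑ x ∈ G, kf M β x = t := by
            apply le_antisymm _ (hβ G hG)
            by_contra hcon
            apply hβ'
            intro G' hG'
            have := hmin G' hG'
            omega
          have hP : P (ap blk dl G β) G := by
            have hmem : ap blk dl G β ∈ Cone (ap blk dl G β) G := ⟨le_rfl, fun _ _ => rfl⟩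
            obtain ⟨_, h2⟩ := (cone_ap dl).1 hmem
            refine ⟨hG, (good_iff hM).2 h2, ?_, ap_idem dl |>.symm⟩
            rw [← hsum]
            apply Finset.sum_congr rfl
            intro i hi
            unfold kf
            rw [ap_mem _ _ hi]
          rw [Set.mem_iUnion₂]
          refine ⟨ap blk dl G β, (hN _).2 ⟨G, hP⟩, ?_⟩
          rw [hg _ G hP]
          exact (cone_ap dl).2 ⟨fun _ _ => rfl, (good_iff hM).1 hgood⟩
      · rintro (hβ | hβ)
        · intro G hG
          exact (Nat.le_succ t).trans (hβ G hG)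
        · rw [Set.mem_iUnion₂] at hβ
          obtain ⟨a, ha, hβ⟩ := hβ
          obtain ⟨G, hP⟩ := (hN a).1 ha
          rw [hg a G hP] at hβ
          intro G' hG'
          rw [← hsumc a G hP β hβ]
          exact good_min' (kf M β) hP.1
            (fun i hi j hj hb => (((hcone a G hP β).1 hβ).2 i hi j hj hb).le) hG'
    rw [hcover] at ih
    refine layer g D N (LL blk h M (t + 1)) (isUpperSet_LL _ _) ?_ ?_ ?_ ?_ ih
    · intro a ha
      obtain ⟨G, hP⟩ := (hN a).1 ha
      rw [hg a G hP]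
      exact hD G hP.1
    · intro a ha
      obtain ⟨G, hP⟩ := (hN a).1 ha
      rw [hg a G hP, Set.disjoint_left]
      intro β hβ hβ'
      have h1 := hβ' G hP.1
      rw [hsumc a G hP β hβ] at h1
      omega
    · intro a ha β hβ i hi
      obtain ⟨G, hP⟩ := (hN a).1 ha
      rw [hg a G hP] at hβ hi
      have hβ2 := (hcone a G hP β).1 hβ
      intro G' hG'
      have hmono : ∀ x, kf M β x ≤ kf M (β + Finsupp.single i 1) x := fun x =>
        kf_mono M (le_add_of_nonneg_right (by simp)) x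
      by_cases hiG' : i ∈ G'
      · have h1 := good_min' (kf M β) hP.1
          (fun i hi j hj hb => (hβ2.2 i hi j hj hb).le) hG'
        rw [hsumc a G hP β hβ] at h1
        have h2 : ∑ x ∈ G', kf M β x < ∑ x ∈ G', kf M (β + Finsupp.single i 1) x := by
          apply Finset.sum_lt_sum (fun x _ => hmono x)
          refine ⟨i, hiG', ?_⟩
          unfold kf
          simp only [Finsupp.add_apply, Finsupp.single_eq_same]
          rw [Nat.mul_add]
          omega
        omega
      · have h1 := good_lt (kf M β) hP.1 hβ2.2 hG' (fun h => hiG' (h ▸ hi))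
        rw [hsumc a G hP β hβ] at h1
        have h2 : ∑ x ∈ G', kf M β x ≤ ∑ x ∈ G', kf M (β + Finsupp.single i 1) x :=
          Finset.sum_le_sum (fun x _ => hmono x)
        omega
    · intro a ha a' ha' hne'
      obtain ⟨G, hP⟩ := (hN a).1 ha
      obtain ⟨G', hP'⟩ := (hN a').1 ha'
      rw [hg a G hP, hg a' G' hP', Set.disjoint_left]
      intro β hβ hβ'
      have h1 := (hcone a G hP β).1 hβ
      have h2 := (hcone a' G' hP' β).1 hβ'
      have hGG : G = G' := hPuniq β G G' hP.1 h1.2 hP'.1 h2.2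
      subst hGG
      apply hne'
      rw [hP.2.2.2, hP'.2.2.2]
      apply ap_congr
      intro i hi
      rw [← h1.1 i hi, ← h2.1 i hi]

/-- weight -/
def wt (α : Fin r →₀ ℕ) (G : Finset (Fin r)) : ℕ := ∑ i ∈ G, α i

variable (blk h) in
/-- exponents of the `m`-th symbolic power of the base ideal -/
def JJ (m : ℕ) : Set (Fin r →₀ ℕ) := {α | ∀ G ∈ GG blk h, m ≤ wt α G}

lemma wt_mono {α β : Fin r →₀ ℕ} (hαβ : α ≤ β) (G : Finset (Fin r)) : wt α G ≤ wt β G :=
  Finset.sum_le_sum fun i _ => hαβ i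

lemma isUpperSet_JJ (m : ℕ) : IsUpperSet (JJ blk h m) :=
  fun _ _ hαβ hα G hG => (hα G hG).trans (wt_mono hαβ G)

theorem base_JJ (hne : (GG blk h).Nonempty) (D : ℕ) (hD : ∀ G ∈ GG blk h, D ≤ r - G.card)
    (m : ℕ) : EV (kk K r) (MvPolynomial (Fin r) K ⧸ MI K (JJ blk h m)) D := by
  classical
  let M : ℕ := r + 1 + ∑ i : Fin r, (i : ℕ)
  have h1 : JJ blk h m = LL blk h M (M * m) := by
    ext α
    have hsum : ∀ G : Finset (Fin r), ∑ x ∈ G, kf M α x = M * wt α G + ∑ x ∈ G, (x : ℕ) := by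
      intro G
      unfold kf wt
      rw [Finset.sum_add_distrib, Finset.mul_sum]
    have hidx : ∀ G : Finset (Fin r), ∑ x ∈ G, (x : ℕ) < M := by
      intro G
      have : ∑ x ∈ G, (x : ℕ) ≤ ∑ i : Fin r, (i : ℕ) :=
        Finset.sum_le_sum_of_subset (Finset.subset_univ _)
      omega
    constructor
    · intro hα G hG
      rw [hsum]
      exact (Nat.mul_le_mul_left M (hα G hG)).trans (Nat.le_add_right _ _)
    · intro hα G hG
      have h2 := hα G hG
      rw [hsum] at h2
      have h3 := hidx G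
      have h4 : M * m < M * (wt α G + 1) := by rw [Nat.mul_succ]; omega
      have h5 := Nat.lt_of_mul_lt_mul_left h4
      omega
  rw [h1]
  exact base_LL hne D hD M (by omega) (by omega) _

end base

end Pool.Agent.Helper698.Symb
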