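import Mathlib
import Pool.Agent.Helper698.SB

open MvPolynomial

universe u

namespace Pool.Agent.Helper698.Symb

open Pool.Agent.Helper698.Dstab

variable {r : ℕ} {B : Type} [DecidableEq B] {blk : Fin r → B} {h : B → ℕ}

/-- the special cobases with their marked variable and their forbidden variables -/
structure Spec (blk : Fin r → B) (h : B → ℕ) (Sp : Type) where
  sp : Sp → Finset (Fin r)
  z : Sp → Fin r
  O : Sp → Finset (Fin r)
  sp_mem : ∀ x, sp x ∈ GG blk h
  inj : Function.Injective sp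
  z_mem : ∀ x, z x ∈ sp x
  O_sub : ∀ x, O x ⊆ sp x
  z_notMem : ∀ x, z x ∉ O x

namespace Spec

variable {Sp : Type} (s : Spec blk h Sp)

/-- the missing condition -/
def Miss (x : Sp) (α : Fin r →₀ ℕ) : Prop := α (s.z x) = 1 ∧ ∀ i ∈ s.O x, α i = 0

/-- the exponents which are missing because of `x` -/
def miss (n : ℕ) (x : Sp) : Set (Fin r →₀ ℕ) :=
  {α | α ∈ JJ blk h (3 * n) ∧ wt α (s.sp x) = 3 * n ∧ s.Miss x α}

/-- the exponents of the `n`-th symbolic power -/
def SN (n : ℕ) : Set (Fin r →₀ ℕ) :=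
  {α | α ∈ JJ blk h (3 * n) ∧ ∀ x, ¬ (wt α (s.sp x) = 3 * n ∧ s.Miss x α)}

variable {s}

lemma notMem_SN {n : ℕ} {α : Fin r →₀ ℕ} (hα : α ∈ JJ blk h (3 * n)) :
    α ∉ s.SN n ↔ ∃ x, α ∈ s.miss n x := by
  constructor
  · intro hcon
    by_contra hcon2
    push Not at hcon2
    exact hcon ⟨hα, fun x hx => hcon2 x ⟨hα, hx.1, hx.2⟩⟩
  · rintro ⟨x, hx⟩ hα'
    exact hα'.2 x ⟨hx.2.1, hx.2.2⟩

lemma wt_add_single {β : Fin r →₀ ℕ} {i : Fin r} {G : Finset (Fin r)} :
    wt (β + Finsupp.single i 1) G = wt β G + if i ∈ G then 1 else 0 := by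
  classical
  unfold wt
  simp only [Finsupp.add_apply, Finset.sum_add_distrib, Finsupp.single_apply]
  congr 1
  rw [Finset.sum_ite_eq G i (fun _ => 1)]

lemma miss_step {n : ℕ} {β : Fin r →₀ ℕ} {i : Fin r} {y : Sp} (hβ : β ∈ JJ blk h (3 * n))
    (hm : β + Finsupp.single i 1 ∈ s.miss n y) : i ∉ s.sp y ∧ β ∈ s.miss n y := by
  have h1 := hm.2.1
  rw [wt_add_single] at h1
  have h2 := hβ _ (s.sp_mem y)
  have hi : i ∉ s.sp y := by
    intro hi
    rw [if_pos hi] at h1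
    omega
  rw [if_neg hi, add_zero] at h1
  have h3 : ∀ j ∈ s.sp y, (β + Finsupp.single i 1 : Fin r →₀ ℕ) j = β j := by
    intro j hj
    have hij : i ≠ j := fun h => hi (h ▸ hj)
    simp [hij]
  refine ⟨hi, hβ, h1, ?_, fun j hj => ?_⟩
  · rw [← h3 _ (s.z_mem y)]; exact hm.2.2.1
  · rw [← h3 _ (s.O_sub y hj)]; exact hm.2.2.2 j hj

lemma miss_good {n : ℕ} {x : Sp} {α : Fin r →₀ ℕ} (hα : α ∈ s.miss n x) :
    ∀ i ∈ s.sp x, ∀ j, j ∉ s.sp x → blk i = blk j → α i + (fun _ _ => 0 : Fin r → Fin r → ℕ) i j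
      ≤ α j := by
  intro i hi j hj hb
  rw [add_zero]
  refine min_good (fun i => α i) (s.sp_mem x) (fun G' hG' => ?_) i hi j hj hb
  show wt α (s.sp x) ≤ wt α G'
  rw [hα.2.1]
  exact hα.1 G' hG'

variable (blk) in
/-- apex without tie breaking -/
noncomputable abbrev ap0 (G : Finset (Fin r)) (α : Fin r →₀ ℕ) : Fin r →₀ ℕ :=
  ap blk (fun _ _ => 0) G α

lemma mem_cone_of_miss {n : ℕ} {x : Sp} {α : Fin r →₀ ℕ} (hα : α ∈ s.miss n x) :
    α ∈ Cone (ap0 blk (s.sp x) α) (s.sp x) :=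
  (cone_ap _).2 ⟨fun _ _ => rfl, miss_good hα⟩

lemma cone_sub_miss {n : ℕ} {x : Sp} {α : Fin r →₀ ℕ} (hα : α ∈ s.miss n x) :
    Cone (ap0 blk (s.sp x) α) (s.sp x) ⊆ s.miss n x := by
  intro β hβ
  obtain ⟨h1, h2⟩ := (cone_ap _).1 hβ
  have hw : wt β (s.sp x) = 3 * n := by
    rw [← hα.2.1]
    exact Finset.sum_congr rfl fun i hi => h1 i hi
  refine ⟨fun G' hG' => ?_, hw, ?_, fun j hj => ?_⟩
  · rw [← hw]
    exact good_min' (fun i => β i) (s.sp_mem x) (fun i hi j hj hb => h2 i hi j hj hb) hG'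
  · rw [h1 _ (s.z_mem x)]; exact hα.2.2.1
  · rw [h1 _ (s.O_sub x hj)]; exact hα.2.2.2 j hj

lemma ap0_of_mem_cone {G : Finset (Fin r)} {α β : Fin r →₀ ℕ}
    (hβ : β ∈ Cone (ap0 blk G α) G) : ap0 blk G β = ap0 blk G α :=
  ap_congr _ ((cone_ap _).1 hβ).1

lemma isUpperSet_SN (n : ℕ) : IsUpperSet (s.SN n) := by
  apply isUpperSet_of_step
  intro α hα i
  have h1 : α + Finsupp.single i 1 ∈ JJ blk h (3 * n) :=
    isUpperSet_JJ _ (le_add_of_nonneg_right (by simp)) hα.1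
  by_contra hcon
  obtain ⟨y, hy⟩ := (notMem_SN h1).1 hcon
  obtain ⟨_, h2⟩ := miss_step hα.1 hy
  exact (notMem_SN hα.1).2 ⟨y, h2⟩ hα

section depth

variable {K : Type u} [Field K]

/-- The hypotheses on the unique doubly missing exponent. -/
structure Active (s : Spec blk h Sp) (n : ℕ) (x0 y0 : Sp) (β0 : Fin r →₀ ℕ) : Prop where
  ne : x0 ≠ y0
  mx : β0 ∈ s.miss n x0
  my : β0 ∈ s.miss n y0
  apx : ap0 blk (s.sp x0) β0 = β0
  apy : ap0 blk (s.sp y0) β0 = β0
  uniq : ∀ x y, x ≠ y → ∀ α, α ∈ s.miss n x → α ∈ s.miss n y →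
    (x = x0 ∨ x = y0) ∧ ap0 blk (s.sp x) α = β0

variable {n : ℕ} {x0 y0 : Sp} {β0 : Fin r →₀ ℕ}

/-- exponents of the symbolic power together with the double cone -/
def YY (s : Spec blk h Sp) (n : ℕ) (x0 y0 : Sp) (β0 : Fin r →₀ ℕ) : Set (Fin r →₀ ℕ) :=
  s.SN n ∪ (Cone β0 (s.sp x0) ∪ Cone β0 (s.sp y0))

lemma Active.cx (ha : s.Active n x0 y0 β0) : Cone β0 (s.sp x0) ⊆ s.miss n x0 := by
  have := cone_sub_miss ha.mx
  rwa [ha.apx] at this

lemma Active.cy (ha : s.Active n x0 y0 β0) : Cone β0 (s.sp y0) ⊆ s.miss n y0 := by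
  have := cone_sub_miss ha.my
  rwa [ha.apy] at this

lemma Active.mem (ha : s.Active n x0 y0 β0) {x y : Sp} (hxy : x ≠ y) {α : Fin r →₀ ℕ}
    (hx : α ∈ s.miss n x) (hy : α ∈ s.miss n y) :
    α ∈ Cone β0 (s.sp x0) ∧ α ∈ Cone β0 (s.sp y0) := by
  obtain ⟨h1, h2⟩ := ha.uniq x y hxy α hx hy
  obtain ⟨h3, h4⟩ := ha.uniq y x hxy.symm α hy hx
  have h5 := mem_cone_of_miss hx
  have h6 := mem_cone_of_miss hy
  rw [h2] at h5
  rw [h4] at h6
  rcases h1 with rfl | rfl <;> rcases h3 with rfl | rfl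
  · exact absurd rfl hxy
  · exact ⟨h5, h6⟩
  · exact ⟨h6, h5⟩
  · exact absurd rfl hxy

lemma YY_sub (ha : s.Active n x0 y0 β0) : YY s n x0 y0 β0 ⊆ JJ blk h (3 * n) := by
  rintro α (hα | hα | hα)
  · exact hα.1
  · exact (ha.cx hα).1
  · exact (ha.cy hα).1

lemma cone_step_mem {β : Fin r →₀ ℕ} {G : Finset (Fin r)} {i : Fin r} (hβ : β ∈ Cone β0 G)
    (hi : i ∉ G) : β + Finsupp.single i 1 ∈ Cone β0 G := by
  refine ⟨hβ.1.trans (le_add_of_nonneg_right (by simp)), fun j hj => ?_⟩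
  have hij : i ≠ j := fun h => hi (h ▸ hj)
  simp [hij, hβ.2 j hj]

lemma isUpperSet_YY (ha : s.Active n x0 y0 β0) : IsUpperSet (YY s n x0 y0 β0) := by
  apply isUpperSet_of_step
  intro α hα i
  have hJ : α ∈ JJ blk h (3 * n) := YY_sub ha hα
  have h1 : α + Finsupp.single i 1 ∈ JJ blk h (3 * n) :=
    isUpperSet_JJ _ (le_add_of_nonneg_right (by simp)) hJ
  by_cases hSN : α + Finsupp.single i 1 ∈ s.SN n
  · exact Or.inl hSN
  obtain ⟨y, hy⟩ := (notMem_SN h1).1 hSN
  obtain ⟨hi, hym⟩ := miss_step hJ hy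
  right
  rcases hα with hα | hα | hα
  · exact absurd hα ((notMem_SN hJ).2 ⟨y, hym⟩)
  · by_cases hyx : y = x0
    · subst hyx; exact Or.inl (cone_step_mem hα hi)
    · obtain ⟨h2, h3⟩ := ha.uniq y x0 hyx α hym (ha.cx hα)
      have h4 := (ha.mem hyx hym (ha.cx hα)).2
      rcases h2 with h2 | h2
      · exact absurd h2 hyx
      · subst h2; exact Or.inr (cone_step_mem h4 hi)
  · by_cases hyx : y = y0
    · subst hyx; exact Or.inr (cone_step_mem hα hi)
    · obtain ⟨h2, h3⟩ := ha.uniq y y0 hyx α hym (ha.cy hα)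
      have h4 := (ha.mem hyx hym (ha.cy hα)).1
      rcases h2 with h2 | h2
      · subst h2; exact Or.inl (cone_step_mem h4 hi)
      · exact absurd h2 hyx

lemma EV_YY (ha : s.Active n x0 y0 β0) (D : ℕ) (hD : ∀ G ∈ GG blk h, D ≤ r - G.card) :
    EV (kk K r) (MvPolynomial (Fin r) K ⧸ MI K (YY s n x0 y0 β0)) D := by
  classical
  have hne : (GG blk h).Nonempty := ⟨_, s.sp_mem x0⟩
  have hbase := base_JJ (K := K) hne D hD (3 * n)
  let P : (Fin r →₀ ℕ) → Sp → Prop := fun a x => a ∈ s.miss n x ∧ a = ap0 blk (s.sp x) a ∧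
    a ∉ Cone β0 (s.sp x0) ∧ a ∉ Cone β0 (s.sp y0)
  have hPuniq : ∀ (β : Fin r →₀ ℕ) (x y : Sp), β ∈ s.miss n x → β ∈ s.miss n y →
      (β ∉ Cone β0 (s.sp x0) ∨ β ∉ Cone β0 (s.sp y0)) → x = y := by
    intro β x y hx hy hβ
    by_contra hcon
    obtain ⟨h1, h2⟩ := ha.mem hcon hx hy
    rcases hβ with hβ | hβ
    · exact hβ h1
    · exact hβ h2
  have hfin : {a : Fin r →₀ ℕ | ∃ x, P a x}.Finite := by
    let c : Fin r →₀ ℕ := Finsupp.equivFunOnFinite.symm (fun _ => 3 * n)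
    apply Set.Finite.subset (Set.finite_Iic c)
    rintro a ⟨x, hx, hap, -, -⟩
    have hle : ∀ i ∈ s.sp x, a i ≤ 3 * n := by
      intro i hi
      rw [← hx.2.1]
      exact Finset.single_le_sum (f := fun i => a i) (fun _ _ => Nat.zero_le _) hi
    intro j
    show a j ≤ 3 * n
    by_cases hj : j ∈ s.sp x
    · exact hle j hj
    · rw [hap]
      unfold ap0
      rw [ap_notMem _ _ hj]
      apply Finset.sup_le
      intro i hi
      rw [add_zero]
      exact hle i (Finset.mem_filter.1 hi).1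
  let N : Finset (Fin r →₀ ℕ) := hfin.toFinset
  have hN : ∀ a, a ∈ N ↔ ∃ x, P a x := fun a => by
    simp only [N, Set.Finite.mem_toFinset, Set.mem_ofPred_eq]
  let g : (Fin r →₀ ℕ) → Finset (Fin r) :=
    fun a => if hx : ∃ x, P a x then s.sp hx.choose else ∅
  have hg : ∀ a x, P a x → g a = s.sp x := by
    intro a x hP
    have hx : ∃ x, P a x := ⟨x, hP⟩
    have h1 : g a = s.sp hx.choose := dif_pos hx
    rw [h1]
    congr 1
    exact hPuniq a _ _ hx.choose_spec.1 hP.1 (Or.inl hP.2.2.1)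
  have hcone : ∀ a x, P a x → Cone a (s.sp x) ⊆ s.miss n x := by
    intro a x hP
    have := cone_sub_miss hP.1
    rwa [← hP.2.1] at this
  have hapc : ∀ a x, P a x → ∀ β ∈ Cone a (s.sp x), ap0 blk (s.sp x) β = a := by
    intro a x hP β hβ
    rw [hP.2.1] at hβ
    rw [ap0_of_mem_cone hβ, ← hP.2.1]
  -- cones avoid the double cone
  have hdx : ∀ a x, P a x → ∀ β ∈ Cone a (s.sp x), β ∉ Cone β0 (s.sp x0) := by
    intro a x hP β hβ hβ0
    by_cases hx : x = x0
    · subst hx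
      have h1 := hapc a x hP β hβ
      have h2 : ap0 blk (s.sp x) β = β0 := by
        have h3 : β ∈ Cone (ap0 blk (s.sp x) β0) (s.sp x) := by rw [ha.apx]; exact hβ0
        rw [ap0_of_mem_cone h3, ha.apx]
      rw [h2] at h1
      apply hP.2.2.1
      rw [← h1]
      exact ⟨le_rfl, fun _ _ => rfl⟩
    · obtain ⟨h1, h2⟩ := ha.uniq x x0 hx β (hcone a x hP hβ) (ha.cx hβ0)
      rw [hapc a x hP β hβ] at h2
      apply hP.2.2.1
      rw [h2]
      exact ⟨le_rfl, fun _ _ => rfl⟩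
  have hdy : ∀ a x, P a x → ∀ β ∈ Cone a (s.sp x), β ∉ Cone β0 (s.sp y0) := by
    intro a x hP β hβ hβ0
    by_cases hx : x = y0
    · subst hx
      have h1 := hapc a x hP β hβ
      have h2 : ap0 blk (s.sp x) β = β0 := by
        have h3 : β ∈ Cone (ap0 blk (s.sp x) β0) (s.sp x) := by rw [ha.apy]; exact hβ0
        rw [ap0_of_mem_cone h3, ha.apy]
      rw [h2] at h1
      apply hP.2.2.1
      rw [← h1]
      exact ⟨le_rfl, fun _ _ => rfl⟩
    · obtain ⟨h1, h2⟩ := ha.uniq x y0 hx β (hcone a x hP hβ) (ha.cy hβ0)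
      rw [hapc a x hP β hβ] at h2
      apply hP.2.2.1
      rw [h2]
      exact ⟨le_rfl, fun _ _ => rfl⟩
  have hcover : JJ blk h (3 * n) = YY s n x0 y0 β0 ∪ ⋃ a ∈ N, Cone a (g a) := by
    ext β
    constructor
    · intro hβ
      by_cases hβY : β ∈ YY s n x0 y0 β0
      · exact Or.inl hβY
      right
      have hβS : β ∉ s.SN n := fun h => hβY (Or.inl h)
      obtain ⟨x, hx⟩ := (notMem_SN hβ).1 hβS
      have hc := mem_cone_of_miss hx
      have ham : ap0 blk (s.sp x) β ∈ s.miss n x :=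
        cone_sub_miss hx ⟨le_rfl, fun _ _ => rfl⟩
      have hP : P (ap0 blk (s.sp x) β) x := by
        refine ⟨ham, (ap_idem _).symm, fun hx0 => ?_, fun hy0 => ?_⟩
        · -- the apex lies in the first cone
          apply hβY; right
          by_cases hxx : x = x0
          · subst hxx
            left
            have h3 : ap0 blk (s.sp x) β ∈ Cone (ap0 blk (s.sp x) β0) (s.sp x) := by
              rw [ha.apx]; exact hx0
            have h4 := ap0_of_mem_cone h3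
            have h5 : ap0 blk (s.sp x) (ap0 blk (s.sp x) β) = ap0 blk (s.sp x) β := ap_idem _
            rw [h5, ha.apx] at h4
            rw [h4] at hc
            exact hc
          · obtain ⟨h1, h2⟩ := ha.uniq x x0 hxx _ ham (ha.cx hx0)
            have h5 : ap0 blk (s.sp x) (ap0 blk (s.sp x) β) = ap0 blk (s.sp x) β := ap_idem _
            rw [h5] at h2
            rw [h2] at hc
            rcases h1 with h1 | h1
            · exact absurd h1 hxx
            · subst h1; exact Or.inr hc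
        · apply hβY; right
          by_cases hxx : x = y0
          · subst hxx
            right
            have h3 : ap0 blk (s.sp x) β ∈ Cone (ap0 blk (s.sp x) β0) (s.sp x) := by
              rw [ha.apy]; exact hy0
            have h4 := ap0_of_mem_cone h3
            have h5 : ap0 blk (s.sp x) (ap0 blk (s.sp x) β) = ap0 blk (s.sp x) β := ap_idem _
            rw [h5, ha.apy] at h4
            rw [h4] at hc
            exact hc
          · obtain ⟨h1, h2⟩ := ha.uniq x y0 hxx _ ham (ha.cy hy0)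
            have h5 : ap0 blk (s.sp x) (ap0 blk (s.sp x) β) = ap0 blk (s.sp x) β := ap_idem _
            rw [h5] at h2
            rw [h2] at hc
            rcases h1 with h1 | h1
            · subst h1; exact Or.inl hc
            · exact absurd h1 hxx
      rw [Set.mem_iUnion₂]
      refine ⟨ap0 blk (s.sp x) β, (hN _).2 ⟨x, hP⟩, ?_⟩
      rw [hg _ x hP]
      exact hc
    · rintro (hβ | hβ)
      · exact YY_sub ha hβ
      · rw [Set.mem_iUnion₂] at hβ
        obtain ⟨a, haN, hβ⟩ := hβ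
        obtain ⟨x, hP⟩ := (hN a).1 haN
        rw [hg a x hP] at hβ
        exact (hcone a x hP hβ).1
  rw [hcover] at hbase
  refine layer g D N (YY s n x0 y0 β0) (isUpperSet_YY ha) ?_ ?_ ?_ ?_ hbase
  · intro a haN
    obtain ⟨x, hP⟩ := (hN a).1 haN
    rw [hg a x hP]
    exact hD _ (s.sp_mem x)
  · intro a haN
    obtain ⟨x, hP⟩ := (hN a).1 haN
    rw [hg a x hP, Set.disjoint_left]
    rintro β hβ (hβ' | hβ' | hβ')
    · exact (notMem_SN hβ'.1).2 ⟨x, hcone a x hP hβ⟩ hβ'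
    · exact hdx a x hP β hβ hβ'
    · exact hdy a x hP β hβ hβ'
  · intro a haN β hβ i hi
    obtain ⟨x, hP⟩ := (hN a).1 haN
    rw [hg a x hP] at hβ hi
    have hβm := hcone a x hP hβ
    left
    have h1 : β + Finsupp.single i 1 ∈ JJ blk h (3 * n) :=
      isUpperSet_JJ _ (le_add_of_nonneg_right (by simp)) hβm.1
    by_contra hcon
    obtain ⟨y, hy⟩ := (notMem_SN h1).1 hcon
    obtain ⟨hi', hym⟩ := miss_step hβm.1 hy
    have hxy : x ≠ y := by
      rintro rfl; exact hi' hi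
    exact hdx a x hP β hβ (ha.mem hxy hβm hym).1
  · intro a haN a' haN' hne'
    obtain ⟨x, hP⟩ := (hN a).1 haN
    obtain ⟨x', hP'⟩ := (hN a').1 haN'
    rw [hg a x hP, hg a' x' hP', Set.disjoint_left]
    intro β hβ hβ'
    have hxx : x = x' := hPuniq β x x' (hcone a x hP hβ) (hcone a' x' hP' hβ')
      (Or.inl (hdx a x hP β hβ))
    subst hxx
    apply hne'
    rw [← hapc a x hP β hβ, ← hapc a' x hP' β hβ']

lemma piece_iff (ha : s.Active n x0 y0 β0) (t : ℕ) :
    EV (kk K r) (MvPolynomial (Fin r) K ⧸ MI K (US (s.sp x0) ∩ US (s.sp y0))) t ↔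
    EV (kk K r) (Submodule.map (Submodule.mkQ (MI K (s.SN n))) (MI K (YY s n x0 y0 β0))) t := by
  classical
  rw [← EV_top]
  have hY := isUpperSet_YY ha
  have hβY : β0 ∈ YY s n x0 y0 β0 := Or.inr (Or.inl ⟨le_rfl, fun _ _ => rfl⟩)
  refine EV_block ((isUpperSet_US _).inter (isUpperSet_US _)) isUpperSet_univ (isUpperSet_SN n)
    hY β0 (fun α _ => hY (le_add_of_nonneg_right (by simp)) hβY) ?_ ?_ ?_
  · rintro α ⟨⟨i, hi, hi0⟩, ⟨j, hj, hj0⟩⟩
    rcases hY (le_add_of_nonneg_right (a := β0) (b := α) (by simp)) hβY with h1 | h1 | h1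
    · exact h1
    · have := h1.2 i hi
      simp at this
      exact absurd this hi0
    · have := h1.2 j hj
      simp at this
      exact absurd this hj0
  · intro α _ hα
    constructor
    · by_contra hcon
      have h1 : β0 + α ∈ Cone β0 (s.sp x0) := by
        refine ⟨le_add_of_nonneg_right (by simp), fun i hi => ?_⟩
        have : α i = 0 := by
          by_contra hne
          exact hcon ⟨i, hi, hne⟩
        simp [this]
      exact (notMem_SN hα.1).2 ⟨x0, ha.cx h1⟩ hα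
    · by_contra hcon
      have h1 : β0 + α ∈ Cone β0 (s.sp y0) := by
        refine ⟨le_add_of_nonneg_right (by simp), fun i hi => ?_⟩
        have : α i = 0 := by
          by_contra hne
          exact hcon ⟨i, hi, hne⟩
        simp [this]
      exact (notMem_SN hα.1).2 ⟨y0, ha.cy h1⟩ hα
  · rintro β (hβ | hβ | hβ) hβS
    · exact absurd hβ hβS
    · exact ⟨β - β0, trivial, (add_tsub_cancel_of_le hβ.1).symm⟩
    · exact ⟨β - β0, trivial, (add_tsub_cancel_of_le hβ.1).symm⟩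

theorem depth_SN (ha : s.Active n x0 y0 β0) (hD : ∀ G ∈ GG blk h,
    r - (s.sp x0 ∪ s.sp y0).card + 1 ≤ r - G.card) :
    EV (kk K r) (MvPolynomial (Fin r) K ⧸ MI K (s.SN n)) (r - (s.sp x0 ∪ s.sp y0).card + 1) ∧
    ¬ EV (kk K r) (MvPolynomial (Fin r) K ⧸ MI K (s.SN n))
      (r - (s.sp x0 ∪ s.sp y0).card + 1 + 1) := by
  classical
  have hsub : s.SN n ⊆ YY s n x0 y0 β0 := Set.subset_union_left
  have hY := EV_YY (K := K) ha _ hD
  constructor
  · refine EV_quot _ _ (MI_mono hsub) ?_ hY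
    rw [← piece_iff ha]
    exact two_lower _ _ _ (hD _ (s.sp_mem x0)) (hD _ (s.sp_mem y0)) le_rfl
  · intro hcon
    have h1 := EV_map (MI K (s.SN n)) (MI K (YY s n x0 y0 β0)) (MI_mono hsub) hcon
      (hY.mono (by omega))
    rw [← piece_iff ha] at h1
    exact two_upper _ _ (hD _ (s.sp_mem x0)) (hD _ (s.sp_mem y0)) h1

end depth

end Spec

end Pool.Agent.Helper698.Symb
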