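import Mathlib

open MvPolynomial RingTheory.Sequence

universe u

namespace Pool.Agent.Helper698.Symb

/-- The `n`-th symbolic power `R ∩ ⋂_{𝔭 ∈ Min(I)} I ^ n R_𝔭`. -/
noncomputable def symbPow {R : Type u} [CommRing R] (I : Ideal R) (n : ℕ) : Ideal R :=
  ⨅ (p : Ideal R) (hp : p ∈ I.minimalPrimes),
    haveI : p.IsPrime := hp.1.1
    ((I ^ n).map (algebraMap R (Localization.AtPrime p))).comap
      (algebraMap R (Localization.AtPrime p))

lemma mem_symbPow {R : Type u} [CommRing R] (I : Ideal R) (n : ℕ) (f : R) :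
    f ∈ symbPow I n ↔ ∀ p ∈ I.minimalPrimes, ∃ s, s ∉ p ∧ s * f ∈ I ^ n := by
  unfold symbPow
  simp only [Ideal.mem_iInf, Ideal.mem_comap]
  refine forall₂_congr fun p hp => ?_
  have : p.IsPrime := hp.1.1
  rw [IsLocalization.algebraMap_mem_map_algebraMap_iff p.primeCompl]
  exact ⟨fun ⟨s, hs, h⟩ => ⟨s, hs, h⟩, fun ⟨s, hs, h⟩ => ⟨s, hs, h⟩⟩

end Pool.Agent.Helper698.Symb
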