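import Mathlib
import Pool.Agent.Helper698.SC
import Pool.Agent.Helper698.SDef

open MvPolynomial

universe u

namespace Pool.Agent.Helper698.Symb

open Pool.Agent.Helper698.Dstab

variable {r : ℕ}

lemma wt_add (α β : Fin r →₀ ℕ) (G : Finset (Fin r)) : wt (α + β) G = wt α G + wt β G := by
  unfold wt
  rw [← Finset.sum_add_distrib]
  rfl

lemma wt_single (i : Fin r) (k : ℕ) (G : Finset (Fin r)) :
    wt (Finsupp.single i k) G = if i ∈ G then k else 0 := by
  classical
  unfold wt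
  simp only [Finsupp.single_apply]
  rw [Finset.sum_ite_eq G i (fun _ => k)]

lemma wt_erase (α : Fin r →₀ ℕ) {G : Finset (Fin r)} {z : Fin r} (hz : z ∈ G) :
    wt α G = α z + wt α (G.erase z) := by
  unfold wt
  rw [Finset.add_sum_erase G (fun i => α i) hz]

lemma exists_sub (α : Fin r →₀ ℕ) (G : Finset (Fin r)) : ∀ k, k ≤ wt α G →
    ∃ γ, γ ≤ α ∧ wt γ G = k ∧ ∀ i, i ∉ G → γ i = 0 := by
  intro k
  induction k with
  | zero => intro _; exact ⟨0, zero_le, by simp [wt], fun _ _ => rfl⟩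
  | succ k ih =>
    intro hk
    obtain ⟨γ, h1, h2, h3⟩ := ih (by omega)
    obtain ⟨i, hi, hlt⟩ : ∃ i ∈ G, γ i < α i := by
      by_contra hcon
      push Not at hcon
      have : wt α G ≤ wt γ G := Finset.sum_le_sum hcon
      omega
    refine ⟨γ + Finsupp.single i 1, fun j => ?_, ?_, fun j hj => ?_⟩
    · by_cases hij : i = j
      · subst hij; simp; omega
      · simp [hij]; exact h1 j
    · rw [wt_add, wt_single, if_pos hi, h2]
    · have hij : i ≠ j := fun h => hj (h ▸ hi)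
      simp [hij, h3 j hj]

lemma exists_sub_z (α : Fin r →₀ ℕ) {G : Finset (Fin r)} {z : Fin r} (hz : z ∈ G) (g k : ℕ)
    (hg : g ≤ α z) (hk : k ≤ wt α (G.erase z)) :
    ∃ γ, γ ≤ α ∧ wt γ G = g + k ∧ γ z = g := by
  obtain ⟨γ, h1, h2, h3⟩ := exists_sub α (G.erase z) k hk
  have hγz : γ z = 0 := h3 z (Finset.notMem_erase z G)
  refine ⟨γ + Finsupp.single z g, fun j => ?_, ?_, by simp [hγz]⟩
  · by_cases hij : z = j
    · subst hij; simp [hγz, hg]
    · simp [hij]; exact h1 j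
  · rw [wt_add, wt_single, if_pos hz, wt_erase γ hz, hγz, h2]; omega

variable {B : Type} [DecidableEq B] {blk : Fin r → B} {h : B → ℕ}

namespace Spec

variable {Sp : Type} (s : Spec blk h Sp)

/-- exponents of the `n`-th power of the component of `G` -/
def TG (n : ℕ) (G : Finset (Fin r)) : Set (Fin r →₀ ℕ) :=
  {α | 3 * n ≤ wt α G ∧ ∀ x, s.sp x = G → ¬ (wt α G = 3 * n ∧ s.Miss x α)}

variable {s}

lemma mem_SN_iff {n : ℕ} {α : Fin r →₀ ℕ} : α ∈ s.SN n ↔ ∀ G ∈ GG blk h, α ∈ s.TG n G := by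
  constructor
  · rintro ⟨h1, h2⟩ G hG
    exact ⟨h1 G hG, fun x hx => hx ▸ h2 x⟩
  · intro h1
    exact ⟨fun G hG => (h1 G hG).1, fun x => (h1 _ (s.sp_mem x)).2 x rfl⟩

lemma TG_congr {n : ℕ} {G : Finset (Fin r)} {α β : Fin r →₀ ℕ} (hαβ : ∀ i ∈ G, α i = β i)
    (hα : α ∈ s.TG n G) : β ∈ s.TG n G := by
  have h1 : wt β G = wt α G := Finset.sum_congr rfl fun i hi => (hαβ i hi).symm
  refine ⟨by rw [h1]; exact hα.1, fun x hx => ?_⟩
  rw [h1]
  rintro ⟨h2, h3, h4⟩
  refine hα.2 x hx ⟨h2, ?_, fun i hi => ?_⟩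
  · rw [hαβ _ (hx ▸ s.z_mem x)]; exact h3
  · rw [hαβ _ (hx ▸ s.O_sub x hi)]; exact h4 i hi

lemma isUpperSet_TG (n : ℕ) (G : Finset (Fin r)) : IsUpperSet (s.TG n G) := by
  apply isUpperSet_of_step
  intro α hα i
  by_cases hi : i ∈ G
  · refine ⟨?_, fun x _ => ?_⟩
    · rw [wt_add_single, if_pos hi]; exact hα.1.trans (Nat.le_succ _)
    · rw [wt_add_single, if_pos hi]
      rintro ⟨h1, _⟩
      have := hα.1
      omega
  · refine TG_congr (fun j hj => ?_) hα
    have hij : i ≠ j := fun h => hi (h ▸ hj)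
    simp [hij]

lemma TG_add {n m : ℕ} {G : Finset (Fin r)} {α β : Fin r →₀ ℕ} (hα : α ∈ s.TG n G)
    (hβ : β ∈ s.TG m G) : α + β ∈ s.TG (n + m) G := by
  have h1 := hα.1
  have h2 := hβ.1
  refine ⟨by rw [wt_add]; omega, fun x hx => ?_⟩
  rw [wt_add]
  rintro ⟨h3, h4, h5⟩
  have hα2 := hα.2 x hx
  have hβ2 := hβ.2 x hx
  rw [Finsupp.add_apply] at h4
  have h5' : ∀ i ∈ s.O x, α i = 0 ∧ β i = 0 := by
    intro i hi
    have := h5 i hi
    rw [Finsupp.add_apply] at this
    omega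
  rcases (show α (s.z x) = 1 ∨ β (s.z x) = 1 by omega) with h6 | h6
  · exact hα2 ⟨by omega, h6, fun i hi => (h5' i hi).1⟩
  · exact hβ2 ⟨by omega, h6, fun i hi => (h5' i hi).2⟩

/-- decomposition of an exponent of the power -/
lemma TG_dec {n : ℕ} (hn : 1 ≤ n) {G : Finset (Fin r)} {α : Fin r →₀ ℕ}
    (hα : α ∈ s.TG (n + 1) G) : ∃ γ ∈ s.TG 1 G, ∃ δ ∈ s.TG n G, α = δ + γ := by
  have h1 := hα.1
  by_cases hx : ∃ x, s.sp x = G
  swap
  · push Not at hx
    obtain ⟨γ, h2, h3, h4⟩ := exists_sub α G 3 (by omega)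
    have h5 : wt α G = wt (α - γ) G + wt γ G := by rw [← wt_add, tsub_add_cancel_of_le h2]
    exact ⟨γ, ⟨by omega, fun x hx' => absurd hx' (hx x)⟩, α - γ,
      ⟨by omega, fun x hx' => absurd hx' (hx x)⟩, (tsub_add_cancel_of_le h2).symm⟩
  obtain ⟨x, rfl⟩ := hx
  have hz := s.z_mem x
  have hw := wt_erase α hz
  -- it is enough to find a suitable `γ`
  suffices hγ : ∃ γ, γ ≤ α ∧ wt γ (s.sp x) = 3 ∧ ¬ s.Miss x γ ∧
      (wt α (s.sp x) = 3 * (n + 1) → ¬ s.Miss x (α - γ)) by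
    obtain ⟨γ, h2, h3, h4, h5⟩ := hγ
    have h6 : wt α (s.sp x) = wt (α - γ) (s.sp x) + wt γ (s.sp x) := by
      rw [← wt_add, tsub_add_cancel_of_le h2]
    refine ⟨γ, ⟨by omega, fun y hy => ?_⟩, α - γ, ⟨by omega, fun y hy => ?_⟩,
      (tsub_add_cancel_of_le h2).symm⟩
    · rw [s.inj hy]; exact fun hc => h4 hc.2
    · rw [s.inj hy]; exact fun hc => h5 (by omega) hc.2
  by_cases hT : wt α (s.sp x) = 3 * (n + 1)
  swap
  · -- the strict case
    rcases Nat.lt_or_ge (wt α ((s.sp x).erase (s.z x))) 3 with ho | ho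
    · obtain ⟨γ, h2, h3, h4⟩ := exists_sub_z α hz 3 0 (by omega) (by omega)
      exact ⟨γ, h2, h3, fun hc => by have := hc.1; omega, fun hc => absurd hc hT⟩
    · obtain ⟨γ, h2, h3, h4⟩ := exists_sub_z α hz 0 3 (by omega) ho
      exact ⟨γ, h2, h3, fun hc => by have := hc.1; omega, fun hc => absurd hc hT⟩
  have hM : ¬ s.Miss x α := fun hc => hα.2 x rfl ⟨hT, hc⟩
  rcases Nat.lt_or_ge (α (s.z x)) 1 with ha | ha
  · obtain ⟨γ, h2, h3, h4⟩ := exists_sub_z α hz 0 3 (by omega) (by omega)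
    refine ⟨γ, h2, h3, fun hc => by have := hc.1; omega, fun _ hc => ?_⟩
    have := hc.1
    rw [Finsupp.tsub_apply] at this
    omega
  rcases Nat.lt_or_ge (α (s.z x)) 2 with ha2 | ha2
  · -- the marked exponent is one
    have ha1 : α (s.z x) = 1 := by omega
    obtain ⟨i, hi, hne⟩ : ∃ i ∈ s.O x, α i ≠ 0 := by
      by_contra hcon
      push Not at hcon
      exact hM ⟨ha1, hcon⟩
    have hiG := s.O_sub x hi
    have hiz : i ≠ s.z x := fun h => s.z_notMem x (h ▸ hi)
    have hle : Finsupp.single i 1 ≤ α := by rw [Finsupp.single_le_iff]; omega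
    have hz' : (α - Finsupp.single i 1 : Fin r →₀ ℕ) (s.z x) = 1 := by
      rw [Finsupp.tsub_apply, Finsupp.single_eq_of_ne hiz.symm, ha1, Nat.sub_zero]
    have hw2 : wt (α - Finsupp.single i 1) (s.sp x) + 1 = wt α (s.sp x) := by
      have : wt α (s.sp x) = wt (α - Finsupp.single i 1) (s.sp x) +
          wt (Finsupp.single i 1) (s.sp x) := by
        rw [← wt_add, tsub_add_cancel_of_le hle]
      rw [wt_single, if_pos hiG] at this
      exact this.symm
    have hw3 := wt_erase (α - Finsupp.single i 1) hz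
    obtain ⟨γ, h2, h3, h4⟩ := exists_sub_z (α - Finsupp.single i 1) hz 1 1 (by omega) (by omega)
    refine ⟨γ + Finsupp.single i 1, ?_, ?_, fun hc => ?_, fun _ hc => ?_⟩
    · calc γ + Finsupp.single i 1 ≤ (α - Finsupp.single i 1) + Finsupp.single i 1 :=
            add_le_add_left h2 _
        _ = α := tsub_add_cancel_of_le hle
    · rw [wt_add, wt_single, if_pos hiG, h3]
    · have := hc.2 i hi
      simp at this
    · have := hc.1
      rw [Finsupp.tsub_apply, Finsupp.add_apply, h4, ha1] at this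
      omega
  -- the marked exponent is at least two
  rcases Nat.lt_or_ge (wt α ((s.sp x).erase (s.z x))) 3 with ho | ho
  swap
  · obtain ⟨γ, h2, h3, h4⟩ := exists_sub_z α hz 0 3 (by omega) ho
    refine ⟨γ, h2, h3, fun hc => by have := hc.1; omega, fun _ hc => ?_⟩
    have := hc.1
    rw [Finsupp.tsub_apply] at this
    omega
  by_cases ha4 : α (s.z x) = 4
  · obtain ⟨γ, h2, h3, h4⟩ := exists_sub_z α hz 2 1 (by omega) (by omega)
    refine ⟨γ, h2, h3, fun hc => by have := hc.1; omega, fun _ hc => ?_⟩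
    have := hc.1
    rw [Finsupp.tsub_apply] at this
    omega
  · obtain ⟨γ, h2, h3, h4⟩ := exists_sub_z α hz 3 0 (by omega) (by omega)
    refine ⟨γ, h2, h3, fun hc => by have := hc.1; omega, fun _ hc => ?_⟩
    have := hc.1
    rw [Finsupp.tsub_apply] at this
    omega

end Spec

section general

variable {K : Type u} [Field K]

lemma MI_mul_le {S T U : Set (Fin r →₀ ℕ)} (hST : ∀ α ∈ S, ∀ β ∈ T, α + β ∈ U) :
    MI K S * MI K T ≤ MI K U := by
  rw [MI, MI, Ideal.span_mul_span', Ideal.span_le]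
  rintro _ ⟨_, ⟨α, hα, rfl⟩, _, ⟨β, hβ, rfl⟩, rfl⟩
  show monomial α (1 : K) * monomial β 1 ∈ MI K U
  rw [monomial_mul, one_mul]
  exact monomial_mem_MI (hST α hα β hβ) 1

lemma MI_le_mul {S T U : Set (Fin r →₀ ℕ)} (hU : ∀ α ∈ U, ∃ γ ∈ T, ∃ δ ∈ S, α = δ + γ) :
    MI K U ≤ MI K S * MI K T := by
  rw [MI, Ideal.span_le]
  rintro _ ⟨α, hα, rfl⟩
  obtain ⟨γ, hγ, δ, hδ, rfl⟩ := hU α hα
  show monomial (δ + γ) (1 : K) ∈ _
  have : monomial (δ + γ) (1 : K) = monomial δ 1 * monomial γ 1 := by rw [monomial_mul, one_mul]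
  rw [this]
  exact Ideal.mul_mem_mul (monomial_mem_MI hδ 1) (monomial_mem_MI hγ 1)

/-- the part of a polynomial whose exponents satisfy `P` -/
noncomputable def filt (f : MvPolynomial (Fin r) K) (P : (Fin r →₀ ℕ) → Prop) :
    MvPolynomial (Fin r) K := by
  classical
  exact ∑ α ∈ f.support.filter P, monomial α (coeff α f)

lemma coeff_filt (f : MvPolynomial (Fin r) K) (P : (Fin r →₀ ℕ) → Prop) [DecidablePred P]
    (β : Fin r →₀ ℕ) : coeff β (filt f P) = if P β then coeff β f else 0 := by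
  classical
  have h0 : filt f P = ∑ α ∈ f.support.filter P, monomial α (coeff α f) := by
    unfold filt
    congr 1
    ext α
    simp only [Finset.mem_filter]
  rw [h0, coeff_sum]
  simp only [coeff_monomial]
  rw [Finset.sum_ite_eq' (f.support.filter P) β (fun α => coeff α f)]
  by_cases hP : P β
  · rw [if_pos hP]
    by_cases hβ : β ∈ f.support
    · rw [if_pos (Finset.mem_filter.2 ⟨hβ, hP⟩)]
    · rw [if_neg (fun h => hβ (Finset.mem_filter.1 h).1), notMem_support_iff.1 hβ]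
  · rw [if_neg hP, if_neg (fun h => hP (Finset.mem_filter.1 h).2)]

/-- the quotient by a monomial ideal described in the variables of `G` is primary -/
lemma primary_lemma (G : Finset (Fin r)) (T : Set (Fin r →₀ ℕ)) (hT : IsUpperSet T)
    (hTG : ∀ α β : Fin r →₀ ℕ, (∀ i ∈ G, α i = β i) → α ∈ T → β ∈ T)
    (a f : MvPolynomial (Fin r) K) (ha : a ∉ MI K (US G)) (haf : a * f ∈ MI K T) :
    f ∈ MI K T := by
  classical
  by_contra hcon
  rw [mem_MI hT] at hcon haf
  rw [mem_MI (isUpperSet_US G)] at ha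
  push Not at hcon ha
  obtain ⟨α1, hα1, hα1T⟩ := hcon
  obtain ⟨β1, hβ1, hβ1U⟩ := ha
  obtain ⟨α0, hα0, hmin⟩ := Finset.exists_min_image (f.support.filter (fun α => α ∉ T))
    (fun α => wt α G) ⟨α1, Finset.mem_filter.2 ⟨hα1, hα1T⟩⟩
  obtain ⟨hα0f, hα0T⟩ := Finset.mem_filter.1 hα0
  set d := wt α0 G with hd
  set P : (Fin r →₀ ℕ) → Prop := fun β => β ∉ US G with hP
  set Q : (Fin r →₀ ℕ) → Prop := fun γ => γ ∉ T ∧ wt γ G = d with hQ
  have h1 : filt a P ≠ 0 := by
    intro h0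
    have := coeff_filt a P β1
    rw [h0, if_pos hβ1U, coeff_zero] at this
    exact (mem_support_iff.1 hβ1) this.symm
  have h2 : filt f Q ≠ 0 := by
    intro h0
    have := coeff_filt f Q α0
    rw [h0, if_pos ⟨hα0T, rfl⟩, coeff_zero] at this
    exact (mem_support_iff.1 hα0f) this.symm
  have h3 : filt a P * filt f Q ≠ 0 := mul_ne_zero h1 h2
  obtain ⟨δ, hδ⟩ := ne_zero_iff.1 h3
  rw [coeff_mul] at hδ
  obtain ⟨⟨β', γ'⟩, hanti, hne⟩ := Finset.exists_ne_zero_of_sum_ne_zero hδ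
  replace hanti : β' + γ' = δ := Finset.HasAntidiagonal.mem_antidiagonal.1 hanti
  simp only [coeff_filt] at hne
  have hβ'P : P β' := by
    rcases Classical.em (P β') with hc | hc
    · exact hc
    · rw [if_neg hc, zero_mul] at hne; exact absurd rfl hne
  have hγ'Q : Q γ' := by
    rcases Classical.em (Q γ') with hc | hc
    · exact hc
    · rw [if_neg hc, mul_zero] at hne; exact absurd rfl hne
  have hzero : ∀ β : Fin r →₀ ℕ, P β → ∀ i ∈ G, β i = 0 := by
    intro β hβ i hi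
    by_contra hc
    exact hβ ⟨i, hi, hc⟩
  have hδγ : ∀ i ∈ G, δ i = γ' i := by
    intro i hi
    rw [← hanti]
    show β' i + γ' i = γ' i
    rw [hzero β' hβ'P i hi, zero_add]
  have hδT : δ ∉ T := fun h => hγ'Q.1 (hTG δ γ' hδγ h)
  have hδw : wt δ G = d := by
    rw [← hγ'Q.2]
    exact Finset.sum_congr rfl hδγ
  have h4 : coeff δ (a * f) = ∑ x ∈ Finset.HasAntidiagonal.antidiagonal δ,
      coeff x.1 (filt a P) * coeff x.2 (filt f Q) := by
    rw [coeff_mul]
    apply Finset.sum_congr rfl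
    rintro ⟨β, γ⟩ hx
    replace hx : β + γ = δ := Finset.HasAntidiagonal.mem_antidiagonal.1 hx
    simp only [coeff_filt]
    by_cases hβ0 : coeff β a = 0
    · rw [hβ0]; simp
    by_cases hγ0 : coeff γ f = 0
    · rw [hγ0]; simp
    have hγT : γ ∉ T := by
      intro h
      apply hδT
      rw [← hx]
      exact hT (le_add_of_nonneg_left (by simp)) h
    have hγd : d ≤ wt γ G := hmin γ (Finset.mem_filter.2 ⟨mem_support_iff.2 hγ0, hγT⟩)
    have hsum : wt β G + wt γ G = d := by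
      rw [← wt_add, ← hδw, ← hx]
    have hβP : P β := by
      rintro ⟨i, hi, hne'⟩
      have : β i ≤ wt β G := Finset.single_le_sum (f := fun i => β i) (fun _ _ => Nat.zero_le _) hi
      omega
    rw [if_pos hβP, if_pos ⟨hγT, by omega⟩]
  have h5 : coeff δ (a * f) ≠ 0 := by rw [h4]; exact hδ
  exact hδT (haf δ (mem_support_iff.2 h5))

lemma US_congr (G : Finset (Fin r)) (α β : Fin r →₀ ℕ) (hαβ : ∀ i ∈ G, α i = β i)
    (hα : α ∈ US G) : β ∈ US G := by
  obtain ⟨i, hi, hne⟩ := hα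
  exact ⟨i, hi, by rw [← hαβ i hi]; exact hne⟩

lemma isPrime_US (G : Finset (Fin r)) : (MI K (US G)).IsPrime := by
  refine ⟨fun h => ?_, fun {f g} hfg => ?_⟩
  · rw [Ideal.eq_top_iff_one, mem_MI (isUpperSet_US G)] at h
    obtain ⟨i, _, hi⟩ := h 0 (by simp)
    exact hi rfl
  · by_cases hf : f ∈ MI K (US G)
    · exact Or.inl hf
    · exact Or.inr (primary_lemma G (US G) (isUpperSet_US G) (US_congr G) f g hf hfg)

lemma US_le_iff (G : Finset (Fin r)) (p : Ideal (MvPolynomial (Fin r) K)) :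
    MI K (US G) ≤ p ↔ ∀ i ∈ G, (X i : MvPolynomial (Fin r) K) ∈ p := by
  constructor
  · intro h i hi
    exact h (monomial_mem_MI (S := US G) (α := Finsupp.single i 1) ⟨i, hi, by simp⟩ 1)
  · intro h
    rw [MI, Ideal.span_le]
    rintro _ ⟨α, ⟨j, hj, hne⟩, rfl⟩
    have h1 : monomial α (1 : K) = monomial (α - Finsupp.single j 1) 1 * X j := by
      rw [X, monomial_mul, one_mul, tsub_add_cancel_of_le]
      rw [Finsupp.single_le_iff]; omega
    show monomial α (1 : K) ∈ p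
    rw [h1]
    exact Ideal.mul_mem_left _ _ (h j hj)

/-- the exponent `4` on the variables in `U` -/
noncomputable def four (U : Finset (Fin r)) : Fin r →₀ ℕ :=
  ∑ i ∈ U, Finsupp.single i 4

lemma four_apply (U : Finset (Fin r)) (j : Fin r) : four U j = if j ∈ U then 4 else 0 := by
  classical
  unfold four
  rw [Finsupp.finsetSum_apply]
  simp only [Finsupp.single_apply]
  rw [Finset.sum_ite_eq' U j (fun _ => 4)]

lemma monomial_four (U : Finset (Fin r)) :
    monomial (four U) (1 : K) = ∏ i ∈ U, (X i : MvPolynomial (Fin r) K) ^ 4 := by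
  classical
  unfold four
  rw [monomial_sum_one]
  apply Finset.prod_congr rfl
  intro i _
  rw [X, monomial_pow]
  simp

end general

end Pool.Agent.Helper698.Symb
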