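import Mathlib
import Pool.Agent.Helper698.SD

open MvPolynomial

universe u

namespace Pool.Agent.Helper698.Symb

open Pool.Agent.Helper698.Dstab

variable {r : ℕ} {B : Type} [DecidableEq B] {blk : Fin r → B} {h : B → ℕ}

namespace Spec

variable {Sp : Type} (s : Spec blk h Sp) (K : Type u) [Field K]

lemma MI_TG_pow (G : Finset (Fin r)) : ∀ n, 1 ≤ n → MI K (s.TG 1 G) ^ n = MI K (s.TG n G) := by
  intro n hn
  induction n, hn using Nat.le_induction with
  | base => rw [pow_one]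
  | succ n hn ih =>
    rw [pow_succ, ih]
    apply le_antisymm
    · exact MI_mul_le fun α hα β hβ => TG_add hα hβ
    · exact MI_le_mul fun α hα => TG_dec hn hα

variable {s K}

lemma GG_eq_of_subset {G G' : Finset (Fin r)} (hG : G ∈ GG blk h) (hG' : G' ∈ GG blk h)
    (hsub : G ⊆ G') : G = G' := by
  apply Finset.Subset.antisymm hsub
  intro i hi
  by_contra hi'
  obtain ⟨j, hj, hj', _⟩ := exists_exch hG' hG hi hi'
  exact hj' (hsub hj)

lemma TG_sub_US {n : ℕ} (hn : 1 ≤ n) (G : Finset (Fin r)) : s.TG n G ⊆ US G := by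
  intro α hα
  have h1 := hα.1
  by_contra hcon
  have h2 : wt α G = 0 := by
    apply Finset.sum_eq_zero
    intro i hi
    by_contra hne
    exact hcon ⟨i, hi, hne⟩
  omega

lemma SN_sub_TG {n : ℕ} {G : Finset (Fin r)} (hG : G ∈ GG blk h) : s.SN n ⊆ s.TG n G :=
  fun _ hα => mem_SN_iff.1 hα G hG

lemma SN_sub_US {n : ℕ} (hn : 1 ≤ n) {G : Finset (Fin r)} (hG : G ∈ GG blk h) :
    s.SN n ⊆ US G := (SN_sub_TG hG).trans (TG_sub_US hn G)

lemma four_mem (U G : Finset (Fin r)) (α : Fin r →₀ ℕ) (hne : ∃ i ∈ U, i ∈ G) :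
    four U + α ∈ s.TG 1 G := by
  obtain ⟨i, hiU, hiG⟩ := hne
  have h1 : 4 ≤ wt (four U + α) G := by
    calc 4 ≤ (four U + α) i := by
            rw [Finsupp.add_apply, four_apply, if_pos hiU]; omega
      _ ≤ wt (four U + α) G :=
        Finset.single_le_sum (f := fun i => (four U + α : Fin r →₀ ℕ) i)
          (fun _ _ => Nat.zero_le _) hiG
  refine ⟨by omega, fun x _ => ?_⟩
  rintro ⟨h2, _⟩
  omega

lemma exists_US_le (p : Ideal (MvPolynomial (Fin r) K)) [hp : p.IsPrime]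
    (hI : MI K (s.SN 1) ≤ p) : ∃ G ∈ GG blk h, MI K (US G) ≤ p := by
  classical
  set U : Finset (Fin r) := Finset.univ.filter (fun i => (X i : MvPolynomial (Fin r) K) ∉ p)
    with hU
  by_contra hcon
  push Not at hcon
  have h1 : monomial (four U) (1 : K) ∉ p := by
    rw [monomial_four]
    intro hmem
    rw [Ideal.IsPrime.prod_mem_iff] at hmem
    obtain ⟨i, hi, hi'⟩ := hmem
    exact (Finset.mem_filter.1 hi).2 (hp.mem_of_pow_mem _ hi')
  apply h1
  apply hI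
  apply monomial_mem_MI
  rw [mem_SN_iff]
  intro G hG
  have h2 := hcon G hG
  rw [US_le_iff] at h2
  push Not at h2
  obtain ⟨i, hi, hip⟩ := h2
  have := four_mem (s := s) U G 0 ⟨i, Finset.mem_filter.2 ⟨Finset.mem_univ _, hip⟩, hi⟩
  rwa [add_zero] at this

lemma US_sub_of_le {G G' : Finset (Fin r)} (hle : MI K (US G) ≤ MI K (US G')) : G ⊆ G' := by
  intro i hi
  have h1 := (US_le_iff G (MI K (US G'))).1 hle i hi
  rw [mem_MI (isUpperSet_US G')] at h1
  obtain ⟨j, hj, hne⟩ := h1 (Finsupp.single i 1) (by simp [X])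
  rw [Finsupp.single_apply] at hne
  split_ifs at hne with hij
  · exact hij ▸ hj
  · exact absurd rfl hne

lemma mem_minimalPrimes_iff (p : Ideal (MvPolynomial (Fin r) K)) :
    p ∈ (MI K (s.SN 1)).minimalPrimes ↔ ∃ G ∈ GG blk h, p = MI K (US G) := by
  constructor
  · intro hp
    have : p.IsPrime := hp.1.1
    obtain ⟨G, hG, hle⟩ := exists_US_le p hp.1.2
    refine ⟨G, hG, le_antisymm ?_ hle⟩
    exact hp.2 ⟨isPrime_US G, MI_mono (SN_sub_US le_rfl hG)⟩ hle
  · rintro ⟨G, hG, rfl⟩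
    refine ⟨⟨isPrime_US G, MI_mono (SN_sub_US le_rfl hG)⟩, ?_⟩
    rintro q ⟨hq, hIq⟩ hle
    obtain ⟨G', hG', hle'⟩ := exists_US_le q hIq
    have h1 : G' = G := GG_eq_of_subset hG' hG (US_sub_of_le (hle'.trans hle))
    rw [← h1]
    exact hle'

lemma pow_le_TG {n : ℕ} (hn : 1 ≤ n) {G : Finset (Fin r)} (hG : G ∈ GG blk h) :
    MI K (s.SN 1) ^ n ≤ MI K (s.TG n G) := by
  rw [← s.MI_TG_pow K G n hn]
  exact Ideal.pow_right_mono (MI_mono (SN_sub_TG hG)) n

lemma four_mul_mem {n : ℕ} (hn : 1 ≤ n) {G : Finset (Fin r)} (hG : G ∈ GG blk h)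
    (f : MvPolynomial (Fin r) K) (hf : f ∈ MI K (s.TG n G)) :
    monomial (four Gᶜ) (1 : K) ^ n * f ∈ MI K (s.SN 1) ^ n := by
  have h1 : Ideal.span {monomial (four Gᶜ) (1 : K)} * MI K (s.TG 1 G) ≤ MI K (s.SN 1) := by
    have h2 : Ideal.span {monomial (four Gᶜ) (1 : K)} = MI K {four Gᶜ} := by
      rw [MI, Set.image_singleton]
    rw [h2]
    apply MI_mul_le
    intro α hα β hβ
    rw [Set.mem_singleton_iff] at hα
    subst hα
    rw [mem_SN_iff]
    intro G' hG'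
    by_cases hsub : G' ⊆ G
    · have := GG_eq_of_subset hG' hG hsub
      subst this
      refine TG_congr (fun i hi => ?_) hβ
      rw [Finsupp.add_apply, four_apply, if_neg (by simpa using hi), zero_add]
    · obtain ⟨i, hi, hi'⟩ := Finset.not_subset.1 hsub
      exact four_mem _ _ _ ⟨i, Finset.mem_compl.2 hi', hi⟩
  have h3 : (Ideal.span {monomial (four Gᶜ) (1 : K)} * MI K (s.TG 1 G)) ^ n ≤
      MI K (s.SN 1) ^ n := Ideal.pow_right_mono h1 n
  rw [mul_pow, s.MI_TG_pow K G n hn] at h3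
  exact h3 (Ideal.mul_mem_mul (Ideal.pow_mem_pow (Ideal.mem_span_singleton_self _) n) hf)

lemma four_compl_notMem (G : Finset (Fin r)) : monomial (four Gᶜ) (1 : K) ∉ MI K (US G) := by
  classical
  rw [mem_MI (isUpperSet_US G)]
  intro hcon
  obtain ⟨i, hi, hne⟩ := hcon (four Gᶜ) (by simp)
  apply hne
  rw [four_apply, if_neg (by simpa using hi)]

theorem symbPow_SN {n : ℕ} (hn : 1 ≤ n) : symbPow (MI K (s.SN 1)) n = MI K (s.SN n) := by
  classical
  ext f
  rw [mem_symbPow, mem_MI (isUpperSet_SN n)]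
  constructor
  · intro hf α hα
    rw [mem_SN_iff]
    intro G hG
    obtain ⟨a, ha, haf⟩ := hf (MI K (US G)) ((mem_minimalPrimes_iff _).2 ⟨G, hG, rfl⟩)
    have h1 := primary_lemma G (s.TG n G) (isUpperSet_TG n G)
      (fun α β hαβ hα => TG_congr hαβ hα) a f ha (pow_le_TG hn hG haf)
    rw [mem_MI (isUpperSet_TG n G)] at h1
    exact h1 α hα
  · intro hf p hp
    obtain ⟨G, hG, rfl⟩ := (mem_minimalPrimes_iff p).1 hp
    refine ⟨monomial (four Gᶜ) (1 : K) ^ n, fun hmem => ?_, four_mul_mem hn hG f ?_⟩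
    · exact four_compl_notMem G ((isPrime_US G).mem_of_pow_mem _ hmem)
    · rw [mem_MI (isUpperSet_TG n G)]
      intro α hα
      exact mem_SN_iff.1 (hf α hα) G hG

lemma SN_le_mm {n : ℕ} (hn : 1 ≤ n) {G : Finset (Fin r)} (hG : G ∈ GG blk h) :
    MI K (s.SN n) ≤ mm K r := by
  rw [← mm_eq]
  refine MI_mono ((SN_sub_US hn hG).trans ?_)
  rintro α ⟨i, _, hi⟩
  exact ⟨i, Finset.mem_univ _, hi⟩

theorem depth_symbPow {n : ℕ} (hn : 1 ≤ n) {x0 y0 : Sp} {β0 : Fin r →₀ ℕ}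
    (ha : s.Active n x0 y0 β0) (hD : ∀ G ∈ GG blk h,
    r - (s.sp x0 ∪ s.sp y0).card + 1 ≤ r - G.card) :
    depthQuot (symbPow (MI K (s.SN 1)) n) = ((r - (s.sp x0 ∪ s.sp y0).card + 1 : ℕ) : ℕ∞) := by
  rw [symbPow_SN hn]
  obtain ⟨h1, h2⟩ := Spec.depth_SN (K := K) ha hD
  exact depthQuot_eq _ (SN_le_mm hn (s.sp_mem x0)) _ h1 h2

end Spec

end Pool.Agent.Helper698.Symb
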