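import Mathlib
import Pool.Agent.Helper698.SE

open MvPolynomial

universe u

namespace Pool.Agent.Helper698.Symb

open Pool.Agent.Helper698.Dstab

section gc

variable {r : ℕ} {B : Type} [DecidableEq B] {blk : Fin r → B} {h : B → ℕ}
  {side : Fin r → Bool}

/-- the cobase given by a choice of sides -/
def GC (blk : Fin r → B) (side : Fin r → Bool) (c : B → Bool) : Finset (Fin r) :=
  Finset.univ.filter (fun i => side i = c (blk i))

/-- both sides of the block `b` have `h b` elements -/
def Bal (blk : Fin r → B) (side : Fin r → Bool) (h : B → ℕ) : Prop :=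
  ∀ b σ, (Finset.univ.filter (fun i => blk i = b ∧ side i = σ)).card = h b

lemma mem_GC {c : B → Bool} {i : Fin r} : i ∈ GC blk side c ↔ side i = c (blk i) := by
  simp [GC]

lemma GC_mem (hb : Bal blk side h) (c : B → Bool) : GC blk side c ∈ GG blk h := by
  intro b
  rw [← hb b (c b)]
  congr 1
  ext i
  simp only [GC, Finset.mem_filter, Finset.mem_univ, true_and]
  constructor
  · rintro ⟨h1, rfl⟩; exact ⟨rfl, h1⟩
  · rintro ⟨rfl, h1⟩; exact ⟨h1, rfl⟩

lemma card_compl_union [Fintype B] (hb : Bal blk side h) (c c' : B → Bool) :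
    r - (GC blk side c ∪ GC blk side c').card = ∑ b, if c b = c' b then h b else 0 := by
  have h1 : (GC blk side c ∪ GC blk side c')ᶜ.card =
      r - (GC blk side c ∪ GC blk side c').card := by
    rw [Finset.card_compl, Fintype.card_fin]
  rw [← h1, Finset.card_eq_sum_card_fiberwise (f := blk) (t := Finset.univ)
    (fun _ _ => Finset.mem_coe.2 (Finset.mem_univ _))]
  apply Finset.sum_congr rfl
  intro b _
  split_ifs with hc
  · rw [← hb b (!(c b))]
    congr 1
    ext i
    simp only [Finset.mem_filter, Finset.mem_compl, Finset.mem_union, mem_GC, Finset.mem_univ,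
      true_and, not_or]
    constructor
    · rintro ⟨⟨h2, _⟩, rfl⟩
      exact ⟨rfl, Bool.eq_not.2 h2⟩
    · rintro ⟨rfl, h2⟩
      refine ⟨⟨Bool.eq_not.1 h2, ?_⟩, rfl⟩
      rw [← hc]
      exact Bool.eq_not.1 h2
  · rw [Finset.card_eq_zero, Finset.filter_eq_empty_iff]
    rintro i hi rfl
    simp only [Finset.mem_compl, Finset.mem_union, mem_GC, not_or] at hi
    apply hc
    have h2 := Bool.eq_not.2 hi.1
    have h3 := Bool.eq_not.2 hi.2
    rw [h2] at h3
    exact Bool.not_inj h3

lemma card_GG [Fintype B] {G : Finset (Fin r)} (hG : G ∈ GG blk h) : G.card = ∑ b, h b := by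
  rw [Finset.card_eq_sum_card_fiberwise (f := blk) (t := Finset.univ)
    (fun _ _ => Finset.mem_coe.2 (Finset.mem_univ _))]
  exact Finset.sum_congr rfl fun b _ => hG b

lemma r_sub_card [Fintype B] (hb : Bal blk side h) {G : Finset (Fin r)} (hG : G ∈ GG blk h) :
    r - G.card = ∑ b, h b := by
  have h1 := card_compl_union hb (fun _ => true) (fun _ => true)
  simp only [if_true, Finset.union_idempotent] at h1
  rw [← h1, card_GG hG, card_GG (GC_mem hb (fun _ => true))]

lemma wt_block [Fintype B] {G : Finset (Fin r)} (hG : G ∈ GG blk h) (w : B → ℕ)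
    (α : Fin r →₀ ℕ) (hα : ∀ i ∈ G, α i = w (blk i)) : wt α G = ∑ b, h b * w b := by
  unfold wt
  rw [← Finset.sum_fiberwise G blk (fun i => α i)]
  apply Finset.sum_congr rfl
  intro b _
  rw [← hG b, ← smul_eq_mul, ← Finset.sum_const]
  apply Finset.sum_congr rfl
  intro i hi
  obtain ⟨h1, h2⟩ := Finset.mem_filter.1 hi
  rw [hα i h1, h2]

lemma exists_mem_block {G : Finset (Fin r)} (hG : G ∈ GG blk h) {b : B} (hb : 0 < h b) :
    ∃ i ∈ G, blk i = b := by
  rw [← hG b, Finset.card_pos] at hb
  obtain ⟨i, hi⟩ := hb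
  exact ⟨i, (Finset.mem_filter.1 hi).1, (Finset.mem_filter.1 hi).2⟩

lemma h_pos (hb : Bal blk side h) (i : Fin r) : 0 < h (blk i) := by
  rw [← hb (blk i) (side i), Finset.card_pos]
  exact ⟨i, by simp⟩

lemma ap0_eq (hb : Bal blk side h) {G : Finset (Fin r)} (hG : G ∈ GG blk h) (w : B → ℕ)
    (α β : Fin r →₀ ℕ) (hα : ∀ i ∈ G, α i = w (blk i)) (hβ : ∀ i, β i = w (blk i)) :
    Spec.ap0 blk G α = β := by
  ext i
  rw [hβ i]
  unfold Spec.ap0
  by_cases hi : i ∈ G
  · rw [ap_mem _ _ hi, hα i hi]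
  · rw [ap_notMem _ _ hi]
    apply le_antisymm
    · apply Finset.sup_le
      intro j hj
      obtain ⟨h1, h2⟩ := Finset.mem_filter.1 hj
      rw [add_zero, hα j h1, h2]
    · obtain ⟨j, hj, hjb⟩ := exists_mem_block hG (h_pos hb i)
      rw [← hjb, ← hα j hj]
      have := Finset.le_sup (f := fun i => α i + 0) (Finset.mem_filter.2 ⟨hj, hjb⟩ :
        j ∈ G.filter (fun j => blk j = blk i))
      simpa [hjb] using this

end gc

section construction

variable {s N0 : ℕ}

/-- the blocks: two for each gadget, and `N0` pairs of variables -/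
abbrev Blk (s N0 : ℕ) : Type := (Fin s × Bool) ⊕ Fin N0

/-- half of the sizes of the blocks -/
def hh (ν π : Fin s → ℕ) : Blk s N0 → ℕ :=
  Sum.elim (fun x => if x.2 then 3 * ν x.1 else 3 * π x.1) (fun _ => 1)

/-- the choice of sides of the special cobases -/
def cs (k : Fin s → ℕ) (x : Fin s × Bool) : Blk s N0 → Bool :=
  Sum.elim (fun y => if y.1 = x.1 then x.2 else !x.2)
    (fun u => if x.2 then decide ((u : ℕ) < k x.1 - 1) else true)

lemma sum_cs (ν π k : Fin s → ℕ) (j : Fin s) (hk : k j - 1 ≤ N0) :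
    ∑ b : Blk s N0, (if cs k (j, false) b = cs k (j, true) b then hh ν π b else 0) = k j - 1 := by
  rw [Fintype.sum_sum_type]
  have h1 : ∑ a : Fin s × Bool, (if cs (N0 := N0) k (j, false) (Sum.inl a) =
      cs (N0 := N0) k (j, true) (Sum.inl a) then hh (N0 := N0) ν π (Sum.inl a) else 0) = 0 := by
    apply Finset.sum_eq_zero
    intro a _
    rw [if_neg]
    simp only [cs, Sum.elim_inl]
    split_ifs <;> simp
  rw [h1, zero_add]
  simp only [cs, hh, Sum.elim_inr, if_true, Bool.false_eq_true, if_false]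
  have h2 : ∑ x : Fin N0, (if true = decide ((x : ℕ) < k j - 1) then 1 else 0) =
      (Finset.univ.filter (fun x : Fin N0 => (x : ℕ) < k j - 1)).card := by
    rw [Finset.card_filter]
    apply Finset.sum_congr rfl
    intro x _
    by_cases hx : (x : ℕ) < k j - 1 <;> simp [hx]
  rw [h2, Fin.card_filter_val_lt]
  exact min_eq_right hk

variable {r : ℕ} {blk : Fin r → Blk s N0} {side : Fin r → Bool} {ν π k : Fin s → ℕ}

lemma exists_z (hb : Bal blk side (hh ν π)) (hν : ∀ j, 1 ≤ ν j) (x : Fin s × Bool) :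
    ∃ i, blk i = Sum.inl (x.1, true) ∧ side i = x.2 := by
  have h1 := hb (Sum.inl (x.1, true)) x.2
  have h2 : 0 < hh (N0 := N0) ν π (Sum.inl (x.1, true)) := by
    have := hν x.1
    simp only [hh, Sum.elim_inl, if_true]
    omega
  rw [← h1, Finset.card_pos] at h2
  obtain ⟨i, hi⟩ := h2
  exact ⟨i, (Finset.mem_filter.1 hi).2⟩

/-- the special cobases -/
noncomputable def theSpec (hb : Bal blk side (hh ν π)) (hν : ∀ j, 1 ≤ ν j)
    (hk : ∀ j, k j - 1 < N0) : Spec blk (hh ν π) (Fin s × Bool) where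
  sp x := GC blk side (cs k x)
  z x := (exists_z hb hν x).choose
  O x := (GC blk side (cs k x)).filter (fun i => ∀ τ, blk i ≠ Sum.inl (x.1, τ))
  sp_mem x := GC_mem hb _
  inj := by
    intro x y hxy
    have key : ∀ b : Blk s N0, 0 < hh ν π b → cs k x b = cs k y b := by
      intro b hb0
      obtain ⟨i, hi, hib⟩ := exists_mem_block (GC_mem hb (cs k x)) hb0
      have hi' : i ∈ GC blk side (cs k y) := by
        have : GC blk side (cs k x) = GC blk side (cs k y) := hxy
        rw [← this]; exact hi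
      rw [mem_GC] at hi hi'
      rw [← hib, ← hi, ← hi']
    have h1 := key (Sum.inl (x.1, true)) (by
      have := hν x.1
      simp only [hh, Sum.elim_inl, if_true]; omega)
    have hN : 0 < N0 := (Nat.zero_le _).trans_lt (hk x.1)
    have h2 := key (Sum.inr ⟨N0 - 1, by omega⟩) (by simp [hh])
    simp only [cs, Sum.elim_inl, Sum.elim_inr, if_true] at h1 h2
    obtain ⟨j, σ⟩ := x
    obtain ⟨j', σ'⟩ := y
    have hkj := hk j
    have hkj' := hk j'
    have e1 : ¬ N0 - 1 < k j - 1 := by omega
    have e2 : ¬ N0 - 1 < k j' - 1 := by omega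
    simp only [e1, e2, decide_false] at h2
    by_cases hj : j = j'
    · rw [if_pos hj] at h1
      rw [hj]
      simp only at h1
      rw [h1]
    · rw [if_neg hj] at h1
      exfalso
      simp only at h1 h2
      subst h1
      cases σ' <;> simp at h2
  z_mem x := by
    rw [mem_GC, (exists_z hb hν x).choose_spec.1, (exists_z hb hν x).choose_spec.2]
    simp [cs]
  O_sub x := Finset.filter_subset _ _
  z_notMem x := by
    intro hmem
    exact (Finset.mem_filter.1 hmem).2 true (exists_z hb hν x).choose_spec.1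

/-- the value of the doubly missing exponent on the blocks -/
def w0 (j : Fin s) (a : ℕ) : Blk s N0 → ℕ :=
  Sum.elim (fun y => if y.1 = j then (if y.2 then 1 else a) else 0) (fun _ => 0)

lemma sum_w0 (ν π : Fin s → ℕ) (j : Fin s) (a : ℕ) :
    ∑ b : Blk s N0, hh ν π b * w0 j a b = 3 * (ν j + π j * a) := by
  rw [Fintype.sum_sum_type, Fintype.sum_prod_type]
  simp only [hh, w0, Sum.elim_inl, Sum.elim_inr, mul_zero, Finset.sum_const_zero, add_zero,
    Fintype.sum_bool, if_true, Bool.false_eq_true, if_false]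
  rw [Finset.sum_eq_single j]
  · simp only [if_true]; ring
  · intro b _ hbj
    simp [hbj]
  · intro hj
    exact absurd (Finset.mem_univ _) hj

/-- the doubly missing exponent -/
noncomputable def b0 (blk : Fin r → Blk s N0) (j : Fin s) (a : ℕ) : Fin r →₀ ℕ :=
  Finsupp.equivFunOnFinite.symm (fun i => w0 j a (blk i))

lemma b0_apply (j : Fin s) (a : ℕ) (i : Fin r) : b0 blk j a i = w0 j a (blk i) := rfl

lemma b0_miss (hb : Bal blk side (hh ν π)) (hν : ∀ j, 1 ≤ ν j) (hk : ∀ j, k j - 1 < N0)
    (j : Fin s) (a : ℕ) (σ : Bool) :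
    b0 blk j a ∈ (theSpec hb hν hk).miss (ν j + π j * a) (j, σ) := by
  refine ⟨fun G hG => ?_, ?_, ?_, fun i hi => ?_⟩
  · rw [wt_block hG (w0 j a) _ (fun i _ => b0_apply j a i), sum_w0]
  · rw [wt_block ((theSpec hb hν hk).sp_mem (j, σ)) (w0 j a) _ (fun i _ => b0_apply j a i), sum_w0]
  · rw [b0_apply]
    show w0 j a (blk (exists_z hb hν (j, σ)).choose) = 1
    rw [(exists_z hb hν (j, σ)).choose_spec.1]
    simp [w0]
  · have hi' := (Finset.mem_filter.1 hi).2
    rw [b0_apply]
    rcases hbi : blk i with ⟨j', τ⟩ | u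
    · simp only [w0, Sum.elim_inl]
      rw [if_neg]
      rintro rfl
      exact hi' τ hbi
    · simp [w0]

lemma uniq_aux (hb : Bal blk side (hh ν π)) (hν : ∀ j, 1 ≤ ν j) (hk : ∀ j, k j - 1 < N0)
    (hu : ∀ j j' a a', ν j + π j * a = ν j' + π j' * a' → j = j') (j : Fin s) (a : ℕ)
    (x y : Fin s × Bool) (hxy : x ≠ y) (α : Fin r →₀ ℕ)
    (hx : α ∈ (theSpec hb hν hk).miss (ν j + π j * a) x)
    (hy : α ∈ (theSpec hb hν hk).miss (ν j + π j * a) y) :
    (x = (j, false) ∨ x = (j, true)) ∧
      Spec.ap0 blk ((theSpec hb hν hk).sp x) α = b0 blk j a := by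
  classical
  have hgx := Spec.miss_good hx
  have hgy := Spec.miss_good hy
  have hsx : ∀ i, i ∈ (theSpec hb hν hk).sp x ↔ side i = cs k x (blk i) := fun i => mem_GC
  have hsy : ∀ i, i ∈ (theSpec hb hν hk).sp y ↔ side i = cs k y (blk i) := fun i => mem_GC
  have hOx : ∀ i ∈ (theSpec hb hν hk).sp x, (∀ τ, blk i ≠ Sum.inl (x.1, τ)) → α i = 0 :=
    fun i hi hτ => hx.2.2.2 i (Finset.mem_filter.2 ⟨hi, hτ⟩)
  have hOy : ∀ i ∈ (theSpec hb hν hk).sp y, (∀ τ, blk i ≠ Sum.inl (y.1, τ)) → α i = 0 :=
    fun i hi hτ => hy.2.2.2 i (Finset.mem_filter.2 ⟨hi, hτ⟩)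
  by_cases hj : x.1 = y.1
  · -- the same gadget
    obtain ⟨j', σ⟩ := x
    obtain ⟨j2, σ2⟩ := y
    simp only at hj
    subst hj
    have hσ : σ2 = !σ := by
      have : σ ≠ σ2 := fun h => hxy (by rw [h])
      revert this
      cases σ <;> cases σ2 <;> decide
    subst hσ
    have hmx : ∀ i τ, blk i = Sum.inl (j', τ) →
        (i ∈ (theSpec hb hν hk).sp (j', σ) ↔ side i = σ) := by
      intro i τ hi
      rw [hsx i, hi]; simp [cs]
    have hmy : ∀ i τ, blk i = Sum.inl (j', τ) →
        (i ∈ (theSpec hb hν hk).sp (j', !σ) ↔ side i = !σ) := by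
      intro i τ hi
      rw [hsy i, hi]; simp [cs]
    have heq : ∀ i i' τ, blk i = Sum.inl (j', τ) → blk i' = Sum.inl (j', τ) → side i = σ →
        side i' = !σ → α i = α i' := by
      intro i i' τ hi hi' hs hs'
      apply le_antisymm
      · have := hgx i ((hmx i τ hi).2 hs) i' (fun hmem => by
          rw [hmx i' τ hi', hs'] at hmem
          cases σ <;> simp at hmem) (hi.trans hi'.symm)
        simpa using this
      · have := hgy i' ((hmy i' τ hi').2 hs') i (fun hmem => by
          rw [hmy i τ hi, hs] at hmem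
          cases σ <;> simp at hmem) (hi'.trans hi.symm)
        simpa using this
    have heq2 : ∀ i i' τ, blk i = Sum.inl (j', τ) → blk i' = Sum.inl (j', τ) → side i = σ →
        side i' = σ → α i = α i' := by
      intro i i' τ hi hi' hs hs'
      obtain ⟨l, hl⟩ : ∃ l, blk l = Sum.inl (j', τ) ∧ side l = !σ := by
        have h1 := h_pos hb i
        rw [hi, ← hb _ (!σ), Finset.card_pos] at h1
        obtain ⟨l, hl⟩ := h1
        exact ⟨l, (Finset.mem_filter.1 hl).2⟩
      rw [heq i l τ hi hl.1 hs hl.2, heq i' l τ hi' hl.1 hs' hl.2]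
    obtain ⟨wv, hwv⟩ : ∃ wv, ∀ i, blk i = Sum.inl (j', false) → side i = σ → α i = wv := by
      by_cases hex : ∃ i, blk i = Sum.inl (j', false) ∧ side i = σ
      · obtain ⟨i0, h1, h2⟩ := hex
        exact ⟨α i0, fun i hi hs => heq2 i i0 false hi h1 hs h2⟩
      · push Not at hex
        exact ⟨0, fun i hi hs => absurd hs (hex i hi)⟩
    have hone : ∀ i, blk i = Sum.inl (j', true) → side i = σ → α i = 1 := by
      intro i hi hs
      have hz : α (exists_z hb hν (j', σ)).choose = 1 := hx.2.2.1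
      rw [← hz]
      exact heq2 i _ true hi (exists_z hb hν (j', σ)).choose_spec.1 hs
        (exists_z hb hν (j', σ)).choose_spec.2
    have hval : ∀ i ∈ (theSpec hb hν hk).sp (j', σ), α i = w0 j' wv (blk i) := by
      intro i hi
      rcases hbi : blk i with ⟨j3, τ⟩ | u
      · by_cases h3 : j3 = j'
        · subst h3
          have hs := (hmx i τ hbi).1 hi
          cases τ
          · rw [hwv i hbi hs]; simp [w0]
          · rw [hone i hbi hs]; simp [w0]
        · rw [hOx i hi (fun τ' h4 => ?_)]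
          · simp [w0, h3]
          · rw [hbi] at h4
            injection h4 with h5
            injection h5 with h6
            exact h3 h6
      · rw [hOx i hi (fun τ' h4 => ?_)]
        · simp [w0]
        · rw [hbi] at h4
          exact absurd h4 (by simp)
    have hw := wt_block ((theSpec hb hν hk).sp_mem (j', σ)) (w0 j' wv) α hval
    rw [sum_w0, hx.2.1] at hw
    have hw' : ν j + π j * a = ν j' + π j' * wv := by omega
    have hjj := hu _ _ _ _ hw'
    subst hjj
    have hw2 : π j * a = π j * wv := by omega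
    refine ⟨?_, ?_⟩
    · cases σ
      · exact Or.inl rfl
      · exact Or.inr rfl
    · refine ap0_eq hb ((theSpec hb hν hk).sp_mem (j, σ)) (w0 j a) _ _ ?_ (fun i => rfl)
      intro i hi
      rw [hval i hi]
      rcases hbi : blk i with ⟨j3, τ⟩ | u
      · by_cases h3 : j3 = j
        · subst h3
          cases τ
          · have hp := h_pos hb i
            rw [hbi] at hp
            simp only [hh, Sum.elim_inl, Bool.false_eq_true, if_false] at hp
            have : a = wv := Nat.eq_of_mul_eq_mul_left (by omega) hw2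
            simp [w0, this]
          · simp [w0]
        · simp [w0, h3]
      · simp [w0]
  · -- different gadgets
    exfalso
    have h0 : ∀ i ∈ (theSpec hb hν hk).sp x, α i = 0 := by
      intro i hi
      by_cases hτ : ∃ τ, blk i = Sum.inl (x.1, τ)
      swap
      · push Not at hτ
        exact hOx i hi hτ
      obtain ⟨τ, hτ⟩ := hτ
      have hny : ∀ i', blk i' = Sum.inl (x.1, τ) → ∀ τ', blk i' ≠ Sum.inl (y.1, τ') := by
        intro i' hi' τ' h4
        rw [hi'] at h4
        injection h4 with h5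
        injection h5 with h6
        exact hj h6
      by_cases hiy : i ∈ (theSpec hb hν hk).sp y
      · exact hOy i hiy (hny i hτ)
      · obtain ⟨i', hi', hb'⟩ := exists_mem_block ((theSpec hb hν hk).sp_mem y) (h_pos hb i)
        have hα' : α i' = 0 := hOy i' hi' (hny i' (hb'.trans hτ))
        have hi'x : i' ∉ (theSpec hb hν hk).sp x := by
          intro hmem
          rw [hsx] at hmem hi
          rw [hsy] at hi' hiy
          apply hiy
          rw [hi, ← hb', ← hmem, hi']
        have := hgx i hi i' hi'x hb'.symm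
        simp at this
        omega
    have h1 : wt α ((theSpec hb hν hk).sp x) = 0 := Finset.sum_eq_zero h0
    have h2 := hx.2.1
    have := hν j
    omega

lemma active (hb : Bal blk side (hh ν π)) (hν : ∀ j, 1 ≤ ν j) (hk : ∀ j, k j - 1 < N0)
    (hu : ∀ j j' a a', ν j + π j * a = ν j' + π j' * a' → j = j') (j : Fin s) (a : ℕ) :
    (theSpec hb hν hk).Active (ν j + π j * a) (j, false) (j, true) (b0 blk j a) where
  ne := by simp
  mx := b0_miss hb hν hk j a false
  my := b0_miss hb hν hk j a true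
  apx := ap0_eq hb ((theSpec hb hν hk).sp_mem _) (w0 j a) _ _ (fun _ _ => rfl) (fun _ => rfl)
  apy := ap0_eq hb ((theSpec hb hν hk).sp_mem _) (w0 j a) _ _ (fun _ _ => rfl) (fun _ => rfl)
  uniq := uniq_aux hb hν hk hu j a

/-- the depth of the symbolic powers -/
theorem depth_gadget (K : Type u) [Field K] (hb : Bal blk side (hh ν π)) (hν : ∀ j, 1 ≤ ν j)
    (hk : ∀ j, k j - 1 < N0) (hk1 : ∀ j, 1 ≤ k j)
    (hu : ∀ j j' a a', ν j + π j * a = ν j' + π j' * a' → j = j') (j : Fin s) (a : ℕ) :
    depthQuot (symbPow (MI K ((theSpec hb hν hk).SN 1)) (ν j + π j * a)) = ((k j : ℕ) : ℕ∞) := by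
  have h1 : r - ((theSpec hb hν hk).sp (j, false) ∪ (theSpec hb hν hk).sp (j, true)).card =
      k j - 1 := by
    have := card_compl_union hb (cs k (j, false)) (cs k (j, true))
    rw [sum_cs ν π k j (hk j).le] at this
    exact this
  have h2 := hk1 j
  have h3 := hν j
  rw [Spec.depth_symbPow (by omega) (active hb hν hk hu j a), h1]
  · congr 1
    omega
  · intro G hG
    rw [h1, r_sub_card hb hG, Fintype.sum_sum_type]
    have h4 : ∑ u : Fin N0, hh (N0 := N0) ν π (Sum.inr u) = N0 := by simp [hh]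
    rw [h4]
    have := hk j
    omega

end construction

section final

variable {s N0 : ℕ}

lemma exists_bal {B : Type} [Fintype B] [DecidableEq B] (h : B → ℕ) :
    ∃ (r : ℕ) (blk : Fin r → B) (side : Fin r → Bool), Bal blk side h := by
  classical
  let V := Σ b : B, Bool × Fin (h b)
  let e : V ≃ Fin (Fintype.card V) := Fintype.equivFin V
  refine ⟨Fintype.card V, fun i => (e.symm i).1, fun i => (e.symm i).2.1, fun b σ => ?_⟩
  have h1 : (Finset.univ.filter (fun i => (e.symm i).1 = b ∧ (e.symm i).2.1 = σ)) =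
      (Finset.univ : Finset (Fin (h b))).image (fun l => e ⟨b, (σ, l)⟩) := by
    ext i
    simp only [Finset.mem_filter, Finset.mem_univ, true_and, Finset.mem_image]
    constructor
    · rintro ⟨h1, h2⟩
      rcases hi : e.symm i with ⟨b', σ', l⟩
      rw [hi] at h1 h2
      simp only at h1 h2
      subst h1
      subst h2
      exact ⟨l, by rw [← hi, Equiv.apply_symm_apply]⟩
    · rintro ⟨l, rfl⟩
      rw [Equiv.symm_apply_apply]
      exact ⟨rfl, rfl⟩
  rw [h1, Finset.card_image_of_injective, Finset.card_univ, Fintype.card_fin]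
  intro l l' hl
  have h2 := e.injective hl
  have h3 := eq_of_heq (Sigma.mk.inj h2).2
  exact (Prod.mk.inj h3).2

theorem main (φ : ℕ → ℕ) (hpos : ∀ t, 1 ≤ t → 1 ≤ φ t)
    (hper : ∃ p t0, 1 ≤ p ∧ 1 ≤ t0 ∧ ∀ t, t0 ≤ t → φ (t + p) = φ t) :
    ∃ (r : ℕ) (S : Set (Fin r →₀ ℕ)), ∀ (K : Type u) [Field K],
      MI K S ≠ ⊥ ∧ MI K S ≠ ⊤ ∧ ∀ t, 1 ≤ t → depthQuot (symbPow (MI K S) t) = (φ t : ℕ∞) := by
  classical
  obtain ⟨p, t0, hp, ht0, hφ⟩ := hper
  have hφ2 : ∀ q t, t0 ≤ t → φ (t + p * q) = φ t := by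
    intro q
    induction q with
    | zero => intro t _; simp
    | succ q ih =>
      intro t ht
      rw [Nat.mul_succ, ← add_assoc, hφ _ (by omega), ih t ht]
  let s := t0 + p - 1
  let ν : Fin s → ℕ := fun j => (j : ℕ) + 1
  let π : Fin s → ℕ := fun j => if (j : ℕ) + 1 < t0 then 0 else p
  let k : Fin s → ℕ := fun j => φ ((j : ℕ) + 1)
  let N0 := ∑ j : Fin s, k j
  have hs : 0 < s := by simp only [s]; omega
  have hν : ∀ j, 1 ≤ ν j := fun j => by simp only [ν]; omega
  have hk1 : ∀ j, 1 ≤ k j := fun j => hpos _ (by omega)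
  have hk : ∀ j, k j - 1 < N0 := by
    intro j
    have h1 : k j ≤ N0 := Finset.single_le_sum (f := k) (fun _ _ => Nat.zero_le _)
      (Finset.mem_univ j)
    have := hk1 j
    omega
  have hu : ∀ j j' a a', ν j + π j * a = ν j' + π j' * a' → j = j' := by
    intro j j' a a' h
    have hj := j.2
    have hj' := j'.2
    simp only [s] at hj hj'
    apply Fin.ext
    simp only [ν, π] at h
    by_cases c1 : (j : ℕ) + 1 < t0 <;> by_cases c2 : (j' : ℕ) + 1 < t0
    · simp only [c1, c2, if_true, zero_mul] at h; omega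
    · simp only [c1, c2, if_true, if_false, zero_mul] at h
      have : (j' : ℕ) + 1 ≤ (j' : ℕ) + 1 + p * a' := Nat.le_add_right _ _
      omega
    · simp only [c1, c2, if_true, if_false, zero_mul] at h
      have : (j : ℕ) + 1 ≤ (j : ℕ) + 1 + p * a := Nat.le_add_right _ _
      omega
    · simp only [c1, c2, if_false] at h
      rcases lt_trichotomy a a' with h1 | h1 | h1
      · exfalso
        have h2 : p * (a + 1) ≤ p * a' := Nat.mul_le_mul_left _ h1
        rw [Nat.mul_succ] at h2
        omega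
      · subst h1; omega
      · exfalso
        have h2 : p * (a' + 1) ≤ p * a := Nat.mul_le_mul_left _ h1
        rw [Nat.mul_succ] at h2
        omega
  obtain ⟨r, blk, side, hb⟩ := exists_bal (hh (N0 := N0) ν π)
  refine ⟨r, (theSpec hb hν hk).SN 1, fun K _ => ?_⟩
  have hdep : ∀ t, 1 ≤ t →
      depthQuot (symbPow (MI K ((theSpec hb hν hk).SN 1)) t) = (φ t : ℕ∞) := by
    intro t ht
    by_cases hlt : t < t0
    · have h1 : t - 1 < s := by simp only [s]; omega
      have h2 := depth_gadget K hb hν hk hk1 hu ⟨t - 1, h1⟩ 0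
      have h3 : ν ⟨t - 1, h1⟩ + π ⟨t - 1, h1⟩ * 0 = t := by
        simp only [ν]; omega
      have h4 : k ⟨t - 1, h1⟩ = φ t := by
        simp only [k]
        rw [Nat.sub_add_cancel ht]
      rw [h3, h4] at h2
      exact h2
    · have hmod := Nat.mod_lt (t - t0) (show 0 < p by omega)
      have hdiv := Nat.mod_add_div (t - t0) p
      set ρ := (t - t0) % p
      set q := (t - t0) / p
      have h1 : t0 + ρ - 1 < s := by simp only [s]; omega
      have h2 := depth_gadget K hb hν hk hk1 hu ⟨t0 + ρ - 1, h1⟩ q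
      have hnl : ¬ (t0 + ρ - 1) + 1 < t0 := by omega
      have h3 : ν ⟨t0 + ρ - 1, h1⟩ + π ⟨t0 + ρ - 1, h1⟩ * q = t := by
        simp only [ν, π, hnl, if_false]; omega
      have h4 : k ⟨t0 + ρ - 1, h1⟩ = φ t := by
        simp only [k]
        have h5 := hφ2 q (t0 + ρ - 1 + 1) (by omega)
        have h6 : t0 + ρ - 1 + 1 + p * q = t := by omega
        rw [← h5, h6]
      rw [h3, h4] at h2
      exact h2
  refine ⟨?_, ?_, hdep⟩
  · -- a monomial of large exponents lies in the ideal
    intro hbot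
    have h1 : four (Finset.univ : Finset (Fin r)) + 0 ∈ (theSpec hb hν hk).SN 1 := by
      rw [Spec.mem_SN_iff]
      intro G hG
      have hpos' : 0 < hh (N0 := N0) ν π (Sum.inl (⟨0, hs⟩, true)) := by
        simp only [hh, Sum.elim_inl, if_true, ν]
        omega
      obtain ⟨i, hi, _⟩ := exists_mem_block hG hpos'
      exact Spec.four_mem _ _ _ ⟨i, Finset.mem_univ _, hi⟩
    have h2 : monomial (four (Finset.univ : Finset (Fin r)) + 0) (1 : K) ∈
        MI K ((theSpec hb hν hk).SN 1) := monomial_mem_MI h1 1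
    rw [hbot, Ideal.mem_bot, monomial_eq_zero] at h2
    exact one_ne_zero h2
  · intro htop
    have h1 : MI K ((theSpec hb hν hk).SN 1) ≤ MI K (US ((theSpec hb hν hk).sp (⟨0, hs⟩, true))) :=
      MI_mono (Spec.SN_sub_US le_rfl ((theSpec hb hν hk).sp_mem _))
    rw [htop] at h1
    exact (isPrime_US _).ne_top (top_le_iff.1 h1)

end final

end Pool.Agent.Helper698.Symb
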